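import Pool.Agent.H25.ClassLaw
import Pool.Agent.V11237.LP.Short

set_option autoImplicit false

/-!
# Almost primes over the residue classes of one modulus: moments, variance and law
-/

namespace Pool.Agent.H25.ClassFin

open Finset Filter
open Pool.Agent.H25.ClassLaw

/-- No prime `p ≤ d ^ (1 / r)` divides `n`. -/
def Good (d r n : ℕ) : Prop :=
  ∀ p : ℕ, p.Prime → (p : ℝ) ≤ (d : ℝ) ^ (1 / (r : ℝ)) → ¬ p ∣ n

/-- The reduced residue classes, represented in `(u, u + d]`. -/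
def Cl (d u : ℕ) : Finset ℕ := (Ioc u (u + d)).filter (fun c => Nat.Coprime c d)

open Classical in
/-- The number of the good integers among `c, c + d, …, c + (T - 1) d`. -/
noncomputable def W (d r T c : ℕ) : ℕ := ((range T).filter (fun t => Good d r (c + t * d))).card

/-- The product of `1 - 1 / p` over the primes `p ≤ d ^ (1 / r)` not dividing `d`. -/
noncomputable def V (d r : ℕ) : ℝ :=
  ∏ p ∈ (Icc 1 ⌊(d : ℝ) ^ (1 / (r : ℝ))⌋₊).filter (fun p => p.Prime ∧ ¬ p ∣ d), (1 - 1 / (p : ℝ))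

open Pool.Agent.TH464.PO Pool.Agent.W123.RP Pool.Agent.W123.RU
open Pool.Agent.H373R2.T7

lemma nu_Qd (d p : ℕ) (hp : p.Prime) : (nuB (Qd d) p : ℝ) = if p ∣ d then 0 else 1 := by
  classical
  split_ifs with h
  · have : nuB (Qd d) p = 0 := by
      unfold nuB
      rw [Finset.card_eq_zero, Finset.filter_eq_empty_iff]
      rintro m _ ⟨h1, _⟩
      exact h1 h
    rw [this, Nat.cast_zero]
  · have h1 : nuB (Qd d) p ≤ 1 := (per_Qd d).few p hp
    have h2 : 0 < nuB (Qd d) p := by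
      unfold nuB
      rw [Finset.card_pos]
      exact ⟨0, mem_filter.2 ⟨mem_range.2 hp.pos, h, dvd_zero p⟩⟩
    have : nuB (Qd d) p = 1 := by omega
    rw [this, Nat.cast_one]

lemma V_eq (d r : ℕ) : Vq (Qd d) ⌊(d : ℝ) ^ (1 / (r : ℝ))⌋₊ = V d r := by
  classical
  unfold Vq V pz
  rw [← Finset.filter_filter, Finset.prod_filter (fun p => ¬ p ∣ d)]
  apply Finset.prod_congr rfl
  intro p hp
  rw [nu_Qd d p (mem_filter.1 hp).2]
  by_cases h : p ∣ d
  · rw [if_pos h, if_neg (not_not.2 h)]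
    norm_num
  · rw [if_neg h, if_pos h]

lemma good_iff (d r n : ℕ) :
    (∀ p ∈ pz ⌊(d : ℝ) ^ (1 / (r : ℝ))⌋₊, ¬ p ∣ n) ↔ Good d r n := by
  have h0 : (0 : ℝ) ≤ (d : ℝ) ^ (1 / (r : ℝ)) := by positivity
  constructor
  · intro h p hp hpX
    exact h p (mem_pz.2 ⟨Nat.le_floor hpX, hp⟩)
  · intro h p hp
    obtain ⟨h1, h2⟩ := mem_pz.1 hp
    exact h p h2 ((Nat.le_floor_iff h0).1 h1)

lemma W_eq (d r u T m : ℕ) : Wt d u ⌊(d : ℝ) ^ (1 / (r : ℝ))⌋₊ T m = W d r T (m + u) := by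
  classical
  unfold Wt W
  refine Finset.card_nbij' (fun t => t - 1) (fun t => t + 1) ?_ ?_ ?_ ?_
  · intro t ht
    rw [mem_coe, mem_filter, mem_Icc] at ht
    rw [mem_coe, mem_filter, mem_range]
    refine ⟨?_, (good_iff d r _).1 ht.2⟩
    show t - 1 < T
    omega
  · intro t ht
    rw [mem_coe, mem_filter, mem_range] at ht
    rw [mem_coe, mem_filter, mem_Icc]
    refine ⟨?_, ?_⟩
    · show 1 ≤ t + 1 ∧ t + 1 ≤ T
      omega
    · show ∀ p ∈ pz _, ¬ p ∣ m + u + (t + 1 - 1) * d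
      rw [Nat.add_sub_cancel]
      exact (good_iff d r _).2 ht.2
  · intro t ht
    rw [mem_coe, mem_filter, mem_Icc] at ht
    show t - 1 + 1 = t
    omega
  · intro t _
    show t + 1 - 1 = t
    omega

lemma Cl_eq (d u : ℕ) : Cl d u = (Om d u).image (fun m => m + u) := by
  classical
  ext c
  unfold Cl Om
  rw [mem_filter, mem_Ioc, mem_image]
  constructor
  · rintro ⟨⟨h1, h2⟩, h3⟩
    refine ⟨c - u, mem_filter.2 ⟨mem_Icc.2 ⟨by omega, by omega⟩, ?_⟩, by omega⟩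
    rwa [Nat.sub_add_cancel (by omega)]
  · rintro ⟨m, hm, rfl⟩
    rw [mem_filter, mem_Icc] at hm
    exact ⟨⟨by omega, by omega⟩, hm.2⟩

lemma card_Cl (d u : ℕ) : (Cl d u).card = d.totient := by
  rw [Cl_eq, Finset.card_image_of_injective _ (add_left_injective u), card_Om]

lemma sum_eq (d r u T k : ℕ) :
    ∑ m ∈ Om d u, ((Wt d u ⌊(d : ℝ) ^ (1 / (r : ℝ))⌋₊ T m).choose k : ℝ) =
      ∑ c ∈ Cl d u, ((W d r T c).choose k : ℝ) := by
  rw [Cl_eq, Finset.sum_image (fun _ _ _ _ h => add_left_injective u h)]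
  exact Finset.sum_congr rfl fun m _ => by rw [W_eq]

lemma filter_eq (d r u T : ℕ) (A : Finset ℕ) :
    ((Om d u).filter (fun m => Wt d u ⌊(d : ℝ) ^ (1 / (r : ℝ))⌋₊ T m ∈ A)).card =
      ((Cl d u).filter (fun c => W d r T c ∈ A)).card := by
  rw [Cl_eq, Finset.filter_image, Finset.card_image_of_injective _ (add_left_injective u)]
  simp only [W_eq]

lemma V_nonneg (d r : ℕ) : 0 ≤ V d r := by
  rw [← V_eq]
  exact Vq_nonneg _ _

lemma two_choose (w : ℕ) : 2 * ((w.choose 2 : ℕ) : ℝ) = (w : ℝ) * (w - 1) := by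
  have h := Nat.cast_choose_two ℝ w
  rw [h]
  ring

/-- **Moments, variance and law.** -/
theorem final (K : ℕ) (x0 ε : ℝ) (hε : 0 < ε) : ∃ r0 T0 : ℕ, ∀ r : ℕ, r0 ≤ r → ∃ d0 : ℕ, ∀ d : ℕ,
    d0 ≤ d → (∀ n : ℕ, n ≠ 0 → n ≤ d ^ 2 → Good d r n → n.primeFactorsList.length ≤ 2 * r) ∧
      ∀ u T : ℕ, T0 ≤ T → T * V d r ≤ x0 →
        (∀ k ≤ K, |∑ c ∈ Cl d u, ((W d r T c).choose k : ℝ) -
          d.totient * ((T * V d r) ^ k / k.factorial)| ≤ ε * d.totient) ∧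
        |∑ c ∈ Cl d u, ((W d r T c : ℝ) - T * V d r) ^ 2 - d.totient * (T * V d r)| ≤ ε * d.totient ∧
        ∀ A : Finset ℕ, |(((Cl d u).filter (fun c => W d r T c ∈ A)).card : ℝ) -
          d.totient * ∑ j ∈ A, Real.exp (-(T * V d r)) * (T * V d r) ^ j / j.factorial| ≤
          ε * d.totient := by
  obtain ⟨x1, hx1⟩ : ∃ x1 : ℝ, x1 = max x0 0 := ⟨_, rfl⟩
  have hx10 : 0 ≤ x1 := by rw [hx1]; exact le_max_right _ _
  have hx01 : x0 ≤ x1 := by rw [hx1]; exact le_max_left _ _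
  obtain ⟨e, he⟩ : ∃ e : ℝ, e = ε / (3 + 2 * x1) := ⟨_, rfl⟩
  have he0 : 0 < e := by rw [he]; positivity
  have hee : (3 + 2 * x1) * e = ε := by rw [he]; field_simp
  have heε : e ≤ ε := by nlinarith
  obtain ⟨r0, T0, hr0, h⟩ := law_all (max K 2) x1 e hx10 he0
  refine ⟨r0, T0, ?_⟩
  intro r hr
  obtain ⟨d0, hd0⟩ := h r hr
  refine ⟨max d0 2, ?_⟩
  intro d hd
  refine ⟨fun n hn0 hn hg => ?_, ?_⟩
  · exact Pool.Agent.V11237.LP.Short.few (N := d) (r := r) (m := n) (c := 2) (by omega)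
      ((le_max_right _ _).trans hd) hn0 hn hg
  intro u T hT hTV
  obtain ⟨g1, g2⟩ := hd0 d ((le_max_left _ _).trans hd) u T hT (by rw [V_eq]; exact hTV.trans hx01)
  rw [V_eq] at g1 g2
  have htot : (0 : ℝ) ≤ d.totient := Nat.cast_nonneg _
  have hle : e * d.totient ≤ ε * d.totient := mul_le_mul_of_nonneg_right heε htot
  refine ⟨fun k hk => ?_, ?_, fun A => ?_⟩
  · have := g1 k (hk.trans (le_max_left _ _))
    rw [sum_eq] at this
    exact this.trans hle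
  · have m1 := g1 1 (le_trans (by norm_num) (le_max_right _ _))
    have m2 := g1 2 (le_max_right _ _)
    rw [sum_eq] at m1 m2
    obtain ⟨lam, hlam⟩ : ∃ lam, lam = T * V d r := ⟨_, rfl⟩
    have hlam0 : 0 ≤ lam := by
      rw [hlam]
      exact mul_nonneg (Nat.cast_nonneg _) (V_nonneg d r)
    have hlam1 : lam ≤ x1 := by rw [hlam]; exact hTV.trans hx01
    rw [← hlam] at m1 m2 ⊢
    simp only [Nat.choose_one_right, pow_one, Nat.factorial_one, Nat.cast_one, div_one] at m1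
    simp only [Nat.factorial_two, Nat.cast_ofNat] at m2
    obtain ⟨S1, hS1⟩ : ∃ S1 : ℝ, S1 = ∑ c ∈ Cl d u, (W d r T c : ℝ) := ⟨_, rfl⟩
    obtain ⟨S2, hS2⟩ : ∃ S2 : ℝ, S2 = ∑ c ∈ Cl d u, ((W d r T c).choose 2 : ℝ) := ⟨_, rfl⟩
    obtain ⟨Φ, hΦ⟩ : ∃ Φ : ℝ, Φ = d.totient := ⟨_, rfl⟩
    have hid : ∑ c ∈ Cl d u, ((W d r T c : ℝ) - lam) ^ 2 = 2 * S2 + S1 - 2 * lam * S1 + lam ^ 2 * Φ := by
      have hc : ((Cl d u).card : ℝ) = Φ := by rw [card_Cl, hΦ]
      rw [hS1, hS2, ← hc, Finset.mul_sum, Finset.mul_sum, ← Finset.sum_add_distrib,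
        ← Finset.sum_sub_distrib, mul_comm (lam ^ 2), ← nsmul_eq_mul, ← Finset.sum_const,
        ← Finset.sum_add_distrib]
      apply Finset.sum_congr rfl
      intro c _
      have := two_choose (W d r T c)
      rw [this]
      ring
    rw [hid]
    rw [← hS1, ← hΦ] at m1
    rw [← hS2, ← hΦ] at m2
    rw [← hΦ] at htot ⊢
    obtain ⟨a1, a2⟩ := abs_le.1 m1
    obtain ⟨b1, b2⟩ := abs_le.1 m2
    have hε' : ε * Φ = (3 + 2 * x1) * (e * Φ) := by rw [← hee]; ring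
    have heΦ : 0 ≤ e * Φ := by positivity
    have c1 : |lam * (S1 - Φ * lam)| ≤ x1 * (e * Φ) := by
      rw [abs_mul, abs_of_nonneg hlam0]
      exact mul_le_mul hlam1 m1 (abs_nonneg _) hx10
    obtain ⟨c2, c3⟩ := abs_le.1 c1
    have hexp : 2 * S2 + S1 - 2 * lam * S1 + lam ^ 2 * Φ - Φ * lam =
        2 * (S2 - Φ * (lam ^ 2 / 2)) + (S1 - Φ * lam) - 2 * (lam * (S1 - Φ * lam)) := by ring
    rw [hexp, hε', abs_le]
    constructor <;> linarith
  · have := g2 A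
    rw [filter_eq] at this
    exact this.trans hle

end Pool.Agent.H25.ClassFin
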