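import Pool.Agent.TH464.PO.Law
import Pool.Agent.Y879.GL.QuadU
import Pool.Agent.Y879.PR.Fund
import Pool.Agent.TH464.PW.Input

set_option autoImplicit false

/-!
# The Poisson law for sifted integers over the residue classes of one modulus
-/

namespace Pool.Agent.H25.ClassLaw

open Finset Filter
open Pool.Agent.TH464.PO Pool.Agent.W123.RP Pool.Agent.W123.RU
open Pool.Agent.H373R2.T7

/-- the condition in the variable `t` -/
def Qd (d p m : ℕ) : Prop := ¬ p ∣ d ∧ p ∣ m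

/-- the condition in the variable `m` -/
def RH (d u : ℕ) (H : Finset ℕ) (p m : ℕ) : Prop := ∃ t ∈ H, p ∣ m + u + (t - 1) * d

/-- the part of the modulus -/
def Q0 (d u p m : ℕ) : Prop := p ∣ d ∧ p ∣ m + u

open Classical in
/-- the product over the primes dividing `d` -/
noncomputable def Pd (d y : ℕ) : ℝ := ∏ p ∈ pz y, (if p ∣ d then 1 - 1 / (p : ℝ) else 1)

open Classical in
/-- the number of the sifted integers of the class -/
noncomputable def Wt (d u y T m : ℕ) : ℕ :=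
  ((Icc 1 T).filter (fun t => ∀ p ∈ pz y, ¬ p ∣ m + u + (t - 1) * d)).card

lemma nuB_zmod (Q : ℕ → ℕ → Prop) (p : ℕ) [NeZero p] [DecidablePred fun x : ZMod p => Q p x.val] :
    nuB Q p = ((univ : Finset (ZMod p)).filter (fun x => Q p x.val)).card := by
  classical
  unfold nuB
  refine Finset.card_nbij' (fun r => (r : ZMod p)) (fun x => x.val) ?_ ?_ ?_ ?_
  · intro r hr
    rw [mem_coe, mem_filter, mem_range] at hr
    rw [mem_coe, mem_filter]
    refine ⟨mem_univ _, ?_⟩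
    show Q p ((r : ZMod p)).val
    rw [ZMod.val_cast_of_lt hr.1]
    exact hr.2
  · intro x hx
    rw [mem_coe, mem_filter] at hx
    rw [mem_coe, mem_filter, mem_range]
    exact ⟨ZMod.val_lt x, hx.2⟩
  · intro r hr
    rw [mem_coe, mem_filter, mem_range] at hr
    exact ZMod.val_cast_of_lt hr.1
  · intro x _
    exact ZMod.natCast_zmod_val x

lemma dvd_zmod (p m : ℕ) : p ∣ m ↔ (m : ZMod p) = 0 := (ZMod.natCast_eq_zero_iff m p).symm

lemma mod_dvd (p m k : ℕ) : p ∣ m + k ↔ p ∣ m % p + k := by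
  rw [dvd_zmod, dvd_zmod]
  push_cast
  rw [ZMod.natCast_mod]

lemma per_Qd (d : ℕ) : PerB (Qd d) 1 := by
  classical
  constructor
  · intro p n
    unfold Qd
    have := mod_dvd p n 0
    rw [add_zero, add_zero] at this
    rw [this]
  · intro p hp
    unfold nuB
    apply Finset.card_le_one.2
    intro a ha b hb
    rw [mem_filter, mem_range] at ha hb
    rw [Nat.eq_zero_of_dvd_of_lt ha.2.2 ha.1, Nat.eq_zero_of_dvd_of_lt hb.2.2 hb.1]

lemma adm_Qd (d : ℕ) (p : ℕ) (hp : p.Prime) : nuB (Qd d) p < p :=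
  lt_of_le_of_lt ((per_Qd d).few p hp) hp.one_lt

lemma card_add (p u : ℕ) (hp : p.Prime) :
    (((range p).filter (fun m => p ∣ m + u)).card) = 1 := by
  classical
  have : Fact p.Prime := ⟨hp⟩
  have h := nuB_zmod (fun p m => p ∣ m + u) p
  have h0 : nuB (fun p m => p ∣ m + u) p = ((range p).filter (fun m => p ∣ m + u)).card := by
    unfold nuB
    congr
  rw [← h0, h, Finset.card_eq_one]
  refine ⟨-(u : ZMod p), ?_⟩
  ext x
  rw [mem_filter, mem_singleton, dvd_zmod]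
  push_cast
  rw [ZMod.natCast_zmod_val]
  constructor
  · rintro ⟨_, h1⟩
    exact eq_neg_of_add_eq_zero_left h1
  · rintro rfl
    exact ⟨mem_univ _, neg_add_cancel _⟩

lemma per_Q0 (d u : ℕ) : PerB (Q0 d u) 1 := by
  classical
  constructor
  · intro p n
    unfold Q0
    rw [mod_dvd p n u]
  · intro p hp
    unfold nuB
    rw [← card_add p u hp]
    apply Finset.card_le_card
    intro m hm
    rw [mem_filter] at hm ⊢
    exact ⟨hm.1, hm.2.2⟩

lemma V_Q0 (d u y : ℕ) : Vq (Q0 d u) y = Pd d y := by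
  classical
  unfold Vq Pd
  apply Finset.prod_congr rfl
  intro p hp
  have hpp := (mem_pz.1 hp).2
  by_cases hd : p ∣ d
  · rw [if_pos hd]
    have : nuB (Q0 d u) p = 1 := by
      rw [← card_add p u hpp]
      unfold nuB
      congr 1
      apply Finset.filter_congr
      intro m _
      unfold Q0
      simp [hd]
    rw [this]
    norm_num
  · rw [if_neg hd]
    have : nuB (Q0 d u) p = 0 := by
      unfold nuB
      rw [Finset.card_eq_zero, Finset.filter_eq_empty_iff]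
      intro m _ h
      exact hd h.1
    rw [this]
    norm_num

lemma per_RH (d u : ℕ) (H : Finset ℕ) : PerB (RH d u H) H.card := by
  classical
  constructor
  · intro p n
    unfold RH
    apply exists_congr
    intro t
    rw [add_assoc, mod_dvd p n (u + (t - 1) * d), ← add_assoc]
  · intro p hp
    unfold nuB
    have hsub : (range p).filter (fun m => RH d u H p m) ⊆
        H.biUnion (fun t => (range p).filter (fun m => p ∣ m + (u + (t - 1) * d))) := by
      intro m hm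
      rw [mem_filter] at hm
      obtain ⟨h1, t, ht, h2⟩ := hm
      rw [mem_biUnion]
      refine ⟨t, ht, ?_⟩
      rw [mem_filter, ← add_assoc]
      exact ⟨h1, h2⟩
    refine (Finset.card_le_card hsub).trans (Finset.card_biUnion_le.trans ?_)
    rw [Finset.sum_congr rfl fun t _ => card_add p (u + (t - 1) * d) hp]
    simp

lemma nu_RH (d u : ℕ) (H : Finset ℕ) (hH : ∀ t ∈ H, 1 ≤ t) (p : ℕ) (hp : p.Prime) (hd : ¬ p ∣ d) :
    nuB (RH d u H) p = nuB (QH (Qd d) H) p := by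
  classical
  have : Fact p.Prime := ⟨hp⟩
  rw [nuB_zmod, nuB_zmod]
  have hd0 : (d : ZMod p) ≠ 0 := fun h => hd ((ZMod.natCast_eq_zero_iff d p).1 h)
  have key : ∀ x z : ZMod p, (z + 1) * d = x + u → (RH d u H p x.val ↔ QH (Qd d) H p z.val) := by
    intro x z hxz
    unfold RH QH Qd
    apply exists_congr
    intro t
    apply and_congr_right
    intro ht
    have ht1 := hH t ht
    have e1 : ((x.val + u + (t - 1) * d : ℕ) : ZMod p) = (z + t) * d := by
      push_cast [Nat.cast_sub ht1]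
      rw [ZMod.natCast_zmod_val, ← hxz]
      ring
    have e2 : ((z.val + t : ℕ) : ZMod p) = z + t := by
      push_cast
      rw [ZMod.natCast_zmod_val]
    rw [dvd_zmod, dvd_zmod (m := z.val + t), e1, e2, mul_eq_zero]
    constructor
    · rintro (h | h)
      · exact ⟨hd, h⟩
      · exact absurd h hd0
    · rintro ⟨_, h⟩
      exact Or.inl h
  refine Finset.card_bij (fun x _ => (x + u) / d - 1) ?_ ?_ ?_
  · intro x hx
    rw [mem_filter] at hx ⊢
    refine ⟨mem_univ _, (key x _ ?_).1 hx.2⟩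
    field_simp
    ring
  · intro x _ x' _ h
    have h1 : (x + u) / (d : ZMod p) = (x' + u) / d := by
      have := congrArg (· + 1) h
      simpa using this
    rw [div_left_inj' hd0] at h1
    exact add_right_cancel h1
  · intro z hz
    rw [mem_filter] at hz
    refine ⟨(z + 1) * d - u, ?_, ?_⟩
    · rw [mem_filter]
      refine ⟨mem_univ _, (key _ z ?_).2 hz.2⟩
      ring
    · field_simp
      ring

lemma V_RH (d u : ℕ) (H : Finset ℕ) (hH : ∀ t ∈ H, 1 ≤ t) (hne : H.Nonempty) (y : ℕ) :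
    Vq (RH d u H) y = Pd d y * Vq (QH (Qd d) H) y := by
  classical
  unfold Vq Pd
  rw [← Finset.prod_mul_distrib]
  apply Finset.prod_congr rfl
  intro p hp
  have hpp := (mem_pz.1 hp).2
  by_cases hd : p ∣ d
  · rw [if_pos hd]
    have h1 : nuB (RH d u H) p = 1 := by
      rw [← card_add p u hpp]
      unfold nuB
      congr 1
      apply Finset.filter_congr
      intro m _
      unfold RH
      constructor
      · rintro ⟨t, _, ht⟩
        exact (Nat.dvd_add_left (hd.mul_left (t - 1))).1 ht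
      · intro h
        obtain ⟨t, ht⟩ := hne
        exact ⟨t, ht, h.add (hd.mul_left (t - 1))⟩
    have h2 : nuB (QH (Qd d) H) p = 0 := by
      unfold nuB
      rw [Finset.card_eq_zero, Finset.filter_eq_empty_iff]
      rintro m _ ⟨t, _, h, _⟩
      exact h hd
    rw [h1, h2]
    norm_num
  · rw [if_neg hd, nu_RH d u H hH p hpp hd, one_mul]

open Classical in
lemma moment_eq' (d u y k T : ℕ) :
    ∑ m ∈ Icc 1 d, ((Wt d u y T m).choose k : ℝ) =
      ∑ H ∈ powersetCard k (Icc 1 T), (((Icc 1 d).filter (fun m => ∀ p ∈ pz y, ¬ RH d u H p m)).card : ℝ) := by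
  have h1 : ∀ H ∈ powersetCard k (Icc 1 T),
      (((Icc 1 d).filter (fun m => ∀ p ∈ pz y, ¬ RH d u H p m)).card : ℝ) =
      ∑ m ∈ Icc 1 d, if (∀ t ∈ H, ∀ p ∈ pz y, ¬ p ∣ m + u + (t - 1) * d) then (1 : ℝ) else 0 := by
    intro H _
    rw [Finset.sum_ite, Finset.sum_const_zero, add_zero, Finset.sum_const, nsmul_eq_mul, mul_one]
    congr 2
    apply Finset.filter_congr
    intro m _
    unfold RH
    constructor
    · intro h t ht p hp hd
      exact h p hp ⟨t, ht, hd⟩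
    · rintro h p hp ⟨t, ht, hd⟩
      exact h t ht p hp hd
  rw [Finset.sum_congr rfl h1, Finset.sum_comm]
  apply Finset.sum_congr rfl
  intro m _
  rw [Finset.sum_ite, Finset.sum_const_zero, add_zero, Finset.sum_const, nsmul_eq_mul, mul_one]
  unfold Wt
  rw [← Finset.card_powersetCard]
  congr 2
  ext H
  rw [mem_filter, mem_powersetCard, mem_powersetCard]
  constructor
  · rintro ⟨a1, a2⟩
    exact ⟨⟨fun h hh => (mem_filter.1 (a1 hh)).1, a2⟩, fun h hh => (mem_filter.1 (a1 hh)).2⟩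
  · rintro ⟨⟨a1, a2⟩, a3⟩
    exact ⟨fun h hh => mem_filter.2 ⟨a1 hh, a3 h hh⟩, a2⟩

lemma Pd_nonneg (d y : ℕ) : 0 ≤ Pd d y := by
  rw [← V_Q0 d 0 y]
  exact Vq_nonneg _ _

open Classical in
/-- **Binomial moments.** -/
theorem moment' (k : ℕ) (η : ℝ) (hη : 0 < η) (hη1 : η ≤ 1) :
    ∃ (K0 y0 T0 : ℕ), ∀ d y T : ℕ, y0 ≤ y → y ^ K0 ≤ d → T0 ≤ T → ∀ u : ℕ,
      |∑ m ∈ Icc 1 d, ((Wt d u y T m).choose (k + 1) : ℝ) -
        d * Pd d y * ((T * Vq (Qd d) y) ^ (k + 1) / (k + 1).factorial)| ≤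
        η * (d * Pd d y * ((T * Vq (Qd d) y) ^ (k + 1) / (k + 1).factorial)) + T ^ (k + 1) * √(d : ℝ) := by
  obtain ⟨K0, x0, hK0, hfund⟩ := sys_fund (k + 1) (by omega) (η / 4) (by positivity)
  obtain ⟨w, η', T0, hη', hsing⟩ := sing_avg 1 k (η / 4) (by positivity) (by linarith)
  refine ⟨K0, max x0 w, T0, ?_⟩
  intro d y T hy hyd hT u
  have hlarge : ∀ t ∈ Icc 1 T, ((((pz y).filter (fun p : ℕ => T < p ∧ CoG (Qd d) p t)).card : ℕ) : ℝ) ≤
      η' * T := by
    intro t ht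
    have : (pz y).filter (fun p : ℕ => T < p ∧ CoG (Qd d) p t) = ∅ := by
      rw [Finset.filter_eq_empty_iff]
      rintro p _ ⟨h1, m, ⟨_, h2⟩, ⟨_, h3⟩⟩
      have h4 := (Nat.dvd_add_right h2).1 h3
      have h5 := Nat.le_of_dvd (by have := (mem_Icc.1 ht).1; omega) h4
      have := (mem_Icc.1 ht).2
      omega
    rw [this]
    simp
    positivity
  obtain ⟨s1, s2⟩ := hsing T hT (Qd d) (per_Qd d) (adm_Qd d) y ((le_max_right _ _).trans hy) hlarge
  rw [moment_eq']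
  obtain ⟨S, hS⟩ : ∃ S, S = ∑ H ∈ powersetCard (k + 1) (Icc 1 T), Vq (QH (Qd d) H) y := ⟨_, rfl⟩
  obtain ⟨Z, hZ⟩ : ∃ Z : ℝ, Z = (T * Vq (Qd d) y) ^ (k + 1) / (k + 1).factorial := ⟨_, rfl⟩
  obtain ⟨Y, hYdef⟩ : ∃ Y : ℝ, Y = d * Pd d y := ⟨_, rfl⟩
  rw [← hS, ← hZ] at s1 s2
  rw [← hZ, ← hYdef]
  have hV0 := Vq_nonneg (Qd d) y
  have hZ0 : 0 ≤ Z := by rw [hZ]; positivity
  have hY0 : (0 : ℝ) ≤ Y := by rw [hYdef]; exact mul_nonneg (Nat.cast_nonneg d) (Pd_nonneg d y)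
  have h1 : |∑ H ∈ powersetCard (k + 1) (Icc 1 T),
      (((Icc 1 d).filter (fun m => ∀ p ∈ pz y, ¬ RH d u H p m)).card : ℝ) - Y * S| ≤
      η / 4 * (Y * S) + T ^ (k + 1) * √(d : ℝ) := by
    have e : Y * S = ∑ H ∈ powersetCard (k + 1) (Icc 1 T), Y * Vq (QH (Qd d) H) y := by
      rw [hS, Finset.mul_sum]
    rw [e, ← Finset.sum_sub_distrib]
    refine (Finset.abs_sum_le_sum_abs _ _).trans ?_
    have h2 : ∀ H ∈ powersetCard (k + 1) (Icc 1 T),
        |(((Icc 1 d).filter (fun m => ∀ p ∈ pz y, ¬ RH d u H p m)).card : ℝ) -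
          Y * Vq (QH (Qd d) H) y| ≤
        η / 4 * (Y * Vq (QH (Qd d) H) y) + √(d : ℝ) := by
      intro H hH
      rw [mem_powersetCard] at hH
      have hper := per_RH d u H
      rw [hH.2] at hper
      have h3 := hfund d y ((le_max_left _ _).trans hy) hyd (RH d u H) hper d
      have e1 : ∏ p ∈ pz y, (1 - (nuB (RH d u H) p : ℝ) / p) = Vq (RH d u H) y := rfl
      rw [e1, V_RH d u H (fun t ht => (mem_Icc.1 (hH.1 ht)).1)
        (Finset.card_pos.1 (by omega)) y, ← mul_assoc, ← hYdef] at h3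
      convert h3
    refine (Finset.sum_le_sum h2).trans ?_
    rw [Finset.sum_add_distrib, ← Finset.mul_sum, Finset.sum_const, nsmul_eq_mul]
    have h3 : ((powersetCard (k + 1) (Icc 1 T)).card : ℝ) ≤ (T : ℝ) ^ (k + 1) := by
      rw [card_powersetCard, Nat.card_Icc, Nat.add_sub_cancel]
      exact_mod_cast Nat.choose_le_pow T (k + 1)
    have h4 := mul_le_mul_of_nonneg_right h3 (Real.sqrt_nonneg (d : ℝ))
    linarith
  have h5 : |Y * S - Y * Z| ≤ η / 4 * (Y * Z) := by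
    rw [← mul_sub, abs_mul, abs_of_nonneg hY0]
    have : |S - Z| ≤ η / 4 * Z := by
      rw [abs_le]
      constructor <;> linarith
    calc Y * |S - Z| ≤ Y * (η / 4 * Z) := mul_le_mul_of_nonneg_left this hY0
      _ = _ := by ring
  have h6 : Y * S ≤ 2 * (Y * Z) := by
    have h7 := (abs_le.1 h5).2
    have h8 : 0 ≤ Y * Z := mul_nonneg hY0 hZ0
    nlinarith
  have h8 : 0 ≤ Y * Z := mul_nonneg hY0 hZ0
  have h9 := abs_sub_le (∑ H ∈ powersetCard (k + 1) (Icc 1 T),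
      (((Icc 1 d).filter (fun m => ∀ p ∈ pz y, ¬ RH d u H p m)).card : ℝ)) (Y * S) (Y * Z)
  have h10 : η / 4 * (Y * S) ≤ η / 4 * (2 * (Y * Z)) :=
    mul_le_mul_of_nonneg_left h6 (by positivity)
  have h11 : 0 ≤ η * (Y * Z) := by positivity
  calc _ ≤ _ := h9
    _ ≤ η / 4 * (2 * (Y * Z)) + T ^ (k + 1) * √(d : ℝ) + η / 4 * (Y * Z) := by linarith
    _ ≤ _ := by linarith

/-- the reduced classes -/
def Om (d u : ℕ) : Finset ℕ := (Icc 1 d).filter (fun m => Nat.Coprime (m + u) d)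

lemma card_Om (d u : ℕ) : (Om d u).card = d.totient := by
  have h := Nat.filter_coprime_Ico_eq_totient d (u + 1)
  rw [← h]
  unfold Om
  refine Finset.card_nbij' (fun m => m + u) (fun n => n - u) ?_ ?_ ?_ ?_
  · intro m hm
    rw [mem_coe, mem_filter, mem_Icc] at hm
    rw [mem_coe, mem_filter, mem_Ico]
    refine ⟨?_, hm.2.symm⟩
    show u + 1 ≤ m + u ∧ m + u < u + 1 + d
    omega
  · intro n hn
    rw [mem_coe, mem_filter, mem_Ico] at hn
    rw [mem_coe, mem_filter, mem_Icc]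
    refine ⟨?_, ?_⟩
    · show 1 ≤ n - u ∧ n - u ≤ d
      omega
    · rw [Nat.sub_add_cancel (by omega)]
      exact hn.2.symm
  · intro m _
    show m + u - u = m
    omega
  · intro n hn
    rw [mem_coe, mem_filter, mem_Ico] at hn
    show n - u + u = n
    omega

/-- the classes which have a large common prime factor with the modulus -/
def Bad (d u y : ℕ) : Finset ℕ := (Icc 1 d).filter (fun m => ∃ p ∈ d.primeFactors, y < p ∧ p ∣ m + u)

lemma card_mult (d u p : ℕ) (hp : 0 < p) (hd : p ∣ d) :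
    ((Icc 1 d).filter (fun m => p ∣ m + u)).card = d / p := by
  have h1 : ((Icc 1 d).filter (fun m => p ∣ m + u)).card = ((Ioc u (u + d)).filter (fun n => p ∣ n)).card := by
    refine Finset.card_nbij' (fun m => m + u) (fun n => n - u) ?_ ?_ ?_ ?_
    · intro m hm
      rw [mem_coe, mem_filter, mem_Icc] at hm
      rw [mem_coe, mem_filter, mem_Ioc]
      refine ⟨?_, hm.2⟩
      show u < m + u ∧ m + u ≤ u + d
      omega
    · intro n hn
      rw [mem_coe, mem_filter, mem_Ioc] at hn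
      rw [mem_coe, mem_filter, mem_Icc]
      refine ⟨?_, ?_⟩
      · show 1 ≤ n - u ∧ n - u ≤ d
        omega
      · rw [Nat.sub_add_cancel (by omega)]
        exact hn.2
    · intro m _
      show m + u - u = m
      omega
    · intro n hn
      rw [mem_coe, mem_filter, mem_Ioc] at hn
      show n - u + u = n
      omega
  have h2 : (Ioc 0 (u + d)).filter (fun n => p ∣ n) =
      (Ioc 0 u).filter (fun n => p ∣ n) ∪ (Ioc u (u + d)).filter (fun n => p ∣ n) := by
    rw [← Finset.filter_union, Finset.Ioc_union_Ioc_eq_Ioc (by omega) (by omega)]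
  have h3 := congrArg Finset.card h2
  rw [Finset.card_union_of_disjoint, Nat.Ioc_filter_dvd_card_eq_div, Nat.Ioc_filter_dvd_card_eq_div,
    Nat.add_div_of_dvd_left hd] at h3
  · rw [h1]
    omega
  · rw [Finset.disjoint_left]
    intro n hn1 hn2
    rw [mem_filter, mem_Ioc] at hn1 hn2
    omega

lemma card_pf (q : ℕ) (hq : 1 ≤ q) : ((q.primeFactors.card : ℕ) : ℝ) ≤ 2 * Real.log q := by
  have h1 : 2 ^ q.primeFactors.card ≤ ∏ p ∈ q.primeFactors, p :=
    Finset.pow_card_le_prod _ _ _ fun p hp => (Nat.prime_of_mem_primeFactors hp).two_le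
  have h2 : ∏ p ∈ q.primeFactors, p ≤ q := Nat.le_of_dvd (by omega) (Nat.prod_primeFactors_dvd q)
  have h3 : (2 : ℝ) ^ q.primeFactors.card ≤ q := by exact_mod_cast h1.trans h2
  have h4 := Real.log_le_log (by positivity) h3
  rw [Real.log_pow] at h4
  have h5 : (0.6931471803 : ℝ) < Real.log 2 := Real.log_two_gt_d9
  have h6 : (0 : ℝ) ≤ (q.primeFactors.card : ℝ) := by positivity
  nlinarith

lemma card_Bad (d u y : ℕ) (hd : 1 ≤ d) (hy : 1 ≤ y) :
    ((Bad d u y).card : ℝ) ≤ 2 * Real.log d * d / y := by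
  classical
  have hsub : Bad d u y ⊆ (d.primeFactors.filter (fun p => y < p)).biUnion
      (fun p => (Icc 1 d).filter (fun m => p ∣ m + u)) := by
    intro m hm
    unfold Bad at hm
    rw [mem_filter] at hm
    obtain ⟨h1, p, hp, hyp, h2⟩ := hm
    rw [mem_biUnion]
    exact ⟨p, mem_filter.2 ⟨hp, hyp⟩, mem_filter.2 ⟨h1, h2⟩⟩
  have h1 := (Finset.card_le_card hsub).trans Finset.card_biUnion_le
  have hy0 : (0 : ℝ) < y := by exact_mod_cast hy
  have hdr : (0 : ℝ) ≤ d := Nat.cast_nonneg d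
  have h2 : ((∑ p ∈ d.primeFactors.filter (fun p => y < p),
      ((Icc 1 d).filter (fun m => p ∣ m + u)).card : ℕ) : ℝ) ≤
      ∑ _p ∈ d.primeFactors.filter (fun p => y < p), (d : ℝ) / y := by
    push_cast
    apply Finset.sum_le_sum
    intro p hp
    rw [mem_filter] at hp
    have hpp := Nat.prime_of_mem_primeFactors hp.1
    rw [card_mult d u p hpp.pos (Nat.dvd_of_mem_primeFactors hp.1)]
    refine Nat.cast_div_le.trans ?_
    exact div_le_div_of_nonneg_left hdr hy0 (by exact_mod_cast hp.2.le)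
  rw [Finset.sum_const, nsmul_eq_mul] at h2
  have h3 : ((d.primeFactors.filter (fun p => y < p)).card : ℝ) ≤ 2 * Real.log d :=
    le_trans (by exact_mod_cast Finset.card_filter_le _ _) (card_pf d hd)
  calc ((Bad d u y).card : ℝ) ≤ _ := by exact_mod_cast h1
    _ ≤ _ := h2
    _ ≤ 2 * Real.log d * ((d : ℝ) / y) := mul_le_mul_of_nonneg_right h3 (by positivity)
    _ = _ := by ring

lemma fac {p : ℕ} (hp : p.Prime) : 0 < 1 - 1 / (p : ℝ) ∧ 1 - 1 / (p : ℝ) ≤ 1 := by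
  have h2 : (1 : ℝ) < p := by exact_mod_cast hp.one_lt
  constructor
  · rw [sub_pos, div_lt_one (by linarith)]
    exact h2
  · have : 0 ≤ 1 / (p : ℝ) := by positivity
    linarith

/-- `φ(d) ≤ d Pd` and the converse up to a factor -/
lemma tot_Pd (d y : ℕ) (hd : 1 ≤ d) (hy : 1 ≤ y) :
    (d.totient : ℝ) ≤ d * Pd d y ∧ (1 - 2 * Real.log d / y) * (d * Pd d y) ≤ d.totient := by
  classical
  have hq0 : (d : ℝ) ≠ 0 := by exact_mod_cast (by omega : d ≠ 0)
  have hy1 : (1 : ℝ) ≤ y := by exact_mod_cast hy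
  have htot : (d.totient : ℝ) = d * ∏ p ∈ d.primeFactors, (1 - 1 / (p : ℝ)) := by
    have h := Nat.totient_eq_mul_prod_factors d
    have h2 : ((d.totient : ℚ) : ℝ) = ((d * ∏ p ∈ d.primeFactors, (1 - (p : ℚ)⁻¹) : ℚ) : ℝ) := by
      rw [h]
    push_cast at h2
    rw [h2]
    simp only [one_div]
  have hPd : Pd d y = ∏ p ∈ (pz y).filter (fun p => p ∣ d), (1 - 1 / (p : ℝ)) := by
    unfold Pd
    rw [Finset.prod_filter]
  have hsplit : ∏ p ∈ d.primeFactors, (1 - 1 / (p : ℝ)) =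
      Pd d y * ∏ p ∈ d.primeFactors.filter (fun p => y < p), (1 - 1 / (p : ℝ)) := by
    rw [hPd, ← Finset.prod_union]
    · apply Finset.prod_congr _ (fun _ _ => rfl)
      ext p
      simp only [mem_filter, mem_union, mem_pz, Nat.mem_primeFactors]
      constructor
      · rintro ⟨h1, h2, h3⟩
        rcases le_or_gt p y with h | h
        · exact Or.inl ⟨⟨h, h1⟩, h2⟩
        · exact Or.inr ⟨⟨h1, h2, h3⟩, h⟩
      · rintro (⟨⟨_, h1⟩, h2⟩ | ⟨h1, _⟩)
        · exact ⟨h1, h2, by omega⟩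
        · exact h1
    · rw [Finset.disjoint_left]
      intro p hp1 hp2
      have h1 := (mem_pz.1 (mem_filter.1 hp1).1).1
      have h2 := (mem_filter.1 hp2).2
      omega
  have hdP : 0 ≤ (d : ℝ) * Pd d y := mul_nonneg (Nat.cast_nonneg d) (Pd_nonneg d y)
  have hle : ∏ p ∈ d.primeFactors.filter (fun p => y < p), (1 - 1 / (p : ℝ)) ≤ 1 :=
    Finset.prod_le_one (fun p hp => (fac (Nat.prime_of_mem_primeFactors (mem_filter.1 hp).1)).1.le)
      fun p hp => (fac (Nat.prime_of_mem_primeFactors (mem_filter.1 hp).1)).2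
  have hbig : 1 - 2 * Real.log d / y ≤
      ∏ p ∈ d.primeFactors.filter (fun p => y < p), (1 - 1 / (p : ℝ)) := by
    have hb0 : (0 : ℝ) ≤ 1 - 1 / (y : ℝ) := by
      rw [sub_nonneg, div_le_one (by linarith)]
      exact hy1
    have h1 : (1 - 1 / (y : ℝ)) ^ (d.primeFactors.filter (fun p => y < p)).card ≤
        ∏ p ∈ d.primeFactors.filter (fun p => y < p), (1 - 1 / (p : ℝ)) := by
      rw [← Finset.prod_const]
      apply Finset.prod_le_prod (fun _ _ => hb0)
      intro p hp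
      have h2 : (y : ℝ) ≤ p := by exact_mod_cast (mem_filter.1 hp).2.le
      have : 1 / (p : ℝ) ≤ 1 / y := one_div_le_one_div_of_le (by linarith) h2
      linarith
    refine le_trans ?_ h1
    have h2 := one_add_mul_le_pow (a := -(1 / (y : ℝ))) (by linarith)
      (d.primeFactors.filter (fun p => y < p)).card
    rw [← sub_eq_add_neg] at h2
    refine le_trans ?_ h2
    have h3 : ((d.primeFactors.filter (fun p => y < p)).card : ℝ) ≤ 2 * Real.log d :=
      le_trans (by exact_mod_cast Finset.card_filter_le _ _) (card_pf d hd)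
    have h4 : ((d.primeFactors.filter (fun p => y < p)).card : ℝ) / y ≤ 2 * Real.log d / y :=
      div_le_div_of_nonneg_right h3 (by linarith)
    have h5 : ((d.primeFactors.filter (fun p => y < p)).card : ℝ) * -(1 / (y : ℝ)) =
      -(((d.primeFactors.filter (fun p => y < p)).card : ℝ) / y) := by ring
    rw [h5]
    linarith
  rw [htot, hsplit, ← mul_assoc]
  constructor
  · exact mul_le_of_le_one_right hdP hle
  · rw [mul_comm]
    exact mul_le_mul_of_nonneg_left hbig hdP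

lemma Pd_ge (d y : ℕ) : Vz y ≤ Pd d y := by
  classical
  unfold Vz Pd
  apply Finset.prod_le_prod
  · intro p hp
    exact (fac (mem_pz.1 hp).2).1.le
  · intro p hp
    have := (fac (mem_pz.1 hp).2).2
    split_ifs
    · exact le_rfl
    · exact this

lemma Vd_ge (d y : ℕ) : Vz y ≤ Vq (Qd d) y := by
  classical
  unfold Vz Vq
  apply Finset.prod_le_prod
  · intro p hp
    exact (fac (mem_pz.1 hp).2).1.le
  · intro p hp
    have hpp := (mem_pz.1 hp).2
    have h1 : (nuB (Qd d) p : ℝ) ≤ 1 := by exact_mod_cast (per_Qd d).few p hpp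
    have h2 : (0 : ℝ) < p := by exact_mod_cast hpp.pos
    have := div_le_div_of_nonneg_right h1 h2.le
    linarith

open Classical in
lemma Wt_le (d u y T m : ℕ) : Wt d u y T m ≤ T := by
  unfold Wt
  refine (Finset.card_filter_le _ _).trans ?_
  simp

/-- the classes outside -/
lemma Wt_zero (d u y T m : ℕ) (hd : 1 ≤ d) (hm : m ∈ Icc 1 d) (h1 : m ∉ Om d u) (h2 : m ∉ Bad d u y) :
    Wt d u y T m = 0 := by
  classical
  have h3 : ¬ Nat.Coprime (m + u) d := fun h => h1 (mem_filter.2 ⟨hm, h⟩)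
  obtain ⟨p, hp, hpm, hpd⟩ := Nat.Prime.not_coprime_iff_dvd.1 h3
  have hpy : p ≤ y := by
    by_contra h
    exact h2 (mem_filter.2 ⟨hm, p, Nat.mem_primeFactors.2 ⟨hp, hpd, by omega⟩, by omega, hpm⟩)
  unfold Wt
  rw [Finset.card_eq_zero, Finset.filter_eq_empty_iff]
  intro t _ h
  exact h p (mem_pz.2 ⟨hpy, hp⟩) (hpm.add (hpd.mul_left (t - 1)))

/-- restriction to the reduced classes -/
lemma restrict (d u y T k : ℕ) (hd : 1 ≤ d) (hy : 1 ≤ y) :
    |∑ m ∈ Om d u, ((Wt d u y T m).choose (k + 1) : ℝ) -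
      ∑ m ∈ Icc 1 d, ((Wt d u y T m).choose (k + 1) : ℝ)| ≤
      (T : ℝ) ^ (k + 1) * (2 * Real.log d * d / y) := by
  classical
  have hsub : Om d u ⊆ Icc 1 d := Finset.filter_subset _ _
  rw [← Finset.sum_sdiff hsub, abs_sub_comm, add_sub_cancel_right]
  have hnn : (0 : ℝ) ≤ ∑ m ∈ Icc 1 d \ Om d u, ((Wt d u y T m).choose (k + 1) : ℝ) :=
    Finset.sum_nonneg fun _ _ => Nat.cast_nonneg _
  rw [abs_of_nonneg hnn]
  have h1 : ∑ m ∈ Icc 1 d \ Om d u, ((Wt d u y T m).choose (k + 1) : ℝ) ≤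
      ∑ _m ∈ Bad d u y, (T : ℝ) ^ (k + 1) := by
    have h2 : ∑ m ∈ Icc 1 d \ Om d u, ((Wt d u y T m).choose (k + 1) : ℝ) =
        ∑ m ∈ (Icc 1 d \ Om d u).filter (fun m => m ∈ Bad d u y),
          ((Wt d u y T m).choose (k + 1) : ℝ) := by
      symm
      apply Finset.sum_filter_of_ne
      intro m hm hne
      by_contra hB
      apply hne
      rw [Finset.mem_sdiff] at hm
      rw [Wt_zero d u y T m hd hm.1 hm.2 hB]
      simp
    rw [h2]
    refine (Finset.sum_le_sum (f := fun m => ((Wt d u y T m).choose (k + 1) : ℝ))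
      (g := fun _ => (T : ℝ) ^ (k + 1)) fun m _ => ?_).trans ?_
    · have h3 := Nat.choose_le_pow (Wt d u y T m) (k + 1)
      have h4 := Nat.pow_le_pow_left (Wt_le d u y T m) (k + 1)
      show ((Wt d u y T m).choose (k + 1) : ℝ) ≤ (T : ℝ) ^ (k + 1)
      exact_mod_cast h3.trans h4
    · apply Finset.sum_le_sum_of_subset_of_nonneg
      · intro m hm
        exact (mem_filter.1 hm).2
      · intro _ _ _
        positivity
  refine h1.trans ?_
  rw [Finset.sum_const, nsmul_eq_mul, mul_comm]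
  exact mul_le_mul_of_nonneg_left (card_Bad d u y hd hy) (by positivity)

/-- **Binomial moments over the reduced classes.** -/
theorem mom_all (R : ℕ) (x0 η : ℝ) (hx0 : 0 ≤ x0) (hη : 0 < η) : ∃ r0 T0 : ℕ, 2 ≤ r0 ∧
    ∀ r : ℕ, r0 ≤ r → ∃ d0 : ℕ, ∀ d : ℕ, d0 ≤ d → ∀ u T : ℕ, T0 ≤ T →
      T * Vq (Qd d) ⌊(d : ℝ) ^ (1 / (r : ℝ))⌋₊ ≤ x0 → ∀ k ≤ R,
      |∑ m ∈ Om d u, ((Wt d u ⌊(d : ℝ) ^ (1 / (r : ℝ))⌋₊ T m).choose k : ℝ) -
        d.totient * ((T * Vq (Qd d) ⌊(d : ℝ) ^ (1 / (r : ℝ))⌋₊) ^ k / k.factorial)| ≤ η * d.totient := by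
  obtain ⟨X1, hX1⟩ : ∃ X1 : ℝ, X1 = (1 + x0) ^ (R + 1) := ⟨_, rfl⟩
  have hX1pos : 1 ≤ X1 := by rw [hX1]; exact one_le_pow₀ (by linarith)
  obtain ⟨η1, hη1⟩ : ∃ η1 : ℝ, η1 = min 1 (η / (8 * X1)) := ⟨_, rfl⟩
  have hη10 : 0 < η1 := by rw [hη1]; positivity
  have hη11 : η1 ≤ 1 := by rw [hη1]; exact min_le_left _ _
  have hη12 : 8 * (η1 * X1) ≤ η := by
    have : η1 ≤ η / (8 * X1) := by rw [hη1]; exact min_le_right _ _
    rw [le_div_iff₀ (by positivity)] at this
    linarith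
  choose K0 y0 T0 hmom using fun k => moment' k η1 hη10 hη11
  obtain ⟨c, _, hc, _, hVb⟩ := Vz_bounds
  obtain ⟨b, hb⟩ : ∃ b : ℝ, b = x0 / c + 1 := ⟨_, rfl⟩
  have hb1 : 1 ≤ b := by
    rw [hb]
    have : 0 ≤ x0 / c := by positivity
    linarith
  obtain ⟨B1, hB1⟩ : ∃ B1 : ℝ, B1 = b ^ (R + 1) := ⟨_, rfl⟩
  have hB11 : 1 ≤ B1 := by rw [hB1]; exact one_le_pow₀ hb1
  refine ⟨(∑ k ∈ range R, K0 k) + 2, (∑ k ∈ range R, T0 k) + 1, by omega, ?_⟩
  intro r hr
  have hr2 : 2 ≤ r := by omega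
  have hr2' : (2 : ℝ) ≤ r := by exact_mod_cast hr2
  have hr0 : (0 : ℝ) < r := by linarith
  have hev := Pool.Agent.TH464.PW.logpow_rpow (R + 3) (16 * B1 / (η * c) + 16 * X1 / η + 16)
    (1 / (2 * r : ℝ)) (by positivity) (by positivity)
  have hev2 : ∀ᶠ d : ℕ in atTop, (((∑ k ∈ range R, y0 k) + 2 : ℕ) : ℝ) ≤ (d : ℝ) ^ (1 / (2 * r : ℝ)) :=
    ((tendsto_rpow_atTop (by positivity)).comp tendsto_natCast_atTop_atTop).eventually_ge_atTop _
  obtain ⟨d0, hd0⟩ := eventually_atTop.1 (hev.and (hev2.and (eventually_ge_atTop 3)))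
  refine ⟨d0, ?_⟩
  intro d hd u T hT hTV k hk
  obtain ⟨e1, e2, e3⟩ := hd0 d hd
  obtain ⟨q, hq⟩ : ∃ q : ℝ, q = (d : ℝ) ^ (1 / (2 * r : ℝ)) := ⟨_, rfl⟩
  rw [← hq] at e1 e2
  have hq2 : 2 ≤ q := by
    refine le_trans ?_ e2
    push_cast
    have : (0 : ℝ) ≤ ∑ k ∈ range R, (y0 k : ℝ) := Finset.sum_nonneg fun _ _ => Nat.cast_nonneg _
    linarith
  obtain ⟨l1, _, l3, l4⟩ := level_low r hr2 d (by omega) (by rw [← hq]; exact hq2)
  obtain ⟨y, hy⟩ : ∃ y, y = ⌊(d : ℝ) ^ (1 / (r : ℝ))⌋₊ := ⟨_, rfl⟩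
  rw [← hy] at hTV l1 l3 l4 ⊢
  rw [← hq] at l1
  have hd3 : (3 : ℝ) ≤ d := by exact_mod_cast e3
  have hdpos : (0 : ℝ) < d := by linarith
  obtain ⟨L, hL⟩ : ∃ L : ℝ, L = Real.log d := ⟨_, rfl⟩
  have hL1 : 1 ≤ L := by
    rw [hL, Real.le_log_iff_exp_le hdpos]
    have := Real.exp_one_lt_d9
    linarith
  rw [← hL] at e1 l3
  have hy2 : (2 : ℝ) ≤ y := by exact_mod_cast l4
  have hypos : (0 : ℝ) < y := by linarith
  have hyd : y ^ r ≤ d := by
    have h1 : (y : ℝ) ≤ (d : ℝ) ^ (1 / (r : ℝ)) := by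
      rw [hy]
      exact Nat.floor_le (by positivity)
    have h2 : (y : ℝ) ^ r ≤ ((d : ℝ) ^ (1 / (r : ℝ))) ^ r := pow_le_pow_left₀ hypos.le h1 _
    have h3 : ((d : ℝ) ^ (1 / (r : ℝ))) ^ r = d := by
      rw [← Real.rpow_natCast, ← Real.rpow_mul hdpos.le, one_div, inv_mul_cancel₀ hr0.ne',
        Real.rpow_one]
    rw [h3] at h2
    exact_mod_cast h2
  -- consequences of the main inequality
  have hLg : L ≤ L ^ (R + 3) := le_self_pow₀ hL1 (by omega)
  have hLg0 : 0 ≤ L ^ (R + 3) := by positivity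
  have i1 : 16 * B1 / (η * c) * L ^ (R + 3) ≤ q := by
    refine le_trans ?_ e1
    apply mul_le_mul_of_nonneg_right _ hLg0
    have : 0 ≤ 16 * X1 / η := by positivity
    linarith
  have i2 : 16 * X1 / η * L ≤ q := by
    refine le_trans ?_ e1
    apply mul_le_mul _ hLg (by linarith) (by positivity)
    have : 0 ≤ 16 * B1 / (η * c) := by positivity
    linarith
  have i3 : 16 * L ≤ q := by
    refine le_trans ?_ e1
    apply mul_le_mul _ hLg (by linarith) (by positivity)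
    have h1 : 0 ≤ 16 * B1 / (η * c) := by positivity
    have h2 : 0 ≤ 16 * X1 / η := by positivity
    linarith
  obtain ⟨V, hV⟩ : ∃ V, V = Vq (Qd d) y := ⟨_, rfl⟩
  obtain ⟨Φ, hΦ⟩ : ∃ Φ : ℝ, Φ = d.totient := ⟨_, rfl⟩
  obtain ⟨Y, hYdef⟩ : ∃ Y : ℝ, Y = d * Pd d y := ⟨_, rfl⟩
  have hVz1 : c / L ≤ Vz y := by
    refine le_trans ?_ (hVb y l4).1
    exact div_le_div_of_nonneg_left hc.le (Real.log_pos (by linarith)) l3
  have hVlow : c / L ≤ V := by
    rw [hV]
    exact hVz1.trans (Vd_ge d y)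
  have hYlow : d * (c / L) ≤ Y := by
    rw [hYdef]
    exact mul_le_mul_of_nonneg_left (hVz1.trans (Pd_ge d y)) hdpos.le
  have hcL : 0 < c / L := by positivity
  have hY0 : 0 < Y := lt_of_lt_of_le (by positivity) hYlow
  obtain ⟨t1, t2⟩ := tot_Pd d y (by omega) (by omega)
  rw [← hYdef, ← hΦ, ← hL] at t2
  rw [← hYdef, ← hΦ] at t1
  have hLy : 2 * L / y ≤ 1 / 2 := by
    rw [div_le_iff₀ hypos]
    linarith
  have hYΦ : Y ≤ 2 * Φ := by
    have : (1 / 2) * Y ≤ (1 - 2 * L / y) * Y := mul_le_mul_of_nonneg_right (by linarith) hY0.le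
    linarith
  have hΦ0 : 0 < Φ := by linarith
  have hΦlow : d * (c / (2 * L)) ≤ Φ := by
    have : (d : ℝ) * (c / (2 * L)) = d * (c / L) / 2 := by field_simp
    rw [this]
    linarith
  have hT0 : (0 : ℝ) ≤ T := Nat.cast_nonneg T
  rw [← hV] at hTV ⊢
  rw [← hΦ]
  rcases k with _ | k
  · simp only [Nat.choose_zero_right, Nat.cast_one, Finset.sum_const, nsmul_eq_mul, mul_one, pow_zero,
      Nat.factorial_zero, div_one]
    rw [card_Om, ← hΦ, sub_self, abs_zero]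
    positivity
  · obtain ⟨Z, hZ⟩ : ∃ Z : ℝ, Z = (T * V) ^ (k + 1) / (k + 1).factorial := ⟨_, rfl⟩
    have hV0 : 0 ≤ V := by linarith
    have hx00 : 0 ≤ T * V := by positivity
    have hZ0 : 0 ≤ Z := by rw [hZ]; positivity
    have hZ1 : Z ≤ X1 := by
      have hf1 : (1 : ℝ) ≤ (k + 1).factorial := by exact_mod_cast Nat.factorial_pos (k + 1)
      rw [hZ, hX1]
      calc (T * V) ^ (k + 1) / ((k + 1).factorial : ℝ) ≤ (T * V) ^ (k + 1) :=
            div_le_self (by positivity) hf1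
        _ ≤ (1 + x0) ^ (k + 1) := pow_le_pow_left₀ hx00 (by linarith) _
        _ ≤ (1 + x0) ^ (R + 1) := pow_le_pow_right₀ (by linarith) (by omega)
    have hkR : k ∈ range R := mem_range.2 (by omega)
    have hKk : K0 k ≤ ∑ k ∈ range R, K0 k := Finset.single_le_sum (fun _ _ => Nat.zero_le _) hkR
    have hyk : y0 k ≤ ∑ k ∈ range R, y0 k := Finset.single_le_sum (fun _ _ => Nat.zero_le _) hkR
    have hTk : T0 k ≤ ∑ k ∈ range R, T0 k := Finset.single_le_sum (fun _ _ => Nat.zero_le _) hkR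
    have hyy : (∑ k ∈ range R, y0 k) + 2 ≤ y := by
      have := e2.trans l1
      exact_mod_cast this
    have h1 := hmom k d y T (by omega) ((Nat.pow_le_pow_right (by omega) (by omega)).trans hyd)
      (by omega) u
    rw [← hYdef, ← hV, ← hZ] at h1
    have h2 := restrict d u y T k (by omega) (by omega)
    rw [← hL] at h2
    rw [← hZ]
    -- the size of T
    have hTb : (T : ℝ) ≤ b * L := by
      have h3 : (T : ℝ) * (c / L) ≤ x0 := (mul_le_mul_of_nonneg_left hVlow hT0).trans hTV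
      have h4 : (T : ℝ) ≤ x0 / c * L := by
        rw [mul_div_assoc', div_le_iff₀ (by linarith)] at h3
        rw [div_mul_eq_mul_div, le_div_iff₀ hc]
        exact h3
      rw [hb]
      nlinarith
    have hTk1 : (T : ℝ) ^ (k + 1) ≤ B1 * L ^ (R + 1) := by
      have h5 : 1 ≤ b * L := one_le_mul_of_one_le_of_one_le hb1 hL1
      calc (T : ℝ) ^ (k + 1) ≤ (b * L) ^ (k + 1) := pow_le_pow_left₀ hT0 hTb _
        _ ≤ (b * L) ^ (R + 1) := pow_le_pow_right₀ h5 (by omega)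
        _ = _ := by rw [mul_pow, hB1]
    have hTk0 : 0 ≤ (T : ℝ) ^ (k + 1) := by positivity
    -- q ≤ √d
    have hqd : q ≤ √(d : ℝ) := by
      rw [hq, Real.sqrt_eq_rpow]
      apply Real.rpow_le_rpow_of_exponent_le (by linarith)
      rw [div_le_div_iff₀ (by positivity) (by norm_num)]
      linarith
    have hq0 : 0 < q := by linarith
    have i1' : 16 * B1 * L ^ (R + 3) ≤ q * (η * c) := by
      have h6 : 16 * B1 / (η * c) * L ^ (R + 3) = 16 * B1 * L ^ (R + 3) / (η * c) := by ring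
      rw [h6, div_le_iff₀ (by positivity)] at i1
      exact i1
    have hPL : L ^ (R + 3) = L ^ (R + 1) * L * L := by ring
    have hA : B1 * L ^ (R + 1) * (2 * L) * (8 * L) ≤ q * (η * c) := by
      calc B1 * L ^ (R + 1) * (2 * L) * (8 * L) = 16 * B1 * L ^ (R + 3) := by rw [hPL]; ring
        _ ≤ _ := i1'
    have hA1 : (T : ℝ) ^ (k + 1) * (2 * L * d / y) ≤ η / 4 * Φ := by
      have h7 : (T : ℝ) ^ (k + 1) * (2 * L * d / y) ≤ B1 * L ^ (R + 1) * (2 * L * d / q) := by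
        apply mul_le_mul hTk1 _ (by positivity) (by positivity)
        exact div_le_div_of_nonneg_left (by positivity) hq0 l1
      have h8 : B1 * L ^ (R + 1) * (2 * L * d / q) ≤ η / 4 * (d * (c / (2 * L))) := by
        have h9 : B1 * L ^ (R + 1) * (2 * L * d / q) = B1 * L ^ (R + 1) * (2 * L) * d / q := by ring
        have h10 : η / 4 * (d * (c / (2 * L))) = η * c * d / (8 * L) := by
          field_simp
          ring
        rw [h9, h10, div_le_div_iff₀ hq0 (by positivity)]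
        calc B1 * L ^ (R + 1) * (2 * L) * d * (8 * L) = (B1 * L ^ (R + 1) * (2 * L) * (8 * L)) * d := by
              ring
          _ ≤ (q * (η * c)) * d := mul_le_mul_of_nonneg_right hA hdpos.le
          _ = _ := by ring
      exact h7.trans (h8.trans (mul_le_mul_of_nonneg_left hΦlow (by positivity)))
    have hA2 : (T : ℝ) ^ (k + 1) * √(d : ℝ) ≤ η / 4 * Φ := by
      have h7 : (T : ℝ) ^ (k + 1) * √(d : ℝ) ≤ B1 * L ^ (R + 1) * √(d : ℝ) :=
        mul_le_mul_of_nonneg_right hTk1 (Real.sqrt_nonneg _)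
      have h8 : B1 * L ^ (R + 1) * √(d : ℝ) ≤ η / 4 * (d * (c / (2 * L))) := by
        have h10 : η / 4 * (d * (c / (2 * L))) = η * c * d / (8 * L) := by
          field_simp
          ring
        have h11 : √(d : ℝ) * √(d : ℝ) = d := Real.mul_self_sqrt hdpos.le
        rw [h10, le_div_iff₀ (by positivity)]
        have h12 : B1 * L ^ (R + 1) * (8 * L) ≤ q * (η * c) := by
          refine le_trans ?_ hA
          have h13 : 0 ≤ B1 * L ^ (R + 1) := by positivity
          have h14 : B1 * L ^ (R + 1) ≤ B1 * L ^ (R + 1) * (2 * L) :=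
            le_mul_of_one_le_right h13 (by linarith)
          exact mul_le_mul_of_nonneg_right h14 (by linarith)
        calc B1 * L ^ (R + 1) * √(d : ℝ) * (8 * L) = (B1 * L ^ (R + 1) * (8 * L)) * √(d : ℝ) := by ring
          _ ≤ (q * (η * c)) * √(d : ℝ) := mul_le_mul_of_nonneg_right h12 (Real.sqrt_nonneg _)
          _ ≤ (√(d : ℝ) * (η * c)) * √(d : ℝ) := by gcongr
          _ = η * c * (√(d : ℝ) * √(d : ℝ)) := by ring
          _ = _ := by rw [h11]
      exact h7.trans (h8.trans (mul_le_mul_of_nonneg_left hΦlow (by positivity)))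
    have hA3 : η1 * (Y * Z) ≤ η / 4 * Φ := by
      calc η1 * (Y * Z) ≤ η1 * ((2 * Φ) * X1) := by gcongr
        _ = 2 * (η1 * X1) * Φ := by ring
        _ ≤ (η / 4) * Φ := mul_le_mul_of_nonneg_right (by linarith) hΦ0.le
    have hA4 : (Y - Φ) * Z ≤ η / 4 * Φ := by
      have h15 : Y - Φ ≤ 2 * L / y * Y := by linarith
      have h16 : 2 * L / y * Y * Z ≤ 2 * L / y * (2 * Φ) * X1 := by gcongr
      have h17 : 2 * L / y * (2 * Φ) * X1 ≤ η / 4 * Φ := by
        have h18 : 16 * X1 * L ≤ q * η := by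
          have h19 : 16 * X1 / η * L = 16 * X1 * L / η := by ring
          rw [h19, div_le_iff₀ hη] at i2
          exact i2
        have h20 : 4 * L * X1 / y ≤ η / 4 := by
          rw [div_le_iff₀ hypos]
          have : q * η ≤ y * η := mul_le_mul_of_nonneg_right l1 hη.le
          linarith
        calc 2 * L / y * (2 * Φ) * X1 = (4 * L * X1 / y) * Φ := by ring
          _ ≤ _ := mul_le_mul_of_nonneg_right h20 hΦ0.le
      calc (Y - Φ) * Z ≤ (2 * L / y * Y) * Z := mul_le_mul_of_nonneg_right h15 hZ0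
        _ ≤ _ := h16.trans h17
    have hYΦ0 : 0 ≤ Y - Φ := by linarith
    obtain ⟨S1, hS1⟩ : ∃ S1 : ℝ, S1 = ∑ m ∈ Om d u, ((Wt d u y T m).choose (k + 1) : ℝ) := ⟨_, rfl⟩
    obtain ⟨S2, hS2⟩ : ∃ S2 : ℝ, S2 = ∑ m ∈ Icc 1 d, ((Wt d u y T m).choose (k + 1) : ℝ) := ⟨_, rfl⟩
    rw [← hS1, ← hS2] at h2
    rw [← hS2] at h1
    rw [← hS1]
    obtain ⟨p1, p2⟩ := abs_le.1 h1
    obtain ⟨p3, p4⟩ := abs_le.1 h2
    have hYZ : (Y - Φ) * Z = Y * Z - Φ * Z := by ring
    have hYZ0 : 0 ≤ (Y - Φ) * Z := mul_nonneg hYΦ0 hZ0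
    rw [hYZ] at hA4 hYZ0
    rw [abs_le]
    constructor <;> linarith

/-- **The law over the reduced classes.** -/
theorem law_all (K : ℕ) (x0 ε : ℝ) (hx0 : 0 ≤ x0) (hε : 0 < ε) : ∃ r0 T0 : ℕ, 2 ≤ r0 ∧
    ∀ r : ℕ, r0 ≤ r → ∃ d0 : ℕ, ∀ d : ℕ, d0 ≤ d → ∀ u T : ℕ, T0 ≤ T →
      T * Vq (Qd d) ⌊(d : ℝ) ^ (1 / (r : ℝ))⌋₊ ≤ x0 →
      (∀ k ≤ K, |∑ m ∈ Om d u, ((Wt d u ⌊(d : ℝ) ^ (1 / (r : ℝ))⌋₊ T m).choose k : ℝ) -
        d.totient * ((T * Vq (Qd d) ⌊(d : ℝ) ^ (1 / (r : ℝ))⌋₊) ^ k / k.factorial)| ≤ ε * d.totient) ∧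
      ∀ A : Finset ℕ, |(((Om d u).filter (fun m => Wt d u ⌊(d : ℝ) ^ (1 / (r : ℝ))⌋₊ T m ∈ A)).card : ℝ) -
        d.totient * ∑ j ∈ A, Real.exp (-(T * Vq (Qd d) ⌊(d : ℝ) ^ (1 / (r : ℝ))⌋₊)) *
          (T * Vq (Qd d) ⌊(d : ℝ) ^ (1 / (r : ℝ))⌋₊) ^ j / j.factorial| ≤ ε * d.totient := by
  obtain ⟨R, η, hη, htv⟩ := law_tv x0 ε hx0 hε
  obtain ⟨r0, T0, hr0, h⟩ := mom_all (max R K) x0 (min η ε) hx0 (lt_min hη hε)
  refine ⟨r0, T0, hr0, ?_⟩
  intro r hr
  obtain ⟨d0, hd0⟩ := h r hr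
  refine ⟨d0, ?_⟩
  intro d hd u T hT hTV
  have hm := hd0 d hd u T hT hTV
  have htot : (0 : ℝ) ≤ d.totient := Nat.cast_nonneg _
  refine ⟨fun k hk => (hm k (hk.trans (le_max_right _ _))).trans
    (mul_le_mul_of_nonneg_right (min_le_right _ _) htot), ?_⟩
  intro A
  have h1 := htv (Om d u) (Wt d u ⌊(d : ℝ) ^ (1 / (r : ℝ))⌋₊ T)
    (T * Vq (Qd d) ⌊(d : ℝ) ^ (1 / (r : ℝ))⌋₊) (mul_nonneg (Nat.cast_nonneg _) (Vq_nonneg _ _)) hTV
    (fun k hk => by
      rw [card_Om]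
      exact (hm k (hk.trans (le_max_left _ _))).trans
        (mul_le_mul_of_nonneg_right (min_le_left _ _) htot)) A
  rw [card_Om] at h1
  exact h1

end Pool.Agent.H25.ClassLaw
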