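import Pool.Agent.H25.PrimePtE

set_option autoImplicit false

/-!
# Comparison of two adjacent gaps of rough integers, after a prime
-/

namespace Pool.Agent.H25.PairCmp

open Finset Filter
open Pool.Agent.H373R2.T7 Pool.Agent.W123.RP Pool.Agent.W123.RU Pool.Agent.TH464.PO
open Pool.Agent.H25.TwoPt Pool.Agent.H25.SetPt
open Pool.Agent.H25.TwoPtE (Rough U V U_up U_nonneg)
open Pool.Agent.H25.SetPtD (nu Admissible VA Others nuB_eq)
open Pool.Agent.H25.PrimePtC (OccP law)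

/-- `n`, `n + s`, `n + s + t` are consecutive rough integers. -/
def Two (z s t n : ℕ) : Prop :=
  Rough z n ∧ Rough z (n + s) ∧ Rough z (n + s + t) ∧
    ∀ m : ℕ, n < m → m < n + s + t → m ≠ n + s → ¬ Rough z m

/-- the pattern -/
def A3 (s t : ℕ) : Finset ℕ := {0, s, s + t}

lemma two_unique {z s t s' t' n : ℕ} (hs : 1 ≤ s) (ht : 1 ≤ t) (hs' : 1 ≤ s') (ht' : 1 ≤ t')
    (h : Two z s t n) (h' : Two z s' t' n) : s = s' ∧ t = t' := by
  obtain ⟨_, h1, h2, h3⟩ := h
  obtain ⟨_, h1', h2', h3'⟩ := h'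
  have e : s = s' := by
    rcases lt_trichotomy s s' with h | h | h
    · exact absurd h1 (h3' (n + s) (by omega) (by omega) (by omega))
    · exact h
    · exact absurd h1' (h3 (n + s') (by omega) (by omega) (by omega))
  subst e
  refine ⟨rfl, ?_⟩
  rcases lt_trichotomy t t' with h | h | h
  · exact absurd h2 (h3' (n + s + t) (by omega) (by omega) (by omega))
  · exact h
  · exact absurd h2' (h3 (n + s + t') (by omega) (by omega) (by omega))

lemma two_iff (z s t n : ℕ) :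
    Two z s t n ↔ (∀ h ∈ A3 s t, Rough z (n + h)) ∧ Others z (A3 s t) (s + t) n = 0 := by
  classical
  unfold Two Others A3
  rw [card_eq_zero, filter_eq_empty_iff]
  simp only [mem_insert, mem_singleton, forall_eq_or_imp, forall_eq, add_zero]
  constructor
  · rintro ⟨h1, h2, h3, h4⟩
    refine ⟨⟨h1, h2, by rw [← add_assoc]; exact h3⟩, ?_⟩
    rintro m hm ⟨h5, h6⟩
    rw [mem_Ioo] at hm
    exact h4 m hm.1 (by omega) (fun he => h5 (Or.inr (Or.inl (by omega)))) h6
  · rintro ⟨⟨h1, h2, h3⟩, h4⟩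
    refine ⟨h1, h2, by rw [add_assoc]; exact h3, ?_⟩
    intro m hm1 hm2 hm3 h6
    refine h4 (mem_Ioo.2 ⟨hm1, by omega⟩) ⟨?_, h6⟩
    omega

lemma nu_refl_le (s t p : ℕ) (hp : 1 ≤ p) : nu (A3 t s) p ≤ nu (A3 s t) p := by
  obtain ⟨q, rfl⟩ : ∃ q, p = q + 1 := ⟨p - 1, by omega⟩
  unfold nu
  refine le_trans (card_le_card (t := ((A3 s t).image (fun h => h % (q + 1))).image
    (fun r => (s + t + q * r) % (q + 1))) ?_) card_image_le
  intro x hx
  rw [mem_image] at hx
  obtain ⟨h, hh, rfl⟩ := hx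
  have hmul : ∀ a : ℕ, (s + t + q * (a % (q + 1))) % (q + 1) = (s + t + q * a) % (q + 1) := by
    intro a
    rw [Nat.add_mod, Nat.mul_mod, Nat.mod_mod, ← Nat.mul_mod, ← Nat.add_mod]
  unfold A3 at hh ⊢
  rw [mem_insert, mem_insert, mem_singleton] at hh
  rw [mem_image]
  rcases hh with rfl | rfl | rfl
  · refine ⟨(s + t) % (q + 1), mem_image.2 ⟨s + t, by simp, rfl⟩, ?_⟩
    rw [hmul, show s + t + q * (s + t) = (s + t) * (q + 1) by ring, Nat.mul_mod_left, Nat.zero_mod]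
  · refine ⟨s % (q + 1), mem_image.2 ⟨s, by simp, rfl⟩, ?_⟩
    rw [hmul, show s + h + q * s = h + s * (q + 1) by ring, Nat.add_mul_mod_self_right]
  · refine ⟨0 % (q + 1), mem_image.2 ⟨0, by simp, rfl⟩, ?_⟩
    rw [hmul, mul_zero, add_zero, add_comm]

lemma nu_refl (s t p : ℕ) (hp : 1 ≤ p) : nu (A3 t s) p = nu (A3 s t) p :=
  le_antisymm (nu_refl_le s t p hp) (nu_refl_le t s p hp)

lemma adm_refl {s t : ℕ} (h : Admissible (A3 s t)) : Admissible (A3 t s) := by
  intro p hp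
  rw [nu_refl s t p hp.one_lt.le]
  exact h p hp

lemma VA_refl (s t z : ℕ) : VA (A3 t s) z = VA (A3 s t) z := by
  unfold VA
  apply prod_congr rfl
  intro p hp
  rw [nu_refl s t p (mem_filter.1 hp).2.one_lt.le]

lemma A3_card {s t : ℕ} (hs : 1 ≤ s) (ht : 1 ≤ t) : (A3 s t).card = 3 := by
  unfold A3
  have h1 : s ≠ s + t := by omega
  rw [card_insert_of_notMem, card_pair h1]
  rw [mem_insert, mem_singleton]
  omega

/-- a rough triple is admissible -/
lemma adm_of_rough {z s t n : ℕ} (hz : 3 ≤ z) (h : ∀ x ∈ A3 s t, Rough z (n + x)) :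
    Admissible (A3 s t) := by
  classical
  intro p hp
  by_contra hcon
  rw [not_lt, ← nuB_eq _ p hp] at hcon
  have h3 : nu (A3 s t) p ≤ 3 := by
    unfold nu
    refine card_image_le.trans ?_
    unfold A3
    exact card_le_three
  rw [← nuB_eq _ p hp] at h3
  have hpz : p ≤ z := by omega
  unfold nuB at hcon
  have hall := (Finset.eq_of_subset_of_card_le (filter_subset _ (range p))
    (by rw [card_range]; exact hcon))
  have hn : n % p ∈ range p := mem_range.2 (Nat.mod_lt _ hp.pos)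
  rw [← hall, mem_filter] at hn
  obtain ⟨x, hx, hd⟩ := hn.2
  have hd' : p ∣ n + x := by
    have hd2 : p ∣ n % p + x := hd
    have e : n + x = n % p + x + p * (n / p) := by
      have := Nat.mod_add_div n p
      omega
    rw [e]
    exact Dvd.dvd.add hd2 (dvd_mul_right _ _)
  exact h x hx p hp hpz hd'

open Classical in
/-- The primes `n` in `(u, u + Y]` such that `n`, `n + s`, `n + s + t` are consecutive rough integers. -/
noncomputable def S (z u Y s t : ℕ) : Finset ℕ :=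
  (Ioc u (u + Y)).filter (fun n => n.Prime ∧ Two z s t n)

lemma S_eq (z u Y s t : ℕ) :
    S z u Y s t = (OccP z (A3 s t) u Y).filter (fun n => Others z (A3 s t) (s + t) n ∈ ({0} : Finset ℕ)) := by
  classical
  ext n
  unfold S OccP
  rw [mem_filter, mem_filter, mem_filter, two_iff, mem_singleton]
  tauto

/-- the asymptotic frequency of a pair of gaps -/
lemma asym (x₀ ε δ : ℝ) (hx : 0 ≤ x₀) (hε : 0 < ε) (hε1 : ε ≤ 1) (hδ : 0 < δ) (hδ1 : δ ≤ 1) :
    ∃ K z₀ : ℕ, 1 ≤ K ∧ 3 ≤ z₀ ∧ ∀ z : ℕ, z₀ ≤ z → ∀ X : ℕ, z ^ K ≤ X → ∀ s t : ℕ, 1 ≤ s → 1 ≤ t →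
      (((s + t : ℕ) : ℝ) - 1) * U z ≤ x₀ → Admissible (A3 s t) → 0 < VA (A3 s t) z ∧
      ∀ u Y : ℕ, δ * X ≤ u → δ * X ≤ Y → u + Y ≤ X →
        |((S z u Y s t).card : ℝ) - Y * (VA (A3 s t) z / U z) / Real.log X *
          Real.exp (-((((s + t : ℕ) : ℝ) - 1) * U z))| ≤
        ε * (Y * (VA (A3 s t) z / U z) / Real.log X * Real.exp (-((((s + t : ℕ) : ℝ) - 1) * U z))) := by
  have he1 : Real.exp (-x₀) ≤ 1 := Real.exp_le_one_iff.2 (by linarith)
  have he0 := Real.exp_pos (-x₀)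
  obtain ⟨K, z₀, hK, hz₀, H⟩ := law 3 x₀ (ε * Real.exp (-x₀)) δ hx (by positivity) (by nlinarith)
    hδ hδ1
  refine ⟨K, z₀ + 1, hK, by omega, ?_⟩
  intro z hz X hX s t hs ht hxt hadm
  obtain ⟨hV, H1⟩ := H z (by omega) X hX (A3 s t) (A3_card hs ht) (by unfold A3; simp) hadm (s + t)
    (by omega) (by
      intro h hh
      unfold A3 at hh
      rw [mem_insert, mem_insert, mem_singleton] at hh
      omega) hxt
  refine ⟨hV, ?_⟩
  intro u Y hu hY huY
  have h1 := H1 u Y hu hY huY {0}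
  rw [← S_eq, Finset.sum_singleton] at h1
  simp only [pow_zero, Nat.factorial_zero, Nat.cast_one, div_one, mul_one] at h1
  refine h1.trans ?_
  have h2 : Real.exp (-x₀) ≤ Real.exp (-((((s + t : ℕ) : ℝ) - 1) * U z)) :=
    Real.exp_le_exp.2 (by linarith)
  have hU0 := U_nonneg z
  have h3 : 0 ≤ (Y : ℝ) * (VA (A3 s t) z / U z) / Real.log X := by positivity
  calc ε * Real.exp (-x₀) * (Y * (VA (A3 s t) z / U z) / Real.log X) =
        ε * ((Y * (VA (A3 s t) z / U z) / Real.log X) * Real.exp (-x₀)) := by ring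
    _ ≤ _ := by gcongr

end Pool.Agent.H25.PairCmp
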