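import Pool.Agent.H25.PairA

set_option autoImplicit false

/-!
# Comparison of two adjacent gaps of rough integers, after a prime: increasing and decreasing pairs
-/

namespace Pool.Agent.H25.PairCmp

open Finset Filter
open Pool.Agent.H25.TwoPtE (Rough U V U_up U_nonneg)
open Pool.Agent.H25.SetPtD (nu Admissible VA Others nuB_eq)

open Classical in
/-- increasing pairs of gaps -/
noncomputable def Inc (z u Y D : ℕ) : Finset ℕ :=
  (Ioc u (u + Y)).filter (fun n => n.Prime ∧ ∃ s t : ℕ, 1 ≤ s ∧ s < t ∧ s + t ≤ D ∧ Two z s t n)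

open Classical in
/-- decreasing pairs of gaps -/
noncomputable def Dec (z u Y D : ℕ) : Finset ℕ :=
  (Ioc u (u + Y)).filter (fun n => n.Prime ∧ ∃ s t : ℕ, 1 ≤ t ∧ t < s ∧ s + t ≤ D ∧ Two z s t n)

open Classical in
/-- equal pairs of gaps -/
noncomputable def Eqq (z u Y D : ℕ) : Finset ℕ :=
  (Ioc u (u + Y)).filter (fun n => n.Prime ∧ ∃ s : ℕ, 1 ≤ s ∧ s + s ≤ D ∧ Two z s s n)

/-- the pairs -/
def I2 (D : ℕ) : Finset (ℕ × ℕ) :=
  (Icc 1 D ×ˢ Icc 1 D).filter (fun q => q.1 < q.2 ∧ q.1 + q.2 ≤ D)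

lemma mem_I2 {D : ℕ} {q : ℕ × ℕ} : q ∈ I2 D ↔ 1 ≤ q.1 ∧ q.1 < q.2 ∧ q.1 + q.2 ≤ D := by
  unfold I2
  rw [mem_filter, mem_product, mem_Icc, mem_Icc]
  omega

lemma inc_card (z u Y D : ℕ) : (Inc z u Y D).card = ∑ q ∈ I2 D, (S z u Y q.1 q.2).card := by
  classical
  rw [← card_biUnion]
  · congr 1
    ext n
    unfold Inc
    rw [mem_filter, mem_biUnion]
    constructor
    · rintro ⟨h1, h2, s, t, hs, hst, hD, h3⟩
      refine ⟨(s, t), mem_I2.2 ⟨hs, hst, hD⟩, ?_⟩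
      unfold S
      exact mem_filter.2 ⟨h1, h2, h3⟩
    · rintro ⟨q, hq, h⟩
      rw [mem_I2] at hq
      unfold S at h
      rw [mem_filter] at h
      exact ⟨h.1, h.2.1, q.1, q.2, hq.1, hq.2.1, hq.2.2, h.2.2⟩
  · intro q hq q' hq' hne
    rw [Function.onFun, disjoint_left]
    intro n h h'
    have hq := mem_I2.1 hq
    have hq' := mem_I2.1 hq'
    unfold S at h h'
    rw [mem_filter] at h h'
    obtain ⟨e1, e2⟩ := two_unique hq.1 (by omega) hq'.1 (by omega) h.2.2 h'.2.2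
    exact hne (Prod.ext e1 e2)

lemma dec_card (z u Y D : ℕ) : (Dec z u Y D).card = ∑ q ∈ I2 D, (S z u Y q.2 q.1).card := by
  classical
  rw [← card_biUnion]
  · congr 1
    ext n
    unfold Dec
    rw [mem_filter, mem_biUnion]
    constructor
    · rintro ⟨h1, h2, s, t, hs, hst, hD, h3⟩
      refine ⟨(t, s), mem_I2.2 ⟨hs, hst, by simp only; omega⟩, ?_⟩
      unfold S
      exact mem_filter.2 ⟨h1, h2, h3⟩
    · rintro ⟨q, hq, h⟩
      rw [mem_I2] at hq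
      unfold S at h
      rw [mem_filter] at h
      exact ⟨h.1, h.2.1, q.2, q.1, hq.1, hq.2.1, by omega, h.2.2⟩
  · intro q hq q' hq' hne
    rw [Function.onFun, disjoint_left]
    intro n h h'
    have hq := mem_I2.1 hq
    have hq' := mem_I2.1 hq'
    unfold S at h h'
    rw [mem_filter] at h h'
    obtain ⟨e1, e2⟩ := two_unique (by omega) hq.1 (by omega) hq'.1 h.2.2 h'.2.2
    exact hne (Prod.ext e2 e1)

lemma S_empty {z u Y s t : ℕ} (hz : 3 ≤ z) (h : ¬ Admissible (A3 s t)) : (S z u Y s t).card = 0 := by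
  classical
  rw [card_eq_zero]
  unfold S
  rw [filter_eq_empty_iff]
  rintro n _ ⟨_, h2⟩
  exact h (adm_of_rough hz ((two_iff z s t n).1 h2).1)

/-- **Increasing and decreasing pairs of adjacent gaps are equally frequent**, after primes. -/
theorem comp (x₀ ε δ : ℝ) (hx : 0 ≤ x₀) (hε : 0 < ε) (hε1 : ε ≤ 1) (hδ : 0 < δ) (hδ1 : δ ≤ 1) :
    ∃ K z₀ : ℕ, 1 ≤ K ∧ 3 ≤ z₀ ∧ ∀ z : ℕ, z₀ ≤ z → ∀ X : ℕ, z ^ K ≤ X → ∀ D : ℕ,
      ((D : ℝ) - 1) * U z ≤ x₀ → ∀ u Y : ℕ, δ * X ≤ u → δ * X ≤ Y → u + Y ≤ X →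
        |((Inc z u Y D).card : ℝ) - (Dec z u Y D).card| ≤ ε * (Inc z u Y D).card := by
  obtain ⟨K, z₀, hK, hz₀, H⟩ := asym x₀ (ε / 4) δ hx (by positivity) (by linarith) hδ hδ1
  refine ⟨K, z₀, hK, hz₀, ?_⟩
  intro z hz X hX D hD u Y hu hY huY
  rw [inc_card, dec_card]
  push_cast
  rw [← sum_sub_distrib, mul_sum]
  refine (abs_sum_le_sum_abs _ _).trans (sum_le_sum ?_)
  intro q hq
  rw [mem_I2] at hq
  have hU0 := U_nonneg z
  by_cases hadm : Admissible (A3 q.1 q.2)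
  · have hqD : (((q.1 + q.2 : ℕ) : ℝ) - 1) * U z ≤ x₀ := by
      have h1 : ((q.1 + q.2 : ℕ) : ℝ) ≤ D := by exact_mod_cast hq.2.2
      nlinarith
    obtain ⟨hV, h1⟩ := H z hz X hX q.1 q.2 hq.1 (by omega) hqD hadm
    obtain ⟨_, h2⟩ := H z hz X hX q.2 q.1 (by omega) hq.1 (by rw [add_comm q.2 q.1]; exact hqD)
      (adm_refl hadm)
    have h1 := h1 u Y hu hY huY
    have h2 := h2 u Y hu hY huY
    rw [VA_refl q.1 q.2, add_comm q.2 q.1] at h2
    obtain ⟨E, hE⟩ : ∃ E : ℝ, E = Y * (VA (A3 q.1 q.2) z / U z) / Real.log X *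
        Real.exp (-((((q.1 + q.2 : ℕ) : ℝ) - 1) * U z)) := ⟨_, rfl⟩
    rw [← hE] at h1 h2
    have hE0 : 0 ≤ E := by
      rw [hE]
      positivity
    rw [abs_le] at h1 h2 ⊢
    constructor <;> nlinarith [h1.1, h1.2, h2.1, h2.2]
  · rw [S_empty (by omega) hadm, S_empty (by omega) (fun h => hadm (adm_refl h))]
    simp

end Pool.Agent.H25.PairCmp
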