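import Pool.Agent.H25.PairB

set_option autoImplicit false

/-!
# Equal pairs of adjacent gaps of rough integers are rare
-/

namespace Pool.Agent.H25.PairCmp

open Finset Filter
open Pool.Agent.H25.TwoPtE (Rough U V U_up U_nonneg)
open Pool.Agent.H25.SetPtD (nu Admissible VA Others nuB_eq)

lemma fourth (k : ℕ) : (k + 1) ^ 4 ≤ 100 * 2 ^ k := by
  rcases Nat.lt_or_ge k 6 with h | h
  · interval_cases k <;> norm_num
  · induction k, h using Nat.le_induction with
    | base => norm_num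
    | succ n hn ih =>
      have h1 : (n + 1 + 1) ^ 4 ≤ 2 * (n + 1) ^ 4 := by
        obtain ⟨m, rfl⟩ : ∃ m, n = m + 6 := ⟨n - 6, by omega⟩
        ring_nf
        nlinarith [sq_nonneg m, Nat.zero_le (m ^ 3), Nat.zero_le (m ^ 4), Nat.zero_le (m ^ 2)]
      calc (n + 1 + 1) ^ 4 ≤ 2 * (n + 1) ^ 4 := h1
        _ ≤ 2 * (100 * 2 ^ n) := by gcongr
        _ = 100 * 2 ^ (n + 1) := by ring

lemma inv_prod (P : Finset ℕ) (hP : ∀ p ∈ P, p.Prime) :
    ∏ p ∈ P, (1 - 1 / (p : ℝ))⁻¹ ≤ P.card + 1 := by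
  induction P using Finset.induction_on_max with
  | empty => simp
  | insert a s hs ih =>
    have ha : a ∉ s := fun h => lt_irrefl _ (hs a h)
    have hap := hP a (mem_insert_self _ _)
    have ih' := ih (fun p hp => hP p (mem_insert_of_mem hp))
    rw [prod_insert ha, card_insert_of_notMem ha]
    have hc : s.card + 2 ≤ a := by
      have h1 : insert a s ⊆ Icc 2 a := by
        intro x hx
        rw [mem_Icc]
        refine ⟨(hP x hx).two_le, ?_⟩
        rcases mem_insert.1 hx with h | h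
        · omega
        · exact (hs x h).le
      have h2 := card_le_card h1
      rw [card_insert_of_notMem ha, Nat.card_Icc] at h2
      have := hap.two_le
      omega
    have hc' : (s.card : ℝ) + 2 ≤ a := by exact_mod_cast hc
    have h0 : (0 : ℝ) ≤ s.card := Nat.cast_nonneg _
    have h1 : (1 - 1 / (a : ℝ))⁻¹ ≤ (s.card + 2) / (s.card + 1) := by
      have ha0 : (0 : ℝ) < a := by linarith
      have e : 1 - 1 / (a : ℝ) = (a - 1) / a := by field_simp
      rw [e, inv_div, div_le_div_iff₀ (by linarith) (by linarith)]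
      nlinarith
    have h2 : (0 : ℝ) ≤ ∏ p ∈ s, (1 - 1 / (p : ℝ))⁻¹ := by
      apply prod_nonneg
      intro p hp
      rw [inv_nonneg, sub_nonneg]
      have : (1 : ℝ) ≤ p := by exact_mod_cast (hP p (mem_insert_of_mem hp)).one_lt.le
      rw [div_le_one (by linarith)]
      exact this
    calc (1 - 1 / (a : ℝ))⁻¹ * ∏ p ∈ s, (1 - 1 / (p : ℝ))⁻¹ ≤
          ((s.card + 2) / (s.card + 1)) * (s.card + 1) := by
            apply mul_le_mul h1 ih' h2 (by positivity)
      _ = s.card + 2 := by field_simp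
      _ = _ := by push_cast; ring

lemma nu3 (s p : ℕ) (_hp : p.Prime) (h : ¬ p ∣ 6 * s) : 3 ≤ nu (A3 s s) p := by
  have h2 : ¬ p ∣ s := fun hd => h (hd.mul_left 6)
  have h3 : ¬ p ∣ s + s := by
    intro hd
    rw [← two_mul] at hd
    exact h (by
      have : 6 * s = 3 * (2 * s) := by ring
      rw [this]
      exact hd.mul_left 3)
  unfold nu A3
  rw [image_insert, image_insert, image_singleton, Nat.zero_mod]
  have e1 : s % p ≠ (s + s) % p := by
    intro he
    have h5 : s + s ≡ s + 0 [MOD p] := by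
      rw [add_zero]
      exact he.symm
    have h6 : s ≡ 0 [MOD p] := Nat.ModEq.add_left_cancel' s h5
    exact h2 ((Nat.modEq_zero_iff_dvd).1 h6)
  have e2 : 0 ∉ ({s % p, (s + s) % p} : Finset ℕ) := by
    rw [mem_insert, mem_singleton]
    rintro (h7 | h7)
    · exact h2 (Nat.dvd_of_mod_eq_zero h7.symm)
    · exact h3 (Nat.dvd_of_mod_eq_zero h7.symm)
  rw [card_insert_of_notMem e2, card_pair e1]

lemma nu1' (A : Finset ℕ) (p : ℕ) (h : A.Nonempty) : 1 ≤ nu A p := by
  unfold nu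
  exact card_pos.2 (h.image _)

/-- the density of the pattern `0, s, 2 s` -/
lemma VA3 (s z : ℕ) (hs : 1 ≤ s) (hadm : Admissible (A3 s s)) :
    VA (A3 s s) z ≤ U z ^ 3 * Real.sqrt (600 * s) := by
  classical
  obtain ⟨P0, hP0⟩ : ∃ P0 : Finset ℕ, P0 = (Icc 1 z).filter Nat.Prime := ⟨_, rfl⟩
  have hpr : ∀ p ∈ P0, p.Prime := fun p hp => by
    rw [hP0] at hp
    exact (mem_filter.1 hp).2
  have step1 : VA (A3 s s) z ≤ ∏ p ∈ P0, ((1 - 1 / (p : ℝ)) ^ 3 *
      (if p ∣ 6 * s then ((1 - 1 / (p : ℝ))⁻¹) ^ 2 else 1)) := by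
    unfold VA
    rw [← hP0]
    apply Finset.prod_le_prod
    · intro p hp
      rw [sub_nonneg]
      have hp1 : (0 : ℝ) < p := by exact_mod_cast (hpr p hp).pos
      rw [div_le_one hp1]
      exact_mod_cast (hadm p (hpr p hp)).le
    · intro p hp
      have hpp := hpr p hp
      have hp1 : (2 : ℝ) ≤ p := by exact_mod_cast hpp.two_le
      have hp0 : (0 : ℝ) < p := by linarith
      split_ifs with h
      · have h1 : (1 : ℝ) ≤ nu (A3 s s) p := by
          exact_mod_cast nu1' _ p (by unfold A3; exact ⟨0, by simp⟩)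
        have h2 : 0 < 1 - 1 / (p : ℝ) := by
          rw [sub_pos, div_lt_one hp0]
          linarith
        have h3 : (1 - 1 / (p : ℝ)) ^ 3 * ((1 - 1 / (p : ℝ))⁻¹) ^ 2 = 1 - 1 / (p : ℝ) := by
          field_simp
        rw [h3]
        have h4 : 1 / (p : ℝ) ≤ (nu (A3 s s) p : ℝ) / p := by gcongr
        linarith
      · have h1 : (3 : ℝ) ≤ nu (A3 s s) p := by exact_mod_cast nu3 s p hpp h
        have h4 : 3 / (p : ℝ) ≤ (nu (A3 s s) p : ℝ) / p := by gcongr
        rw [mul_one]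
        obtain ⟨x, hx⟩ : ∃ x : ℝ, x = 1 / (p : ℝ) := ⟨_, rfl⟩
        have hx0 : 0 ≤ x := by rw [hx]; positivity
        have hx1 : x ≤ 1 := by
          rw [hx, div_le_one hp0]
          linarith
        have h5 : 3 / (p : ℝ) = 3 * x := by rw [hx]; ring
        rw [h5] at h4
        rw [← hx]
        nlinarith [mul_nonneg hx0 hx0, mul_nonneg (mul_nonneg hx0 hx0) (sub_nonneg.2 hx1)]
  have step2 : ∏ p ∈ P0, ((1 - 1 / (p : ℝ)) ^ 3 *
      (if p ∣ 6 * s then ((1 - 1 / (p : ℝ))⁻¹) ^ 2 else 1)) =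
      U z ^ 3 * (∏ p ∈ P0.filter (fun p => p ∣ 6 * s), (1 - 1 / (p : ℝ))⁻¹) ^ 2 := by
    rw [prod_mul_distrib, prod_pow, ← prod_filter, prod_pow]
    unfold U
    rw [← hP0]
  rw [step2] at step1
  refine step1.trans ?_
  have hU0 := U_nonneg z
  apply mul_le_mul_of_nonneg_left _ (by positivity)
  obtain ⟨Q, hQ⟩ : ∃ Q : Finset ℕ, Q = P0.filter (fun p => p ∣ 6 * s) := ⟨_, rfl⟩
  rw [← hQ]
  have hQp : ∀ p ∈ Q, p.Prime := fun p hp => by
    rw [hQ] at hp
    exact hpr p (mem_filter.1 hp).1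
  have h1 := inv_prod Q hQp
  have h0 : (0 : ℝ) ≤ ∏ p ∈ Q, (1 - 1 / (p : ℝ))⁻¹ := by
    apply prod_nonneg
    intro p hp
    rw [inv_nonneg, sub_nonneg]
    have : (1 : ℝ) ≤ p := by exact_mod_cast (hQp p hp).one_lt.le
    rw [div_le_one (by linarith)]
    exact this
  have h2 : 2 ^ Q.card ≤ 6 * s := by
    have h3 : Q ⊆ (6 * s).primeFactors := by
      intro p hp
      rw [Nat.mem_primeFactors]
      refine ⟨hQp p hp, ?_, by omega⟩
      rw [hQ] at hp
      exact (mem_filter.1 hp).2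
    calc 2 ^ Q.card ≤ 2 ^ (6 * s).primeFactors.card :=
          Nat.pow_le_pow_right (by norm_num) (card_le_card h3)
      _ ≤ ∏ p ∈ (6 * s).primeFactors, p := by
          apply Finset.pow_card_le_prod
          intro p hp
          exact (Nat.prime_of_mem_primeFactors hp).two_le
      _ ≤ 6 * s := Nat.le_of_dvd (by omega) (Nat.prod_primeFactors_dvd _)
  have h3 := fourth Q.card
  have h4 : (((Q.card : ℝ) + 1) ^ 2) ^ 2 ≤ 600 * s := by
    have h5 : (Q.card + 1) ^ 4 ≤ 600 * s := by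
      calc (Q.card + 1) ^ 4 ≤ 100 * 2 ^ Q.card := h3
        _ ≤ 100 * (6 * s) := by gcongr
        _ = 600 * s := by ring
    have h6 : (((Q.card + 1) ^ 4 : ℕ) : ℝ) ≤ ((600 * s : ℕ) : ℝ) := by exact_mod_cast h5
    push_cast at h6
    calc (((Q.card : ℝ) + 1) ^ 2) ^ 2 = ((Q.card : ℝ) + 1) ^ 4 := by ring
      _ ≤ _ := h6
  calc (∏ p ∈ Q, (1 - 1 / (p : ℝ))⁻¹) ^ 2 ≤ ((Q.card : ℝ) + 1) ^ 2 := by gcongr
    _ ≤ Real.sqrt (600 * s) := Real.le_sqrt_of_sq_le h4

end Pool.Agent.H25.PairCmp
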