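import Pool.Agent.H25.PairC

set_option autoImplicit false

/-!
# Two adjacent gaps after a prime: each order has probability one half
-/

namespace Pool.Agent.H25.PairCmp

open Finset Filter
open Pool.Agent.H25.TwoPtE (Rough U V U_up U_nonneg)
open Pool.Agent.H25.SetPtD (nu Admissible VA Others nuB_eq)
open Pool.Agent.H25.PrimePtD (PrimesIn after)

lemma eqq_card (z u Y D : ℕ) : (Eqq z u Y D).card ≤
    ∑ s ∈ (Icc 1 D).filter (fun s => s + s ≤ D), (S z u Y s s).card := by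
  classical
  refine le_trans (card_le_card ?_) card_biUnion_le
  intro n hn
  unfold Eqq at hn
  rw [mem_filter] at hn
  obtain ⟨h1, h2, s, hs, hD, h3⟩ := hn
  rw [mem_biUnion]
  refine ⟨s, mem_filter.2 ⟨mem_Icc.2 ⟨hs, by omega⟩, hD⟩, ?_⟩
  unfold S
  exact mem_filter.2 ⟨h1, h2, h3⟩

/-- equal pairs are rare -/
theorem eqq_small (x₀ ε δ : ℝ) (hx : 0 ≤ x₀) (hε : 0 < ε) (hδ : 0 < δ) (hδ1 : δ ≤ 1) :
    ∃ K z₀ : ℕ, 1 ≤ K ∧ 3 ≤ z₀ ∧ ∀ z : ℕ, z₀ ≤ z → ∀ X : ℕ, z ^ K ≤ X → ∀ D : ℕ,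
      (D : ℝ) * U z ≤ x₀ → ∀ u Y : ℕ, δ * X ≤ u → δ * X ≤ Y → u + Y ≤ X →
        ((Eqq z u Y D).card : ℝ) ≤ ε * (Y / Real.log X) := by
  obtain ⟨K, z₀, hK, hz₀, H⟩ := asym x₀ 1 δ hx one_pos le_rfl hδ hδ1
  obtain ⟨C, hC, hUup⟩ := U_up
  obtain ⟨κ, hκ⟩ : ∃ κ : ℝ, κ = ε ^ 2 / (2400 * (x₀ ^ 3 + 1)) := ⟨_, rfl⟩
  have hκ0 : 0 < κ := by rw [hκ]; positivity
  obtain ⟨z₁, hz₁⟩ := exists_nat_ge (Real.exp (C / κ))
  refine ⟨K, z₀ + z₁, hK, by omega, ?_⟩
  intro z hz X hX D hD u Y hu hY huY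
  have hU0 := U_nonneg z
  have hzr : (0 : ℝ) < z := by exact_mod_cast (by omega : 0 < z)
  have hlog : C / κ ≤ Real.log z := by
    rw [Real.le_log_iff_exp_le hzr]
    exact hz₁.trans (by exact_mod_cast (by omega : z₁ ≤ z))
  have hlog0 : 0 < Real.log z := lt_of_lt_of_le (by positivity) hlog
  have hUκ : U z ≤ κ := by
    refine (hUup z (by omega)).trans ?_
    rw [div_le_iff₀ hlog0]
    rw [div_le_iff₀ hκ0] at hlog
    linarith
  have hzK : z ≤ X := by
    calc z = z ^ 1 := (pow_one z).symm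
      _ ≤ z ^ K := Nat.pow_le_pow_right (by omega) hK
      _ ≤ X := hX
  have hlX : 0 < Real.log X := Real.log_pos (by exact_mod_cast (by omega : 1 < X))
  obtain ⟨L, hL⟩ : ∃ L : ℝ, L = Y / Real.log X := ⟨_, rfl⟩
  have hL0 : 0 ≤ L := by rw [hL]; positivity
  have hUpos : 0 < U z := by
    unfold U
    apply Finset.prod_pos
    intro p hp
    have hpp := (mem_filter.1 hp).2
    have h2 : (1 : ℝ) < p := by exact_mod_cast hpp.one_lt
    have h3 : 1 / (p : ℝ) < 1 := by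
      rw [div_lt_one (by linarith)]
      exact h2
    linarith
  obtain ⟨R, hR⟩ : ∃ R : ℝ, R = Real.sqrt (600 * D) := ⟨_, rfl⟩
  have hR0 : 0 ≤ R := by rw [hR]; exact Real.sqrt_nonneg _
  have hR2 : R ^ 2 = 600 * D := by rw [hR]; exact Real.sq_sqrt (by positivity)
  have hterm : ∀ s ∈ (Icc 1 D).filter (fun s => s + s ≤ D),
      ((S z u Y s s).card : ℝ) ≤ 2 * L * U z ^ 2 * R := by
    intro s hs
    rw [mem_filter, mem_Icc] at hs
    by_cases hadm : Admissible (A3 s s)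
    · have hq : (((s + s : ℕ) : ℝ) - 1) * U z ≤ x₀ := by
        have h1 : ((s + s : ℕ) : ℝ) ≤ D := by exact_mod_cast hs.2
        nlinarith
      obtain ⟨hV, h1⟩ := H z (by omega) X hX s s hs.1.1 hs.1.1 hq hadm
      have h1 := h1 u Y hu hY huY
      have hs1 : (1 : ℝ) ≤ ((s + s : ℕ) : ℝ) := by exact_mod_cast (by omega : 1 ≤ s + s)
      have hex : Real.exp (-((((s + s : ℕ) : ℝ) - 1) * U z)) ≤ 1 := by
        rw [Real.exp_le_one_iff]
        have : 0 ≤ (((s + s : ℕ) : ℝ) - 1) * U z := mul_nonneg (by linarith) hU0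
        linarith
      have hex0 := Real.exp_pos (-((((s + s : ℕ) : ℝ) - 1) * U z))
      have h2 := (abs_le.1 h1).2
      have hVA := VA3 s z hs.1.1 hadm
      have hRs : Real.sqrt (600 * s) ≤ R := by
        rw [hR]
        apply Real.sqrt_le_sqrt
        have : (s : ℝ) ≤ D := by exact_mod_cast hs.1.2
        linarith
      have hVU : VA (A3 s s) z / U z ≤ U z ^ 2 * R := by
        rw [div_le_iff₀ hUpos]
        calc VA (A3 s s) z ≤ U z ^ 3 * Real.sqrt (600 * s) := hVA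
          _ ≤ U z ^ 3 * R := by gcongr
          _ = U z ^ 2 * R * U z := by ring
      have e : (Y : ℝ) * (VA (A3 s s) z / U z) / Real.log X = L * (VA (A3 s s) z / U z) := by
        rw [hL]
        ring
      rw [e] at h2
      have hVU0 : 0 ≤ VA (A3 s s) z / U z := by positivity
      have h3 : L * (VA (A3 s s) z / U z) * Real.exp (-((((s + s : ℕ) : ℝ) - 1) * U z)) ≤
          L * (VA (A3 s s) z / U z) := by
        have : 0 ≤ L * (VA (A3 s s) z / U z) := by positivity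
        nlinarith
      have h4 : L * (VA (A3 s s) z / U z) ≤ L * (U z ^ 2 * R) := by gcongr
      linarith
    · rw [S_empty (by omega) hadm, Nat.cast_zero]
      positivity
  have h1 : ((Eqq z u Y D).card : ℝ) ≤ D * (2 * L * U z ^ 2 * R) := by
    calc ((Eqq z u Y D).card : ℝ) ≤
          ((∑ s ∈ (Icc 1 D).filter (fun s => s + s ≤ D), (S z u Y s s).card : ℕ) : ℝ) := by
            exact_mod_cast eqq_card z u Y D
      _ = ∑ s ∈ (Icc 1 D).filter (fun s => s + s ≤ D), ((S z u Y s s).card : ℝ) := by push_cast; rfl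
      _ ≤ ∑ s ∈ (Icc 1 D).filter (fun s => s + s ≤ D), (2 * L * U z ^ 2 * R) := sum_le_sum hterm
      _ = ((Icc 1 D).filter (fun s => s + s ≤ D)).card * (2 * L * U z ^ 2 * R) := by
            rw [sum_const, nsmul_eq_mul]
      _ ≤ D * (2 * L * U z ^ 2 * R) := by
            have h2 : ((Icc 1 D).filter (fun s => s + s ≤ D)).card ≤ D := by
              have := card_filter_le (Icc 1 D) (fun s => s + s ≤ D)
              rw [Nat.card_Icc] at this
              omega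
            have h3 : (((Icc 1 D).filter (fun s => s + s ≤ D)).card : ℝ) ≤ D := by
              exact_mod_cast h2
            have h4 : 0 ≤ 2 * L * U z ^ 2 * R := by positivity
            exact mul_le_mul_of_nonneg_right h3 h4
  have h2 : D * (2 * U z ^ 2 * R) ≤ ε := by
    apply abs_le_of_sq_le_sq' _ hε.le |>.2
    have hD0 : (0 : ℝ) ≤ D := Nat.cast_nonneg _
    have h5 : (D * U z) ^ 3 ≤ x₀ ^ 3 := pow_le_pow_left₀ (by positivity) hD 3
    calc (D * (2 * U z ^ 2 * R)) ^ 2 = 4 * D ^ 2 * U z ^ 4 * R ^ 2 := by ring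
      _ = 2400 * (D * U z) ^ 3 * U z := by rw [hR2]; ring
      _ ≤ 2400 * x₀ ^ 3 * κ := by gcongr
      _ ≤ 2400 * (x₀ ^ 3 + 1) * κ := by
          have : 0 ≤ κ := hκ0.le
          nlinarith
      _ = ε ^ 2 := by rw [hκ]; field_simp
  rw [← hL]
  calc ((Eqq z u Y D).card : ℝ) ≤ D * (2 * L * U z ^ 2 * R) := h1
    _ = (D * (2 * U z ^ 2 * R)) * L := by ring
    _ ≤ ε * L := by gcongr

end Pool.Agent.H25.PairCmp
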