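import Pool.Agent.H25.PairD

set_option autoImplicit false

/-!
# Two adjacent gaps after a prime: each order has probability one half (conclusion)
-/

namespace Pool.Agent.H25.PairCmp

open Finset Filter
open Pool.Agent.H25.TwoPtE (Rough U V U_up U_nonneg)
open Pool.Agent.H25.PrimePtD (PrimesIn after)

lemma two_of_btw {z D n : ℕ} (hn : Rough z n)
    (h : 2 ≤ Pool.Agent.H25.TwoPtE.Btw z (D + 1) n) :
    ∃ s t : ℕ, 1 ≤ s ∧ 1 ≤ t ∧ s + t ≤ D ∧ Two z s t n := by
  classical
  obtain ⟨F, hF⟩ : ∃ F : Finset ℕ, F = (Ioo n (n + (D + 1))).filter (fun m => Rough z m) := ⟨_, rfl⟩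
  have hFc : 2 ≤ F.card := by
    unfold Pool.Agent.H25.TwoPtE.Btw at h
    rw [hF]
    convert h
  have hmem : ∀ m, m ∈ F ↔ (n < m ∧ m < n + (D + 1)) ∧ Rough z m := by
    intro m
    rw [hF, mem_filter, mem_Ioo]
  have hne : F.Nonempty := card_pos.1 (by omega)
  obtain ⟨m1, hm1⟩ : ∃ m1, m1 = F.min' hne := ⟨_, rfl⟩
  have hm1F : m1 ∈ F := by rw [hm1]; exact F.min'_mem hne
  have hne' : (F.erase m1).Nonempty := by
    apply card_pos.1
    rw [card_erase_of_mem hm1F]
    omega
  obtain ⟨m2, hm2⟩ : ∃ m2, m2 = (F.erase m1).min' hne' := ⟨_, rfl⟩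
  have hm2F' : m2 ∈ F.erase m1 := by rw [hm2]; exact (F.erase m1).min'_mem hne'
  have hm2F := mem_of_mem_erase hm2F'
  have hne12 : m2 ≠ m1 := ne_of_mem_erase hm2F'
  have hle : m1 ≤ m2 := by rw [hm1]; exact F.min'_le m2 hm2F
  have h1 := (hmem m1).1 hm1F
  have h2 := (hmem m2).1 hm2F
  refine ⟨m1 - n, m2 - m1, by omega, by omega, by omega, hn, ?_, ?_, ?_⟩
  · rw [show n + (m1 - n) = m1 by omega]
    exact h1.2
  · rw [show n + (m1 - n) + (m2 - m1) = m2 by omega]
    exact h2.2
  · intro m h3 h4 h5 h6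
    have h7 : m ∈ F.erase m1 := by
      rw [mem_erase, hmem]
      exact ⟨by omega, ⟨h3, by omega⟩, h6⟩
    have h8 : m2 ≤ m := by rw [hm2]; exact (F.erase m1).min'_le m h7
    omega

open Classical in
/-- The primes `n` in `(u, u + Y]` for which the distance from `n` to the next rough integer is less than the distance
from this one to the following rough integer. -/
noncomputable def Less (z u Y : ℕ) : Finset ℕ :=
  (Ioc u (u + Y)).filter (fun n => n.Prime ∧ ∃ s t : ℕ, 1 ≤ s ∧ s < t ∧ Two z s t n)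

open Classical in
/-- The same with less or equal. -/
noncomputable def LessEq (z u Y : ℕ) : Finset ℕ :=
  (Ioc u (u + Y)).filter (fun n => n.Prime ∧ ∃ s t : ℕ, 1 ≤ s ∧ s ≤ t ∧ Two z s t n)

/-- The primes in `(u, u + Y]`. -/
def Primes (u Y : ℕ) : Finset ℕ := (Ioc u (u + Y)).filter Nat.Prime

lemma rough_prime {z n : ℕ} (hn : n.Prime) (h : z < n) : Rough z n := by
  intro p hp hpz hd
  rcases (Nat.dvd_prime hn).1 hd with h1 | h1
  · exact hp.one_lt.ne' h1
  · omega

lemma primes_eq (z u Y : ℕ) (h : z ≤ u) : PrimesIn z u Y = Primes u Y := by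
  classical
  ext n
  unfold PrimesIn Primes
  rw [mem_filter, mem_filter, mem_Ioc]
  constructor
  · exact fun h => ⟨h.1, h.2.1⟩
  · exact fun h' => ⟨h'.1, h'.2, rough_prime h'.2 (by omega)⟩

/-- **For one half of the primes `n` of every interval of proportional length the next gap of rough integers
is at most the following one.** -/
theorem half (ε δ : ℝ) (hε : 0 < ε) (hε1 : ε ≤ 1) (hδ : 0 < δ) (hδ1 : δ ≤ 1) :
    ∃ K z₀ : ℕ, 1 ≤ K ∧ 3 ≤ z₀ ∧ ∀ z : ℕ, z₀ ≤ z → ∀ X : ℕ, z ^ K ≤ X →
      ∀ u Y : ℕ, δ * X ≤ u → δ * X ≤ Y → u + Y ≤ X → 0 < (Primes u Y).card ∧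
        |((LessEq z u Y).card : ℝ) - (Primes u Y).card / 2| ≤ ε * (Primes u Y).card ∧
        |((Less z u Y).card : ℝ) - (Primes u Y).card / 2| ≤ ε * (Primes u Y).card := by
  classical
  obtain ⟨η, hη⟩ : ∃ η : ℝ, η = ε / 8 := ⟨_, rfl⟩
  have hη0 : 0 < η := by rw [hη]; positivity
  have hη1 : η ≤ 1 / 8 := by rw [hη]; linarith
  obtain ⟨x₀, hx₀⟩ : ∃ x₀ : ℝ, x₀ = 4 / η + 1 := ⟨_, rfl⟩
  have hx0 : 0 ≤ x₀ := by rw [hx₀]; positivity
  obtain ⟨K1, z1, hK1, hz1, H1⟩ := comp x₀ η δ hx0 hη0 (by linarith) hδ hδ1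
  obtain ⟨K2, z2, hK2, hz2, H2⟩ := eqq_small x₀ η δ hx0 hη0 hδ hδ1
  obtain ⟨K3, z3, hK3, hz3, H3⟩ := after x₀ η δ hx0 hη0 (by linarith) hδ hδ1
  obtain ⟨z4, hz4⟩ := exists_nat_ge (1 / δ)
  refine ⟨K1 + K2 + K3, z1 + z2 + z3 + z4, by omega, by omega, ?_⟩
  intro z hz X hX u Y hu hY huY
  have hzr : (0 : ℝ) < z := by exact_mod_cast (by omega : 0 < z)
  have hp : ∀ k ≤ K1 + K2 + K3, z ^ k ≤ X := fun k hk =>
    (Nat.pow_le_pow_right (by omega) hk).trans hX
  have hzu : z ≤ u := by
    have h1 : ((z ^ 2 : ℕ) : ℝ) ≤ X := by exact_mod_cast hp 2 (by omega)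
    push_cast at h1
    have h2 : 1 / δ ≤ z := hz4.trans (by exact_mod_cast (by omega : z4 ≤ z))
    rw [div_le_iff₀ hδ] at h2
    have h3 : (z : ℝ) ≤ u := by
      calc (z : ℝ) = z * 1 := (mul_one _).symm
        _ ≤ z * (z * δ) := by gcongr
        _ = δ * (z : ℝ) ^ 2 := by ring
        _ ≤ δ * X := by gcongr
        _ ≤ u := hu
    exact_mod_cast h3
  have hzX : z ≤ X := by simpa using hp 1 (by omega)
  have hX0 : (0 : ℝ) < X := by exact_mod_cast (by omega : 0 < X)
  have hlX : 0 < Real.log X := Real.log_pos (by exact_mod_cast (by omega : 1 < X))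
  have hY0 : (0 : ℝ) < Y := lt_of_lt_of_le (by positivity) hY
  obtain ⟨L, hL⟩ : ∃ L : ℝ, L = Y / Real.log X := ⟨_, rfl⟩
  have hL0 : 0 < L := by rw [hL]; positivity
  obtain ⟨hU, H3⟩ := H3 z (by omega) X (hp _ (by omega))
  have hU1 : U z ≤ 1 := by
    unfold U
    apply Finset.prod_le_one
    · intro p hp
      have hpp := (mem_filter.1 hp).2
      have h2 : (1 : ℝ) < p := by exact_mod_cast hpp.one_lt
      rw [sub_nonneg, div_le_one (by linarith)]
      exact h2.le
    · intro p _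
      have : (0 : ℝ) ≤ 1 / p := by positivity
      linarith
  obtain ⟨D, hD⟩ : ∃ D : ℕ, D = ⌊x₀ / U z⌋₊ := ⟨_, rfl⟩
  have hD1 : (D : ℝ) * U z ≤ x₀ := by
    have := Nat.floor_le (show 0 ≤ x₀ / U z by positivity)
    rw [← hD, le_div_iff₀ hU] at this
    exact this
  have hD2 : x₀ - 1 ≤ (D : ℝ) * U z := by
    have := Nat.lt_floor_add_one (x₀ / U z)
    rw [← hD, div_lt_iff₀ hU] at this
    linarith
  have hC := H1 z (by omega) X (hp _ (by omega)) D (by linarith) u Y hu hY huY
  have hE := H2 z (by omega) X (hp _ (by omega)) D hD1 u Y hu hY huY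
  rw [← hL] at hE
  -- the number of the primes
  have hP : |((Primes u Y).card : ℝ) - L| ≤ η * L := by
    have h := H3 1 le_rfl (by simpa using hx0) u Y hu hY huY {0}
    have e : (PrimesIn z u Y).filter
        (fun n => Pool.Agent.H25.TwoPtE.Btw z 1 n ∈ ({0} : Finset ℕ)) = Primes u Y := by
      rw [← primes_eq z u Y hzu]
      apply filter_true_of_mem
      intro n _
      rw [mem_singleton]
      unfold Pool.Agent.H25.TwoPtE.Btw
      rw [card_eq_zero, filter_eq_empty_iff]
      intro m hm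
      rw [mem_Ioo] at hm
      omega
    rw [e, Finset.sum_singleton, ← hL] at h
    simpa using h
  -- few rough integers in the window
  obtain ⟨B2, hB2⟩ : ∃ B2 : Finset ℕ, B2 = (PrimesIn z u Y).filter
    (fun n => Pool.Agent.H25.TwoPtE.Btw z (D + 1) n ∈ ({0, 1} : Finset ℕ)) := ⟨_, rfl⟩
  have hB : (B2.card : ℝ) ≤ 2 * η * L := by
    have h := H3 (D + 1) (by omega) (by push_cast; simpa using hD1) u Y hu hY huY {0, 1}
    rw [← hB2, Finset.sum_pair (by norm_num), ← hL] at h
    have e : (((D + 1 : ℕ) : ℝ) - 1) * U z = D * U z := by push_cast; ring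
    rw [e] at h
    obtain ⟨lam, hlam⟩ : ∃ lam : ℝ, lam = D * U z := ⟨_, rfl⟩
    rw [← hlam] at h hD2
    have hlam0 : 4 / η ≤ lam := by rw [hx₀] at hD2; linarith
    have hlamp : 0 < lam := lt_of_lt_of_le (by positivity) hlam0
    simp only [pow_zero, Nat.factorial_zero, Nat.cast_one, div_one, mul_one, pow_one,
      Nat.factorial_one] at h
    have h1 := (abs_le.1 h).2
    have h2 : Real.exp (-lam) + Real.exp (-lam) * lam ≤ η := by
      have h3 : lam / 2 + 1 ≤ Real.exp (lam / 2) := Real.add_one_le_exp _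
      have h4 : Real.exp lam = Real.exp (lam / 2) * Real.exp (lam / 2) := by
        rw [← Real.exp_add]
        congr 1
        ring
      have h5 : (lam / 2 + 1) * (lam / 2 + 1) ≤ Real.exp lam := by
        rw [h4]
        exact mul_le_mul h3 h3 (by linarith) (Real.exp_pos _).le
      have h6 : 4 ≤ η * lam := by
        rw [div_le_iff₀ hη0] at hlam0
        linarith
      have h7 : 1 + lam ≤ η * Real.exp lam := by
        have h8 : η * ((lam / 2 + 1) * (lam / 2 + 1)) ≤ η * Real.exp lam := by gcongr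
        nlinarith
      have h9 : Real.exp (-lam) * Real.exp lam = 1 := by
        rw [← Real.exp_add]
        simp
      calc Real.exp (-lam) + Real.exp (-lam) * lam = Real.exp (-lam) * (1 + lam) := by ring
        _ ≤ Real.exp (-lam) * (η * Real.exp lam) := by
            have := (Real.exp_pos (-lam)).le
            gcongr
        _ = η * (Real.exp (-lam) * Real.exp lam) := by ring
        _ = η := by rw [h9, mul_one]
    have h10 : L * (Real.exp (-lam) + Real.exp (-lam) * lam) ≤ L * η := by gcongr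
    linarith
  -- covering
  have hcov : ((Primes u Y).card : ℝ) ≤
      (Inc z u Y D).card + (Dec z u Y D).card + (Eqq z u Y D).card + B2.card := by
    have h1 : Primes u Y ⊆ ((Inc z u Y D ∪ Dec z u Y D) ∪ Eqq z u Y D) ∪ B2 := by
      intro n hn
      rw [← primes_eq z u Y hzu] at hn
      have hn' := hn
      unfold PrimesIn at hn'
      rw [mem_filter] at hn'
      rw [mem_union, mem_union, mem_union]
      by_cases hb : Pool.Agent.H25.TwoPtE.Btw z (D + 1) n ∈ ({0, 1} : Finset ℕ)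
      · right
        rw [hB2]
        exact mem_filter.2 ⟨hn, hb⟩
      · left
        rw [mem_insert, mem_singleton] at hb
        obtain ⟨s, t, hs, ht, hst, h2⟩ := two_of_btw (D := D) hn'.2.2 (by omega)
        rcases lt_trichotomy s t with h | h | h
        · left; left
          unfold Inc
          exact mem_filter.2 ⟨hn'.1, hn'.2.1, s, t, hs, h, hst, h2⟩
        · right
          subst h
          unfold Eqq
          exact mem_filter.2 ⟨hn'.1, hn'.2.1, s, hs, hst, h2⟩
        · left; right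
          unfold Dec
          exact mem_filter.2 ⟨hn'.1, hn'.2.1, s, t, ht, h, hst, h2⟩
    have h2 := card_le_card h1
    have h3 := card_union_le ((Inc z u Y D ∪ Dec z u Y D) ∪ Eqq z u Y D) B2
    have h4 := card_union_le (Inc z u Y D ∪ Dec z u Y D) (Eqq z u Y D)
    have h5 := card_union_le (Inc z u Y D) (Dec z u Y D)
    exact_mod_cast (by omega : (Primes u Y).card ≤
      (Inc z u Y D).card + (Dec z u Y D).card + (Eqq z u Y D).card + B2.card)
  -- sandwich
  have hs1 : (Inc z u Y D).card ≤ (Less z u Y).card := by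
    apply card_le_card
    intro n hn
    unfold Inc at hn
    rw [mem_filter] at hn
    obtain ⟨h1, h2, s, t, hs, hst, _, h3⟩ := hn
    unfold Less
    exact mem_filter.2 ⟨h1, h2, s, t, hs, hst, h3⟩
  have hs2 : (Less z u Y).card ≤ (LessEq z u Y).card := by
    apply card_le_card
    intro n hn
    unfold Less at hn
    rw [mem_filter] at hn
    obtain ⟨h1, h2, s, t, hs, hst, h3⟩ := hn
    unfold LessEq
    exact mem_filter.2 ⟨h1, h2, s, t, hs, hst.le, h3⟩
  have hs3 : (LessEq z u Y).card + (Dec z u Y D).card ≤ (Primes u Y).card := by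
    rw [← card_union_of_disjoint]
    · apply card_le_card
      intro n hn
      rw [mem_union] at hn
      unfold Primes
      rcases hn with h | h
      · unfold LessEq at h
        rw [mem_filter] at h
        exact mem_filter.2 ⟨h.1, h.2.1⟩
      · unfold Dec at h
        rw [mem_filter] at h
        exact mem_filter.2 ⟨h.1, h.2.1⟩
    · rw [disjoint_left]
      intro n h h'
      unfold LessEq at h
      unfold Dec at h'
      rw [mem_filter] at h h'
      obtain ⟨_, _, s, t, hs, hst, h3⟩ := h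
      obtain ⟨_, _, s', t', hs', hst', _, h3'⟩ := h'
      obtain ⟨e1, e2⟩ := two_unique hs (by omega) (by omega) hs' h3 h3'
      omega
  have hs1' : ((Inc z u Y D).card : ℝ) ≤ (Less z u Y).card := by exact_mod_cast hs1
  have hs2' : ((Less z u Y).card : ℝ) ≤ (LessEq z u Y).card := by exact_mod_cast hs2
  have hs3' : ((LessEq z u Y).card : ℝ) + (Dec z u Y D).card ≤ (Primes u Y).card := by
    exact_mod_cast hs3
  obtain ⟨P, hPe⟩ : ∃ P : ℝ, P = (Primes u Y).card := ⟨_, rfl⟩
  rw [← hPe] at hP hcov hs3' ⊢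
  have hP1 := abs_le.1 hP
  have hPL : L ≤ 8 / 7 * P := by nlinarith [hP1.1]
  have hP0 : 0 < P := by nlinarith
  have hI0 : (0 : ℝ) ≤ (Inc z u Y D).card := Nat.cast_nonneg _
  have hD0 : (0 : ℝ) ≤ (Dec z u Y D).card := Nat.cast_nonneg _
  have hC1 := abs_le.1 hC
  have hIP : ((Inc z u Y D).card : ℝ) ≤ P := by linarith
  have hIη : η * ((Inc z u Y D).card : ℝ) ≤ η * P := by gcongr
  have hηL : η * L ≤ 8 / 7 * (η * P) := by nlinarith
  have hεP : ε * P = 8 * (η * P) := by rw [hη]; ring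
  have hηP : 0 < η * P := by positivity
  refine ⟨?_, ?_, ?_⟩
  · rw [hPe] at hP0
    exact_mod_cast hP0
  · rw [hεP, abs_le]
    constructor <;> linarith [hC1.1, hC1.2]
  · rw [hεP, abs_le]
    constructor <;> linarith [hC1.1, hC1.2]

end Pool.Agent.H25.PairCmp
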