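import Pool.Agent.H25.PairE

set_option autoImplicit false

/-!
# Two adjacent gaps of rough integers: each order has probability one half, in all intervals
-/

namespace Pool.Agent.H25.PairRg

open Finset Filter
open Pool.Agent.H25.TwoPtE (Rough U V U_up U_nonneg)
open Pool.Agent.H25.SetPtD (nu Admissible VA Others Occ law nuB_eq)
open Pool.Agent.H25.PrimePtD (VA_single adm_single others_single)
open Pool.Agent.H25.PairCmp (Two A3 two_unique two_iff adm_refl VA_refl A3_card adm_of_rough I2 mem_I2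
  VA3 two_of_btw)

open Classical in
/-- The `n` in `(u, u + Y]` such that `n`, `n + s`, `n + s + t` are consecutive rough integers. -/
noncomputable def S (z u Y s t : ℕ) : Finset ℕ :=
  (Ioc u (u + Y)).filter (fun n => Two z s t n)

lemma S_eq (z u Y s t : ℕ) :
    S z u Y s t = (Occ z (A3 s t) u Y).filter (fun n => Others z (A3 s t) (s + t) n ∈ ({0} : Finset ℕ)) := by
  classical
  ext n
  unfold S Occ
  rw [mem_filter, mem_filter, mem_filter, two_iff, mem_singleton]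
  tauto

/-- the asymptotic frequency of a pair of gaps -/
lemma asym (x₀ ε : ℝ) (hx : 0 ≤ x₀) (hε : 0 < ε) (hε1 : ε ≤ 1) :
    ∃ K z₀ : ℕ, 1 ≤ K ∧ 3 ≤ z₀ ∧ ∀ z : ℕ, z₀ ≤ z → ∀ s t : ℕ, 1 ≤ s → 1 ≤ t →
      (((s + t : ℕ) : ℝ) - 1) * U z ≤ x₀ → Admissible (A3 s t) → 0 < VA (A3 s t) z ∧
      ∀ u Y : ℕ, z ^ K ≤ Y →
        |((S z u Y s t).card : ℝ) - Y * VA (A3 s t) z *
          Real.exp (-((((s + t : ℕ) : ℝ) - 1) * U z))| ≤
        ε * (Y * VA (A3 s t) z * Real.exp (-((((s + t : ℕ) : ℝ) - 1) * U z))) := by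
  have he1 : Real.exp (-x₀) ≤ 1 := Real.exp_le_one_iff.2 (by linarith)
  have he0 := Real.exp_pos (-x₀)
  obtain ⟨K, z₀, hK, hz₀, H⟩ := law 3 (by norm_num) x₀ (ε * Real.exp (-x₀)) hx (by positivity)
    (by nlinarith)
  refine ⟨K, z₀ + 1, hK, by omega, ?_⟩
  intro z hz s t hs ht hxt hadm
  obtain ⟨hV, H1⟩ := H z (by omega) (A3 s t) (A3_card hs ht) hadm (s + t)
    (by omega) (by
      intro h hh
      unfold A3 at hh
      rw [mem_insert, mem_insert, mem_singleton] at hh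
      omega) hxt
  refine ⟨hV, ?_⟩
  intro u Y hY
  have h1 := H1 u Y hY {0}
  rw [← S_eq, Finset.sum_singleton] at h1
  simp only [pow_zero, Nat.factorial_zero, Nat.cast_one, div_one, mul_one] at h1
  refine h1.trans ?_
  have h2 : Real.exp (-x₀) ≤ Real.exp (-((((s + t : ℕ) : ℝ) - 1) * U z)) :=
    Real.exp_le_exp.2 (by linarith)
  have h3 : 0 ≤ (Y : ℝ) * VA (A3 s t) z := by positivity
  calc ε * Real.exp (-x₀) * (Y * VA (A3 s t) z) =
        ε * ((Y * VA (A3 s t) z) * Real.exp (-x₀)) := by ring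
    _ ≤ _ := by gcongr

open Classical in
/-- The rough integers in `(u, u + Y]`. -/
noncomputable def Rgs (z u Y : ℕ) : Finset ℕ := (Ioc u (u + Y)).filter (fun n => Rough z n)

lemma occ_single (z u Y : ℕ) : Occ z {0} u Y = Rgs z u Y := by
  classical
  ext n
  unfold Occ Rgs
  rw [mem_filter, mem_filter]
  simp

/-- the law of the number of the rough integers in a window after a rough integer -/
theorem after (x₀ ε : ℝ) (hx : 0 ≤ x₀) (hε : 0 < ε) (hε1 : ε ≤ 1) :
    ∃ K z₀ : ℕ, 1 ≤ K ∧ 2 ≤ z₀ ∧ ∀ z : ℕ, z₀ ≤ z →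
      0 < U z ∧ ∀ t : ℕ, 1 ≤ t → ((t : ℝ) - 1) * U z ≤ x₀ →
      ∀ u Y : ℕ, z ^ K ≤ Y → ∀ B : Finset ℕ,
        |(((Rgs z u Y).filter (fun n => Pool.Agent.H25.TwoPtE.Btw z t n ∈ B)).card : ℝ) - Y * U z *
          ∑ j ∈ B, Real.exp (-(((t : ℝ) - 1) * U z)) * (((t : ℝ) - 1) * U z) ^ j / j.factorial| ≤
        ε * (Y * U z) := by
  obtain ⟨K, z₀, hK, hz₀, H⟩ := law 1 le_rfl x₀ ε hx hε hε1
  refine ⟨K, z₀, hK, hz₀, ?_⟩
  intro z hz
  have hU : 0 < U z := by
    have := (H z hz {0} (card_singleton 0) adm_single 1 le_rfl (by simp)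
      (by simpa using hx)).1
    rwa [VA_single] at this
  refine ⟨hU, ?_⟩
  intro t ht1 hxt u Y hY B
  have h1 := (H z hz {0} (card_singleton 0) adm_single t ht1 (by simp) hxt).2 u Y hY B
  rw [occ_single, VA_single] at h1
  simp only [others_single] at h1
  exact h1

open Classical in
/-- increasing pairs of gaps -/
noncomputable def Inc (z u Y D : ℕ) : Finset ℕ :=
  (Ioc u (u + Y)).filter (fun n => ∃ s t : ℕ, 1 ≤ s ∧ s < t ∧ s + t ≤ D ∧ Two z s t n)

open Classical in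
/-- decreasing pairs of gaps -/
noncomputable def Dec (z u Y D : ℕ) : Finset ℕ :=
  (Ioc u (u + Y)).filter (fun n => ∃ s t : ℕ, 1 ≤ t ∧ t < s ∧ s + t ≤ D ∧ Two z s t n)

open Classical in
/-- equal pairs of gaps -/
noncomputable def Eqq (z u Y D : ℕ) : Finset ℕ :=
  (Ioc u (u + Y)).filter (fun n => ∃ s : ℕ, 1 ≤ s ∧ s + s ≤ D ∧ Two z s s n)

lemma inc_card (z u Y D : ℕ) : (Inc z u Y D).card = ∑ q ∈ I2 D, (S z u Y q.1 q.2).card := by
  classical
  rw [← card_biUnion]
  · congr 1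
    ext n
    unfold Inc
    rw [mem_filter, mem_biUnion]
    constructor
    · rintro ⟨h1, s, t, hs, hst, hD, h3⟩
      refine ⟨(s, t), mem_I2.2 ⟨hs, hst, hD⟩, ?_⟩
      unfold S
      exact mem_filter.2 ⟨h1, h3⟩
    · rintro ⟨q, hq, h⟩
      rw [mem_I2] at hq
      unfold S at h
      rw [mem_filter] at h
      exact ⟨h.1, q.1, q.2, hq.1, hq.2.1, hq.2.2, h.2⟩
  · intro q hq q' hq' hne
    rw [Function.onFun, disjoint_left]
    intro n h h'
    have hq := mem_I2.1 hq
    have hq' := mem_I2.1 hq'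
    unfold S at h h'
    rw [mem_filter] at h h'
    obtain ⟨e1, e2⟩ := two_unique hq.1 (by omega) hq'.1 (by omega) h.2 h'.2
    exact hne (Prod.ext e1 e2)

lemma dec_card (z u Y D : ℕ) : (Dec z u Y D).card = ∑ q ∈ I2 D, (S z u Y q.2 q.1).card := by
  classical
  rw [← card_biUnion]
  · congr 1
    ext n
    unfold Dec
    rw [mem_filter, mem_biUnion]
    constructor
    · rintro ⟨h1, s, t, hs, hst, hD, h3⟩
      refine ⟨(t, s), mem_I2.2 ⟨hs, hst, by simp only; omega⟩, ?_⟩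
      unfold S
      exact mem_filter.2 ⟨h1, h3⟩
    · rintro ⟨q, hq, h⟩
      rw [mem_I2] at hq
      unfold S at h
      rw [mem_filter] at h
      exact ⟨h.1, q.2, q.1, hq.1, hq.2.1, by omega, h.2⟩
  · intro q hq q' hq' hne
    rw [Function.onFun, disjoint_left]
    intro n h h'
    have hq := mem_I2.1 hq
    have hq' := mem_I2.1 hq'
    unfold S at h h'
    rw [mem_filter] at h h'
    obtain ⟨e1, e2⟩ := two_unique (by omega) hq.1 (by omega) hq'.1 h.2 h'.2
    exact hne (Prod.ext e2 e1)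

lemma S_empty {z u Y s t : ℕ} (hz : 3 ≤ z) (h : ¬ Admissible (A3 s t)) : (S z u Y s t).card = 0 := by
  classical
  rw [card_eq_zero]
  unfold S
  rw [filter_eq_empty_iff]
  intro n _ h2
  exact h (adm_of_rough hz ((two_iff z s t n).1 h2).1)

/-- **Increasing and decreasing pairs of adjacent gaps are equally frequent.** -/
theorem comp (x₀ ε : ℝ) (hx : 0 ≤ x₀) (hε : 0 < ε) (hε1 : ε ≤ 1) :
    ∃ K z₀ : ℕ, 1 ≤ K ∧ 3 ≤ z₀ ∧ ∀ z : ℕ, z₀ ≤ z → ∀ D : ℕ,
      ((D : ℝ) - 1) * U z ≤ x₀ → ∀ u Y : ℕ, z ^ K ≤ Y →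
        |((Inc z u Y D).card : ℝ) - (Dec z u Y D).card| ≤ ε * (Inc z u Y D).card := by
  obtain ⟨K, z₀, hK, hz₀, H⟩ := asym x₀ (ε / 4) hx (by positivity) (by linarith)
  refine ⟨K, z₀, hK, hz₀, ?_⟩
  intro z hz D hD u Y hY
  rw [inc_card, dec_card]
  push_cast
  rw [← sum_sub_distrib, mul_sum]
  refine (abs_sum_le_sum_abs _ _).trans (sum_le_sum ?_)
  intro q hq
  rw [mem_I2] at hq
  have hU0 := U_nonneg z
  by_cases hadm : Admissible (A3 q.1 q.2)
  · have hqD : (((q.1 + q.2 : ℕ) : ℝ) - 1) * U z ≤ x₀ := by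
      have h1 : ((q.1 + q.2 : ℕ) : ℝ) ≤ D := by exact_mod_cast hq.2.2
      nlinarith
    obtain ⟨hV, h1⟩ := H z hz q.1 q.2 hq.1 (by omega) hqD hadm
    obtain ⟨_, h2⟩ := H z hz q.2 q.1 (by omega) hq.1 (by rw [add_comm q.2 q.1]; exact hqD)
      (adm_refl hadm)
    have h1 := h1 u Y hY
    have h2 := h2 u Y hY
    rw [VA_refl q.1 q.2, add_comm q.2 q.1] at h2
    obtain ⟨E, hE⟩ : ∃ E : ℝ, E = Y * VA (A3 q.1 q.2) z *
        Real.exp (-((((q.1 + q.2 : ℕ) : ℝ) - 1) * U z)) := ⟨_, rfl⟩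
    rw [← hE] at h1 h2
    have hE0 : 0 ≤ E := by
      rw [hE]
      positivity
    rw [abs_le] at h1 h2 ⊢
    constructor <;> nlinarith [h1.1, h1.2, h2.1, h2.2]
  · rw [S_empty (by omega) hadm, S_empty (by omega) (fun h => hadm (adm_refl h))]
    simp

lemma eqq_card (z u Y D : ℕ) : (Eqq z u Y D).card ≤
    ∑ s ∈ (Icc 1 D).filter (fun s => s + s ≤ D), (S z u Y s s).card := by
  classical
  refine le_trans (card_le_card ?_) card_biUnion_le
  intro n hn
  unfold Eqq at hn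
  rw [mem_filter] at hn
  obtain ⟨h1, s, hs, hD, h3⟩ := hn
  rw [mem_biUnion]
  refine ⟨s, mem_filter.2 ⟨mem_Icc.2 ⟨hs, by omega⟩, hD⟩, ?_⟩
  unfold S
  exact mem_filter.2 ⟨h1, h3⟩

/-- equal pairs are rare -/
theorem eqq_small (x₀ ε : ℝ) (hx : 0 ≤ x₀) (hε : 0 < ε) :
    ∃ K z₀ : ℕ, 1 ≤ K ∧ 3 ≤ z₀ ∧ ∀ z : ℕ, z₀ ≤ z → ∀ D : ℕ,
      (D : ℝ) * U z ≤ x₀ → ∀ u Y : ℕ, z ^ K ≤ Y →
        ((Eqq z u Y D).card : ℝ) ≤ ε * (Y * U z) := by
  obtain ⟨K, z₀, hK, hz₀, H⟩ := asym x₀ 1 hx one_pos le_rfl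
  obtain ⟨C, hC, hUup⟩ := U_up
  obtain ⟨κ, hκ⟩ : ∃ κ : ℝ, κ = ε ^ 2 / (2400 * (x₀ ^ 3 + 1)) := ⟨_, rfl⟩
  have hκ0 : 0 < κ := by rw [hκ]; positivity
  obtain ⟨z₁, hz₁⟩ := exists_nat_ge (Real.exp (C / κ))
  refine ⟨K, z₀ + z₁, hK, by omega, ?_⟩
  intro z hz D hD u Y hY
  have hU0 := U_nonneg z
  have hzr : (0 : ℝ) < z := by exact_mod_cast (by omega : 0 < z)
  have hlog : C / κ ≤ Real.log z := by
    rw [Real.le_log_iff_exp_le hzr]
    exact hz₁.trans (by exact_mod_cast (by omega : z₁ ≤ z))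
  have hlog0 : 0 < Real.log z := lt_of_lt_of_le (by positivity) hlog
  have hUκ : U z ≤ κ := by
    refine (hUup z (by omega)).trans ?_
    rw [div_le_iff₀ hlog0]
    rw [div_le_iff₀ hκ0] at hlog
    linarith
  obtain ⟨L, hL⟩ : ∃ L : ℝ, L = Y * U z := ⟨_, rfl⟩
  have hL0 : 0 ≤ L := by rw [hL]; positivity
  have hUpos : 0 < U z := by
    unfold U
    apply Finset.prod_pos
    intro p hp
    have hpp := (mem_filter.1 hp).2
    have h2 : (1 : ℝ) < p := by exact_mod_cast hpp.one_lt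
    have h3 : 1 / (p : ℝ) < 1 := by
      rw [div_lt_one (by linarith)]
      exact h2
    linarith
  obtain ⟨R, hR⟩ : ∃ R : ℝ, R = Real.sqrt (600 * D) := ⟨_, rfl⟩
  have hR0 : 0 ≤ R := by rw [hR]; exact Real.sqrt_nonneg _
  have hR2 : R ^ 2 = 600 * D := by rw [hR]; exact Real.sq_sqrt (by positivity)
  have hterm : ∀ s ∈ (Icc 1 D).filter (fun s => s + s ≤ D),
      ((S z u Y s s).card : ℝ) ≤ 2 * L * U z ^ 2 * R := by
    intro s hs
    rw [mem_filter, mem_Icc] at hs
    by_cases hadm : Admissible (A3 s s)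
    · have hq : (((s + s : ℕ) : ℝ) - 1) * U z ≤ x₀ := by
        have h1 : ((s + s : ℕ) : ℝ) ≤ D := by exact_mod_cast hs.2
        nlinarith
      obtain ⟨hV, h1⟩ := H z (by omega) s s hs.1.1 hs.1.1 hq hadm
      have h1 := h1 u Y hY
      have hs1 : (1 : ℝ) ≤ ((s + s : ℕ) : ℝ) := by exact_mod_cast (by omega : 1 ≤ s + s)
      have hex : Real.exp (-((((s + s : ℕ) : ℝ) - 1) * U z)) ≤ 1 := by
        rw [Real.exp_le_one_iff]
        have : 0 ≤ (((s + s : ℕ) : ℝ) - 1) * U z := mul_nonneg (by linarith) hU0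
        linarith
      have hex0 := Real.exp_pos (-((((s + s : ℕ) : ℝ) - 1) * U z))
      have h2 := (abs_le.1 h1).2
      have hVA := VA3 s z hs.1.1 hadm
      have hRs : Real.sqrt (600 * s) ≤ R := by
        rw [hR]
        apply Real.sqrt_le_sqrt
        have : (s : ℝ) ≤ D := by exact_mod_cast hs.1.2
        linarith
      have hVU : VA (A3 s s) z / U z ≤ U z ^ 2 * R := by
        rw [div_le_iff₀ hUpos]
        calc VA (A3 s s) z ≤ U z ^ 3 * Real.sqrt (600 * s) := hVA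
          _ ≤ U z ^ 3 * R := by gcongr
          _ = U z ^ 2 * R * U z := by ring
      have e : (Y : ℝ) * VA (A3 s s) z = L * (VA (A3 s s) z / U z) := by
        rw [hL]
        field_simp
      rw [e] at h2
      have hVU0 : 0 ≤ VA (A3 s s) z / U z := by positivity
      have h3 : L * (VA (A3 s s) z / U z) * Real.exp (-((((s + s : ℕ) : ℝ) - 1) * U z)) ≤
          L * (VA (A3 s s) z / U z) := by
        have : 0 ≤ L * (VA (A3 s s) z / U z) := by positivity
        nlinarith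
      have h4 : L * (VA (A3 s s) z / U z) ≤ L * (U z ^ 2 * R) := by gcongr
      linarith
    · rw [S_empty (by omega) hadm, Nat.cast_zero]
      positivity
  have h1 : ((Eqq z u Y D).card : ℝ) ≤ D * (2 * L * U z ^ 2 * R) := by
    calc ((Eqq z u Y D).card : ℝ) ≤
          ((∑ s ∈ (Icc 1 D).filter (fun s => s + s ≤ D), (S z u Y s s).card : ℕ) : ℝ) := by
            exact_mod_cast eqq_card z u Y D
      _ = ∑ s ∈ (Icc 1 D).filter (fun s => s + s ≤ D), ((S z u Y s s).card : ℝ) := by push_cast; rfl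
      _ ≤ ∑ s ∈ (Icc 1 D).filter (fun s => s + s ≤ D), (2 * L * U z ^ 2 * R) := sum_le_sum hterm
      _ = ((Icc 1 D).filter (fun s => s + s ≤ D)).card * (2 * L * U z ^ 2 * R) := by
            rw [sum_const, nsmul_eq_mul]
      _ ≤ D * (2 * L * U z ^ 2 * R) := by
            have h2 : ((Icc 1 D).filter (fun s => s + s ≤ D)).card ≤ D := by
              have := card_filter_le (Icc 1 D) (fun s => s + s ≤ D)
              rw [Nat.card_Icc] at this
              omega
            have h3 : (((Icc 1 D).filter (fun s => s + s ≤ D)).card : ℝ) ≤ D := by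
              exact_mod_cast h2
            have h4 : 0 ≤ 2 * L * U z ^ 2 * R := by positivity
            exact mul_le_mul_of_nonneg_right h3 h4
  have h2 : D * (2 * U z ^ 2 * R) ≤ ε := by
    apply abs_le_of_sq_le_sq' _ hε.le |>.2
    have hD0 : (0 : ℝ) ≤ D := Nat.cast_nonneg _
    have h5 : (D * U z) ^ 3 ≤ x₀ ^ 3 := pow_le_pow_left₀ (by positivity) hD 3
    calc (D * (2 * U z ^ 2 * R)) ^ 2 = 4 * D ^ 2 * U z ^ 4 * R ^ 2 := by ring
      _ = 2400 * (D * U z) ^ 3 * U z := by rw [hR2]; ring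
      _ ≤ 2400 * x₀ ^ 3 * κ := by gcongr
      _ ≤ 2400 * (x₀ ^ 3 + 1) * κ := by
          have : 0 ≤ κ := hκ0.le
          nlinarith
      _ = ε ^ 2 := by rw [hκ]; field_simp
  rw [← hL]
  calc ((Eqq z u Y D).card : ℝ) ≤ D * (2 * L * U z ^ 2 * R) := h1
    _ = (D * (2 * U z ^ 2 * R)) * L := by ring
    _ ≤ ε * L := by gcongr

open Classical in
/-- The rough `n` in `(u, u + Y]` for which the distance from `n` to the next rough integer is larger than the
distance from this one to the following rough integer. -/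
noncomputable def Greater (z u Y : ℕ) : Finset ℕ :=
  (Ioc u (u + Y)).filter (fun n => ∃ s t : ℕ, 1 ≤ t ∧ t < s ∧ Two z s t n)

open Classical in
/-- The same with larger or equal. -/
noncomputable def GreaterEq (z u Y : ℕ) : Finset ℕ :=
  (Ioc u (u + Y)).filter (fun n => ∃ s t : ℕ, 1 ≤ t ∧ t ≤ s ∧ Two z s t n)

/-- **For one half of the rough integers `n` of every interval the next gap is at least the following
one.** -/
theorem half (ε : ℝ) (hε : 0 < ε) (hε1 : ε ≤ 1) :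
    ∃ K z₀ : ℕ, 1 ≤ K ∧ 3 ≤ z₀ ∧ ∀ z : ℕ, z₀ ≤ z →
      ∀ u Y : ℕ, z ^ K ≤ Y → 0 < (Rgs z u Y).card ∧
        |((GreaterEq z u Y).card : ℝ) - (Rgs z u Y).card / 2| ≤ ε * (Rgs z u Y).card ∧
        |((Greater z u Y).card : ℝ) - (Rgs z u Y).card / 2| ≤ ε * (Rgs z u Y).card := by
  classical
  obtain ⟨η, hη⟩ : ∃ η : ℝ, η = ε / 8 := ⟨_, rfl⟩
  have hη0 : 0 < η := by rw [hη]; positivity
  have hη1 : η ≤ 1 / 8 := by rw [hη]; linarith
  obtain ⟨x₀, hx₀⟩ : ∃ x₀ : ℝ, x₀ = 4 / η + 1 := ⟨_, rfl⟩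
  have hx0 : 0 ≤ x₀ := by rw [hx₀]; positivity
  obtain ⟨K1, z1, hK1, hz1, H1⟩ := comp x₀ η hx0 hη0 (by linarith)
  obtain ⟨K2, z2, hK2, hz2, H2⟩ := eqq_small x₀ η hx0 hη0
  obtain ⟨K3, z3, hK3, hz3, H3⟩ := after x₀ η hx0 hη0 (by linarith)
  refine ⟨K1 + K2 + K3, z1 + z2 + z3, by omega, by omega, ?_⟩
  intro z hz u Y hY
  have hp : ∀ k ≤ K1 + K2 + K3, z ^ k ≤ Y := fun k hk =>
    (Nat.pow_le_pow_right (by omega) hk).trans hY
  have hzY : z ≤ Y := by simpa using hp 1 (by omega)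
  have hY0 : (0 : ℝ) < Y := by exact_mod_cast (by omega : 0 < Y)
  obtain ⟨hU, H3⟩ := H3 z (by omega)
  obtain ⟨L, hL⟩ : ∃ L : ℝ, L = Y * U z := ⟨_, rfl⟩
  have hL0 : 0 < L := by rw [hL]; positivity
  have hU1 : U z ≤ 1 := by
    unfold U
    apply Finset.prod_le_one
    · intro p hp
      have hpp := (mem_filter.1 hp).2
      have h2 : (1 : ℝ) < p := by exact_mod_cast hpp.one_lt
      rw [sub_nonneg, div_le_one (by linarith)]
      exact h2.le
    · intro p _
      have : (0 : ℝ) ≤ 1 / p := by positivity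
      linarith
  obtain ⟨D, hD⟩ : ∃ D : ℕ, D = ⌊x₀ / U z⌋₊ := ⟨_, rfl⟩
  have hD1 : (D : ℝ) * U z ≤ x₀ := by
    have := Nat.floor_le (show 0 ≤ x₀ / U z by positivity)
    rw [← hD, le_div_iff₀ hU] at this
    exact this
  have hD2 : x₀ - 1 ≤ (D : ℝ) * U z := by
    have := Nat.lt_floor_add_one (x₀ / U z)
    rw [← hD, div_lt_iff₀ hU] at this
    linarith
  have hC := H1 z (by omega) D (by linarith) u Y (hp _ (by omega))
  have hE := H2 z (by omega) D hD1 u Y (hp _ (by omega))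
  rw [← hL] at hE
  -- the number of the primes
  have hP : |((Rgs z u Y).card : ℝ) - L| ≤ η * L := by
    have h := H3 1 le_rfl (by simpa using hx0) u Y (hp _ (by omega)) {0}
    have e : (Rgs z u Y).filter
        (fun n => Pool.Agent.H25.TwoPtE.Btw z 1 n ∈ ({0} : Finset ℕ)) = Rgs z u Y := by
      apply filter_true_of_mem
      intro n _
      rw [mem_singleton]
      unfold Pool.Agent.H25.TwoPtE.Btw
      rw [card_eq_zero, filter_eq_empty_iff]
      intro m hm
      rw [mem_Ioo] at hm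
      omega
    rw [e, Finset.sum_singleton, ← hL] at h
    simpa using h
  -- few rough integers in the window
  obtain ⟨B2, hB2⟩ : ∃ B2 : Finset ℕ, B2 = (Rgs z u Y).filter
    (fun n => Pool.Agent.H25.TwoPtE.Btw z (D + 1) n ∈ ({0, 1} : Finset ℕ)) := ⟨_, rfl⟩
  have hB : (B2.card : ℝ) ≤ 2 * η * L := by
    have h := H3 (D + 1) (by omega) (by push_cast; simpa using hD1) u Y (hp _ (by omega)) {0, 1}
    rw [← hB2, Finset.sum_pair (by norm_num), ← hL] at h
    have e : (((D + 1 : ℕ) : ℝ) - 1) * U z = D * U z := by push_cast; ring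
    rw [e] at h
    obtain ⟨lam, hlam⟩ : ∃ lam : ℝ, lam = D * U z := ⟨_, rfl⟩
    rw [← hlam] at h hD2
    have hlam0 : 4 / η ≤ lam := by rw [hx₀] at hD2; linarith
    have hlamp : 0 < lam := lt_of_lt_of_le (by positivity) hlam0
    simp only [pow_zero, Nat.factorial_zero, Nat.cast_one, div_one, mul_one, pow_one,
      Nat.factorial_one] at h
    have h1 := (abs_le.1 h).2
    have h2 : Real.exp (-lam) + Real.exp (-lam) * lam ≤ η := by
      have h3 : lam / 2 + 1 ≤ Real.exp (lam / 2) := Real.add_one_le_exp _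
      have h4 : Real.exp lam = Real.exp (lam / 2) * Real.exp (lam / 2) := by
        rw [← Real.exp_add]
        congr 1
        ring
      have h5 : (lam / 2 + 1) * (lam / 2 + 1) ≤ Real.exp lam := by
        rw [h4]
        exact mul_le_mul h3 h3 (by linarith) (Real.exp_pos _).le
      have h6 : 4 ≤ η * lam := by
        rw [div_le_iff₀ hη0] at hlam0
        linarith
      have h7 : 1 + lam ≤ η * Real.exp lam := by
        have h8 : η * ((lam / 2 + 1) * (lam / 2 + 1)) ≤ η * Real.exp lam := by gcongr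
        nlinarith
      have h9 : Real.exp (-lam) * Real.exp lam = 1 := by
        rw [← Real.exp_add]
        simp
      calc Real.exp (-lam) + Real.exp (-lam) * lam = Real.exp (-lam) * (1 + lam) := by ring
        _ ≤ Real.exp (-lam) * (η * Real.exp lam) := by
            have := (Real.exp_pos (-lam)).le
            gcongr
        _ = η * (Real.exp (-lam) * Real.exp lam) := by ring
        _ = η := by rw [h9, mul_one]
    have h10 : L * (Real.exp (-lam) + Real.exp (-lam) * lam) ≤ L * η := by gcongr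
    linarith
  -- covering
  have hcov : ((Rgs z u Y).card : ℝ) ≤
      (Inc z u Y D).card + (Dec z u Y D).card + (Eqq z u Y D).card + B2.card := by
    have h1 : Rgs z u Y ⊆ ((Inc z u Y D ∪ Dec z u Y D) ∪ Eqq z u Y D) ∪ B2 := by
      intro n hn
      have hn' := hn
      unfold Rgs at hn'
      rw [mem_filter] at hn'
      rw [mem_union, mem_union, mem_union]
      by_cases hb : Pool.Agent.H25.TwoPtE.Btw z (D + 1) n ∈ ({0, 1} : Finset ℕ)
      · right
        rw [hB2]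
        exact mem_filter.2 ⟨hn, hb⟩
      · left
        rw [mem_insert, mem_singleton] at hb
        obtain ⟨s, t, hs, ht, hst, h2⟩ := two_of_btw (D := D) hn'.2 (by omega)
        rcases lt_trichotomy s t with h | h | h
        · left; left
          unfold Inc
          exact mem_filter.2 ⟨hn'.1, s, t, hs, h, hst, h2⟩
        · right
          subst h
          unfold Eqq
          exact mem_filter.2 ⟨hn'.1, s, hs, hst, h2⟩
        · left; right
          unfold Dec
          exact mem_filter.2 ⟨hn'.1, s, t, ht, h, hst, h2⟩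
    have h2 := card_le_card h1
    have h3 := card_union_le ((Inc z u Y D ∪ Dec z u Y D) ∪ Eqq z u Y D) B2
    have h4 := card_union_le (Inc z u Y D ∪ Dec z u Y D) (Eqq z u Y D)
    have h5 := card_union_le (Inc z u Y D) (Dec z u Y D)
    exact_mod_cast (by omega : (Rgs z u Y).card ≤
      (Inc z u Y D).card + (Dec z u Y D).card + (Eqq z u Y D).card + B2.card)
  -- sandwich
  have hs1 : (Dec z u Y D).card ≤ (Greater z u Y).card := by
    apply card_le_card
    intro n hn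
    unfold Dec at hn
    rw [mem_filter] at hn
    obtain ⟨h1, s, t, hs, hst, _, h3⟩ := hn
    unfold Greater
    exact mem_filter.2 ⟨h1, s, t, hs, hst, h3⟩
  have hs2 : (Greater z u Y).card ≤ (GreaterEq z u Y).card := by
    apply card_le_card
    intro n hn
    unfold Greater at hn
    rw [mem_filter] at hn
    obtain ⟨h1, s, t, hs, hst, h3⟩ := hn
    unfold GreaterEq
    exact mem_filter.2 ⟨h1, s, t, hs, hst.le, h3⟩
  have hs3 : (GreaterEq z u Y).card + (Inc z u Y D).card ≤ (Rgs z u Y).card := by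
    rw [← card_union_of_disjoint]
    · apply card_le_card
      intro n hn
      rw [mem_union] at hn
      unfold Rgs
      rcases hn with h | h
      · unfold GreaterEq at h
        rw [mem_filter] at h
        obtain ⟨h1, s, t, _, _, h3⟩ := h
        exact mem_filter.2 ⟨h1, h3.1⟩
      · unfold Inc at h
        rw [mem_filter] at h
        obtain ⟨h1, s, t, _, _, _, h3⟩ := h
        exact mem_filter.2 ⟨h1, h3.1⟩
    · rw [disjoint_left]
      intro n h h'
      unfold GreaterEq at h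
      unfold Inc at h'
      rw [mem_filter] at h h'
      obtain ⟨_, s, t, hs, hst, h3⟩ := h
      obtain ⟨_, s', t', hs', hst', _, h3'⟩ := h'
      obtain ⟨e1, e2⟩ := two_unique (by omega) hs hs' (by omega) h3 h3'
      omega
  have hs1' : ((Dec z u Y D).card : ℝ) ≤ (Greater z u Y).card := by exact_mod_cast hs1
  have hs2' : ((Greater z u Y).card : ℝ) ≤ (GreaterEq z u Y).card := by exact_mod_cast hs2
  have hs3' : ((GreaterEq z u Y).card : ℝ) + (Inc z u Y D).card ≤ (Rgs z u Y).card := by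
    exact_mod_cast hs3
  obtain ⟨P, hPe⟩ : ∃ P : ℝ, P = (Rgs z u Y).card := ⟨_, rfl⟩
  rw [← hPe] at hP hcov hs3' ⊢
  have hP1 := abs_le.1 hP
  have hPL : L ≤ 8 / 7 * P := by nlinarith [hP1.1]
  have hP0 : 0 < P := by nlinarith
  have hI0 : (0 : ℝ) ≤ (Inc z u Y D).card := Nat.cast_nonneg _
  have hD0 : (0 : ℝ) ≤ (Dec z u Y D).card := Nat.cast_nonneg _
  have hC1 := abs_le.1 hC
  have hIP : ((Inc z u Y D).card : ℝ) ≤ P := by linarith
  have hIη : η * ((Inc z u Y D).card : ℝ) ≤ η * P := by gcongr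
  have hηL : η * L ≤ 8 / 7 * (η * P) := by nlinarith
  have hεP : ε * P = 8 * (η * P) := by rw [hη]; ring
  have hηP : 0 < η * P := by positivity
  refine ⟨?_, ?_, ?_⟩
  · rw [hPe] at hP0
    exact_mod_cast hP0
  · rw [hεP, abs_le]
    constructor <;> linarith [hC1.1, hC1.2]
  · rw [hεP, abs_le]
    constructor <;> linarith [hC1.1, hC1.2]

end Pool.Agent.H25.PairRg
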