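import Pool.Agent.H25.SetPtD
import Pool.Agent.Y879.PR.Law

set_option autoImplicit false

/-!
# Patterns which start at a prime, among the integers without small prime factors
-/

namespace Pool.Agent.H25.PrimePt

open Finset Filter
open Pool.Agent.H373R2.T7 Pool.Agent.W123.RP Pool.Agent.W123.RU Pool.Agent.TH464.PO
open Pool.Agent.H25.TwoPt Pool.Agent.H25.SetPt
open Pool.Agent.Y879.PR (Base prime_count)

/-- the primes at which the pattern starts -/
noncomputable def Pm (y : ℕ) (A : Finset ℕ) (u Y : ℕ) : Finset ℕ :=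
  Pool.Agent.Y879.PR.Om 1 0 (QH Q1 A) y u Y

lemma base1 (A : Finset ℕ) (h0 : 0 ∈ A) : Base 1 0 A.card (QH Q1 A) := by
  refine ⟨?_, ?_, ?_⟩
  · have := perB_QH Q1 1 per1 A
    rwa [mul_one] at this
  · intro p n hp h1 _
    exact hp.one_lt.ne' (Nat.dvd_one.1 h1)
  · intro p n _ _ h
    refine ⟨0, h0, ?_⟩
    unfold Q1
    simpa using h

lemma VqQ1 (y : ℕ) : Vq Q1 y = Vz y := by
  unfold Vq Vz
  apply Finset.prod_congr rfl
  intro p hp
  rw [nu1 p (mem_pz.1 hp).2, Nat.cast_one]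

lemma adm1 (p : ℕ) (hp : p.Prime) : nuB Q1 p < p := by
  rw [nu1 p hp]
  exact hp.one_lt

lemma noco1 (p d : ℕ) (h : CoG Q1 p d) : p ∣ d := by
  obtain ⟨m, h1, h2⟩ := h
  exact (Nat.dvd_add_right h1).1 h2

open Classical in
lemma Pm_union (y : ℕ) (A H : Finset ℕ) (u Y : ℕ) :
    Pm y (A ∪ H) u Y = (Pm y A u Y).filter (fun n => ∀ h ∈ H, Sf Q1 y (n + h)) := by
  ext n
  unfold Pm Pool.Agent.Y879.PR.Om
  rw [mem_filter, mem_filter, mem_filter, sf_QH, sf_QH]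
  simp only [mem_union, or_imp, forall_and]
  tauto

open Classical in
/-- binomial moments as sums over sets of shifts -/
lemma mom_eqP (y : ℕ) (A : Finset ℕ) (u Y k T : ℕ) :
    ∑ n ∈ Pm y A u Y, ((NA Q1 y A T n).choose k : ℝ) =
      ∑ H ∈ powersetCard k (Icc 1 T \ A), ((Pm y (A ∪ H) u Y).card : ℝ) := by
  have h1 : ∀ H ∈ powersetCard k (Icc 1 T \ A), ((Pm y (A ∪ H) u Y).card : ℝ) =
      ∑ n ∈ Pm y A u Y, if (∀ h ∈ H, Sf Q1 y (n + h)) then (1 : ℝ) else 0 := by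
    intro H _
    rw [Pm_union, Finset.sum_ite, Finset.sum_const_zero, add_zero, Finset.sum_const, nsmul_eq_mul,
      mul_one]
  rw [Finset.sum_congr rfl h1, Finset.sum_comm]
  apply Finset.sum_congr rfl
  intro m _
  rw [Finset.sum_ite, Finset.sum_const_zero, add_zero, Finset.sum_const, nsmul_eq_mul, mul_one]
  unfold NA
  rw [← Finset.card_powersetCard]
  congr 2
  ext H
  rw [mem_filter, mem_powersetCard, mem_powersetCard]
  constructor
  · rintro ⟨a1, a2⟩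
    exact ⟨⟨fun h hh => (mem_filter.1 (a1 hh)).1, a2⟩, fun h hh => (mem_filter.1 (a1 hh)).2⟩
  · rintro ⟨⟨a1, a2⟩, a3⟩
    exact ⟨fun h hh => mem_filter.2 ⟨a1 hh, a3 h hh⟩, a2⟩

lemma card_union (A H : Finset ℕ) (T k a : ℕ) (hA : A.card = a) (hH : H ∈ powersetCard k (Icc 1 T \ A)) :
    (A ∪ H).card = a + k := by
  rw [mem_powersetCard] at hH
  rw [card_union_of_disjoint, hA, hH.2]
  rw [Finset.disjoint_left]
  intro x hx hx'
  exact (Finset.mem_sdiff.1 (hH.1 hx')).2 hx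

lemma card_sub (T k : ℕ) (A : Finset ℕ) :
    ((powersetCard k (Icc 1 T \ A)).card : ℝ) ≤ (T : ℝ) ^ k := by
  rw [card_powersetCard]
  have h5 : (Icc 1 T \ A).card ≤ T := by
    refine (card_le_card sdiff_subset).trans ?_
    rw [Nat.card_Icc, Nat.add_sub_cancel]
  exact_mod_cast (Nat.choose_le_pow _ k).trans (Nat.pow_le_pow_left h5 _)

open Classical in
/-- **Binomial moments.** -/
theorem momentP (a k : ℕ) (η δ : ℝ) (hη : 0 < η) (hη1 : η ≤ 1) (hδ : 0 < δ) (hδ1 : δ ≤ 1) :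
    ∃ K T0 : ℕ, ∀ U : ℕ, ∃ x0 : ℕ, ∀ X y T : ℕ, x0 ≤ y → y ^ K ≤ X → T0 ≤ T →
      ∀ A : Finset ℕ, A.card = a → 0 ∈ A → (∀ x ∈ A, x ≤ T + 1) →
      ∀ u Y : ℕ, δ * X ≤ u → δ * X ≤ Y → u + Y ≤ X →
      |(∑ n ∈ Pm y A u Y, ((NA Q1 y A T n).choose (k + 1) : ℝ)) * Real.log X -
        Y / Vz y * (Vq (QH Q1 A) y * ((T * Vz y) ^ (k + 1) / (k + 1).factorial))| ≤
        η * (Y / Vz y * (Vq (QH Q1 A) y * ((T * Vz y) ^ (k + 1) / (k + 1).factorial))) +
          (T : ℝ) ^ (k + 1) * (X / Real.log X ^ U) := by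
  obtain ⟨K, hK, hcount⟩ := prime_count 1 (a + (k + 1)) squarefree_one (η / 4) δ (by positivity)
    (by linarith) hδ hδ1
  obtain ⟨w, η', T0, hη', havg⟩ := set_avg 1 a k (η / 4) (by positivity) (by linarith)
  refine ⟨K, T0, ?_⟩
  intro U
  obtain ⟨x0, hx0⟩ := hcount U
  refine ⟨max x0 (max w 3), ?_⟩
  intro X y T hy hyX hT A hAa h0 hAT u Y hu hY huY
  have hy0 : x0 ≤ y := (le_max_left _ _).trans hy
  have hyw : w ≤ y := ((le_max_left _ _).trans (le_max_right _ _)).trans hy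
  have hy3 : 3 ≤ y := ((le_max_right _ _).trans (le_max_right _ _)).trans hy
  have hyX' : y ≤ X := (Nat.le_self_pow (by omega) y).trans hyX
  have hX1 : (1 : ℝ) ≤ X := by exact_mod_cast (by omega : 1 ≤ X)
  have hl0 : 0 ≤ Real.log X := Real.log_nonneg hX1
  obtain ⟨s1, s2⟩ := havg T hT Q1 per1 adm1 A hAa hAT y hyw (by
    intro t ht
    have : (pz y).filter (fun p : ℕ => T < p ∧ CoG Q1 p t) = ∅ := by
      apply Finset.filter_eq_empty_iff.2
      rintro p _ ⟨h1, h2⟩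
      rw [mem_Icc] at ht
      have := Nat.le_of_dvd (by omega) (noco1 p t h2)
      omega
    rw [this, card_empty, Nat.cast_zero]
    positivity)
  rw [VqQ1] at s1 s2
  have hVz := Pool.Agent.Y879.PR.Vz_pos y
  obtain ⟨G, hG⟩ : ∃ G : ℝ, G = Y / Vz y := ⟨_, rfl⟩
  have hG0 : 0 ≤ G := by rw [hG]; exact div_nonneg (Nat.cast_nonneg _) hVz.le
  obtain ⟨m, hm⟩ : ∃ m : ℝ, m = Vq (QH Q1 A) y * ((T * Vz y) ^ (k + 1) / (k + 1).factorial) := ⟨_, rfl⟩
  have hm0 : 0 ≤ m := by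
    rw [hm]
    have := Vq_nonneg (QH Q1 A) y
    positivity
  obtain ⟨E, hE⟩ : ∃ E : ℝ, E = X / Real.log X ^ U := ⟨_, rfl⟩
  have hE0 : 0 ≤ E := by rw [hE]; positivity
  obtain ⟨S, hS⟩ : ∃ S : ℝ, S = ∑ H ∈ powersetCard (k + 1) (Icc 1 T \ A), Vq (QH Q1 (A ∪ H)) y :=
    ⟨_, rfl⟩
  rw [← hm, ← hS] at s1 s2
  rw [← hm, ← hG, ← hE]
  rw [mom_eqP, Finset.sum_mul]
  have h1 : |∑ H ∈ powersetCard (k + 1) (Icc 1 T \ A), ((Pm y (A ∪ H) u Y).card : ℝ) * Real.log X -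
      G * S| ≤ η / 4 * (G * S) + (T : ℝ) ^ (k + 1) * E := by
    have e : G * S = ∑ H ∈ powersetCard (k + 1) (Icc 1 T \ A),
        (Y : ℝ) * (Vq (QH Q1 (A ∪ H)) y / Vz y) := by
      rw [hG, hS, Finset.mul_sum]
      apply Finset.sum_congr rfl
      intros
      ring
    rw [e, ← Finset.sum_sub_distrib]
    refine (Finset.abs_sum_le_sum_abs _ _).trans ?_
    have h2 : ∀ H ∈ powersetCard (k + 1) (Icc 1 T \ A),
        |((Pm y (A ∪ H) u Y).card : ℝ) * Real.log X -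
          (Y : ℝ) * (Vq (QH Q1 (A ∪ H)) y / Vz y)| ≤
        η / 4 * (Y * (Vq (QH Q1 (A ∪ H)) y / Vz y)) + E := by
      intro H hH
      have hb := base1 (A ∪ H) (mem_union_left _ h0)
      rw [card_union A H T (k + 1) a hAa hH] at hb
      rw [hE]
      exact hx0 X y hy0 hyX 0 (Nat.zero_le _) (Nat.coprime_one_left _) (QH Q1 (A ∪ H)) hb u Y hu hY huY
    refine (Finset.sum_le_sum h2).trans ?_
    rw [Finset.sum_add_distrib, ← Finset.mul_sum, Finset.sum_const, nsmul_eq_mul]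
    have h4 := mul_le_mul_of_nonneg_right (card_sub T (k + 1) A) hE0
    linarith
  have h5 : |G * S - G * m| ≤ η / 4 * (G * m) := by
    rw [← mul_sub, abs_mul, abs_of_nonneg hG0]
    have : |S - m| ≤ η / 4 * m := by
      rw [abs_le]
      constructor <;> linarith
    calc G * |S - m| ≤ G * (η / 4 * m) := mul_le_mul_of_nonneg_left this hG0
      _ = _ := by ring
  have hGm : 0 ≤ G * m := mul_nonneg hG0 hm0
  have h6 : G * S ≤ 2 * (G * m) := by
    have h7 := (abs_le.1 h5).2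
    nlinarith
  have h9 := abs_sub_le (∑ H ∈ powersetCard (k + 1) (Icc 1 T \ A),
      ((Pm y (A ∪ H) u Y).card : ℝ) * Real.log X) (G * S) (G * m)
  have h10 : η / 4 * (G * S) ≤ η / 4 * (2 * (G * m)) :=
    mul_le_mul_of_nonneg_left h6 (by positivity)
  have h11 : 0 ≤ η * (G * m) := by positivity
  linarith

open Classical in
/-- the number of the primes at which the pattern starts -/
theorem countP (a : ℕ) (η δ : ℝ) (hη : 0 < η) (hη1 : η ≤ 1) (hδ : 0 < δ) (hδ1 : δ ≤ 1) :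
    ∃ K : ℕ, ∀ U : ℕ, ∃ x0 : ℕ, ∀ X y : ℕ, x0 ≤ y → y ^ K ≤ X →
      ∀ A : Finset ℕ, A.card = a → 0 ∈ A →
      ∀ u Y : ℕ, δ * X ≤ u → δ * X ≤ Y → u + Y ≤ X →
      |((Pm y A u Y).card : ℝ) * Real.log X - Y * (Vq (QH Q1 A) y / Vz y)| ≤
        η * (Y * (Vq (QH Q1 A) y / Vz y)) + X / Real.log X ^ U := by
  obtain ⟨K, hK, hcount⟩ := prime_count 1 a squarefree_one η δ hη hη1 hδ hδ1
  refine ⟨K, fun U => ?_⟩
  obtain ⟨x0, hx0⟩ := hcount U
  refine ⟨x0, ?_⟩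
  intro X y hy hyX A hAa h0 u Y hu hY huY
  have hb := base1 A h0
  rw [hAa] at hb
  exact hx0 X y hy hyX 0 (Nat.zero_le _) (Nat.coprime_one_left _) (QH Q1 A) hb u Y hu hY huY

open Classical in
/-- few primes with something in a bounded window -/
theorem smallP (a w : ℕ) (δ : ℝ) (hδ : 0 < δ) (hδ1 : δ ≤ 1) (hw : 2 ≤ w) :
    ∃ K : ℕ, ∀ U : ℕ, ∃ x0 : ℕ, ∀ X y T : ℕ, x0 ≤ y → y ^ K ≤ X → w ≤ y → T < w →
      ∀ A : Finset ℕ, A.card = a → 0 ∈ A → (∀ x ∈ A, x ≤ T + 1) →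
      ∀ u Y : ℕ, δ * X ≤ u → δ * X ≤ Y → u + Y ≤ X →
      (∑ n ∈ Pm y A u Y, ((NA Q1 y A T n).choose 1 : ℝ)) * Real.log X ≤
        T * (2 * (Y * (Vq (QH Q1 A) y / Vz w)) + X / Real.log X ^ U) := by
  obtain ⟨K, hK, hcount⟩ := prime_count 1 (a + 1) squarefree_one 1 δ one_pos le_rfl hδ hδ1
  refine ⟨K, fun U => ?_⟩
  obtain ⟨x0, hx0⟩ := hcount U
  refine ⟨x0, ?_⟩
  intro X y T hy hyX hwy hTw A hAa h0 hAT u Y hu hY huY
  rw [mom_eqP, Finset.sum_mul]
  have hVz := Pool.Agent.Y879.PR.Vz_pos y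
  have hVw := Pool.Agent.Y879.PR.Vz_pos w
  have hX0 : (0 : ℝ) ≤ X := Nat.cast_nonneg X
  have h1 : ∀ H ∈ powersetCard 1 (Icc 1 T \ A), ((Pm y (A ∪ H) u Y).card : ℝ) * Real.log X ≤
      2 * (Y * (Vq (QH Q1 A) y / Vz w)) + X / Real.log X ^ U := by
    intro H hH
    have hb := base1 (A ∪ H) (mem_union_left _ h0)
    rw [card_union A H T 1 a hAa hH] at hb
    have h2 := hx0 X y hy hyX 0 (Nat.zero_le _) (Nat.coprime_one_left _) (QH Q1 (A ∪ H)) hb u Y hu hY huY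
    have h3 := (abs_le.1 h2).2
    rw [mem_powersetCard] at hH
    have h5 : Vq (QH Q1 (A ∪ H)) y ≤ Vq (QH Q1 A) y * Vt Q1 w y := by
      rw [Vq_split _ w y hwy, Vq_split (QH Q1 A) w y hwy]
      have h6 : Vq (QH Q1 (A ∪ H)) w ≤ Vq (QH Q1 A) w := by
        unfold Vq
        apply Finset.prod_le_prod
        · intro p hp
          exact one_sub_nonneg _ p (mem_pz.1 hp).2
        · intro p hp
          have hp0 : (0 : ℝ) < p := by exact_mod_cast (mem_pz.1 hp).2.pos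
          have : (nuB (QH Q1 A) p : ℝ) ≤ nuB (QH Q1 (A ∪ H)) p := by
            exact_mod_cast nuB_mono Q1 A H p
          have := div_le_div_of_nonneg_right this hp0.le
          linarith
      have h7 := tail_upI Q1 1 per1 A H (fun h hh => (Finset.mem_sdiff.1 (hH.1 hh)).2) w y
        (by rw [hH.2]; omega)
      have h8 : ∀ K : ℕ, ∑ x ∈ Dq A H, (Fp Q1 K w y (x.2 - x.1) - 1) = 0 := by
        intro K
        apply Finset.sum_eq_zero
        intro x hx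
        have hd : x.2 - x.1 ∈ Icc 1 T := by
          unfold Dq prs at hx
          rw [mem_union, mem_union, mem_filter, mem_filter, mem_filter, mem_product, mem_product,
            mem_product] at hx
          rcases hx with (⟨⟨a1, a2⟩, a3⟩ | ⟨⟨a1, a2⟩, a3⟩) | ⟨⟨a1, a2⟩, a3⟩
          · have b1 := mem_Icc.1 (Finset.mem_sdiff.1 (hH.1 a1)).1
            have b2 := mem_Icc.1 (Finset.mem_sdiff.1 (hH.1 a2)).1
            rw [mem_Icc]
            omega
          · have b2 := mem_Icc.1 (Finset.mem_sdiff.1 (hH.1 a2)).1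
            rw [mem_Icc]
            omega
          · have b1 := mem_Icc.1 (Finset.mem_sdiff.1 (hH.1 a1)).1
            have b2 := hAT _ a2
            rw [mem_Icc]
            omega
        unfold Fp
        rw [Finset.prod_eq_one, sub_self]
        intro p hp
        rw [mem_filter] at hp
        exfalso
        have h9 := noco1 p _ hp.2.2
        rw [mem_Icc] at hd
        have := Nat.le_of_dvd (by omega) h9
        omega
      rw [h8, add_zero, mul_one, hH.2, pow_one] at h7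
      calc Vq (QH Q1 (A ∪ H)) w * Vt (QH Q1 (A ∪ H)) w y ≤
            Vq (QH Q1 A) w * (Vt (QH Q1 A) w y * Vt Q1 w y) :=
            mul_le_mul h6 h7 (Vt_nonneg _ _ _) (Vq_nonneg _ _)
        _ = _ := by ring
    have h6 := Vq_split Q1 w y hwy
    rw [VqQ1, VqQ1] at h6
    have h7 : Vq (QH Q1 (A ∪ H)) y / Vz y ≤ Vq (QH Q1 A) y / Vz w := by
      rw [div_le_div_iff₀ hVz hVw]
      calc Vq (QH Q1 (A ∪ H)) y * Vz w ≤ (Vq (QH Q1 A) y * Vt Q1 w y) * Vz w :=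
            mul_le_mul_of_nonneg_right h5 hVw.le
        _ = Vq (QH Q1 A) y * (Vz w * Vt Q1 w y) := by ring
        _ = _ := by rw [← h6]
    have h8 : (Y : ℝ) * (Vq (QH Q1 (A ∪ H)) y / Vz y) ≤ Y * (Vq (QH Q1 A) y / Vz w) :=
      mul_le_mul_of_nonneg_left h7 (Nat.cast_nonneg _)
    change ((Pool.Agent.Y879.PR.Om 1 0 (QH Q1 (A ∪ H)) y u Y).card : ℝ) * Real.log X ≤ _
    linarith
  refine (Finset.sum_le_sum h1).trans ?_
  rw [Finset.sum_const, nsmul_eq_mul]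
  have h2 := card_sub T 1 A
  rw [pow_one] at h2
  apply mul_le_mul_of_nonneg_right h2
  have h6 := Vq_nonneg (QH Q1 A) y
  have h7 : 0 ≤ (X : ℝ) / Real.log X ^ U := by
    have : 0 ≤ Real.log (X : ℝ) := Real.log_natCast_nonneg X
    positivity
  have h8 : 0 ≤ (Y : ℝ) * (Vq (QH Q1 A) y / Vz w) := by positivity
  linarith

/-- from the moments to the law -/
lemma from_moments (x0 ε : ℝ) (hx0 : 0 ≤ x0) (hε : 0 < ε) (hε1 : ε ≤ 1) :
    ∃ (R : ℕ) (η1 : ℝ), 0 < η1 ∧ η1 ≤ ε / 8 ∧ ∀ (O : Finset ℕ) (W : ℕ → ℕ) (x m : ℝ), 0 ≤ x → x ≤ x0 →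
      0 ≤ m → |(O.card : ℝ) - m| ≤ 2 * η1 * m →
      (∀ k < R, |∑ n ∈ O, ((W n).choose (k + 1) : ℝ) - m * (x ^ (k + 1) / (k + 1).factorial)| ≤
        η1 * (m * (x ^ (k + 1) / (k + 1).factorial)) + η1 * m) →
      ∀ B : Finset ℕ, |((O.filter (fun n => W n ∈ B)).card : ℝ) -
        m * ∑ j ∈ B, Real.exp (-x) * x ^ j / j.factorial| ≤ ε * m := by
  obtain ⟨R, η, hη, htv⟩ := law_tv x0 (ε / 4) hx0 (by positivity)
  obtain ⟨X1, hX1⟩ : ∃ X1 : ℝ, X1 = (1 + x0) ^ (R + 1) := ⟨_, rfl⟩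
  have hX1pos : 1 ≤ X1 := by rw [hX1]; exact one_le_pow₀ (by linarith)
  obtain ⟨η1, hη1⟩ : ∃ η1 : ℝ, η1 = min (ε / 8) (η / (8 * X1)) := ⟨_, rfl⟩
  have hη10 : 0 < η1 := by rw [hη1]; positivity
  have hη1e : η1 ≤ ε / 8 := by rw [hη1]; exact min_le_left _ _
  have hη12 : 8 * (η1 * X1) ≤ η := by
    have : η1 ≤ η / (8 * X1) := by rw [hη1]; exact min_le_right _ _
    rw [le_div_iff₀ (by positivity)] at this
    linarith
  refine ⟨R, η1, hη10, hη1e, ?_⟩
  intro Os W x m hx00 hx hm0 hO1 hmom B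
  obtain ⟨O, hO⟩ : ∃ O : ℝ, O = (Os.card : ℝ) := ⟨_, rfl⟩
  rw [← hO] at hO1
  obtain ⟨hO2, hO3⟩ := abs_le.1 hO1
  have hη1m : η1 * m ≤ m / 8 := by
    have : η1 ≤ 1 / 8 := by linarith
    nlinarith
  have hmO : m ≤ 2 * O := by linarith
  have hO0 : 0 ≤ O := by linarith
  have hmain := htv Os W x hx00 hx (by
    intro k hk
    rw [← hO]
    rcases k with _ | k
    · simp only [Nat.choose_zero_right, Nat.cast_one, Finset.sum_const, nsmul_eq_mul, mul_one,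
        pow_zero, Nat.factorial_zero, div_one, ← hO, sub_self, abs_zero]
      positivity
    · have h1 := hmom k (by omega)
      obtain ⟨z, hz⟩ : ∃ z : ℝ, z = x ^ (k + 1) / ((k + 1).factorial : ℝ) := ⟨_, rfl⟩
      rw [← hz] at h1 ⊢
      have hz0 : 0 ≤ z := by rw [hz]; positivity
      have h2 : z ≤ X1 := by
        rw [hz]
        have hf1 : (1 : ℝ) ≤ (k + 1).factorial := by exact_mod_cast Nat.factorial_pos (k + 1)
        calc x ^ (k + 1) / ((k + 1).factorial : ℝ) ≤ x ^ (k + 1) := div_le_self (by positivity) hf1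
          _ ≤ (1 + x0) ^ (k + 1) := pow_le_pow_left₀ hx00 (by linarith) _
          _ ≤ (1 + x0) ^ (R + 1) := pow_le_pow_right₀ (by linarith) (by omega)
          _ = X1 := hX1.symm
      have h4 : η1 * (m * z) ≤ (η1 * X1) * m := by
        calc η1 * (m * z) ≤ η1 * (m * X1) := by gcongr
          _ = _ := by ring
      have h5 : |m * z - O * z| ≤ 2 * (η1 * X1) * m := by
        rw [← sub_mul, abs_mul, abs_of_nonneg hz0, abs_sub_comm]
        calc |O - m| * z ≤ (2 * η1 * m) * X1 := mul_le_mul hO1 h2 hz0 (by positivity)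
          _ = _ := by ring
      have h6 : η1 * m ≤ (η1 * X1) * m := by
        have : η1 ≤ η1 * X1 := le_mul_of_one_le_right hη10.le hX1pos
        exact mul_le_mul_of_nonneg_right this hm0
      have h7 := abs_sub_le (∑ n ∈ Os, ((W n).choose (k + 1) : ℝ)) (m * z) (O * z)
      have h8 : 4 * (η1 * X1) * m ≤ η * O := by
        calc 4 * (η1 * X1) * m ≤ 4 * (η1 * X1) * (2 * O) :=
              mul_le_mul_of_nonneg_left hmO (by positivity)
          _ = 8 * (η1 * X1) * O := by ring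
          _ ≤ _ := mul_le_mul_of_nonneg_right hη12 hO0
      linarith) B
  rw [← hO] at hmain
  obtain ⟨P, hP⟩ : ∃ P : ℝ, P = ∑ j ∈ B, Real.exp (-x) * x ^ j / (j.factorial : ℝ) := ⟨_, rfl⟩
  rw [← hP] at hmain ⊢
  have hP0 : 0 ≤ P := by rw [hP]; exact Finset.sum_nonneg fun j _ => by positivity
  have hP1 : P ≤ 1 := by
    rw [hP]
    have := poisson_tail x hx00 0 B (fun _ _ => Nat.zero_le _)
    simpa using this
  have h1 : |O * P - m * P| ≤ 2 * η1 * m := by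
    rw [← sub_mul, abs_mul, abs_of_nonneg hP0]
    calc |O - m| * P ≤ |O - m| * 1 := mul_le_mul_of_nonneg_left hP1 (abs_nonneg _)
      _ ≤ _ := by rw [mul_one]; exact hO1
  have h2 := abs_sub_le ((Os.filter (fun n => W n ∈ B)).card : ℝ) (O * P) (m * P)
  have h3 : O ≤ 2 * m := by linarith
  have h4 : ε / 4 * O ≤ ε / 4 * (2 * m) := mul_le_mul_of_nonneg_left h3 (by positivity)
  have h5 : 2 * η1 * m ≤ 2 * (ε / 8) * m := by gcongr
  linarith

end Pool.Agent.H25.PrimePt
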