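import Pool.Agent.H25.PrimePtA

set_option autoImplicit false

/-!
# The law for patterns which start at a prime
-/

namespace Pool.Agent.H25.PrimePt

open Finset Filter
open Pool.Agent.H373R2.T7 Pool.Agent.W123.RP Pool.Agent.W123.RU Pool.Agent.TH464.PO
open Pool.Agent.H25.TwoPt Pool.Agent.H25.SetPt

lemma div_l (S l M z η η' E : ℝ) (hl : 0 < l) (hE : E ≤ η' * M)
    (h : |S * l - M * z| ≤ η * (M * z) + E) :
    |S - M / l * z| ≤ η * (M / l * z) + η' * (M / l) := by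
  have e : S - M / l * z = (S * l - M * z) / l := by field_simp
  rw [e, abs_div, abs_of_pos hl, div_le_iff₀ hl]
  calc |S * l - M * z| ≤ η * (M * z) + η' * M := by linarith
    _ = _ := by field_simp

/-- the error terms -/
lemma err_small (R a : ℕ) (x0 v η δ : ℝ) (hx0 : 0 ≤ x0) (hv : 0 < v) (hη : 0 < η) (hδ : 0 < δ) :
    ∃ y0 : ℕ, 3 ≤ y0 ∧ ∀ y : ℕ, y0 ≤ y → ∀ X : ℕ, y ≤ X → ∀ T : ℕ, T * Vz y ≤ x0 → ∀ V Y : ℝ,
      v / Real.log y ^ a ≤ V → δ * X ≤ Y → 0 < Real.log X ∧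
      ∀ k ≤ R, (T : ℝ) ^ k * (X / Real.log X ^ (R + a + 1)) ≤ η * (Y * (V / Vz y)) := by
  obtain ⟨c, C, hc, hC, hV⟩ := Vz_bounds
  obtain ⟨A, hA⟩ : ∃ A : ℝ, A = x0 / c + 1 := ⟨_, rfl⟩
  have hA1 : 1 ≤ A := by
    rw [hA]
    have : 0 ≤ x0 / c := by positivity
    linarith
  have h2 := (Real.tendsto_log_atTop.comp tendsto_natCast_atTop_atTop).eventually_ge_atTop
    (max 1 (A ^ R / (η * δ * v)))
  obtain ⟨y0, hy0⟩ := eventually_atTop.1 h2
  refine ⟨max y0 3, le_max_right _ _, ?_⟩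
  intro y hy X hyX T hT V Y hVv hY
  have hy2 : 3 ≤ y := (le_max_right _ _).trans hy
  have h4 : max 1 (A ^ R / (η * δ * v)) ≤ Real.log y := hy0 y ((le_max_left _ _).trans hy)
  have h41 : 1 ≤ Real.log y := (le_max_left _ _).trans h4
  have h42 : A ^ R / (η * δ * v) ≤ Real.log y := (le_max_right _ _).trans h4
  have hlog : 0 < Real.log y := by linarith
  have hy1 : (1 : ℝ) ≤ y := by exact_mod_cast (by omega : 1 ≤ y)
  have hX1 : (y : ℝ) ≤ X := by exact_mod_cast hyX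
  have hlX : Real.log y ≤ Real.log X := Real.log_le_log (by linarith) hX1
  obtain ⟨l, hl⟩ : ∃ l : ℝ, l = Real.log X := ⟨_, rfl⟩
  rw [← hl] at hlX ⊢
  have hl0 : 0 < l := by linarith
  have hl1 : 1 ≤ l := by linarith
  have hVz := Pool.Agent.Y879.PR.Vz_pos y
  have hVz1 := Pool.Agent.Y879.PR.Vz_le_one y
  refine ⟨hl0, ?_⟩
  intro k hk
  have hTb : (T : ℝ) ≤ A * l := by
    have h5 := (hV y (by omega)).1
    have h6 : (T : ℝ) * (c / Real.log y) ≤ x0 :=
      (mul_le_mul_of_nonneg_left h5 (Nat.cast_nonneg T)).trans hT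
    rw [← mul_div_assoc, div_le_iff₀ hlog] at h6
    have h7 : (T : ℝ) ≤ x0 / c * Real.log y := by
      rw [div_mul_eq_mul_div, le_div_iff₀ hc]
      exact h6
    calc (T : ℝ) ≤ x0 / c * Real.log y := h7
      _ ≤ A * Real.log y := mul_le_mul_of_nonneg_right (by rw [hA]; linarith) hlog.le
      _ ≤ A * l := mul_le_mul_of_nonneg_left hlX (by linarith)
  have hAl : 1 ≤ A * l := by nlinarith
  have hTk : (T : ℝ) ^ k ≤ A ^ R * l ^ R := by
    calc (T : ℝ) ^ k ≤ (A * l) ^ k := pow_le_pow_left₀ (Nat.cast_nonneg T) hTb k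
      _ ≤ (A * l) ^ R := pow_le_pow_right₀ hAl hk
      _ = _ := mul_pow _ _ _
  have hAR : A ^ R ≤ η * δ * v * l := by
    rw [div_le_iff₀ (by positivity)] at h42
    calc A ^ R ≤ Real.log y * (η * δ * v) := h42
      _ ≤ l * (η * δ * v) := mul_le_mul_of_nonneg_right hlX (by positivity)
      _ = _ := by ring
  have hXr : (0 : ℝ) ≤ X := by linarith
  have hVl : v / l ^ a ≤ V := by
    refine le_trans ?_ hVv
    apply div_le_div_of_nonneg_left hv.le (by positivity)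
    exact pow_le_pow_left₀ hlog.le hlX a
  have hV0 : 0 ≤ V := le_trans (by positivity) hVl
  have hVV : V ≤ V / Vz y := by
    rw [le_div_iff₀ hVz]
    nlinarith
  calc (T : ℝ) ^ k * (X / l ^ (R + a + 1)) ≤ (A ^ R * l ^ R) * (X / l ^ (R + a + 1)) :=
        mul_le_mul_of_nonneg_right hTk (by positivity)
    _ = A ^ R * (X / l ^ (a + 1)) := by
        rw [show R + a + 1 = R + (a + 1) by ring, pow_add l R (a + 1)]
        field_simp
    _ ≤ (η * δ * v * l) * (X / l ^ (a + 1)) := mul_le_mul_of_nonneg_right hAR (by positivity)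
    _ = η * ((δ * X) * (v / l ^ a)) := by
        rw [pow_succ]
        field_simp
    _ ≤ η * (Y * (V / Vz y)) := by
        apply mul_le_mul_of_nonneg_left _ hη.le
        apply mul_le_mul hY (hVl.trans hVV) (by positivity)
        exact le_trans (by positivity) hY

/-- **The law for patterns which start at a prime.** -/
theorem coreP (a : ℕ) (x0 ε δ : ℝ) (hx0 : 0 ≤ x0) (hε : 0 < ε) (hε1 : ε ≤ 1) (hδ : 0 < δ)
    (hδ1 : δ ≤ 1) : ∃ K y0 : ℕ, 1 ≤ K ∧
    ∀ y : ℕ, y0 ≤ y → ∀ X : ℕ, y ^ K ≤ X → ∀ T : ℕ, ∀ A : Finset ℕ, A.card = a → 0 ∈ A →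
      (∀ x ∈ A, x ≤ T + 1) → (∀ p : ℕ, p.Prime → nuB (QH Q1 A) p < p) → (T : ℝ) * Vz y ≤ x0 →
      ∀ u Y : ℕ, δ * X ≤ u → δ * X ≤ Y → u + Y ≤ X → ∀ B : Finset ℕ,
      |(((Pm y A u Y).filter (fun n => NA Q1 y A T n ∈ B)).card : ℝ) -
        Y * (Vq (QH Q1 A) y / Vz y) / Real.log X *
          ∑ j ∈ B, Real.exp (-(T * Vz y)) * (T * Vz y) ^ j / j.factorial| ≤
        ε * (Y * (Vq (QH Q1 A) y / Vz y) / Real.log X) := by
  classical
  obtain ⟨R, η1, hη10, hη1e, hfm⟩ := from_moments x0 ε hx0 hε hε1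
  obtain ⟨d, hd⟩ : ∃ d : ℝ, d = ε / 9 := ⟨_, rfl⟩
  have hd0 : 0 < d := by rw [hd]; positivity
  obtain ⟨η2, hη2⟩ : ∃ η2 : ℝ, η2 = min η1 (d / 2) := ⟨_, rfl⟩
  have hη20 : 0 < η2 := by rw [hη2]; positivity
  have hη21 : η2 ≤ η1 := by rw [hη2]; exact min_le_left _ _
  have hη2d : η2 ≤ d / 2 := by rw [hη2]; exact min_le_right _ _
  choose Kk Tk hmom using fun k => momentP a k η1 δ hη10 (by linarith) hδ hδ1
  obtain ⟨Kc, hcount⟩ := countP a η2 δ hη20 (by linarith) hδ hδ1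
  obtain ⟨Kb, Tb, hmom1⟩ := momentP a 0 1 δ one_pos le_rfl hδ hδ1
  obtain ⟨Kd, hsm⟩ := smallP a (Tb + 2) δ hδ hδ1 (by omega)
  obtain ⟨v, hv, hlow⟩ := V_lower_unif a
  obtain ⟨U, hU⟩ : ∃ U : ℕ, U = R + 1 + a + 1 := ⟨_, rfl⟩
  obtain ⟨y1, hy13, herr⟩ := err_small (R + 1) a x0 v η2 δ hx0 hv hη20 hδ
  rw [← hU] at herr
  choose yk hyk using fun k => hmom k U
  obtain ⟨yc, hyc⟩ := hcount U
  obtain ⟨yb, hyb⟩ := hmom1 U
  obtain ⟨yd, hyd⟩ := hsm U
  have hVw := Pool.Agent.Y879.PR.Vz_pos (Tb + 2)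
  obtain ⟨T0, hT0⟩ : ∃ T0 : ℕ, T0 = ∑ k ∈ range R, Tk k := ⟨_, rfl⟩
  obtain ⟨κ1, hκ1⟩ : ∃ κ1 : ℝ, κ1 = min (d / 4 / (T0 + 1)) (d * Vz (Tb + 2) / (4 * (Tb + 1))) := ⟨_, rfl⟩
  have hκ10 : 0 < κ1 := by rw [hκ1]; positivity
  have hκ11 : κ1 * (T0 + 1) ≤ d / 4 := by
    have : κ1 ≤ d / 4 / (T0 + 1) := by rw [hκ1]; exact min_le_left _ _
    rwa [le_div_iff₀ (by positivity)] at this
  have hκ12 : κ1 * (4 * (Tb + 1)) ≤ d * Vz (Tb + 2) := by
    have : κ1 ≤ d * Vz (Tb + 2) / (4 * (Tb + 1)) := by rw [hκ1]; exact min_le_right _ _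
    rwa [le_div_iff₀ (by positivity)] at this
  obtain ⟨y2, hy2⟩ := Vz_small κ1 hκ10
  refine ⟨(∑ k ∈ range R, Kk k) + Kc + Kb + Kd + 1,
    (∑ k ∈ range R, yk k) + yc + yb + yd + y1 + y2 + Tb + 2, by omega, ?_⟩
  intro y hy X hyX T A hAa h0 hAT hadmA hx u Y hu hY huY B
  have hy1' : 1 ≤ y := by omega
  have hpw : ∀ k : ℕ, k ≤ (∑ k ∈ range R, Kk k) + Kc + Kb + Kd + 1 → y ^ k ≤ X := fun k hk =>
    (Nat.pow_le_pow_right hy1' hk).trans hyX
  have hyX1 : y ≤ X := by simpa using hpw 1 (by omega)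
  have hVκ := hy2 y (by omega)
  obtain ⟨V, hV⟩ : ∃ V : ℝ, V = Vz y := ⟨_, rfl⟩
  have hV0 : 0 < V := by rw [hV]; exact Pool.Agent.Y879.PR.Vz_pos y
  obtain ⟨W, hW⟩ : ∃ W : ℝ, W = Vq (QH Q1 A) y := ⟨_, rfl⟩
  have hper2 : PerB (QH Q1 A) a := by
    have := perB_QH Q1 1 per1 A
    rwa [hAa, mul_one] at this
  have hWlow : v / Real.log y ^ a ≤ W := by
    rw [hW]
    exact hlow _ hper2 hadmA y (by omega)
  have hW0 : 0 ≤ W := by rw [hW]; exact Vq_nonneg _ _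
  obtain ⟨hl0, herr'⟩ := herr y (by omega) X hyX1 T hx W Y hWlow hY
  obtain ⟨l, hl⟩ : ∃ l : ℝ, l = Real.log X := ⟨_, rfl⟩
  rw [← hl] at hl0 herr'
  obtain ⟨M, hM⟩ : ∃ M : ℝ, M = Y * (W / V) := ⟨_, rfl⟩
  have hM0 : 0 ≤ M := by rw [hM]; positivity
  rw [← hV, ← hM] at herr'
  have hT0r : (0 : ℝ) ≤ T := Nat.cast_nonneg T
  have hcard : |((Pm y A u Y).card : ℝ) * l - M| ≤ η2 * M + η2 * M := by
    have h1 := hyc X y (by omega) (hpw _ (by omega)) A hAa h0 u Y hu hY huY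
    rw [← hl, ← hW, ← hV, ← hM] at h1
    have h2 := herr' 0 (by omega)
    rw [pow_zero, one_mul] at h2
    linarith
  have hc1 : |((Pm y A u Y).card : ℝ) - M / l| ≤ 2 * η2 * (M / l) := by
    have h1 := div_l ((Pm y A u Y).card : ℝ) l M 1 η2 η2 (η2 * M) hl0 le_rfl (by
      rw [mul_one]
      exact hcard)
    rw [mul_one] at h1
    linarith
  have hm0 : 0 ≤ M / l := by positivity
  rw [← hl, ← hW, ← hV, ← hM]
  rw [← hV] at hx
  by_cases hκ : d / 4 ≤ T * V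
  · -- large windows
    have hTT0 : T0 ≤ T := by
      by_contra hcon
      rw [not_le] at hcon
      have h1 : (T : ℝ) ≤ T0 := by exact_mod_cast hcon.le
      have h2 : (T : ℝ) * V ≤ T0 * κ1 := by
        rw [hV]
        exact mul_le_mul h1 hVκ (by rw [← hV]; exact hV0.le) (Nat.cast_nonneg _)
      nlinarith
    refine hfm (Pm y A u Y) (NA Q1 y A T) (T * V) (M / l) (by positivity) hx hm0 ?_ ?_ B
    · refine hc1.trans ?_
      gcongr
    · intro k hk
      have hkR : k ∈ range R := mem_range.2 (by omega)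
      have hKk : Kk k ≤ ∑ k ∈ range R, Kk k := Finset.single_le_sum (fun _ _ => Nat.zero_le _) hkR
      have hyk' : yk k ≤ ∑ k ∈ range R, yk k := Finset.single_le_sum (fun _ _ => Nat.zero_le _) hkR
      have hTk' : Tk k ≤ ∑ k ∈ range R, Tk k := Finset.single_le_sum (fun _ _ => Nat.zero_le _) hkR
      have h1 := hyk k X y T (by omega) (hpw _ (by omega)) (by omega) A hAa h0 hAT u Y hu hY huY
      rw [← hl, ← hW, ← hV] at h1
      have e : (Y : ℝ) / V * (W * ((T * V) ^ (k + 1) / (k + 1).factorial)) =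
          M * ((T * V) ^ (k + 1) / (k + 1).factorial) := by
        rw [hM]
        ring
      rw [e] at h1
      exact div_l _ l M _ η1 η1 _ hl0 ((herr' (k + 1) (by omega)).trans
        (mul_le_mul_of_nonneg_right hη21 hM0)) h1
  · -- small windows
    rw [not_le] at hκ
    have hTe : (T : ℝ) * (X / l ^ U) ≤ d / 2 * M := by
      have h2 := herr' 1 (by omega)
      rw [pow_one] at h2
      exact h2.trans (mul_le_mul_of_nonneg_right hη2d hM0)
    have hS : (∑ n ∈ Pm y A u Y, ((NA Q1 y A T n).choose 1 : ℝ)) * l ≤ d * M := by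
      rcases Nat.lt_or_ge T Tb with h | h
      · have h1 := hyd X y T (by omega) (hpw _ (by omega)) (by omega) (by omega) A hAa h0 hAT
          u Y hu hY huY
        rw [← hl, ← hW] at h1
        have h3 : (4 * (T : ℝ)) * (V / Vz (Tb + 2)) ≤ d := by
          have h4 : V ≤ κ1 := by rw [hV]; exact hVκ
          have h5 : (T : ℝ) ≤ Tb + 1 := by exact_mod_cast (by omega : T ≤ Tb + 1)
          rw [← mul_div_assoc, div_le_iff₀ hVw]
          calc 4 * (T : ℝ) * V ≤ 4 * (Tb + 1) * κ1 := by gcongr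
            _ = κ1 * (4 * (Tb + 1)) := by ring
            _ ≤ _ := hκ12
        have h7 : (T : ℝ) * (2 * (Y * (W / Vz (Tb + 2))) + X / l ^ U) =
            (4 * (T : ℝ)) * (V / Vz (Tb + 2)) * M / 2 + T * (X / l ^ U) := by
          rw [hM]
          field_simp
          ring
        have h8 : (4 * (T : ℝ)) * (V / Vz (Tb + 2)) * M ≤ d * M := mul_le_mul_of_nonneg_right h3 hM0
        linarith
      · have h1 := hyb X y T (by omega) (hpw _ (by omega)) h A hAa h0 hAT u Y hu hY huY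
        simp only [zero_add, pow_one, Nat.factorial_one, Nat.cast_one, div_one, one_mul] at h1
        rw [← hl, ← hW, ← hV] at h1
        have e : (Y : ℝ) / V * (W * (T * V)) = M * (T * V) := by
          rw [hM]
          ring
        rw [e] at h1
        have h2 := (abs_le.1 h1).2
        have h3 : M * (T * V) ≤ M * (d / 4) := mul_le_mul_of_nonneg_left hκ.le hM0
        linarith
    have hc2 : ∑ n ∈ Pm y A u Y, ((NA Q1 y A T n).choose 1 : ℝ) ≤ d * (M / l) := by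
      rw [← mul_div_assoc, le_div_iff₀ hl0]
      exact hS
    have h1 := law_small (Pm y A u Y) (NA Q1 y A T) (T * V) (M / l) d (by positivity)
      hm0 (hc1.trans (by
        have : 2 * η2 ≤ d := by linarith
        exact mul_le_mul_of_nonneg_right this hm0)) hc2 (by linarith) B
    have e : 9 * d * (M / l) = ε * (M / l) := by rw [hd]; ring
    rw [e] at h1
    exact h1

end Pool.Agent.H25.PrimePt
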