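import Pool.Agent.H25.PrimePtB

set_option autoImplicit false

/-!
# Patterns which start at a prime, among the integers without small prime factors: final form
-/

namespace Pool.Agent.H25.PrimePtC

open Finset Filter
open Pool.Agent.H373R2.T7 Pool.Agent.W123.RP Pool.Agent.W123.RU Pool.Agent.TH464.PO
open Pool.Agent.H25.TwoPt Pool.Agent.H25.SetPt Pool.Agent.H25.PrimePt
open Pool.Agent.H25.TwoPtE (Rough U U_up U_nonneg)
open Pool.Agent.H25.SetPtD (nu Admissible VA Others nuB_eq VA_eq')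

open Classical in
/-- The PRIMES `n` in `(u, u + Y]` for which no `n + h`, `h ∈ A`, has a prime factor `p ≤ z`. -/
noncomputable def OccP (z : ℕ) (A : Finset ℕ) (u Y : ℕ) : Finset ℕ :=
  (Ioc u (u + Y)).filter (fun n => n.Prime ∧ ∀ h ∈ A, Rough z (n + h))

lemma sf1_iff (y m : ℕ) : Sf Q1 y m ↔ Rough y m := by
  unfold Sf Q1 Rough
  constructor
  · intro h p hp hpy
    exact h p (mem_pz.2 ⟨hpy, hp⟩)
  · intro h p hp
    exact h p (mem_pz.1 hp).2 (mem_pz.1 hp).1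

lemma othersP_eq (y T n : ℕ) (A : Finset ℕ) : NA Q1 y A T n = Others y A (T + 1) n := by
  classical
  unfold NA Others
  apply Finset.card_bij (fun h _ => n + h)
  · intro h hh
    rw [mem_filter, Finset.mem_sdiff, mem_Icc, sf1_iff] at hh
    rw [mem_filter, mem_Ioo]
    refine ⟨by omega, ?_, hh.2⟩
    rw [show n + h - n = h by omega]
    exact hh.1.2
  · intro a _ b _ hab
    omega
  · intro m hm
    rw [mem_filter, mem_Ioo] at hm
    refine ⟨m - n, ?_, by omega⟩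
    rw [mem_filter, Finset.mem_sdiff, mem_Icc, sf1_iff, show n + (m - n) = m by omega]
    exact ⟨⟨by omega, hm.2.1⟩, hm.2.2⟩

lemma Pm_eq (y : ℕ) (A : Finset ℕ) (u Y : ℕ) : Pm y A u Y = OccP y A u Y := by
  classical
  ext n
  unfold Pm Pool.Agent.Y879.PR.Om OccP
  rw [mem_filter, mem_filter, sf_QH]
  simp only [sf1_iff, one_mul, add_zero]

lemma U_eq (z : ℕ) : Vz z = U z := by
  unfold Vz U
  rfl

/-- **The law around the occurrences of an admissible pattern which start at a prime.** -/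
theorem law (k : ℕ) (x₀ ε δ : ℝ) (hx : 0 ≤ x₀) (hε : 0 < ε) (hε1 : ε ≤ 1) (hδ : 0 < δ)
    (hδ1 : δ ≤ 1) :
    ∃ K z₀ : ℕ, 1 ≤ K ∧ 2 ≤ z₀ ∧ ∀ z : ℕ, z₀ ≤ z → ∀ X : ℕ, z ^ K ≤ X →
    ∀ A : Finset ℕ, A.card = k → 0 ∈ A → Admissible A → ∀ t : ℕ, 1 ≤ t → (∀ h ∈ A, h ≤ t) →
      ((t : ℝ) - 1) * U z ≤ x₀ → 0 < VA A z ∧
      ∀ u Y : ℕ, δ * X ≤ u → δ * X ≤ Y → u + Y ≤ X → ∀ B : Finset ℕ,
        |(((OccP z A u Y).filter (fun n => Others z A t n ∈ B)).card : ℝ) -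
          Y * (VA A z / U z) / Real.log X *
          ∑ j ∈ B, Real.exp (-(((t : ℝ) - 1) * U z)) * (((t : ℝ) - 1) * U z) ^ j / j.factorial| ≤
        ε * (Y * (VA A z / U z) / Real.log X) := by
  obtain ⟨K, y0, hK, H⟩ := coreP k x₀ ε δ hx hε hε1 hδ hδ1
  refine ⟨K, max y0 2, hK, le_max_right _ _, ?_⟩
  intro z hz X hX A hA h0 hadm t ht1 hAt hx
  obtain ⟨T, rfl⟩ : ∃ T, t = T + 1 := ⟨t - 1, by omega⟩
  have e : ((T + 1 : ℕ) : ℝ) - 1 = T := by push_cast; ring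
  rw [e] at hx ⊢
  have hadm' : ∀ p : ℕ, p.Prime → nuB (QH Q1 A) p < p := fun p hp => by
    rw [nuB_eq A p hp]
    exact hadm p hp
  refine ⟨?_, ?_⟩
  · have h1 := Vq_pos (QH Q1 A) hadm' z
    rw [VA_eq'] at h1
    exact h1
  · intro u Y hu hY huY B
    have h1 := H z ((le_max_left _ _).trans hz) X hX T A hA h0 hAt hadm' (by rw [U_eq]; exact hx)
      u Y hu hY huY B
    rw [Pm_eq, VA_eq', U_eq] at h1
    simp only [othersP_eq] at h1
    exact h1

/-- **The number of the occurrences of an admissible pattern by consecutive rough integers which start at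
a prime**, for all patterns of diameter at most `C log z`. -/
theorem patterns (k : ℕ) (C ε δ : ℝ) (hC : 0 ≤ C) (hε : 0 < ε) (hε1 : ε ≤ 1) (hδ : 0 < δ)
    (hδ1 : δ ≤ 1) :
    ∃ K z₀ : ℕ, 1 ≤ K ∧ 2 ≤ z₀ ∧ ∀ z : ℕ, z₀ ≤ z → ∀ X : ℕ, z ^ K ≤ X →
    ∀ A : Finset ℕ, A.card = k → 0 ∈ A → Admissible A → ∀ t : ℕ, 1 ≤ t → (∀ h ∈ A, h ≤ t) →
      (t : ℝ) ≤ C * Real.log z → 0 < VA A z ∧
      ∀ u Y : ℕ, δ * X ≤ u → δ * X ≤ Y → u + Y ≤ X →
        |(((OccP z A u Y).filter (fun n => Others z A t n = 0)).card : ℝ) -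
          Y * (VA A z / U z) / Real.log X * Real.exp (-(((t : ℝ) - 1) * U z))| ≤
        ε * (Y * (VA A z / U z) / Real.log X * Real.exp (-(((t : ℝ) - 1) * U z))) := by
  obtain ⟨C1, hC1, hU⟩ := U_up
  obtain ⟨x₀, hx₀⟩ : ∃ x₀ : ℝ, x₀ = C * C1 := ⟨_, rfl⟩
  have hx0 : 0 ≤ x₀ := by rw [hx₀]; positivity
  have he1 : Real.exp (-x₀) ≤ 1 := Real.exp_le_one_iff.2 (by linarith)
  have he0 := Real.exp_pos (-x₀)
  obtain ⟨K, z₀, hK, hz₀, H⟩ := law k x₀ (ε * Real.exp (-x₀)) δ hx0 (by positivity) (by nlinarith)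
    hδ hδ1
  refine ⟨K, z₀, hK, hz₀, ?_⟩
  intro z hz X hX A hA h0 hadm t ht1 hAt htC
  have hz2 : 2 ≤ z := hz₀.trans hz
  have hlog : 0 < Real.log z := Real.log_pos (by exact_mod_cast (by omega : 1 < z))
  have hU0 := U_nonneg z
  have ht1' : (1 : ℝ) ≤ t := by exact_mod_cast ht1
  have hx : ((t : ℝ) - 1) * U z ≤ x₀ := by
    calc ((t : ℝ) - 1) * U z ≤ (C * Real.log z) * (C1 / Real.log z) := by
          apply mul_le_mul (by linarith) (hU z hz2) hU0 (by positivity)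
      _ = x₀ := by rw [hx₀]; field_simp
  obtain ⟨hV, H1⟩ := H z hz X hX A hA h0 hadm t ht1 hAt hx
  refine ⟨hV, ?_⟩
  intro u Y hu hY huY
  have h1 := H1 u Y hu hY huY {0}
  rw [Finset.sum_singleton] at h1
  simp only [mem_singleton, pow_zero, Nat.factorial_zero, Nat.cast_one, div_one, mul_one] at h1
  refine h1.trans ?_
  have h2 : Real.exp (-x₀) ≤ Real.exp (-(((t : ℝ) - 1) * U z)) := Real.exp_le_exp.2 (by linarith)
  have h3 : 0 ≤ (Y : ℝ) * (VA A z / U z) / Real.log X := by positivity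
  calc ε * Real.exp (-x₀) * (Y * (VA A z / U z) / Real.log X) =
        ε * ((Y * (VA A z / U z) / Real.log X) * Real.exp (-x₀)) := by ring
    _ ≤ ε * ((Y * (VA A z / U z) / Real.log X) * Real.exp (-(((t : ℝ) - 1) * U z))) := by gcongr

end Pool.Agent.H25.PrimePtC
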