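import Pool.Agent.H25.PrimePtC

set_option autoImplicit false

/-!
# The distances from a prime to the next integers without small prime factors
-/

namespace Pool.Agent.H25.PrimePtD

open Finset Filter
open Pool.Agent.H25.TwoPtE (Rough U V Btw U_up U_nonneg)
open Pool.Agent.H25.SetPtD (nu Admissible VA Others)
open Pool.Agent.H25.PrimePtC

lemma nu_single (p : ℕ) : nu {0} p = 1 := by
  unfold nu
  simp

lemma nu_pair (t p : ℕ) (_hp : p.Prime) : nu {0, t} p = if p ∣ t then 1 else 2 := by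
  unfold nu
  rw [image_insert, image_singleton, Nat.zero_mod]
  split_ifs with h
  · rw [Nat.mod_eq_zero_of_dvd h]
    simp
  · rw [card_pair]
    intro h0
    exact h (Nat.dvd_of_mod_eq_zero h0.symm)

lemma VA_single (z : ℕ) : VA {0} z = U z := by
  unfold VA U
  apply prod_congr rfl
  intro p _
  rw [nu_single, Nat.cast_one]

lemma VA_pair (t z : ℕ) : VA {0, t} z = V t z := by
  unfold VA V
  apply prod_congr rfl
  intro p hp
  rw [nu_pair t p (mem_filter.1 hp).2]
  split_ifs <;> simp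

lemma adm_single : Admissible {0} := by
  intro p hp
  rw [nu_single]
  exact hp.one_lt

lemma adm_pair (t : ℕ) (ht : Even t) : Admissible {0, t} := by
  intro p hp
  rw [nu_pair t p hp]
  split_ifs with h
  · exact hp.one_lt
  · have h2 := hp.two_le
    rcases Nat.lt_or_ge 2 p with h3 | h3
    · exact h3
    · exfalso
      have : p = 2 := by omega
      rw [this] at h
      exact h ht.two_dvd

lemma others_single (z t n : ℕ) : Others z {0} t n = Btw z t n := by
  classical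
  unfold Others Pool.Agent.H25.TwoPtE.Btw
  congr 1
  apply filter_congr
  intro m hm
  rw [mem_Ioo] at hm
  constructor
  · exact fun h => h.2
  · intro h
    refine ⟨?_, h⟩
    rw [mem_singleton]
    omega

lemma others_pair (z t n : ℕ) : Others z {0, t} t n = Btw z t n := by
  classical
  unfold Others Pool.Agent.H25.TwoPtE.Btw
  congr 1
  apply filter_congr
  intro m hm
  rw [mem_Ioo] at hm
  constructor
  · exact fun h => h.2
  · intro h
    refine ⟨?_, h⟩
    rw [mem_insert, mem_singleton]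
    omega

open Classical in
/-- The primes `n` in `(u, u + Y]`, `n` without prime factor `p ≤ z`. -/
noncomputable def PrimesIn (z u Y : ℕ) : Finset ℕ :=
  (Ioc u (u + Y)).filter (fun n => n.Prime ∧ Rough z n)

open Classical in
/-- The primes `n` in `(u, u + Y]` such that `n` and `n + t` have no prime factor `p ≤ z`. -/
noncomputable def PrimePairs (z t u Y : ℕ) : Finset ℕ :=
  (Ioc u (u + Y)).filter (fun n => n.Prime ∧ Rough z n ∧ Rough z (n + t))

lemma occ_single (z u Y : ℕ) : OccP z {0} u Y = PrimesIn z u Y := by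
  classical
  ext n
  unfold OccP PrimesIn
  rw [mem_filter, mem_filter]
  simp

lemma occ_pair (z t u Y : ℕ) : OccP z {0, t} u Y = PrimePairs z t u Y := by
  classical
  ext n
  unfold OccP PrimePairs
  rw [mem_filter, mem_filter]
  simp

/-- the law of the number of the rough integers in a window after a prime -/
theorem after (x₀ ε δ : ℝ) (hx : 0 ≤ x₀) (hε : 0 < ε) (hε1 : ε ≤ 1) (hδ : 0 < δ) (hδ1 : δ ≤ 1) :
    ∃ K z₀ : ℕ, 1 ≤ K ∧ 2 ≤ z₀ ∧ ∀ z : ℕ, z₀ ≤ z → ∀ X : ℕ, z ^ K ≤ X →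
      0 < U z ∧ ∀ t : ℕ, 1 ≤ t → ((t : ℝ) - 1) * U z ≤ x₀ →
      ∀ u Y : ℕ, δ * X ≤ u → δ * X ≤ Y → u + Y ≤ X → ∀ B : Finset ℕ,
        |(((PrimesIn z u Y).filter (fun n => Btw z t n ∈ B)).card : ℝ) - Y / Real.log X *
          ∑ j ∈ B, Real.exp (-(((t : ℝ) - 1) * U z)) * (((t : ℝ) - 1) * U z) ^ j / j.factorial| ≤
        ε * (Y / Real.log X) := by
  obtain ⟨K, z₀, hK, hz₀, H⟩ := law 1 x₀ ε δ hx hε hε1 hδ hδ1
  refine ⟨K, z₀, hK, hz₀, ?_⟩
  intro z hz X hX
  have hU : 0 < U z := by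
    have := (H z hz X hX {0} (card_singleton 0) (by simp) adm_single 1 le_rfl (by simp)
      (by simpa using hx)).1
    rwa [VA_single] at this
  refine ⟨hU, ?_⟩
  intro t ht1 hxt u Y hu hY huY B
  have h1 := (H z hz X hX {0} (card_singleton 0) (by simp) adm_single t ht1 (by simp) hxt).2
    u Y hu hY huY B
  rw [occ_single, VA_single, div_self hU.ne', mul_one] at h1
  simp only [others_single] at h1
  exact h1

/-- the law of the number of the rough integers between a prime and a rough integer at distance `t` -/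
theorem between (x₀ ε δ : ℝ) (hx : 0 ≤ x₀) (hε : 0 < ε) (hε1 : ε ≤ 1) (hδ : 0 < δ) (hδ1 : δ ≤ 1) :
    ∃ K z₀ : ℕ, 1 ≤ K ∧ 2 ≤ z₀ ∧ ∀ z : ℕ, z₀ ≤ z → ∀ X : ℕ, z ^ K ≤ X →
      ∀ t : ℕ, Even t → 1 ≤ t → ((t : ℝ) - 1) * U z ≤ x₀ → 0 < V t z ∧
      ∀ u Y : ℕ, δ * X ≤ u → δ * X ≤ Y → u + Y ≤ X → ∀ B : Finset ℕ,
        |(((PrimePairs z t u Y).filter (fun n => Btw z t n ∈ B)).card : ℝ) -
          Y * (V t z / U z) / Real.log X *
          ∑ j ∈ B, Real.exp (-(((t : ℝ) - 1) * U z)) * (((t : ℝ) - 1) * U z) ^ j / j.factorial| ≤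
        ε * (Y * (V t z / U z) / Real.log X) := by
  obtain ⟨K, z₀, hK, hz₀, H⟩ := law 2 x₀ ε δ hx hε hε1 hδ hδ1
  refine ⟨K, z₀, hK, hz₀, ?_⟩
  intro z hz X hX t ht ht1 hxt
  have hc : ({0, t} : Finset ℕ).card = 2 := card_pair (by omega)
  obtain ⟨hV, H1⟩ := H z hz X hX {0, t} hc (by simp) (adm_pair t ht) t ht1 (by simp) hxt
  rw [VA_pair] at hV H1
  refine ⟨hV, ?_⟩
  intro u Y hu hY huY B
  have h1 := H1 u Y hu hY huY B
  rw [occ_pair] at h1
  simp only [others_pair] at h1
  exact h1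

end Pool.Agent.H25.PrimePtD
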