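import Pool.Agent.H25.PrimePtD

set_option autoImplicit false

/-!
# The next integer without small prime factors after a prime
-/

namespace Pool.Agent.H25.PrimePtE

open Finset Filter
open Pool.Agent.H25.TwoPtE (Rough U V U_up U_nonneg)
open Pool.Agent.H25.PrimePtD

open Classical in
/-- The primes `n` in `(u, u + Y]` such that the next integer after `n` without prime factor `p ≤ z` is `n + t`. -/
noncomputable def Next (z t u Y : ℕ) : Finset ℕ :=
  (Ioc u (u + Y)).filter (fun n => n.Prime ∧ Rough z n ∧ Rough z (n + t) ∧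
    ∀ m : ℕ, n < m → m < n + t → ¬ Rough z m)

lemma btw_zero (z t n : ℕ) :
    Pool.Agent.H25.TwoPtE.Btw z t n = 0 ↔ ∀ m : ℕ, n < m → m < n + t → ¬ Rough z m := by
  classical
  unfold Pool.Agent.H25.TwoPtE.Btw
  rw [card_eq_zero, filter_eq_empty_iff]
  constructor
  · intro h m h1 h2
    exact h (mem_Ioo.2 ⟨h1, h2⟩)
  · intro h m hm
    rw [mem_Ioo] at hm
    exact h m hm.1 hm.2

lemma next_eq (z t u Y : ℕ) :
    Next z t u Y = (PrimePairs z t u Y).filter (fun n => Pool.Agent.H25.TwoPtE.Btw z t n ∈ ({0} : Finset ℕ)) := by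
  classical
  ext n
  unfold Next PrimePairs
  rw [mem_filter, mem_filter, mem_filter, mem_singleton, btw_zero]
  tauto

/-- **The next rough integer after a prime: every even distance has its asymptotic frequency.** -/
theorem next (x₀ ε δ : ℝ) (hx : 0 ≤ x₀) (hε : 0 < ε) (hε1 : ε ≤ 1) (hδ : 0 < δ) (hδ1 : δ ≤ 1) :
    ∃ K z₀ : ℕ, 1 ≤ K ∧ 2 ≤ z₀ ∧ ∀ z : ℕ, z₀ ≤ z → ∀ X : ℕ, z ^ K ≤ X →
      ∀ t : ℕ, Even t → 1 ≤ t → ((t : ℝ) - 1) * U z ≤ x₀ → 0 < V t z ∧
      ∀ u Y : ℕ, δ * X ≤ u → δ * X ≤ Y → u + Y ≤ X →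
        |((Next z t u Y).card : ℝ) -
          Y * (V t z / U z) / Real.log X * Real.exp (-(((t : ℝ) - 1) * U z))| ≤
        ε * (Y * (V t z / U z) / Real.log X * Real.exp (-(((t : ℝ) - 1) * U z))) := by
  have he1 : Real.exp (-x₀) ≤ 1 := Real.exp_le_one_iff.2 (by linarith)
  have he0 := Real.exp_pos (-x₀)
  obtain ⟨K, z₀, hK, hz₀, H⟩ := between x₀ (ε * Real.exp (-x₀)) δ hx (by positivity) (by nlinarith)
    hδ hδ1
  refine ⟨K, z₀, hK, hz₀, ?_⟩
  intro z hz X hX t ht ht1 hxt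
  obtain ⟨hV, H1⟩ := H z hz X hX t ht ht1 hxt
  refine ⟨hV, ?_⟩
  intro u Y hu hY huY
  have h1 := H1 u Y hu hY huY {0}
  rw [← next_eq, Finset.sum_singleton] at h1
  simp only [pow_zero, Nat.factorial_zero, Nat.cast_one, div_one, mul_one] at h1
  refine h1.trans ?_
  have h2 : Real.exp (-x₀) ≤ Real.exp (-(((t : ℝ) - 1) * U z)) := Real.exp_le_exp.2 (by linarith)
  have hU0 := U_nonneg z
  have h3 : 0 ≤ (Y : ℝ) * (V t z / U z) / Real.log X := by positivity
  calc ε * Real.exp (-x₀) * (Y * (V t z / U z) / Real.log X) =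
        ε * ((Y * (V t z / U z) / Real.log X) * Real.exp (-x₀)) := by ring
    _ ≤ ε * ((Y * (V t z / U z) / Real.log X) * Real.exp (-(((t : ℝ) - 1) * U z))) := by gcongr

end Pool.Agent.H25.PrimePtE
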