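import Pool.Agent.V11237.LP.Short

set_option autoImplicit false

/-!
# Almost primes in one residue class, uniformly in the modulus: number and gap laws in terms of `Y U / φ(q)`
-/

namespace Pool.Agent.H25.ProgLaw

open Finset Filter
open Pool.Agent.V11237.LP

/-- No prime `p ≤ x ^ (1 / r)` divides `n`. -/
def Good (x r n : ℕ) : Prop :=
  ∀ p : ℕ, p.Prime → (p : ℝ) ≤ (x : ℝ) ^ (1 / (r : ℝ)) → ¬ p ∣ n

open Classical in
/-- The number of the good `n ≡ a (mod q)` in `(u, u + Y]` with fewer than `l` good `m ≡ a (mod q)` in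
`[n - T, n)`. -/
noncomputable def G (q a x r l T u Y : ℕ) : ℕ :=
  ((Ioc u (u + Y)).filter (fun n => (n % q = a % q ∧ Good x r n) ∧
    ((Ico (n - T) n).filter (fun m => m % q = a % q ∧ Good x r m)).card < l)).card

/-- The product of `1 - 1 / p` over the primes `p ≤ x ^ (1 / r)`. -/
noncomputable def U (x r : ℕ) : ℝ :=
  ∏ p ∈ (Icc 1 ⌊(x : ℝ) ^ (1 / (r : ℝ))⌋₊).filter Nat.Prime, (1 - 1 / (p : ℝ))

/-- the probability that a Poisson variable with mean `x` is less than `l` -/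
noncomputable def f (l : ℕ) (x : ℝ) : ℝ := ∑ j ∈ range l, Real.exp (-x) * x ^ j / j.factorial

lemma f_deriv (l : ℕ) (x : ℝ) :
    HasDerivAt (f (l + 1)) (-(Real.exp (-x) * x ^ l / l.factorial)) x := by
  induction l with
  | zero =>
    have h : f (0 + 1) = fun y : ℝ => Real.exp (-y) := by
      funext y
      simp [f]
    rw [h]
    have := (hasDerivAt_neg x).exp
    simpa using this
  | succ l ih =>
    have h : f (l + 1 + 1) = fun y : ℝ => f (l + 1) y +
        Real.exp (-y) * y ^ (l + 1) / (l + 1).factorial := by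
      funext y
      unfold f
      rw [Finset.sum_range_succ _ (l + 1)]
    rw [h]
    have h1 : HasDerivAt (fun y : ℝ => Real.exp (-y) * y ^ (l + 1) / (l + 1).factorial)
        ((Real.exp (-x) * (-1) * x ^ (l + 1) + Real.exp (-x) * (((l + 1 : ℕ) : ℝ) * x ^ l)) /
          (l + 1).factorial) x := by
      have h2 := (hasDerivAt_neg x).exp
      have h3 := hasDerivAt_pow (l + 1) x
      rw [Nat.add_sub_cancel] at h3
      exact (h2.mul h3).div_const _
    have h4 := ih.add h1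
    refine h4.congr_deriv ?_
    have h5 : ((l + 1).factorial : ℝ) = (l + 1) * l.factorial := by
      rw [Nat.factorial_succ]
      push_cast
      ring
    have h6 : (l.factorial : ℝ) ≠ 0 := by positivity
    rw [h5]
    push_cast
    field_simp
    ring

lemma ps_le (l : ℕ) {z : ℝ} (hz : 0 ≤ z) : Real.exp (-z) * z ^ l / l.factorial ≤ 1 := by
  have h1 := Real.pow_div_factorial_le_exp z hz l
  rw [mul_div_assoc]
  calc Real.exp (-z) * (z ^ l / l.factorial) ≤ Real.exp (-z) * Real.exp z :=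
        mul_le_mul_of_nonneg_left h1 (Real.exp_pos _).le
    _ = 1 := by rw [← Real.exp_add]; simp

lemma f_lip (l : ℕ) {x y : ℝ} (hx : 0 ≤ x) (hy : 0 ≤ y) : |f l x - f l y| ≤ |x - y| := by
  rcases l with _ | l
  · simp [f]
  have key := (convex_Ici (0 : ℝ)).norm_image_sub_le_of_norm_hasDerivWithin_le
    (f := f (l + 1)) (f' := fun x => -(Real.exp (-x) * x ^ l / l.factorial)) (C := 1)
    (x := y) (y := x) (fun z _ => (f_deriv l z).hasDerivWithinAt) ?_ hy hx
  · simpa [Real.norm_eq_abs] using key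
  · intro z hz
    have hz0 : (0 : ℝ) ≤ z := hz
    rw [norm_neg, Real.norm_eq_abs, abs_of_nonneg (by positivity)]
    exact ps_le l hz0

lemma f_scale (l : ℕ) {x c : ℝ} (hx : 0 ≤ x) (hc : 1 / 2 ≤ c) (hc1 : c ≤ 1) :
    |f l x - f l (c * x)| ≤ 2 * l * (1 - c) := by
  rcases l with _ | l
  · simp [f]
  have key := (convex_Icc (1 / 2 : ℝ) 1).norm_image_sub_le_of_norm_hasDerivWithin_le
    (f := fun s => f (l + 1) (s * x))
    (f' := fun s => -(Real.exp (-(s * x)) * (s * x) ^ l / l.factorial) * (1 * x)) (C := 2 * (l + 1))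
    (x := c) (y := 1) (fun s _ => by
      have h1 : HasDerivAt (fun s : ℝ => s * x) (1 * x) s := (hasDerivAt_id s).mul_const x
      exact ((f_deriv l (s * x)).comp s h1).hasDerivWithinAt) ?_ ⟨hc, hc1⟩ ⟨by norm_num, le_rfl⟩
  · simp only [one_mul] at key
    rw [Real.norm_eq_abs, Real.norm_eq_abs, abs_of_nonneg (by linarith : (0 : ℝ) ≤ 1 - c)] at key
    push_cast
    exact key
  · rintro s ⟨hs1, _⟩
    have hs0 : 0 < s := by linarith
    have hz : 0 ≤ s * x := by positivity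
    rw [one_mul, norm_mul, norm_neg, Real.norm_eq_abs, Real.norm_eq_abs, abs_of_nonneg hx,
      abs_of_nonneg (by positivity)]
    have h1 := ps_le (l + 1) hz
    have hfac : ((l + 1).factorial : ℝ) = (l + 1) * l.factorial := by
      rw [Nat.factorial_succ]
      push_cast
      ring
    have h2 : Real.exp (-(s * x)) * (s * x) ^ l / l.factorial * x =
        (l + 1) / s * (Real.exp (-(s * x)) * (s * x) ^ (l + 1) / (l + 1).factorial) := by
      rw [hfac]
      have : (l.factorial : ℝ) ≠ 0 := by positivity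
      field_simp
      ring
    rw [h2]
    have h3 : ((l : ℝ) + 1) / s ≤ 2 * (l + 1) := by
      rw [div_le_iff₀ hs0]
      have : (0 : ℝ) ≤ (l : ℝ) + 1 := by positivity
      nlinarith
    calc ((l : ℝ) + 1) / s * (Real.exp (-(s * x)) * (s * x) ^ (l + 1) / (l + 1).factorial)
        ≤ (2 * (l + 1)) * 1 := mul_le_mul h3 h1 (by positivity) (by positivity)
      _ = 2 * (l + 1) := by ring

lemma f_nonneg (l : ℕ) {x : ℝ} (hx : 0 ≤ x) : 0 ≤ f l x := by
  unfold f
  exact Finset.sum_nonneg fun j _ => by positivity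

lemma f_le_one (l : ℕ) {x : ℝ} (hx : 0 ≤ x) : f l x ≤ 1 := by
  unfold f
  have h1 := Real.sum_le_exp_of_nonneg hx l
  have h2 : ∑ j ∈ range l, Real.exp (-x) * x ^ j / (j.factorial : ℝ) =
      Real.exp (-x) * ∑ j ∈ range l, x ^ j / (j.factorial : ℝ) := by
    rw [Finset.mul_sum]
    exact Finset.sum_congr rfl fun j _ => by ring
  rw [h2]
  calc Real.exp (-x) * ∑ j ∈ range l, x ^ j / (j.factorial : ℝ) ≤ Real.exp (-x) * Real.exp x :=
        mul_le_mul_of_nonneg_left h1 (Real.exp_pos _).le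
    _ = 1 := by rw [← Real.exp_add]; simp

/-- the windows -/
lemma inner_card (q a x r T k : ℕ) (hq : 1 ≤ q) : 
    ∀ [DecidablePred fun m => m % q = a % q ∧ Good x r m] [DecidablePred fun t => One.Good q (a % q) x r t],
    ((Ico (q * k + a % q - T) (q * k + a % q)).filter (fun m => m % q = a % q ∧ Good x r m)).card =
      ((Ico (k - T / q) k).filter (fun t => One.Good q (a % q) x r t)).card := by
  intro _ _
  have hlt : a % q < q := Nat.mod_lt _ hq
  have hmod : ∀ t : ℕ, (q * t + a % q) % q = a % q := by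
    intro t
    rw [Nat.mul_add_mod, Nat.mod_mod]
  have hdiv : ∀ t : ℕ, (q * t + a % q) / q = t := by
    intro t
    rw [Nat.mul_add_div (by omega), Nat.div_eq_of_lt hlt, add_zero]
  have hrec : ∀ m : ℕ, m % q = a % q → q * (m / q) + a % q = m := by
    intro m hm
    rw [← hm]
    exact Nat.div_add_mod m q
  have hlow : ∀ t : ℕ, (q * k + a % q - T ≤ q * t + a % q ↔ k - T / q ≤ t) := by
    intro t
    rw [Nat.sub_le_iff_le_add, Nat.sub_le_iff_le_add]
    constructor
    · intro h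
      have h1 : q * k ≤ q * t + T := by omega
      have h2 : k ≤ (q * t + T) / q := (Nat.le_div_iff_mul_le (by omega)).2 (by rw [mul_comm]; exact h1)
      rwa [Nat.mul_add_div (by omega)] at h2
    · intro h
      have h1 : q * k ≤ q * (t + T / q) := Nat.mul_le_mul_left _ h
      have h2 : q * (T / q) ≤ T := Nat.mul_div_le T q
      rw [mul_add] at h1
      omega
  refine Finset.card_nbij' (fun m => m / q) (fun t => q * t + a % q) ?_ ?_ ?_ ?_
  · intro m hm
    rw [mem_coe, mem_filter, mem_Ico] at hm ⊢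
    obtain ⟨⟨h1, h2⟩, h3, h4⟩ := hm
    have h5 := hrec m h3
    refine ⟨⟨(hlow _).1 (by rw [h5]; exact h1), ?_⟩, ?_⟩
    · by_contra hcon
      have hcon' : k ≤ m / q := not_lt.1 hcon
      have := Nat.mul_le_mul_left q hcon'
      omega
    · intro p hp hpx
      show ¬ p ∣ q * (m / q) + a % q
      rw [h5]
      exact h4 p hp hpx
  · intro t ht
    rw [mem_coe, mem_filter, mem_Ico] at ht ⊢
    obtain ⟨⟨h1, h2⟩, h3⟩ := ht
    refine ⟨⟨(hlow t).2 h1, ?_⟩, hmod t, h3⟩
    have := Nat.mul_lt_mul_of_pos_left h2 (by omega : 0 < q)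
    show q * t + a % q < q * k + a % q
    omega
  · intro m hm
    rw [mem_coe, mem_filter] at hm
    exact hrec m hm.2.1
  · intro t _
    exact hdiv t

/-- comparison with the counts of the `k` -/
lemma G_bounds (q a x r l T u Y : ℕ) (hq : 1 ≤ q) (hqY : q ≤ Y) :
    One.G q (a % q) x r l (T / q) ((u - a % q) / q) ((u + Y - a % q) / q - (u - a % q) / q) ≤
      G q a x r l T u Y ∧
    G q a x r l T u Y ≤
      One.G q (a % q) x r l (T / q) ((u - a % q) / q) ((u + Y - a % q) / q - (u - a % q) / q) + 1 := by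
  classical
  have hlt : a % q < q := Nat.mod_lt _ hq
  have hmod : ∀ t : ℕ, (q * t + a % q) % q = a % q := by
    intro t
    rw [Nat.mul_add_mod, Nat.mod_mod]
  have hrec : ∀ m : ℕ, m % q = a % q → q * (m / q) + a % q = m := by
    intro m hm
    rw [← hm]
    exact Nat.div_add_mod m q
  have hk12 : (u - a % q) / q ≤ (u + Y - a % q) / q := Nat.div_le_div_right (by omega)
  have hadd : (u - a % q) / q + ((u + Y - a % q) / q - (u - a % q) / q) = (u + Y - a % q) / q := by
    omega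
  unfold One.G
  rw [hadd]
  obtain ⟨K, hK⟩ : ∃ K, K = (Ioc ((u - a % q) / q) ((u + Y - a % q) / q)).filter (fun k =>
    One.Good q (a % q) x r k ∧
      ((Ico (k - T / q) k).filter (fun t => One.Good q (a % q) x r t)).card < l) := ⟨_, rfl⟩
  rw [← hK]
  obtain ⟨S, hS⟩ : ∃ S, S = (Ioc u (u + Y)).filter (fun n => (n % q = a % q ∧ Good x r n) ∧
    ((Ico (n - T) n).filter (fun m => m % q = a % q ∧ Good x r m)).card < l) := ⟨_, rfl⟩
  have hGS : G q a x r l T u Y = S.card := by rw [hS]; rfl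
  rw [hGS]
  have hup : ∀ k : ℕ, q * k + a % q ≤ u + Y ↔ k ≤ (u + Y - a % q) / q := by
    intro k
    rw [Nat.le_div_iff_mul_le (by omega), mul_comm k q]
    omega
  constructor
  · apply Finset.card_le_card_of_injOn (fun k => q * k + a % q)
    · intro k hk
      rw [mem_coe, hK, mem_filter, mem_Ioc] at hk
      rw [mem_coe, hS, mem_filter, mem_Ioc]
      obtain ⟨⟨h1, h2⟩, h3, h4⟩ := hk
      refine ⟨⟨?_, (hup k).2 h2⟩, ⟨hmod k, h3⟩, ?_⟩
      · have := (Nat.div_lt_iff_lt_mul (by omega)).1 h1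
        rw [mul_comm k q] at this
        show u < q * k + a % q
        omega
      · show ((Ico (q * k + a % q - T) (q * k + a % q)).filter _).card < l
        rw [inner_card q a x r T k hq]
        exact h4
    · intro k _ k' _ h
      have h' : q * k + a % q = q * k' + a % q := h
      have : q * k = q * k' := by omega
      exact Nat.eq_of_mul_eq_mul_left (by omega) this
  · have hsub : S.image (fun n => n / q) ⊆ insert 0 K := by
      intro k hk
      rw [mem_image] at hk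
      obtain ⟨n, hn, rfl⟩ := hk
      rw [hS, mem_filter, mem_Ioc] at hn
      obtain ⟨⟨h1, h2⟩, ⟨h3, h4⟩, h5⟩ := hn
      have h6 := hrec n h3
      rw [mem_insert, hK, mem_filter, mem_Ioc]
      rcases Nat.eq_zero_or_pos (n / q) with h0 | h0
      · exact Or.inl h0
      · right
        refine ⟨⟨?_, (hup _).1 (by rw [h6]; exact h2)⟩, ?_, ?_⟩
        · rcases le_or_gt (a % q) u with hau | hau
          · rw [Nat.div_lt_iff_lt_mul (by omega), mul_comm]
            omega
          · have : u - a % q = 0 := by omega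
            rw [this, Nat.zero_div]
            exact h0
        · intro p hp hpx
          show ¬ p ∣ q * (n / q) + a % q
          rw [h6]
          exact h4 p hp hpx
        · rw [← inner_card q a x r T (n / q) hq, h6]
          exact h5
    have hcard : (S.image (fun n => n / q)).card = S.card := by
      apply Finset.card_image_of_injOn
      intro n hn n' hn' h
      rw [mem_coe, hS, mem_filter] at hn hn'
      have h1 := hrec n hn.2.1.1
      have h2 := hrec n' hn'.2.1.1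
      have h' : n / q = n' / q := h
      rw [← h1, ← h2, h']
    rw [← hcard]
    exact (Finset.card_le_card hsub).trans (Finset.card_insert_le _ _)

/-- the number of the steps -/
lemma steps (q b u Y : ℕ) (hq : 1 ≤ q) (hb : b < q) (hqY : q ≤ Y) :
    |(((u + Y - b) / q - (u - b) / q : ℕ) : ℝ) - (Y : ℝ) / q| ≤ 2 := by
  have hq0 : (0 : ℝ) < q := by exact_mod_cast hq
  have h12 : (u - b) / q ≤ (u + Y - b) / q := Nat.div_le_div_right (by omega)
  rw [Nat.cast_sub h12]
  have hf : ∀ m : ℕ, (m : ℝ) / q - 1 ≤ ((m / q : ℕ) : ℝ) ∧ ((m / q : ℕ) : ℝ) ≤ (m : ℝ) / q := by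
    intro m
    refine ⟨?_, Nat.cast_div_le⟩
    have h1 : m < q * (m / q + 1) := by
      have := Nat.lt_mul_div_succ m (by omega : 0 < q)
      simpa using this
    have h2 : (m : ℝ) < q * (((m / q : ℕ) : ℝ) + 1) := by exact_mod_cast h1
    rw [tsub_le_iff_right, div_le_iff₀ hq0]
    linarith
  obtain ⟨a1, a2⟩ := hf (u + Y - b)
  obtain ⟨b1, b2⟩ := hf (u - b)
  have e1 : ((u + Y - b : ℕ) : ℝ) = (u : ℝ) + Y - b := by
    rw [Nat.cast_sub (by omega)]
    push_cast
    ring
  rw [e1, sub_div, add_div] at a1 a2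
  have hbq : (b : ℝ) / q ≤ 1 := by
    rw [div_le_one hq0]
    exact_mod_cast hb.le
  have hbq0 : 0 ≤ (b : ℝ) / q := by positivity
  have huq0 : 0 ≤ (u : ℝ) / q := by positivity
  rcases le_or_gt b u with h | h
  · have e2 : ((u - b : ℕ) : ℝ) = (u : ℝ) - b := Nat.cast_sub h
    rw [e2, sub_div] at b1 b2
    rw [abs_le]
    constructor <;> linarith
  · have e2 : (u - b) / q = 0 := by
      rw [Nat.sub_eq_zero_of_le h.le, Nat.zero_div]
    have e3 : (u : ℝ) / q ≤ b / q := div_le_div_of_nonneg_right (by exact_mod_cast h.le) hq0.le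
    rw [e2, Nat.cast_zero, sub_zero, abs_le]
    constructor <;> linarith

lemma fac {p : ℕ} (hp : p.Prime) : 0 < 1 - 1 / (p : ℝ) ∧ 1 - 1 / (p : ℝ) ≤ 1 := by
  have h2 : (1 : ℝ) < p := by exact_mod_cast hp.one_lt
  constructor
  · rw [sub_pos, div_lt_one (by linarith)]
    exact h2
  · have : 0 ≤ 1 / (p : ℝ) := by positivity
    linarith

lemma U_pos (x r : ℕ) : 0 < U x r := by
  unfold U
  exact Finset.prod_pos fun p hp => (fac (mem_filter.1 hp).2).1

lemma V_le_one (q x r : ℕ) : One.V q x r ≤ 1 := by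
  unfold One.V
  exact Finset.prod_le_one (fun p hp => (fac (mem_filter.1 hp).2.1).1.le)
    fun p hp => (fac (mem_filter.1 hp).2.1).2

lemma card_pf (q x : ℕ) (hq : 1 ≤ q) (hqx : q ≤ x) :
    ((q.primeFactors.card : ℕ) : ℝ) ≤ 2 * Real.log x := by
  have h1 : 2 ^ q.primeFactors.card ≤ ∏ p ∈ q.primeFactors, p :=
    Finset.pow_card_le_prod _ _ _ fun p hp => (Nat.prime_of_mem_primeFactors hp).two_le
  have h2 : ∏ p ∈ q.primeFactors, p ≤ q := Nat.le_of_dvd (by omega) (Nat.prod_primeFactors_dvd q)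
  have h3 : (2 : ℝ) ^ q.primeFactors.card ≤ x := by exact_mod_cast (h1.trans h2).trans hqx
  have h4 := Real.log_le_log (by positivity) h3
  rw [Real.log_pow] at h4
  have h5 : (0.6931471803 : ℝ) < Real.log 2 := Real.log_two_gt_d9
  have h6 : (0 : ℝ) ≤ (q.primeFactors.card : ℝ) := by positivity
  nlinarith

lemma ratio (q x r : ℕ) (hq : 1 ≤ q) (hqx : q ≤ x) :
    (1 - 2 * Real.log x / (x : ℝ) ^ (1 / (r : ℝ))) * U x r ≤ One.V q x r * ((q.totient : ℝ) / q) ∧
      One.V q x r * ((q.totient : ℝ) / q) ≤ U x r := by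
  classical
  refine ⟨?_, One.V_le q x r hq⟩
  have hx1 : (1 : ℝ) ≤ x := by exact_mod_cast hq.trans hqx
  obtain ⟨z, hz⟩ : ∃ z, z = (x : ℝ) ^ (1 / (r : ℝ)) := ⟨_, rfl⟩
  have hz1 : 1 ≤ z := by rw [hz]; exact Real.one_le_rpow hx1 (by positivity)
  obtain ⟨y, hy⟩ : ∃ y, y = ⌊z⌋₊ := ⟨_, rfl⟩
  have hq0 : (q : ℝ) ≠ 0 := by exact_mod_cast (by omega : q ≠ 0)
  have htot : ((q.totient : ℝ) / q) = ∏ p ∈ q.primeFactors, (1 - 1 / (p : ℝ)) := by
    have h := Nat.totient_eq_mul_prod_factors q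
    have h2 : ((q.totient : ℚ) : ℝ) = ((q * ∏ p ∈ q.primeFactors, (1 - (p : ℚ)⁻¹) : ℚ) : ℝ) := by
      rw [h]
    push_cast at h2
    rw [h2, mul_div_cancel_left₀ _ hq0]
    simp only [one_div]
  have hU : U x r = (∏ p ∈ (Icc 1 y).filter (fun p => p.Prime ∧ ¬ p ∣ q), (1 - 1 / (p : ℝ))) *
        ∏ p ∈ (Icc 1 y).filter (fun p => p.Prime ∧ p ∣ q), (1 - 1 / (p : ℝ)) := by
    unfold U
    rw [← hz, ← hy, ← Finset.prod_union]
    · apply Finset.prod_congr _ (fun _ _ => rfl)
      ext p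
      simp only [mem_filter, mem_union]
      tauto
    · rw [Finset.disjoint_left]
      intro p hp1 hp2
      exact (mem_filter.1 hp1).2.2 (mem_filter.1 hp2).2.2
  have hsplit : ∏ p ∈ q.primeFactors, (1 - 1 / (p : ℝ)) =
      (∏ p ∈ (Icc 1 y).filter (fun p => p.Prime ∧ p ∣ q), (1 - 1 / (p : ℝ))) *
        ∏ p ∈ q.primeFactors.filter (fun p => y < p), (1 - 1 / (p : ℝ)) := by
    rw [← Finset.prod_union]
    · apply Finset.prod_congr _ (fun _ _ => rfl)
      ext p
      simp only [mem_filter, mem_union, mem_Icc, Nat.mem_primeFactors]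
      constructor
      · rintro ⟨h1, h2, h3⟩
        rcases le_or_gt p y with h | h
        · exact Or.inl ⟨⟨h1.one_lt.le, h⟩, h1, h2⟩
        · exact Or.inr ⟨⟨h1, h2, h3⟩, h⟩
      · rintro (⟨_, h1, h2⟩ | ⟨h1, _⟩)
        · exact ⟨h1, h2, by omega⟩
        · exact h1
    · rw [Finset.disjoint_left]
      intro p hp1 hp2
      have h1 := (mem_Icc.1 (mem_filter.1 hp1).1).2
      have h2 := (mem_filter.1 hp2).2
      omega
  have hV : One.V q x r = ∏ p ∈ (Icc 1 y).filter (fun p => p.Prime ∧ ¬ p ∣ q), (1 - 1 / (p : ℝ)) := by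
    unfold One.V
    rw [← hz, ← hy]
  have hbig : 1 - 2 * Real.log x / z ≤
      ∏ p ∈ q.primeFactors.filter (fun p => y < p), (1 - 1 / (p : ℝ)) := by
    have hb0 : (0 : ℝ) ≤ 1 - 1 / z := by
      rw [sub_nonneg, div_le_one (by linarith)]
      exact hz1
    have h1 : (1 - 1 / z) ^ (q.primeFactors.filter (fun p => y < p)).card ≤
        ∏ p ∈ q.primeFactors.filter (fun p => y < p), (1 - 1 / (p : ℝ)) := by
      rw [← Finset.prod_const]
      apply Finset.prod_le_prod (fun _ _ => hb0)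
      intro p hp
      have h2 : y < p := (mem_filter.1 hp).2
      have h3 : z < p := by
        rw [hy] at h2
        exact (Nat.floor_lt (by linarith)).1 h2
      have : 1 / (p : ℝ) ≤ 1 / z := one_div_le_one_div_of_le (by linarith) h3.le
      linarith
    refine le_trans ?_ h1
    have h2 := one_add_mul_le_pow (a := -(1 / z)) (by linarith)
      (q.primeFactors.filter (fun p => y < p)).card
    rw [← sub_eq_add_neg] at h2
    refine le_trans ?_ h2
    have h3 : ((q.primeFactors.filter (fun p => y < p)).card : ℝ) ≤ 2 * Real.log x :=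
      le_trans (by exact_mod_cast Finset.card_filter_le _ _) (card_pf q x hq hqx)
    have h4 : ((q.primeFactors.filter (fun p => y < p)).card : ℝ) / z ≤ 2 * Real.log x / z :=
      div_le_div_of_nonneg_right h3 (by linarith)
    have h5 : ((q.primeFactors.filter (fun p => y < p)).card : ℝ) * -(1 / z) =
      -(((q.primeFactors.filter (fun p => y < p)).card : ℝ) / z) := by ring
    rw [h5]
    linarith
  rw [htot, hsplit, hV, ← mul_assoc, ← hU, ← hz, mul_comm (U x r)]
  exact mul_le_mul_of_nonneg_right hbig (U_pos x r).le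

lemma final_est (e M c V y' M0 A Gv F1 F2 F3 : ℝ) (he0 : 0 < e) (he1 : e ≤ 1 / 4)
    (hG1 : A ≤ Gv) (hG2 : Gv ≤ A + 1) (hA : |A - y' * V * F1| ≤ e * (y' * V)) (hy : |y' - M0| ≤ 2)
    (h10 : 0 ≤ F1) (h11 : F1 ≤ 1) (h12 : |F1 - F2| ≤ e) (h32 : |F3 - F2| ≤ e) (h30 : 0 ≤ F3)
    (h31 : F3 ≤ 1) (hM0 : M0 * V = c * M) (hc : 1 - e ≤ c) (hc1 : c ≤ 1) (hM : 1 ≤ e * M)
    (hV : 0 ≤ V) (hV1 : V ≤ 1) : |Gv - M * F3| ≤ 8 * e * M := by
  have hMpos : 0 < M := by
    by_contra h
    rw [not_lt] at h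
    nlinarith
  have hcM : c * M ≤ M := mul_le_of_le_one_left hMpos.le hc1
  have hcM0 : 0 ≤ c * M := by
    apply mul_nonneg _ hMpos.le
    linarith
  have hcM2 : M - c * M ≤ e * M := by
    have := mul_le_mul_of_nonneg_right hc hMpos.le
    linarith
  have a1 : |Gv - A| ≤ 1 := by
    rw [abs_le]
    constructor <;> linarith
  have a3 : |(y' - M0) * (V * F1)| ≤ 2 := by
    rw [abs_mul]
    have h : |V * F1| ≤ 1 := by
      rw [abs_of_nonneg (mul_nonneg hV h10)]
      exact mul_le_one₀ hV1 h10 h11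
    calc |y' - M0| * |V * F1| ≤ 2 * 1 := mul_le_mul hy h (abs_nonneg _) (by norm_num)
      _ = 2 := by norm_num
  have a4 : |M0 * V * (F1 - F2)| ≤ M * e := by
    rw [hM0, abs_mul, abs_of_nonneg hcM0]
    exact mul_le_mul hcM h12 (abs_nonneg _) hMpos.le
  have a5 : |M0 * V * (F3 - F2)| ≤ M * e := by
    rw [hM0, abs_mul, abs_of_nonneg hcM0]
    exact mul_le_mul hcM h32 (abs_nonneg _) hMpos.le
  have a6 : |(M - M0 * V) * F3| ≤ e * M := by
    rw [hM0, abs_mul, abs_of_nonneg h30, abs_of_nonneg (by linarith)]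
    calc (M - c * M) * F3 ≤ (M - c * M) * 1 := mul_le_mul_of_nonneg_left h31 (by linarith)
      _ ≤ e * M := by linarith
  have a2 : e * (y' * V) ≤ e * M + 1 / 2 := by
    have h1 : y' * V ≤ (M0 + 2) * V := mul_le_mul_of_nonneg_right (by linarith [(abs_le.1 hy).2]) hV
    have h2 : y' * V ≤ M + 2 := by
      have : (M0 + 2) * V = M0 * V + 2 * V := by ring
      rw [hM0] at this
      linarith
    have h3 := mul_le_mul_of_nonneg_left h2 he0.le
    linarith
  have hid : Gv - M * F3 = (Gv - A) + (A - y' * V * F1) + (y' - M0) * (V * F1) +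
      M0 * V * (F1 - F2) - M0 * V * (F3 - F2) - (M - M0 * V) * F3 := by ring
  rw [hid]
  rw [abs_le] at *
  constructor <;> linarith [a1.1, a1.2, hA.1, hA.2, a3.1, a3.2, a4.1, a4.2, a5.1, a5.2, a6.1, a6.2]

/-- few prime factors -/
lemma few (x r n : ℕ) (hr : 1 ≤ r) (hx : 2 ≤ x) (hn0 : n ≠ 0) (hn : n ≤ x) (hg : Good x r n) :
    n.primeFactorsList.length ≤ r := by
  have h := Short.few (N := x) (r := r) (m := n) (c := 1) hr hx hn0 (by simpa using hn) hg
  simpa using h

/-- **Number and gap laws of the almost primes in one residue class, uniformly in the modulus.** -/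
theorem law (θ : ℝ) (hθ : 0 < θ) (l₀ : ℕ) (x₀ ε : ℝ) (hε : 0 < ε) :
    ∃ r₀ : ℕ, 2 ≤ r₀ ∧ ∀ r : ℕ, r₀ ≤ r → ∀ B : ℝ, ∃ X₀ : ℕ, ∀ x : ℕ, X₀ ≤ x →
      (∀ n : ℕ, n ≠ 0 → n ≤ x → Good x r n → n.primeFactorsList.length ≤ r) ∧
      ∀ q a : ℕ, 1 ≤ q → q ≤ x → Nat.Coprime q a → (q : ℝ) ≤ B * q.totient →
      ∀ u Y : ℕ, (q : ℝ) * (x : ℝ) ^ θ ≤ Y → ∀ l T : ℕ,
        (l ≤ l₀ ∨ T * U x r / q.totient ≤ x₀) →
        |(G q a x r l T u Y : ℝ) - Y * U x r / q.totient *
          ∑ j ∈ range l, Real.exp (-(T * U x r / q.totient)) *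
            (T * U x r / q.totient) ^ j / j.factorial| ≤
        ε * (Y * U x r / q.totient) := by
  obtain ⟨e, he⟩ : ∃ e, e = min (ε / 8) (1 / 4) := ⟨_, rfl⟩
  have he0 : 0 < e := by rw [he]; positivity
  have he1 : e ≤ 1 / 4 := by rw [he]; exact min_le_right _ _
  have he8 : 8 * e ≤ ε := by
    have : e ≤ ε / 8 := by rw [he]; exact min_le_left _ _
    linarith
  obtain ⟨r1, hr1, h1⟩ := One.gaps 1 (θ / 2) one_pos (by positivity) l₀ x₀ e he0
  refine ⟨r1, hr1, ?_⟩
  intro r hr B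
  have hr2 : 2 ≤ r := hr1.trans hr
  have hr0 : (0 : ℝ) < r := by exact_mod_cast (by omega : 0 < r)
  obtain ⟨N1, hN1⟩ := h1 r hr B
  obtain ⟨C, hC, hVz⟩ := Pool.Agent.Y879.GL.Vz_up r hr2
  obtain ⟨c0, _, hc0, _, hVb⟩ := Pool.Agent.W123.RP.Vz_bounds
  have hlog : Tendsto (fun n : ℕ => Real.log n) atTop atTop :=
    Real.tendsto_log_atTop.comp tendsto_natCast_atTop_atTop
  have ev1 : ∀ᶠ x : ℕ in atTop, C / (e / (|B| + 1)) ≤ Real.log x := hlog.eventually_ge_atTop _
  have ev2 : ∀ᶠ x : ℕ in atTop, ‖Real.log (x : ℝ)‖ ≤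
      (e / (2 * (2 * l₀ + |x₀| + 1))) * ‖(x : ℝ) ^ (1 / (r : ℝ))‖ :=
    tendsto_natCast_atTop_atTop.eventually
      ((isLittleO_log_rpow_atTop (by positivity : (0 : ℝ) < 1 / r)).def (by positivity))
  have ev3 : ∀ᶠ x : ℕ in atTop, (2 : ℝ) ≤ (x : ℝ) ^ (θ / 2) :=
    ((tendsto_rpow_atTop (by positivity)).comp tendsto_natCast_atTop_atTop).eventually_ge_atTop _
  have ev4 : ∀ᶠ x : ℕ in atTop, ‖Real.log (x : ℝ)‖ ≤ (e * c0) * ‖(x : ℝ) ^ θ‖ :=
    tendsto_natCast_atTop_atTop.eventually ((isLittleO_log_rpow_atTop hθ).def (by positivity))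
  have ev5 := Pool.Agent.Y879.GL.level_ok r hr2
  obtain ⟨X0, hX0⟩ := eventually_atTop.1 (hVz.and (ev1.and (ev2.and (ev3.and (ev4.and (ev5.and
    (eventually_ge_atTop (max N1 3))))))))
  refine ⟨X0, ?_⟩
  intro x hx
  obtain ⟨⟨_, v2⟩, w1, w2, w3, w4, ⟨w5, _⟩, w6⟩ := hX0 x hx
  have hx3 : 3 ≤ x := (le_max_right _ _).trans w6
  refine ⟨fun n hn0 hn hg => few x r n (by omega) (by omega) hn0 hn hg, ?_⟩
  intro q a hq hqx hcop hB u Y hY l T hlT
  have hx3' : (3 : ℝ) ≤ x := by exact_mod_cast hx3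
  have hxpos : (0 : ℝ) < x := by linarith
  have hlx : 0 < Real.log x := Real.log_pos (by linarith)
  have hq0 : (0 : ℝ) < q := by exact_mod_cast hq
  have htot : (0 : ℝ) < q.totient := by exact_mod_cast Nat.totient_pos.2 (by omega)
  have htq : (q.totient : ℝ) ≤ q := by exact_mod_cast Nat.totient_le q
  have hU := U_pos x r
  have hUe : U x r ≤ e / (|B| + 1) := by
    refine le_trans (le_of_eq_of_le rfl v2) ?_
    rw [div_le_iff₀ hlx]
    rw [div_le_iff₀ (by positivity)] at w1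
    linarith
  have hUlow : c0 / Real.log x ≤ U x r := by
    have h2 := (hVb ⌊(x : ℝ) ^ (1 / (r : ℝ))⌋₊ (by omega)).1
    refine le_trans ?_ h2
    have hy2 : (3 : ℝ) ≤ (⌊(x : ℝ) ^ (1 / (r : ℝ))⌋₊ : ℝ) := by exact_mod_cast w5
    have hyx : (⌊(x : ℝ) ^ (1 / (r : ℝ))⌋₊ : ℝ) ≤ x := by
      refine (Nat.floor_le (by positivity)).trans ?_
      have : (x : ℝ) ^ (1 / (r : ℝ)) ≤ (x : ℝ) ^ (1 : ℝ) := by
        apply Real.rpow_le_rpow_of_exponent_le (by linarith)
        rw [div_le_one hr0]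
        exact_mod_cast (by omega : 1 ≤ r)
      rwa [Real.rpow_one] at this
    exact div_le_div_of_nonneg_left hc0.le (Real.log_pos (by linarith))
      (Real.log_le_log (by linarith) hyx)
  -- the ratio of the densities
  obtain ⟨g1, g2⟩ := ratio q x r hq hqx
  have hVpos := One.Vpos q x r
  obtain ⟨V, hV⟩ : ∃ V, V = One.V q x r := ⟨_, rfl⟩
  rw [← hV] at g1 g2 hVpos
  have hV1 : V ≤ 1 := by rw [hV]; exact V_le_one q x r
  obtain ⟨c, hc⟩ : ∃ c, c = V * ((q.totient : ℝ) / q) / U x r := ⟨_, rfl⟩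
  have hcU : c * U x r = V * ((q.totient : ℝ) / q) := by
    rw [hc]
    field_simp
  have hc1 : c ≤ 1 := by
    rw [hc, div_le_one hU]
    exact g2
  have hclow : 1 - 2 * Real.log x / (x : ℝ) ^ (1 / (r : ℝ)) ≤ c := by
    rw [hc, le_div_iff₀ hU]
    exact g1
  have hd : 2 * Real.log x / (x : ℝ) ^ (1 / (r : ℝ)) ≤ e / (2 * l₀ + |x₀| + 1) := by
    rw [Real.norm_eq_abs, Real.norm_eq_abs, abs_of_pos hlx,
      abs_of_nonneg (by positivity : (0 : ℝ) ≤ (x : ℝ) ^ (1 / (r : ℝ)))] at w2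
    rw [div_le_iff₀ (by positivity)]
    calc 2 * Real.log x ≤ 2 * (e / (2 * (2 * l₀ + |x₀| + 1)) * (x : ℝ) ^ (1 / (r : ℝ))) := by linarith
      _ = e / (2 * l₀ + |x₀| + 1) * (x : ℝ) ^ (1 / (r : ℝ)) := by
        field_simp
  have hden : (1 : ℝ) ≤ 2 * l₀ + |x₀| + 1 := by
    have h1 : (0 : ℝ) ≤ l₀ := Nat.cast_nonneg _
    have h2 := abs_nonneg x₀
    linarith
  have h1c : 1 - c ≤ e / (2 * l₀ + |x₀| + 1) := by linarith
  have h1c0 : 0 ≤ 1 - c := by linarith
  have hece : e / (2 * l₀ + |x₀| + 1) ≤ e := div_le_self he0.le hden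
  have hcl : 1 - e ≤ c := by linarith
  -- V is small
  have hVe : V ≤ e := by
    have h2 : V = c * U x r * (q / q.totient) := by
      rw [hcU]
      field_simp
    have h3 : (q : ℝ) / q.totient ≤ |B| + 1 := by
      rw [div_le_iff₀ htot]
      have : B ≤ |B| + 1 := by linarith [le_abs_self B]
      exact hB.trans (mul_le_mul_of_nonneg_right this htot.le)
    rw [h2]
    calc c * U x r * (q / q.totient) ≤ (e / (|B| + 1)) * (|B| + 1) := by
          apply mul_le_mul _ h3 (by positivity) (by positivity)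
          calc c * U x r ≤ 1 * U x r := mul_le_mul_of_nonneg_right hc1 hU.le
            _ ≤ _ := by rw [one_mul]; exact hUe
      _ = e := by
        field_simp
  -- the main term
  obtain ⟨M, hM⟩ : ∃ M, M = Y * U x r / q.totient := ⟨_, rfl⟩
  obtain ⟨lam, hlam⟩ : ∃ lam, lam = T * U x r / q.totient := ⟨_, rfl⟩
  have hlam0 : 0 ≤ lam := by rw [hlam]; positivity
  have hM0V : (Y : ℝ) / q * V = c * M := by
    rw [hM]
    calc (Y : ℝ) / q * V = Y / q.totient * (V * ((q.totient : ℝ) / q)) := by field_simp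
      _ = c * (Y * U x r / q.totient) := by rw [← hcU]; ring
  have hT0V : (T : ℝ) / q * V = c * lam := by
    rw [hlam]
    calc (T : ℝ) / q * V = T / q.totient * (V * ((q.totient : ℝ) / q)) := by field_simp
      _ = c * (T * U x r / q.totient) := by rw [← hcU]; ring
  have hxθ0 : (0 : ℝ) < (x : ℝ) ^ θ := Real.rpow_pos_of_pos hxpos _
  have hxθ : (x : ℝ) ^ θ = (x : ℝ) ^ (θ / 2) * (x : ℝ) ^ (θ / 2) := by
    rw [← Real.rpow_add hxpos]
    congr 1
    ring
  have hYq : (x : ℝ) ^ θ ≤ (Y : ℝ) / q := by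
    rw [le_div_iff₀ hq0, mul_comm]
    exact hY
  have hMlow : 1 ≤ e * M := by
    have h2 : (Y : ℝ) / q * U x r ≤ M := by
      rw [hM, div_mul_eq_mul_div]
      exact div_le_div_of_nonneg_left (by positivity) htot htq
    have h3 : (x : ℝ) ^ θ * (c0 / Real.log x) ≤ M :=
      le_trans (mul_le_mul hYq hUlow (by positivity) (by positivity)) h2
    rw [Real.norm_eq_abs, Real.norm_eq_abs, abs_of_pos hlx, abs_of_pos hxθ0] at w4
    have h4 : 1 ≤ e * ((x : ℝ) ^ θ * (c0 / Real.log x)) := by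
      have : e * ((x : ℝ) ^ θ * (c0 / Real.log x)) = e * c0 * (x : ℝ) ^ θ / Real.log x := by
        field_simp
      rw [this, le_div_iff₀ hlx, one_mul]
      exact w4
    exact h4.trans (mul_le_mul_of_nonneg_left h3 he0.le)
  have hqY : q ≤ Y := by
    have h2 : (q : ℝ) * 1 ≤ Y := by
      refine le_trans (mul_le_mul_of_nonneg_left ?_ hq0.le) hY
      exact Real.one_le_rpow (by linarith) hθ.le
    rw [mul_one] at h2
    exact_mod_cast h2
  have hblt : a % q < q := Nat.mod_lt _ hq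
  have hst := steps q (a % q) u Y hq hblt hqY
  obtain ⟨G1, G2⟩ := G_bounds q a x r l T u Y hq hqY
  obtain ⟨Y', hY'⟩ : ∃ Y', Y' = (u + Y - a % q) / q - (u - a % q) / q := ⟨_, rfl⟩
  rw [← hY'] at hst G1 G2
  have hY'low : (x : ℝ) ^ (θ / 2) ≤ Y' := by
    have := (abs_le.1 hst).1
    nlinarith
  have hTq : ((T / q : ℕ) : ℝ) ≤ (T : ℝ) / q := Nat.cast_div_le
  have hTq2 : (T : ℝ) / q ≤ ((T / q : ℕ) : ℝ) + 1 := by
    rw [div_le_iff₀ hq0]
    have h1 : T < q * (T / q + 1) := by
      have := Nat.lt_mul_div_succ T (by omega : 0 < q)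
      simpa using this
    have h2 : (T : ℝ) < q * (((T / q : ℕ) : ℝ) + 1) := by exact_mod_cast h1
    linarith
  have hTV : ((T / q : ℕ) : ℝ) * V ≤ c * lam := by
    rw [← hT0V]
    exact mul_le_mul_of_nonneg_right hTq hVpos.le
  have hcl0 : 0 ≤ c := by linarith
  have hclam : c * lam ≤ lam := mul_le_of_le_one_left hlam0 hc1
  have hcop' : Nat.Coprime q (a % q) := by
    unfold Nat.Coprime at hcop ⊢
    rw [Nat.gcd_comm, ← Nat.gcd_rec]
    exact hcop
  have key := hN1 x ((le_max_left _ _).trans w6) q (a % q) hq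
    (by rw [Real.rpow_one]; exact_mod_cast hqx)
    (by rw [Real.rpow_one]; exact_mod_cast hblt.le.trans hqx) hcop' hB ((u - a % q) / q) Y' hY'low
    l (T / q) (by
      rcases hlT with h | h
      · exact Or.inl h
      · right
        rw [← hV]
        rw [← hlam] at h
        linarith)
  rw [← hV] at key
  have hTV0 : 0 ≤ ((T / q : ℕ) : ℝ) * V := by positivity
  have h12 : |f l (((T / q : ℕ) : ℝ) * V) - f l (c * lam)| ≤ e := by
    refine (f_lip l hTV0 (by positivity)).trans ?_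
    rw [← hT0V, ← sub_mul, abs_mul, abs_of_nonneg hVpos.le]
    have : |((T / q : ℕ) : ℝ) - (T : ℝ) / q| ≤ 1 := by
      rw [abs_le]
      constructor <;> linarith
    calc |((T / q : ℕ) : ℝ) - (T : ℝ) / q| * V ≤ 1 * e := mul_le_mul this hVe hVpos.le (by norm_num)
      _ = e := one_mul e
  have h32 : |f l lam - f l (c * lam)| ≤ e := by
    rcases hlT with h | h
    · refine (f_scale l hlam0 (by linarith) hc1).trans ?_
      have h2 : (l : ℝ) ≤ l₀ := by exact_mod_cast h
      have h3 : (0 : ℝ) ≤ l := Nat.cast_nonneg l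
      have h4 := abs_nonneg x₀
      calc 2 * l * (1 - c) ≤ (2 * l₀ + |x₀| + 1) * (e / (2 * l₀ + |x₀| + 1)) := by
            apply mul_le_mul (by linarith) h1c h1c0 (by linarith)
        _ = e := by field_simp
    · rw [← hlam] at h
      refine (f_lip l hlam0 (by positivity)).trans ?_
      have h2 : lam - c * lam = lam * (1 - c) := by ring
      rw [h2, abs_of_nonneg (by positivity)]
      have h3 : lam ≤ |x₀| := h.trans (le_abs_self _)
      have h5 : (0 : ℝ) ≤ l₀ := Nat.cast_nonneg _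
      calc lam * (1 - c) ≤ (2 * l₀ + |x₀| + 1) * (e / (2 * l₀ + |x₀| + 1)) := by
            apply mul_le_mul (by linarith) h1c h1c0 (by linarith)
        _ = e := by field_simp
  have fin := final_est e M c V Y' ((Y : ℝ) / q) _ (G q a x r l T u Y) (f l (((T / q : ℕ) : ℝ) * V))
    (f l (c * lam)) (f l lam) he0 he1 (by exact_mod_cast G1) (by exact_mod_cast G2) key hst
    (f_nonneg l hTV0) (f_le_one l hTV0) h12 h32 (f_nonneg l hlam0) (f_le_one l hlam0) hM0V hcl hc1
    hMlow hVpos.le hV1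
  rw [← hM, ← hlam]
  refine fin.trans ?_
  have hMpos : 0 ≤ M := by rw [hM]; positivity
  exact mul_le_mul_of_nonneg_right he8 hMpos

end Pool.Agent.H25.ProgLaw
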