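import Pool.Agent.H25.PairR

set_option autoImplicit false

/-!
# A lower bound for the sum of the squares of the gaps of rough integers
-/

namespace Pool.Agent.H25.SecMom

open Finset Filter
open Pool.Agent.H25.TwoPtE (Rough U V U_up U_nonneg)

/-- `n + d n` is the next rough integer after `n` -/
def IsNext (z : ℕ) (d : ℕ → ℕ) : Prop :=
  ∀ n : ℕ, 1 ≤ d n ∧ Rough z (n + d n) ∧ ∀ m : ℕ, n < m → m < n + d n → ¬ Rough z m

lemma sum_id (q : ℝ) (T : ℕ) : (∑ t ∈ range T, (2 * (t : ℝ) + 1) * q ^ t) * (1 - q) ^ 2 =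
    (1 + q) - q ^ T * (2 + (2 * (T : ℝ) - 1) * (1 - q)) := by
  induction T with
  | zero => simp; ring
  | succ T ih =>
    rw [sum_range_succ, add_mul, ih]
    push_cast
    ring

lemma sum_odd (T : ℕ) : ∑ t ∈ range T, (2 * (t : ℝ) + 1) = (T : ℝ) ^ 2 := by
  induction T with
  | zero => simp
  | succ T ih =>
    rw [sum_range_succ, ih]
    push_cast
    ring

lemma le_sq (d T : ℕ) : ∑ t ∈ range T, (if t < d then (2 * (t : ℝ) + 1) else 0) ≤ (d : ℝ) ^ 2 := by
  rw [← sum_filter, ← sum_odd d]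
  apply sum_le_sum_of_subset_of_nonneg
  · intro t ht
    rw [mem_filter] at ht
    exact mem_range.2 ht.2
  · intro t _ _
    positivity

lemma btw_lt {z n t : ℕ} {d : ℕ → ℕ} (hd : IsNext z d)
    (h : Pool.Agent.H25.TwoPtE.Btw z (t + 1) n = 0) : t < d n := by
  classical
  obtain ⟨h1, h2, _⟩ := hd n
  by_contra hcon
  rw [not_lt] at hcon
  rw [Pool.Agent.H25.PrimePtE.btw_zero] at h
  exact h (n + d n) (by omega) (by omega) h2

/-- the lower bound from the law -/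
lemma main (Ω : Finset ℕ) (z T : ℕ) (d : ℕ → ℕ) (hd : IsNext z d) (M u η x₀ : ℝ) (hM : 0 ≤ M)
    (hu : 0 < u) (huη : u ≤ η) (hη : 0 < η) (hx₀ : 1 ≤ x₀) (hT : (T : ℝ) * u ≤ x₀)
    (hexp : Real.exp (-(T * u)) * (1 + T * u) ≤ η)
    (hlaw : ∀ t < T, M * (Real.exp (-(t * u)) - η / x₀ ^ 2) ≤
      ((Ω.filter (fun n => Pool.Agent.H25.TwoPtE.Btw z (t + 1) n = 0)).card : ℝ)) :
    M * (2 - 4 * η) / u ^ 2 ≤ ∑ n ∈ Ω, (d n : ℝ) ^ 2 := by
  classical
  have h1 : ∑ t ∈ range T, (2 * (t : ℝ) + 1) * (M * (Real.exp (-(t * u)) - η / x₀ ^ 2)) ≤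
      ∑ n ∈ Ω, (d n : ℝ) ^ 2 := by
    calc ∑ t ∈ range T, (2 * (t : ℝ) + 1) * (M * (Real.exp (-(t * u)) - η / x₀ ^ 2)) ≤
          ∑ t ∈ range T, (2 * (t : ℝ) + 1) *
            ((Ω.filter (fun n => Pool.Agent.H25.TwoPtE.Btw z (t + 1) n = 0)).card : ℝ) := by
            apply sum_le_sum
            intro t ht
            exact mul_le_mul_of_nonneg_left (hlaw t (mem_range.1 ht)) (by positivity)
      _ ≤ ∑ t ∈ range T, ∑ n ∈ Ω, (if t < d n then (2 * (t : ℝ) + 1) else 0) := by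
            apply sum_le_sum
            intro t _
            rw [card_filter]
            push_cast
            rw [mul_sum]
            apply sum_le_sum
            intro n _
            split_ifs with h2 h3
            · simp
            · exact absurd (btw_lt hd h2) h3
            · rw [mul_zero]
              positivity
            · rw [mul_zero]
      _ = ∑ n ∈ Ω, ∑ t ∈ range T, (if t < d n then (2 * (t : ℝ) + 1) else 0) := sum_comm
      _ ≤ _ := sum_le_sum (fun n _ => le_sq (d n) T)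
  obtain ⟨q, hq⟩ : ∃ q : ℝ, q = Real.exp (-u) := ⟨_, rfl⟩
  have hqt : ∀ t : ℕ, Real.exp (-(t * u)) = q ^ t := by
    intro t
    rw [hq, ← Real.exp_nat_mul]
    congr 1
    ring
  have hq1 : 1 - u ≤ q := by
    rw [hq]
    have := Real.add_one_le_exp (-u)
    linarith
  have hq2 : q < 1 := by
    rw [hq, Real.exp_lt_one_iff]
    linarith
  have hq0 : 0 < q := by rw [hq]; exact Real.exp_pos _
  obtain ⟨S, hS⟩ : ∃ S : ℝ, S = ∑ t ∈ range T, (2 * (t : ℝ) + 1) * q ^ t := ⟨_, rfl⟩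
  have hS0 : 0 ≤ S := by
    rw [hS]
    apply sum_nonneg
    intro t _
    positivity
  have hid := sum_id q T
  rw [← hS] at hid
  have hsum : ∑ t ∈ range T, (2 * (t : ℝ) + 1) * (M * (Real.exp (-(t * u)) - η / x₀ ^ 2)) =
      M * (S - η / x₀ ^ 2 * (T : ℝ) ^ 2) := by
    rw [hS, ← sum_odd T, mul_sub, mul_sum, mul_sum, mul_sum, ← sum_sub_distrib]
    apply sum_congr rfl
    intro t _
    rw [hqt]
    ring
  rw [hsum] at h1
  have hT0 : (0 : ℝ) ≤ T := Nat.cast_nonneg T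
  have hS1 : 2 - 3 * η ≤ S * u ^ 2 := by
    have h2 : S * (1 - q) ^ 2 ≤ S * u ^ 2 := by
      apply mul_le_mul_of_nonneg_left _ hS0
      apply pow_le_pow_left₀ (by linarith) (by linarith)
    have h3 : q ^ T * (2 + (2 * (T : ℝ) - 1) * (1 - q)) ≤ q ^ T * (2 * (1 + T * u)) := by
      apply mul_le_mul_of_nonneg_left _ (by positivity)
      have h4 : (T : ℝ) * (1 - q) ≤ T * u := mul_le_mul_of_nonneg_left (by linarith) hT0
      nlinarith
    rw [hqt] at hexp
    nlinarith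
  have h5 : η / x₀ ^ 2 * (T : ℝ) ^ 2 * u ^ 2 ≤ η := by
    have h6 : ((T : ℝ) * u) ^ 2 ≤ x₀ ^ 2 := pow_le_pow_left₀ (by positivity) hT 2
    have h7 : 0 < x₀ ^ 2 := by positivity
    calc η / x₀ ^ 2 * (T : ℝ) ^ 2 * u ^ 2 = η * (((T : ℝ) * u) ^ 2 / x₀ ^ 2) := by ring
      _ ≤ η * 1 := by
          apply mul_le_mul_of_nonneg_left _ hη.le
          rw [div_le_one h7]
          exact h6
      _ = η := mul_one _
  refine le_trans ?_ h1
  rw [div_le_iff₀ (by positivity)]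
  have h8 : 2 - 4 * η ≤ (S - η / x₀ ^ 2 * (T : ℝ) ^ 2) * u ^ 2 := by nlinarith
  calc M * (2 - 4 * η) ≤ M * ((S - η / x₀ ^ 2 * (T : ℝ) ^ 2) * u ^ 2) := by gcongr
    _ = _ := by ring

end Pool.Agent.H25.SecMom
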