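import Pool.Agent.H25.TwoPtC

set_option autoImplicit false

/-!
# Averages of the singular series with a fixed set of points
-/

namespace Pool.Agent.H25.SetPt

open Finset Filter
open Pool.Agent.H373R2.T7 Pool.Agent.W123.RP Pool.Agent.W123.RU Pool.Agent.TH464.PO
open Pool.Agent.H25.TwoPt

open Classical in
lemma sum_setsI (Q : ℕ → ℕ → Prop) (c : ℕ) (hQ : PerB Q c) (A I : Finset ℕ) (w k : ℕ) :
    (Mw w : ℝ) * ∑ H ∈ powersetCard k I, Vq (QH Q (A ∪ H)) w =
      ∑ m ∈ (range (Mw w)).filter (fun m => Sf (QH Q A) w m),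
        (((I.filter (fun h => Sf Q w (m + h))).card.choose k : ℕ) : ℝ) := by
  rw [Finset.mul_sum]
  have h1 : ∀ H ∈ powersetCard k I, (Mw w : ℝ) * Vq (QH Q (A ∪ H)) w =
      ∑ m ∈ (range (Mw w)).filter (fun m => Sf (QH Q A) w m),
        if (∀ h ∈ H, Sf Q w (m + h)) then (1 : ℝ) else 0 := by
    intro H _
    rw [← exact (QH Q (A ∪ H)) _ (perB_QH Q c hQ (A ∪ H)) w]
    rw [Finset.sum_ite, Finset.sum_const_zero, add_zero, Finset.sum_const, nsmul_eq_mul, mul_one,
      Finset.filter_filter]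
    congr 2
    apply Finset.filter_congr
    intro m _
    rw [sf_QH, sf_QH]
    simp only [mem_union, or_imp, forall_and]
  rw [Finset.sum_congr rfl h1, Finset.sum_comm]
  apply Finset.sum_congr rfl
  intro m _
  rw [Finset.sum_ite, Finset.sum_const_zero, add_zero, Finset.sum_const, nsmul_eq_mul, mul_one,
    ← Finset.card_powersetCard]
  congr 2
  ext H
  rw [mem_filter, mem_powersetCard, mem_powersetCard]
  constructor
  · rintro ⟨⟨a1, a2⟩, a3⟩
    exact ⟨fun h hh => mem_filter.2 ⟨a1 hh, a3 h hh⟩, a2⟩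
  · rintro ⟨a1, a2⟩
    exact ⟨⟨fun h hh => (mem_filter.1 (a1 hh)).1, a2⟩, fun h hh => (mem_filter.1 (a1 hh)).2⟩

open Classical in
/-- **The small primes.** -/
theorem small_avgI (a k w : ℕ) (η : ℝ) (hη : 0 < η) : ∃ T0 : ℕ, ∀ T : ℕ, T0 ≤ T →
    ∀ (Q : ℕ → ℕ → Prop) (c : ℕ) (A : Finset ℕ), PerB Q c → (∀ p : ℕ, p.Prime → nuB Q p < p) →
    A.card = a →
    (1 - η) * (Vq (QH Q A) w * ((T * Vq Q w) ^ k / k.factorial)) ≤
      ∑ H ∈ powersetCard k (Icc 1 T \ A), Vq (QH Q (A ∪ H)) w ∧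
    ∑ H ∈ powersetCard k (Icc 1 T \ A), Vq (QH Q (A ∪ H)) w ≤
      (1 + η) * (Vq (QH Q A) w * ((T * Vq Q w) ^ k / k.factorial)) := by
  obtain ⟨M0, hM0⟩ : ∃ M, M = Mw w := ⟨_, rfl⟩
  have hM0pos : 0 < M0 := by rw [hM0]; exact Mw_pos w
  have hM0r : (0 : ℝ) < M0 := by exact_mod_cast hM0pos
  obtain ⟨M, hM⟩ : ∃ M, M = M0 + a := ⟨_, rfl⟩
  have hMpos : 0 < M := by omega
  have hMr : (0 : ℝ) < M := by exact_mod_cast hMpos
  have hMM : (M0 : ℝ) ≤ M := by exact_mod_cast (by omega : M0 ≤ M)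
  obtain ⟨δ, hδ⟩ : ∃ δ : ℝ, δ = min 1 (η / (2 ^ k + k)) := ⟨_, rfl⟩
  have hδ0 : 0 < δ := by rw [hδ]; positivity
  have hδ1 : δ ≤ 1 := by rw [hδ]; exact min_le_left _ _
  have hδη : δ * (2 ^ k + k) ≤ η := by
    have : δ ≤ η / (2 ^ k + k) := by rw [hδ]; exact min_le_right _ _
    rwa [le_div_iff₀ (by positivity)] at this
  obtain ⟨T0, hT0⟩ : ∃ T0 : ℕ, (M : ℝ) * (M + k) / δ ≤ T0 := exists_nat_ge _
  refine ⟨T0, ?_⟩
  intro T hT Q c A hQ hadm hAa
  have hTr : (M : ℝ) * (M + k) / δ ≤ T := hT0.trans (by exact_mod_cast hT)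
  have hW := Vq_pos Q hadm w
  have hex := exact Q c hQ w
  rw [← hM0] at hex
  have hexA := exact (QH Q A) _ (perB_QH Q c hQ A) w
  rw [← hM0] at hexA
  have hMW : 1 ≤ (M : ℝ) * Vq Q w := by
    have h0 : 1 ≤ (M0 : ℝ) * Vq Q w := by
      rw [← hex]
      have h1 : (0 : ℝ) < (((range M0).filter (fun m => Sf Q w m)).card : ℝ) := by
        rw [hex]
        positivity
      have h2 : 0 < ((range M0).filter (fun m => Sf Q w m)).card := by exact_mod_cast h1
      exact_mod_cast h2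
    exact h0.trans (mul_le_mul_of_nonneg_right hMM hW.le)
  obtain ⟨x, hx⟩ : ∃ x : ℝ, x = T * Vq Q w := ⟨_, rfl⟩
  rw [← hx]
  obtain ⟨VA, hVA⟩ : ∃ VA : ℝ, VA = Vq (QH Q A) w := ⟨_, rfl⟩
  have hVA0 : 0 ≤ VA := by rw [hVA]; exact Vq_nonneg _ _
  rw [← hVA] at hexA ⊢
  have hxM : (M : ℝ) + k ≤ δ * x := by
    rw [hx]
    rw [div_le_iff₀ hδ0] at hTr
    have h1 : (M : ℝ) * (M + k) ≤ M * (δ * (T * Vq Q w)) := by
      calc (M : ℝ) * (M + k) ≤ T * δ := hTr
        _ = T * δ * 1 := (mul_one _).symm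
        _ ≤ T * δ * (M * Vq Q w) := by gcongr
        _ = _ := by ring
    exact le_of_mul_le_mul_left h1 hMr
  have hMk : (0 : ℝ) < (M : ℝ) + k := by positivity
  have hx0 : 0 < x := by
    by_contra hcon
    rw [not_lt] at hcon
    have : δ * x ≤ 0 := mul_nonpos_of_nonneg_of_nonpos hδ0.le hcon
    linarith
  have hxx : (M : ℝ) + k ≤ x := by nlinarith
  have hkf : (0 : ℝ) < k.factorial := by exact_mod_cast Nat.factorial_pos k
  have hsum := sum_setsI Q c hQ A (Icc 1 T \ A) w k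
  rw [← hM0] at hsum
  have hb : ∀ m ∈ (range M0).filter (fun m => Sf (QH Q A) w m), (x - M - k) ^ k / k.factorial ≤
      ((((Icc 1 T \ A).filter (fun h => Sf Q w (m + h))).card.choose k : ℕ) : ℝ) ∧
      ((((Icc 1 T \ A).filter (fun h => Sf Q w (m + h))).card.choose k : ℕ) : ℝ) ≤
        (x + M) ^ k / k.factorial := by
    intro m _
    apply choose_bounds
    · have h1 := window Q c hQ w m T
      rw [← hM0, ← hx] at h1
      have h2 : ((Icc 1 T).filter (fun h => Sf Q w (m + h))).card ≤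
          ((Icc 1 T \ A).filter (fun h => Sf Q w (m + h))).card + a := by
        rw [← hAa]
        refine le_trans (card_le_card ?_) (card_union_le _ _)
        intro h hh
        rw [mem_filter] at hh
        rw [mem_union, mem_filter, Finset.mem_sdiff]
        by_cases hA : h ∈ A
        · exact Or.inr hA
        · exact Or.inl ⟨⟨hh.1, hA⟩, hh.2⟩
      have h3 : ((Icc 1 T \ A).filter (fun h => Sf Q w (m + h))).card ≤
          ((Icc 1 T).filter (fun h => Sf Q w (m + h))).card := by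
        apply card_le_card
        exact filter_subset_filter _ sdiff_subset
      have h2' : (((Icc 1 T).filter (fun h => Sf Q w (m + h))).card : ℝ) ≤
          (((Icc 1 T \ A).filter (fun h => Sf Q w (m + h))).card : ℝ) + a := by exact_mod_cast h2
      have h3' : ((((Icc 1 T \ A).filter (fun h => Sf Q w (m + h))).card : ℕ) : ℝ) ≤
          (((Icc 1 T).filter (fun h => Sf Q w (m + h))).card : ℝ) := by exact_mod_cast h3
      obtain ⟨h4, h5⟩ := abs_le.1 h1
      have h6 : (M : ℝ) = M0 + a := by rw [hM]; push_cast; ring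
      have ha0 : (0 : ℝ) ≤ a := Nat.cast_nonneg a
      rw [h6, abs_le]
      constructor <;> linarith
    · exact hxx
  have hlo : (M0 : ℝ) * (VA * ((x - M - k) ^ k / k.factorial)) ≤ M0 *
      ∑ H ∈ powersetCard k (Icc 1 T \ A), Vq (QH Q (A ∪ H)) w := by
    rw [hsum]
    have := Finset.card_nsmul_le_sum ((range M0).filter (fun m => Sf (QH Q A) w m)) (fun m =>
      ((((Icc 1 T \ A).filter (fun h => Sf Q w (m + h))).card.choose k : ℕ) : ℝ)) _
      (fun m hm => (hb m hm).1)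
    rwa [nsmul_eq_mul, hexA, mul_assoc] at this
  have hup : (M0 : ℝ) * ∑ H ∈ powersetCard k (Icc 1 T \ A), Vq (QH Q (A ∪ H)) w ≤
      M0 * (VA * ((x + M) ^ k / k.factorial)) := by
    rw [hsum]
    have := Finset.sum_le_card_nsmul ((range M0).filter (fun m => Sf (QH Q A) w m)) (fun m =>
      ((((Icc 1 T \ A).filter (fun h => Sf Q w (m + h))).card.choose k : ℕ) : ℝ)) _
      (fun m hm => (hb m hm).2)
    rwa [nsmul_eq_mul, hexA, mul_assoc] at this
  have hlo' := le_of_mul_le_mul_left hlo hM0r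
  have hup' := le_of_mul_le_mul_left hup hM0r
  have hk0 : (0 : ℝ) ≤ k := Nat.cast_nonneg k
  have hMδ : (M : ℝ) / x ≤ δ := by
    rw [div_le_iff₀ hx0]
    linarith
  have hMkδ : ((M : ℝ) + k) / x ≤ δ := by
    rw [div_le_iff₀ hx0]
    linarith
  constructor
  · refine le_trans ?_ hlo'
    rw [mul_left_comm]
    apply mul_le_mul_of_nonneg_left _ hVA0
    rw [← mul_div_assoc]
    apply div_le_div_of_nonneg_right _ hkf.le
    have h1 : x - M - k = x * (1 + -(((M : ℝ) + k) / x)) := by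
      field_simp
      ring
    rw [h1, mul_pow, mul_comm (1 - η)]
    apply mul_le_mul_of_nonneg_left _ (by positivity)
    have h2 := one_add_mul_le_pow (a := -(((M : ℝ) + k) / x)) (by linarith) k
    refine le_trans ?_ h2
    have h3 : (k : ℝ) * (((M : ℝ) + k) / x) ≤ k * δ := by gcongr
    have h4 : (0 : ℝ) < 2 ^ k := by positivity
    have h5 : k * δ ≤ δ * (2 ^ k + k) := by nlinarith
    linarith
  · refine le_trans hup' ?_
    rw [mul_left_comm]
    apply mul_le_mul_of_nonneg_left _ hVA0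
    rw [← mul_div_assoc]
    apply div_le_div_of_nonneg_right _ hkf.le
    have h1 : x + M = x * (1 + (M : ℝ) / x) := by
      field_simp
    rw [h1, mul_pow, mul_comm (1 + η)]
    apply mul_le_mul_of_nonneg_left _ (by positivity)
    have h2 := one_add_pow_le k ((M : ℝ) / x) (by positivity) (by linarith)
    refine h2.trans ?_
    have h6 : (1 : ℝ) ≤ 2 ^ k := one_le_pow₀ (by norm_num)
    have h3 : (2 ^ k - 1) * ((M : ℝ) / x) ≤ (2 ^ k - 1) * δ :=
      mul_le_mul_of_nonneg_left hMδ (by linarith)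
    have h5 : (2 ^ k - 1) * δ ≤ δ * (2 ^ k + k) := by nlinarith
    linarith


/-! ### the tail -/

open Classical in
/-- the pairs with a point of `H` -/
noncomputable def Dq (A H : Finset ℕ) : Finset (ℕ × ℕ) :=
  (prs H ∪ (A ×ˢ H).filter (fun x => x.1 < x.2)) ∪ (H ×ˢ A).filter (fun x => x.1 < x.2)

lemma Dq_card (A H : Finset ℕ) : (Dq A H).card ≤ (H.card + A.card) ^ 2 := by
  classical
  unfold Dq
  have h1 := card_union_le (prs H ∪ (A ×ˢ H).filter (fun x => x.1 < x.2))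
    ((H ×ˢ A).filter (fun x => x.1 < x.2))
  have h2 := card_union_le (prs H) ((A ×ˢ H).filter (fun x => x.1 < x.2))
  have h3 := prs_card H
  have h4 : ((A ×ˢ H).filter (fun x => x.1 < x.2)).card ≤ A.card * H.card := by
    refine (card_filter_le _ _).trans ?_
    rw [card_product]
  have h5 : ((H ×ˢ A).filter (fun x => x.1 < x.2)).card ≤ H.card * A.card := by
    refine (card_filter_le _ _).trans ?_
    rw [card_product]
  nlinarith

lemma clA_Dq (Q : ℕ → ℕ → Prop) (A H : Finset ℕ) (hH : ∀ h ∈ H, h ∉ A) (p : ℕ)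
    (h : ClA Q A H p) : ∃ x ∈ Dq A H, CoG Q p (x.2 - x.1) := by
  classical
  rcases h with ⟨a, ha, b, hb, hab, hco⟩ | ⟨a, ha, b, hb, m, h1, h2⟩
  · refine ⟨(a, b), ?_, hco⟩
    unfold Dq prs
    rw [mem_union, mem_union, mem_filter, mem_product]
    exact Or.inl (Or.inl ⟨⟨ha, hb⟩, hab⟩)
  · have hne : a ≠ b := fun h => hH b hb (h ▸ ha)
    rcases Nat.lt_or_gt_of_ne hne with hlt | hlt
    · refine ⟨(a, b), ?_, m + a, h1, ?_⟩
      · unfold Dq
        rw [mem_union, mem_union, mem_filter, mem_product]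
        exact Or.inl (Or.inr ⟨⟨ha, hb⟩, hlt⟩)
      · simp only
        rw [show m + a + (b - a) = m + b by omega]
        exact h2
    · refine ⟨(b, a), ?_, m + b, h2, ?_⟩
      · unfold Dq
        rw [mem_union]
        exact Or.inr (mem_filter.2 ⟨mem_product.2 ⟨hb, ha⟩, hlt⟩)
      · simp only
        rw [show m + b + (a - b) = m + a by omega]
        exact h1
open Classical in
/-- upper bound for the tail -/
lemma tail_upI (Q : ℕ → ℕ → Prop) (c : ℕ) (hQ : PerB Q c) (A H : Finset ℕ)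
    (hH : ∀ h ∈ H, h ∉ A) (w y : ℕ) (hbig : 2 * (H.card * c) ≤ w) :
    Vt (QH Q (A ∪ H)) w y ≤ Vt (QH Q A) w y * (Vt Q w y ^ H.card *
      (1 + ∑ x ∈ Dq A H, (Fp Q ((1 + 2 * (H.card * c)) ^ ((H.card + A.card) ^ 2) - 1) w y (x.2 - x.1) - 1))) := by
  obtain ⟨K, hK⟩ : ∃ K, K = 2 * (H.card * c) := ⟨_, rfl⟩
  have h1 : Vt (QH Q (A ∪ H)) w y ≤ ∏ p ∈ (pz y).filter (fun p => w < p),
      ((1 - (nuB (QH Q A) p : ℝ) / p) * ((1 - (nuB Q p : ℝ) / p) ^ H.card *
        (if ClA Q A H p then 1 + (K : ℝ) / p else 1))) := by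
    unfold Vt
    apply Finset.prod_le_prod
    · intro p hp
      rw [mem_filter] at hp
      exact one_sub_nonneg _ p (mem_pz.1 hp.1).2
    · intro p hp
      rw [mem_filter] at hp
      have h2 := factor_upA Q c hQ A H p (mem_pz.1 hp.1).2 (by omega)
      rw [hK]
      exact h2
  have h2 : ∏ p ∈ (pz y).filter (fun p => w < p), (if ClA Q A H p then 1 + (K : ℝ) / p else 1) ≤
      ∏ x ∈ Dq A H, Fp Q K w y (x.2 - x.1) := by
    have e : ∏ x ∈ Dq A H, Fp Q K w y (x.2 - x.1) = ∏ p ∈ (pz y).filter (fun p => w < p),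
        ∏ x ∈ Dq A H, (if CoG Q p (x.2 - x.1) then 1 + (K : ℝ) / p else 1) := by
      rw [Finset.prod_comm]
      apply Finset.prod_congr rfl
      intro x _
      unfold Fp
      rw [← Finset.filter_filter, Finset.prod_filter]
    rw [e]
    apply Finset.prod_le_prod
    · intro p _
      split_ifs <;> positivity
    · intro p _
      have hge : ∀ x ∈ Dq A H, (1 : ℝ) ≤ (if CoG Q p (x.2 - x.1) then 1 + (K : ℝ) / p else 1) := by
        intro x _
        have : 0 ≤ (K : ℝ) / p := by positivity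
        split_ifs <;> linarith
      split_ifs with h
      · obtain ⟨x, hx, hco⟩ := clA_Dq Q A H hH p h
        have h3 := single_le_prod_one (Dq A H)
          (fun x => if CoG Q p (x.2 - x.1) then 1 + (K : ℝ) / p else 1) hge x hx
        simp only [if_pos hco] at h3
        exact h3
      · exact Finset.one_le_prod hge
  have h3 : ∏ x ∈ Dq A H, Fp Q K w y (x.2 - x.1) - 1 ≤
      ∑ x ∈ Dq A H, (Fp Q ((1 + K) ^ ((H.card + A.card) ^ 2) - 1) w y (x.2 - x.1) - 1) := by
    refine (prod_sub_one_le (Dq A H) (fun x => Fp Q K w y (x.2 - x.1))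
      (fun x _ => Fp_ge Q K w y _) ((H.card + A.card) ^ 2) (Dq_card A H)).trans ?_
    apply Finset.sum_le_sum
    intro x _
    have := Fp_pow Q K ((H.card + A.card) ^ 2) w y (x.2 - x.1)
    linarith
  rw [← hK]
  refine h1.trans ?_
  rw [Finset.prod_mul_distrib, Finset.prod_mul_distrib, Finset.prod_pow]
  apply mul_le_mul_of_nonneg_left _ (Vt_nonneg (QH Q A) w y)
  apply mul_le_mul_of_nonneg_left _ (pow_nonneg (Vt_nonneg Q w y) _)
  linarith


open Classical in
/-- the sum over the pairs with a point of `H` -/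
lemma sum_Dq (k T : ℕ) (A : Finset ℕ) (hA : ∀ a ∈ A, a ≤ T + 1) (g : ℕ → ℝ) (hg : ∀ t, 0 ≤ g t) :
    ∑ H ∈ powersetCard (k + 1) (Icc 1 T \ A), ∑ x ∈ Dq A H, g (x.2 - x.1) ≤
      (1 + 2 * A.card) * ((T : ℝ) ^ k * ∑ t ∈ Icc 1 T, g t) := by
  have h0 : ∑ H ∈ powersetCard (k + 1) (Icc 1 T \ A), ∑ x ∈ Dq A H, g (x.2 - x.1) ≤
      ∑ H ∈ powersetCard (k + 1) (Icc 1 T), ∑ x ∈ Dq A H, g (x.2 - x.1) := by
    apply Finset.sum_le_sum_of_subset_of_nonneg (powersetCard_mono sdiff_subset)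
    intro H _ _
    exact Finset.sum_nonneg fun x _ => hg _
  refine h0.trans ?_
  have h1 : ∀ H ∈ powersetCard (k + 1) (Icc 1 T), ∑ x ∈ Dq A H, g (x.2 - x.1) ≤
      ∑ x ∈ prs H, g (x.2 - x.1) + ∑ h ∈ H, ∑ a ∈ A, (if a < h then g (h - a) else 0) +
        ∑ h ∈ H, ∑ a ∈ A, (if h < a then g (a - h) else 0) := by
    intro H _
    unfold Dq
    refine (sum_union_le' _ _ (fun x : ℕ × ℕ => g (x.2 - x.1)) (fun _ => hg _)).trans ?_
    apply add_le_add
    · refine (sum_union_le' _ _ (fun x : ℕ × ℕ => g (x.2 - x.1)) (fun _ => hg _)).trans ?_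
      apply add_le_add le_rfl
      rw [Finset.sum_filter, Finset.sum_product_right]
    · rw [Finset.sum_filter, Finset.sum_product]
  refine (Finset.sum_le_sum h1).trans ?_
  rw [Finset.sum_add_distrib, Finset.sum_add_distrib]
  obtain ⟨G, hG⟩ : ∃ G : ℝ, G = ∑ t ∈ Icc 1 T, g t := ⟨_, rfl⟩
  have h2 := sum_prs k T g hg
  have h3 := sum_one k T (fun h => ∑ a ∈ A, (if a < h then g (h - a) else 0)) (fun _ =>
    Finset.sum_nonneg fun a _ => by split_ifs; exacts [hg _, le_rfl])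
  have h4 := sum_one k T (fun h => ∑ a ∈ A, (if h < a then g (a - h) else 0)) (fun _ =>
    Finset.sum_nonneg fun a _ => by split_ifs; exacts [hg _, le_rfl])
  have h5 : ∑ h ∈ Icc 1 T, ∑ a ∈ A, (if a < h then g (h - a) else 0) ≤ A.card * G := by
    rw [Finset.sum_comm]
    have : ∀ a ∈ A, ∑ h ∈ Icc 1 T, (if a < h then g (h - a) else 0) ≤ G := by
      intro a _
      rw [← Finset.sum_filter]
      have e : ∑ h ∈ (Icc 1 T).filter (fun h => a < h), g (h - a) =
          ∑ t ∈ ((Icc 1 T).filter (fun h => a < h)).image (fun h => h - a), g t := by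
        rw [Finset.sum_image]
        intro b hb b' hb' h
        rw [Finset.mem_coe, mem_filter] at hb hb'
        simp only at h
        omega
      rw [e, hG]
      apply Finset.sum_le_sum_of_subset_of_nonneg
      · intro t ht
        rw [mem_image] at ht
        obtain ⟨b, hb, rfl⟩ := ht
        rw [mem_filter, mem_Icc] at hb
        rw [mem_Icc]
        omega
      · intros
        exact hg _
    refine (Finset.sum_le_sum this).trans ?_
    rw [Finset.sum_const, nsmul_eq_mul]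
  have h6 : ∑ h ∈ Icc 1 T, ∑ a ∈ A, (if h < a then g (a - h) else 0) ≤ A.card * G := by
    rw [Finset.sum_comm]
    have : ∀ a ∈ A, ∑ h ∈ Icc 1 T, (if h < a then g (a - h) else 0) ≤ G := by
      intro a ha
      have haT := hA a ha
      rw [← Finset.sum_filter]
      have e : ∑ h ∈ (Icc 1 T).filter (fun h => h < a), g (a - h) =
          ∑ t ∈ ((Icc 1 T).filter (fun h => h < a)).image (fun h => a - h), g t := by
        rw [Finset.sum_image]
        intro b hb b' hb' h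
        rw [Finset.mem_coe, mem_filter] at hb hb'
        simp only at h
        omega
      rw [e, hG]
      apply Finset.sum_le_sum_of_subset_of_nonneg
      · intro t ht
        rw [mem_image] at ht
        obtain ⟨b, hb, rfl⟩ := ht
        rw [mem_filter, mem_Icc] at hb
        rw [mem_Icc]
        omega
      · intros
        exact hg _
    refine (Finset.sum_le_sum this).trans ?_
    rw [Finset.sum_const, nsmul_eq_mul]
  have hTk : (0 : ℝ) ≤ (T : ℝ) ^ k := by positivity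
  have h7 := mul_le_mul_of_nonneg_left h5 hTk
  have h8 := mul_le_mul_of_nonneg_left h6 hTk
  rw [← hG] at h2 ⊢
  have e : (1 + 2 * (A.card : ℝ)) * ((T : ℝ) ^ k * G) = (T : ℝ) ^ k * G + (T : ℝ) ^ k * (A.card * G) +
      (T : ℝ) ^ k * (A.card * G) := by ring
  rw [e]
  linarith

open Classical in
/-- **The average of the singular series with a fixed set of points.** -/
theorem set_avg (c a k : ℕ) (η : ℝ) (hη : 0 < η) (hη1 : η ≤ 1) :
    ∃ (w : ℕ) (η' : ℝ) (T0 : ℕ), 0 < η' ∧ ∀ T : ℕ, T0 ≤ T → ∀ Q : ℕ → ℕ → Prop, PerB Q c →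
      (∀ p : ℕ, p.Prime → nuB Q p < p) → ∀ A : Finset ℕ, A.card = a → (∀ x ∈ A, x ≤ T + 1) →
      ∀ y : ℕ, w ≤ y →
      (∀ t ∈ Icc 1 T, ((((pz y).filter (fun p : ℕ => T < p ∧ CoG Q p t)).card : ℕ) : ℝ) ≤ η' * T) →
      (1 - η) * (Vq (QH Q A) y * ((T * Vq Q y) ^ (k + 1) / (k + 1).factorial)) ≤
        ∑ H ∈ powersetCard (k + 1) (Icc 1 T \ A), Vq (QH Q (A ∪ H)) y ∧
      ∑ H ∈ powersetCard (k + 1) (Icc 1 T \ A), Vq (QH Q (A ∪ H)) y ≤
        (1 + η) * (Vq (QH Q A) y * ((T * Vq Q y) ^ (k + 1) / (k + 1).factorial)) := by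
  obtain ⟨c1, B, w1, hc1, hw12, hW⟩ := W_low c
  obtain ⟨K, hK⟩ : ∃ K : ℕ, K = (1 + 2 * ((k + 1) * c)) ^ ((k + 1 + a) ^ 2) - 1 := ⟨_, rfl⟩
  obtain ⟨A', hA'⟩ : ∃ A' : ℕ, A' = 12 * (1 + 2 * a) * (K * c ^ 2 + 1) * (k + 1).factorial +
      ((a + (k + 1)) * c) ^ 2 :=
    ⟨_, rfl⟩
  obtain ⟨w, hw0, hw2, hAw, hAw'⟩ := exists_w A' B (k + 1) c1 (η / 4) hc1 (by positivity)
    (max w1 (2 * ((a + (k + 1)) * c)))
  have hww1 : w1 ≤ w := (le_max_left _ _).trans hw0
  have hwc : 2 * ((a + (k + 1)) * c) ≤ w := (le_max_right _ _).trans hw0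
  have hwr : (0 : ℝ) < w := by exact_mod_cast (by omega : 0 < w)
  obtain ⟨η1, hη1def⟩ : ∃ η1 : ℝ, η1 = ((K * c ^ 2 + 1 : ℕ) : ℝ) / w := ⟨_, rfl⟩
  have hη10 : 0 < η1 := by rw [hη1def]; positivity
  have hfac : (1 : ℝ) ≤ (k + 1).factorial := by
    exact_mod_cast Nat.factorial_pos (k + 1)
  have hAge : 12 * (1 + 2 * (a : ℝ)) * η1 * (k + 1).factorial ≤ (A' : ℝ) / w := by
    rw [hη1def, le_div_iff₀ hwr]
    have : ((12 * (1 + 2 * a) * (K * c ^ 2 + 1) * (k + 1).factorial : ℕ) : ℝ) ≤ A' := by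
      exact_mod_cast (by rw [hA']; exact Nat.le_add_right _ _ :
        12 * (1 + 2 * a) * (K * c ^ 2 + 1) * (k + 1).factorial ≤ A')
    refine le_trans (le_of_eq ?_) this
    push_cast
    field_simp
  have hAge2 : (((a + (k + 1)) * c : ℕ) : ℝ) ^ 2 / w ≤ η / 4 := by
    refine le_trans ?_ hAw'
    apply div_le_div_of_nonneg_right _ hwr.le
    exact_mod_cast (by rw [hA']; exact Nat.le_add_left _ _ : ((a + (k + 1)) * c) ^ 2 ≤ A')
  have hη1le : η1 ≤ 1 := by
    have h1 : 12 * (1 + 2 * (a : ℝ)) * η1 * (k + 1).factorial ≤ η / 4 := hAge.trans hAw'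
    have h2 : η1 ≤ 12 * (1 + 2 * (a : ℝ)) * η1 * (k + 1).factorial := by
      have ha0 : (0 : ℝ) ≤ a := Nat.cast_nonneg a
      calc η1 = 1 * 1 * η1 * 1 := by ring
        _ ≤ 12 * (1 + 2 * (a : ℝ)) * η1 * (k + 1).factorial := by gcongr <;> linarith
    linarith
  obtain ⟨T1, hT1, havg⟩ := avg_sharp K (c ^ 2) w (by omega) η1 hη10 (by
    rw [hη1def]
    apply div_le_div_of_nonneg_right _ hwr.le
    push_cast
    linarith)
  obtain ⟨T2, hsmall⟩ := small_avgI a (k + 1) w (η / 4) (by positivity)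
  refine ⟨w, η1 / (K + 1), max T1 T2, by positivity, ?_⟩
  intro T hT Q hQ hadm A hAa hAT y hwy hlarge
  have hT1' : T1 ≤ T := (le_max_left _ _).trans hT
  have hT2' : T2 ≤ T := (le_max_right _ _).trans hT
  obtain ⟨s1, s2⟩ := hsmall T hT2' Q c A hQ hadm hAa
  have hWpos := Vq_pos Q hadm w
  obtain ⟨W, hWdef⟩ : ∃ W, W = Vq Q w := ⟨_, rfl⟩
  obtain ⟨V, hV⟩ : ∃ V, V = Vt Q w y := ⟨_, rfl⟩
  obtain ⟨WA, hWA⟩ : ∃ WA, WA = Vq (QH Q A) w := ⟨_, rfl⟩
  obtain ⟨VA, hVA⟩ : ∃ VA, VA = Vt (QH Q A) w y := ⟨_, rfl⟩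
  have hV0 : 0 ≤ V := by rw [hV]; exact Vt_nonneg Q w y
  have hVA0 : 0 ≤ VA := by rw [hVA]; exact Vt_nonneg _ w y
  have hWA0 : 0 ≤ WA := by rw [hWA]; exact Vq_nonneg _ w
  rw [← hWdef, ← hWA] at s1 s2
  rw [← hWdef] at hWpos
  rw [Vq_split Q w y hwy, Vq_split (QH Q A) w y hwy, ← hWdef, ← hV, ← hWA, ← hVA]
  have hT0 : (0 : ℝ) ≤ T := Nat.cast_nonneg T
  have e1 : WA * VA * (((T : ℝ) * (W * V)) ^ (k + 1) / (k + 1).factorial) =
      (VA * V ^ (k + 1)) * (WA * ((T * W) ^ (k + 1) / (k + 1).factorial)) := by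
    rw [← mul_assoc (T : ℝ) W V, mul_pow ((T : ℝ) * W) V]
    ring
  rw [e1]
  have hterm : ∀ H ∈ powersetCard (k + 1) (Icc 1 T \ A), Vq (QH Q (A ∪ H)) y =
      Vq (QH Q (A ∪ H)) w * Vt (QH Q (A ∪ H)) w y :=
    fun H _ => Vq_split _ w y hwy
  have hX0 : 0 ≤ (T * W) ^ (k + 1) / ((k + 1).factorial : ℝ) := by positivity
  have hX0' : 0 ≤ WA * ((T * W) ^ (k + 1) / ((k + 1).factorial : ℝ)) := mul_nonneg hWA0 hX0
  have hVk : 0 ≤ VA * V ^ (k + 1) := by positivity
  constructor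
  · -- lower bound
    have h1 : ∀ H ∈ powersetCard (k + 1) (Icc 1 T \ A),
        VA * V ^ (k + 1) * (1 - η / 4) * Vq (QH Q (A ∪ H)) w ≤
          Vq (QH Q (A ∪ H)) y := by
      intro H hH
      rw [hterm H hH]
      rw [mem_powersetCard] at hH
      have h2 := tail_loA Q c hQ A H w y (by omega) (by rw [hH.2, hAa]; exact hwc)
      rw [hH.2, hAa, ← hV, ← hVA] at h2
      have h3 : VA * V ^ (k + 1) * (1 - η / 4) ≤ Vt (QH Q (A ∪ H)) w y := by
        refine le_trans ?_ h2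
        rw [mul_assoc]
        apply mul_le_mul_of_nonneg_left _ hVA0
        apply mul_le_mul_of_nonneg_left _ (by positivity)
        linarith
      calc VA * V ^ (k + 1) * (1 - η / 4) * Vq (QH Q (A ∪ H)) w ≤
            Vt (QH Q (A ∪ H)) w y * Vq (QH Q (A ∪ H)) w :=
            mul_le_mul_of_nonneg_right h3 (Vq_nonneg _ w)
        _ = _ := mul_comm _ _
    have h2 := Finset.sum_le_sum h1
    rw [← Finset.mul_sum] at h2
    refine le_trans ?_ h2
    calc (1 - η) * ((VA * V ^ (k + 1)) * (WA * ((T * W) ^ (k + 1) / (k + 1).factorial))) ≤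
        VA * V ^ (k + 1) * (1 - η / 4) *
          ((1 - η / 4) * (WA * ((T * W) ^ (k + 1) / (k + 1).factorial))) := by
          have h3 : 1 - η ≤ (1 - η / 4) * (1 - η / 4) := by nlinarith
          have h4 := mul_le_mul_of_nonneg_right h3 (mul_nonneg hVk hX0')
          calc (1 - η) * ((VA * V ^ (k + 1)) * (WA * ((T * W) ^ (k + 1) / (k + 1).factorial))) ≤ _ := h4
            _ = _ := by ring
      _ ≤ _ := mul_le_mul_of_nonneg_left s1 (mul_nonneg hVk (by linarith))
  · -- upper bound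
    have h1 : ∀ H ∈ powersetCard (k + 1) (Icc 1 T \ A), Vq (QH Q (A ∪ H)) y ≤
        VA * V ^ (k + 1) * (Vq (QH Q (A ∪ H)) w +
          WA * ∑ x ∈ Dq A H, (Fp Q K w y (x.2 - x.1) - 1)) := by
      intro H hH
      rw [hterm H hH]
      rw [mem_powersetCard] at hH
      have h2 := tail_upI Q c hQ A H (fun h hh => (Finset.mem_sdiff.1 (hH.1 hh)).2) w y (by
          rw [hH.2]
          exact le_trans (Nat.mul_le_mul_left 2 (Nat.mul_le_mul_right c (by omega))) hwc)
      rw [hH.2, hAa, ← hV, ← hVA, ← hK] at h2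
      have h3 : 0 ≤ ∑ x ∈ Dq A H, (Fp Q K w y (x.2 - x.1) - 1) := by
        apply Finset.sum_nonneg
        intro x _
        have := Fp_ge Q K w y (x.2 - x.1)
        linarith
      have h4 := Vq_nonneg (QH Q (A ∪ H)) w
      have h5 : Vq (QH Q (A ∪ H)) w ≤ WA := by
        rw [hWA]
        unfold Vq
        apply Finset.prod_le_prod
        · intro p hp
          exact one_sub_nonneg _ p (mem_pz.1 hp).2
        · intro p hp
          have hp0 : (0 : ℝ) < p := by exact_mod_cast (mem_pz.1 hp).2.pos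
          have : (nuB (QH Q A) p : ℝ) ≤ nuB (QH Q (A ∪ H)) p := by
            exact_mod_cast nuB_mono Q A H p
          have := div_le_div_of_nonneg_right this hp0.le
          linarith
      calc Vq (QH Q (A ∪ H)) w * Vt (QH Q (A ∪ H)) w y ≤
            Vq (QH Q (A ∪ H)) w * (VA * (V ^ (k + 1) *
            (1 + ∑ x ∈ Dq A H, (Fp Q K w y (x.2 - x.1) - 1)))) :=
              mul_le_mul_of_nonneg_left h2 h4
        _ = VA * V ^ (k + 1) * (Vq (QH Q (A ∪ H)) w +
            Vq (QH Q (A ∪ H)) w * ∑ x ∈ Dq A H, (Fp Q K w y (x.2 - x.1) - 1)) := by ring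
        _ ≤ _ := by
          apply mul_le_mul_of_nonneg_left _ hVk
          have := mul_le_mul_of_nonneg_right h5 h3
          linarith
    have h2 := Finset.sum_le_sum h1
    rw [← Finset.mul_sum, Finset.sum_add_distrib, ← Finset.mul_sum] at h2
    refine h2.trans ?_
    have h3 := sum_Dq k T A hAT (fun t => Fp Q K w y t - 1) (fun t => by
      have := Fp_ge Q K w y t
      linarith)
    rw [hAa] at h3
    have h4 := havg T hT1' (CoG Q) (coll_gen Q c hQ w) y (η1 / (K + 1)) (by positivity) (by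
      rw [← mul_div_assoc, div_le_iff₀ (by positivity)]
      have : (0 : ℝ) ≤ K := Nat.cast_nonneg K
      nlinarith) hlarge
    have h5 : ∑ t ∈ Icc 1 T, (Fp Q K w y t - 1) ≤ 12 * η1 * T := by
      rw [Finset.sum_sub_distrib, Finset.sum_const, Nat.card_Icc, Nat.add_sub_cancel, nsmul_eq_mul,
        mul_one]
      have h6 := exp_bound η1 hη10.le hη1le
      have h7 := mul_le_mul_of_nonneg_right h6 hT0
      unfold Fp
      linarith
    have h6 : ∑ H ∈ powersetCard (k + 1) (Icc 1 T \ A), ∑ x ∈ Dq A H, (Fp Q K w y (x.2 - x.1) - 1) ≤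
        η / 4 * ((T * W) ^ (k + 1) / (k + 1).factorial) := by
      calc _ ≤ (1 + 2 * (a : ℝ)) * ((T : ℝ) ^ k * ∑ t ∈ Icc 1 T, (Fp Q K w y t - 1)) := h3
        _ ≤ (1 + 2 * (a : ℝ)) * ((T : ℝ) ^ k * (12 * η1 * T)) := by
          apply mul_le_mul_of_nonneg_left _ (by positivity)
          exact mul_le_mul_of_nonneg_left h5 (by positivity)
        _ = 12 * (1 + 2 * (a : ℝ)) * η1 * (k + 1).factorial * (T ^ (k + 1) / (k + 1).factorial) := by
          rw [pow_succ]
          field_simp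
        _ ≤ (η / 4 * (c1 / Real.log w ^ B) ^ (k + 1)) * (T ^ (k + 1) / (k + 1).factorial) := by
          apply mul_le_mul_of_nonneg_right (hAge.trans hAw) (by positivity)
        _ ≤ (η / 4 * W ^ (k + 1)) * (T ^ (k + 1) / (k + 1).factorial) := by
          apply mul_le_mul_of_nonneg_right _ (by positivity)
          apply mul_le_mul_of_nonneg_left _ (by positivity)
          have hlog : 0 < Real.log w := Real.log_pos (by exact_mod_cast (by omega : 1 < w))
          apply pow_le_pow_left₀ (by positivity)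
          rw [hWdef]
          exact hW w hww1 Q hQ hadm
        _ = _ := by
          rw [mul_pow]
          ring
    calc VA * V ^ (k + 1) * (∑ H ∈ powersetCard (k + 1) (Icc 1 T \ A), Vq (QH Q (A ∪ H)) w +
        WA * ∑ H ∈ powersetCard (k + 1) (Icc 1 T \ A), ∑ x ∈ Dq A H,
          (Fp Q K w y (x.2 - x.1) - 1)) ≤
        VA * V ^ (k + 1) * ((1 + η / 4) * (WA * ((T * W) ^ (k + 1) / (k + 1).factorial)) +
          WA * (η / 4 * ((T * W) ^ (k + 1) / (k + 1).factorial))) := by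
          apply mul_le_mul_of_nonneg_left _ hVk
          have := mul_le_mul_of_nonneg_left h6 hWA0
          linarith
      _ = (1 + η / 2) * (VA * V ^ (k + 1) * (WA * ((T * W) ^ (k + 1) / (k + 1).factorial))) := by ring
      _ ≤ (1 + η) * (VA * V ^ (k + 1) * (WA * ((T * W) ^ (k + 1) / (k + 1).factorial))) := by
        apply mul_le_mul_of_nonneg_right (by linarith) (mul_nonneg hVk hX0')


end Pool.Agent.H25.SetPt
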