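import Pool.Agent.H25.TwoPtC

set_option autoImplicit false

/-!
# The law between two integers without small prime factors at a given distance
-/

namespace Pool.Agent.H25.TwoPt

open Finset Filter
open Pool.Agent.H373R2.T7 Pool.Agent.W123.RP Pool.Agent.W123.RU Pool.Agent.TH464.PO

/-- divisibility -/
def Q1 (p m : ℕ) : Prop := p ∣ m

lemma nu1 (p : ℕ) (hp : p.Prime) : nuB Q1 p = 1 := by
  classical
  unfold nuB
  rw [Finset.card_eq_one]
  refine ⟨0, ?_⟩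
  ext r
  rw [mem_filter, mem_range, mem_singleton]
  constructor
  · rintro ⟨h1, h2⟩
    exact Nat.eq_zero_of_dvd_of_lt h2 h1
  · rintro rfl
    exact ⟨hp.pos, dvd_zero p⟩

lemma per1 : PerB Q1 1 := by
  refine ⟨fun p n => ?_, fun p hp => (nu1 p hp).le⟩
  unfold Q1
  exact (Nat.dvd_mod_iff (dvd_refl p)).symm

lemma Vq1 (u y : ℕ) : Vq (Qt Q1 u) y = Vz y := by
  rw [Vq_Qt Q1 1 per1]
  unfold Vq Vz
  apply Finset.prod_congr rfl
  intro p hp
  rw [nu1 p (mem_pz.1 hp).2, Nat.cast_one]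

lemma perT (u : ℕ) : PerB (Qt Q1 u) 1 := perB_Qt Q1 1 per1 u

lemma admT (u : ℕ) (p : ℕ) (hp : p.Prime) : nuB (Qt Q1 u) p < p := by
  rw [nuB_Qt Q1 1 per1, nu1 p hp]
  exact hp.one_lt

lemma noco (u p d : ℕ) (h : CoG (Qt Q1 u) p d) : p ∣ d := by
  obtain ⟨m, h1, h2⟩ := h
  unfold Qt Q1 at h1 h2
  have e : m + d + u = (m + u) + d := by ring
  rw [e] at h2
  exact (Nat.dvd_add_right h1).1 h2

lemma nu2 (t p : ℕ) (hp : p.Prime) : nuB (QH Q1 {0, t}) p = if p ∣ t then 1 else 2 := by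
  classical
  have key : ∀ r : ℕ, QH Q1 {0, t} p r ↔ (p ∣ r ∨ p ∣ r + t) := by
    intro r
    unfold QH Q1
    simp
  unfold nuB
  split_ifs with h
  · rw [Finset.card_eq_one]
    refine ⟨0, ?_⟩
    ext r
    rw [mem_filter, mem_range, mem_singleton, key]
    constructor
    · rintro ⟨h1, h2 | h2⟩
      · exact Nat.eq_zero_of_dvd_of_lt h2 h1
      · exact Nat.eq_zero_of_dvd_of_lt ((Nat.dvd_add_left h).1 h2) h1
    · rintro rfl
      exact ⟨hp.pos, Or.inl (dvd_zero p)⟩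
  · have hs : 0 < t % p := Nat.pos_of_ne_zero fun h' => h (Nat.dvd_of_mod_eq_zero h')
    have hs2 := Nat.mod_lt t hp.pos
    have hq : p ∣ p * (t / p) := dvd_mul_right _ _
    have ht := Nat.div_add_mod t p
    have key2 : ∀ r : ℕ, p ∣ r + t ↔ p ∣ r + t % p := by
      intro r
      have e : r + t = (r + t % p) + p * (t / p) := by omega
      rw [e]
      exact Nat.dvd_add_left hq
    have hset : (range p).filter (fun r => QH Q1 {0, t} p r) = {0, p - t % p} := by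
      ext r
      rw [mem_filter, mem_range, mem_insert, mem_singleton, key, key2]
      constructor
      · rintro ⟨h1, h2 | h2⟩
        · exact Or.inl (Nat.eq_zero_of_dvd_of_lt h2 h1)
        · right
          obtain ⟨k, hk⟩ := h2
          have hk1 : k = 1 := by
            rcases k with _ | _ | k
            · omega
            · rfl
            · exfalso
              have : 2 * p ≤ p * (k + 1 + 1) := by nlinarith
              omega
          rw [hk1, mul_one] at hk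
          omega
      · rintro (rfl | rfl)
        · exact ⟨hp.pos, Or.inl (dvd_zero p)⟩
        · refine ⟨by omega, Or.inr ?_⟩
          have e : p - t % p + t % p = p := by omega
          rw [e]
    rw [hset, card_insert_of_notMem, card_singleton]
    rw [mem_singleton]
    omega

/-- the density of the pairs -/
noncomputable def V2 (t y : ℕ) : ℝ := ∏ p ∈ pz y, (1 - (if p ∣ t then 1 else 2) / (p : ℝ))

lemma nuT (u t p : ℕ) (hp : p.Prime) : nuB (QH (Qt Q1 u) {0, t}) p = if p ∣ t then 1 else 2 := by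
  have e : QH (Qt Q1 u) {0, t} = Qt (QH Q1 {0, t}) u := by
    funext q m
    unfold QH Qt
    apply propext
    apply exists_congr
    intro h
    rw [show m + h + u = m + u + h by ring]
  rw [e, nuB_Qt (QH Q1 {0, t}) _ (perB_QH Q1 1 per1 {0, t}), nu2 t p hp]

lemma V2_eq (u t y : ℕ) : Vq (QH (Qt Q1 u) {0, t}) y = V2 t y := by
  unfold Vq V2
  apply Finset.prod_congr rfl
  intro p hp
  rw [nuT u t p (mem_pz.1 hp).2]
  split_ifs <;> simp

lemma adm2 (u t : ℕ) (ht : Even t) (p : ℕ) (hp : p.Prime) : nuB (QH (Qt Q1 u) {0, t}) p < p := by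
  rw [nuT u t p hp]
  have h2 := hp.two_le
  split_ifs with h
  · omega
  · rcases Nat.lt_or_ge 2 p with h3 | h3
    · exact h3
    · have : p = 2 := by omega
      exact absurd (this ▸ ht.two_dvd) h

/-- the densities are small -/
lemma Vz_small (κ : ℝ) (hκ : 0 < κ) : ∃ y0 : ℕ, ∀ y : ℕ, y0 ≤ y → Vz y ≤ κ := by
  obtain ⟨c, C, hc, hC, hV⟩ := Vz_bounds
  have h := (Real.tendsto_log_atTop.comp tendsto_natCast_atTop_atTop).eventually_ge_atTop (C / κ)
  obtain ⟨y0, hy0⟩ := eventually_atTop.1 h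
  refine ⟨max y0 2, fun y hy => ?_⟩
  have h1 : C / κ ≤ Real.log y := hy0 y ((le_max_left _ _).trans hy)
  have hlog : 0 < Real.log y := lt_of_lt_of_le (by positivity) h1
  refine ((hV y ((le_max_right _ _).trans hy)).2).trans ?_
  rw [div_le_iff₀ hlog]
  rw [div_le_iff₀ hκ] at h1
  linarith

/-- powers of the window are small -/
lemma root_small (R : ℕ) (x0 v η : ℝ) (hx0 : 0 ≤ x0) (hv : 0 < v) (hη : 0 < η) :
    ∃ y0 : ℕ, 2 ≤ y0 ∧ ∀ y : ℕ, y0 ≤ y → ∀ Y : ℕ, y ≤ Y → ∀ T : ℕ, T * Vz y ≤ x0 → ∀ V : ℝ,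
      v / Real.log y ^ 2 ≤ V → (max T 1 : ℝ) ^ R * √(Y : ℝ) ≤ η * (Y * V) := by
  obtain ⟨c, C, hc, hC, hV⟩ := Vz_bounds
  obtain ⟨A, hA⟩ : ∃ A : ℝ, A = x0 / c + 1 := ⟨_, rfl⟩
  have hA1 : 1 ≤ A := by rw [hA]; have : 0 ≤ x0 / c := by positivity
                         linarith
  have h := ((isLittleO_log_rpow_rpow_atTop ((R + 2 : ℕ) : ℝ) (by norm_num : (0 : ℝ) < 1 / 2)).comp_tendsto
      tendsto_natCast_atTop_atTop).bound (by positivity : (0 : ℝ) < η * v / A ^ R)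
  have h2 := (Real.tendsto_log_atTop.comp tendsto_natCast_atTop_atTop).eventually_ge_atTop 1
  obtain ⟨y0, hy0⟩ := eventually_atTop.1 (h.and h2)
  refine ⟨max y0 2, le_max_right _ _, ?_⟩
  intro y hy Y hyY T hT V hVv
  have hy2 : 2 ≤ y := (le_max_right _ _).trans hy
  obtain ⟨h3, h4⟩ := hy0 y ((le_max_left _ _).trans hy)
  have h4' : 1 ≤ Real.log y := h4
  have hlog : 0 < Real.log y := by linarith
  have hy1 : (1 : ℝ) ≤ y := by exact_mod_cast (by omega : 1 ≤ y)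
  have hY1 : (y : ℝ) ≤ Y := by exact_mod_cast hyY
  simp only [Function.comp_def] at h3
  rw [Real.norm_of_nonneg (by positivity), Real.norm_of_nonneg (by positivity), Real.rpow_natCast,
    ← Real.sqrt_eq_rpow] at h3
  have hTb : (max T 1 : ℝ) ≤ A * Real.log y := by
    apply max_le
    · have h5 := (hV y hy2).1
      have h6 : (T : ℝ) * (c / Real.log y) ≤ x0 :=
        (mul_le_mul_of_nonneg_left h5 (Nat.cast_nonneg T)).trans hT
      rw [← mul_div_assoc, div_le_iff₀ hlog] at h6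
      have h7 : (T : ℝ) ≤ x0 / c * Real.log y := by
        rw [div_mul_eq_mul_div, le_div_iff₀ hc]
        exact h6
      rw [hA]
      linarith
    · nlinarith
  have hs : √(y : ℝ) ≤ √(Y : ℝ) := Real.sqrt_le_sqrt hY1
  have hsY : √(Y : ℝ) * √(Y : ℝ) = Y := Real.mul_self_sqrt (by linarith)
  have h5 : (max T 1 : ℝ) ^ R ≤ A ^ R * Real.log y ^ R := by
    rw [← mul_pow]
    exact pow_le_pow_left₀ (by positivity) hTb R
  have h6 : (max T 1 : ℝ) ^ R * Real.log y ^ 2 ≤ η * v * √(Y : ℝ) := by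
    calc (max T 1 : ℝ) ^ R * Real.log y ^ 2 ≤ A ^ R * Real.log y ^ R * Real.log y ^ 2 := by gcongr
      _ = A ^ R * Real.log y ^ (R + 2) := by ring
      _ ≤ A ^ R * (η * v / A ^ R * √(y : ℝ)) := by gcongr
      _ = η * v * √(y : ℝ) := by field_simp
      _ ≤ _ := by gcongr
  calc (max T 1 : ℝ) ^ R * √(Y : ℝ) = ((max T 1 : ℝ) ^ R * Real.log y ^ 2) / Real.log y ^ 2 * √(Y : ℝ) := by
        field_simp
    _ ≤ (η * v * √(Y : ℝ)) / Real.log y ^ 2 * √(Y : ℝ) := by gcongr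
    _ = η * (v / Real.log y ^ 2) * (√(Y : ℝ) * √(Y : ℝ)) := by ring
    _ = η * (v / Real.log y ^ 2) * Y := by rw [hsY]
    _ ≤ η * V * Y := by gcongr
    _ = _ := by ring

/-- **The local law.** -/
theorem core (x0 ε : ℝ) (hx0 : 0 ≤ x0) (hε : 0 < ε) (hε1 : ε ≤ 1) : ∃ K y0 : ℕ, 1 ≤ K ∧
    ∀ y : ℕ, y0 ≤ y → ∀ Y : ℕ, y ^ K ≤ Y → ∀ u T : ℕ, Even (T + 1) → (T : ℝ) * Vz y ≤ x0 →
      ∀ B : Finset ℕ,
      |(((Om (Qt Q1 u) y (T + 1) Y).filter (fun n => Nw (Qt Q1 u) y T n ∈ B)).card : ℝ) -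
        Y * V2 (T + 1) y * ∑ j ∈ B, Real.exp (-(T * Vz y)) * (T * Vz y) ^ j / j.factorial| ≤
        ε * (Y * V2 (T + 1) y) := by
  classical
  obtain ⟨Ka, ya, T0, R, η', η2, hη', hη2, hT01, hlaw⟩ := lawA 1 le_rfl x0 ε hx0 hε hε1
  obtain ⟨δ, hδ⟩ : ∃ δ : ℝ, δ = ε / 9 := ⟨_, rfl⟩
  have hδ0 : 0 < δ := by rw [hδ]; positivity
  obtain ⟨Kb, yb, Tb, ηb, hηb, hmom⟩ := momentA 1 0 le_rfl 1 one_pos le_rfl
  obtain ⟨Kc, yc, hcard⟩ := card_OmA 1 le_rfl (δ / 2) (by positivity)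
  obtain ⟨Kd, yd, hsm⟩ := small_T 1 le_rfl (Tb + 2) (by omega)
  obtain ⟨v, hv, hlow⟩ := V_lower_unif 2
  obtain ⟨η3, hη3⟩ : ∃ η3 : ℝ, η3 = min η2 (δ / 2) := ⟨_, rfl⟩
  have hη30 : 0 < η3 := by rw [hη3]; positivity
  have hη32 : η3 ≤ η2 := by rw [hη3]; exact min_le_left _ _
  have hη3δ : η3 ≤ δ / 2 := by rw [hη3]; exact min_le_right _ _
  obtain ⟨y1, hy12, hroot⟩ := root_small (R + 1) x0 v η3 hx0 hv hη30
  have hVw : 0 < Vz (Tb + 2) := by
    rw [← Vq1 0]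
    exact Vq_pos _ (admT 0) _
  obtain ⟨κ1, hκ1⟩ : ∃ κ1 : ℝ, κ1 = min (δ / 4 / (T0 + 1)) (δ * Vz (Tb + 2) / (4 * (Tb + 1))) := ⟨_, rfl⟩
  have hκ10 : 0 < κ1 := by rw [hκ1]; positivity
  have hκ11 : κ1 * (T0 + 1) ≤ δ / 4 := by
    have : κ1 ≤ δ / 4 / (T0 + 1) := by rw [hκ1]; exact min_le_left _ _
    rwa [le_div_iff₀ (by positivity)] at this
  have hκ12 : κ1 * (4 * (Tb + 1)) ≤ δ * Vz (Tb + 2) := by
    have : κ1 ≤ δ * Vz (Tb + 2) / (4 * (Tb + 1)) := by rw [hκ1]; exact min_le_right _ _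
    rwa [le_div_iff₀ (by positivity)] at this
  obtain ⟨y2, hy2⟩ := Vz_small κ1 hκ10
  refine ⟨Ka + Kb + Kc + Kd + 1, ya + yb + yc + yd + y1 + y2 + Tb + 2, by omega, ?_⟩
  intro y hy Y hyY u T hT hx B
  have hy1' : 1 ≤ y := by omega
  have hpw : ∀ k : ℕ, k ≤ Ka + Kb + Kc + Kd + 1 → y ^ k ≤ Y := fun k hk =>
    (Nat.pow_le_pow_right hy1' hk).trans hyY
  have hyY1 : y ≤ Y := by simpa using hpw 1 (by omega)
  have hVκ := hy2 y (by omega)
  obtain ⟨V, hV⟩ : ∃ V : ℝ, V = Vz y := ⟨_, rfl⟩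
  have hV0 : 0 < V := by
    rw [hV, ← Vq1 u]
    exact Vq_pos _ (admT u) _
  have hlarge : ∀ η : ℝ, 0 < η → ∀ t ∈ Icc 1 T,
      ((((pz y).filter (fun p : ℕ => T < p ∧ CoG (Qt Q1 u) p t)).card : ℕ) : ℝ) ≤ η * T := by
    intro η hη t ht
    have : (pz y).filter (fun p : ℕ => T < p ∧ CoG (Qt Q1 u) p t) = ∅ := by
      apply Finset.filter_eq_empty_iff.2
      rintro p _ ⟨h1, h2⟩
      rw [mem_Icc] at ht
      have := Nat.le_of_dvd (by omega) (noco u p t h2)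
      omega
    rw [this, card_empty, Nat.cast_zero]
    positivity
  obtain ⟨W, hW⟩ : ∃ W : ℝ, W = V2 (T + 1) y := ⟨_, rfl⟩
  have hper2 : PerB (QH (Qt Q1 u) {0, T + 1}) 2 := by
    have := perB_QH (Qt Q1 u) 1 (perT u) {0, T + 1}
    rwa [card_pair, mul_one] at this
  have hWlow : v / Real.log y ^ 2 ≤ W := by
    rw [hW, ← V2_eq u]
    exact hlow _ hper2 (adm2 u (T + 1) hT) y (by omega)
  have hW0 : 0 ≤ W := by rw [hW, ← V2_eq u]; exact Vq_nonneg _ _
  obtain ⟨m, hm⟩ : ∃ m : ℝ, m = Y * W := ⟨_, rfl⟩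
  have hm0 : 0 ≤ m := by rw [hm]; positivity
  have hr := hroot y (by omega) Y hyY1 T hx W hWlow
  rw [← hm] at hr
  have hT0r : (0 : ℝ) ≤ T := Nat.cast_nonneg T
  have hTm : (T : ℝ) ≤ max (T : ℝ) 1 := le_max_left _ _
  have h1m : (1 : ℝ) ≤ max (T : ℝ) 1 := le_max_right _ _
  rw [← hW, ← hm]
  rw [← hV] at hx ⊢
  by_cases hκ : δ / 4 ≤ T * V
  · -- large windows
    have hTT0 : T0 ≤ T := by
      by_contra hcon
      rw [not_le] at hcon
      have h1 : (T : ℝ) ≤ T0 := by exact_mod_cast hcon.le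
      have h2 : (T : ℝ) * V ≤ T0 * κ1 := by
        rw [hV]
        exact mul_le_mul h1 hVκ (by rw [← hV]; exact hV0.le) (Nat.cast_nonneg _)
      nlinarith
    have h1 := hlaw Y y T (by omega) (hpw _ (by omega)) hTT0 (Qt Q1 u) (perT u) (admT u)
      (by rw [Vq1, ← hV]; exact hx) (hlarge η' hη') (by
        rw [V2_eq, ← hW, ← hm]
        have h2 : (T : ℝ) ^ R ≤ max (T : ℝ) 1 ^ (R + 1) := by
          calc (T : ℝ) ^ R ≤ max (T : ℝ) 1 ^ R := pow_le_pow_left₀ hT0r hTm R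
            _ ≤ _ := pow_le_pow_right₀ h1m (by omega)
        calc (T : ℝ) ^ R * √(Y : ℝ) ≤ max (T : ℝ) 1 ^ (R + 1) * √(Y : ℝ) :=
              mul_le_mul_of_nonneg_right h2 (Real.sqrt_nonneg _)
          _ ≤ η3 * m := hr
          _ ≤ η2 * m := mul_le_mul_of_nonneg_right hη32 hm0) B
    rw [V2_eq, ← hW, ← hm, Vq1, ← hV] at h1
    exact h1
  · -- small windows
    rw [not_le] at hκ
    have hsq : √(Y : ℝ) ≤ δ / 2 * m := by
      calc √(Y : ℝ) = 1 * √(Y : ℝ) := (one_mul _).symm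
        _ ≤ max (T : ℝ) 1 ^ (R + 1) * √(Y : ℝ) :=
          mul_le_mul_of_nonneg_right (one_le_pow₀ h1m) (Real.sqrt_nonneg _)
        _ ≤ η3 * m := hr
        _ ≤ δ / 2 * m := mul_le_mul_of_nonneg_right hη3δ hm0
    have hTsq : (T : ℝ) * √(Y : ℝ) ≤ δ / 2 * m := by
      calc (T : ℝ) * √(Y : ℝ) ≤ max (T : ℝ) 1 ^ (R + 1) * √(Y : ℝ) := by
            apply mul_le_mul_of_nonneg_right _ (Real.sqrt_nonneg _)
            refine hTm.trans ?_
            calc max (T : ℝ) 1 = max (T : ℝ) 1 ^ 1 := (pow_one _).symm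
              _ ≤ _ := pow_le_pow_right₀ h1m (by omega)
        _ ≤ η3 * m := hr
        _ ≤ δ / 2 * m := mul_le_mul_of_nonneg_right hη3δ hm0
    have hc1 : |((Om (Qt Q1 u) y (T + 1) Y).card : ℝ) - m| ≤ δ * m := by
      have h1 := hcard Y y T (by omega) (hpw _ (by omega)) (Qt Q1 u) (perT u)
      rw [V2_eq, ← hW, ← hm] at h1
      linarith
    have hc2 : ∑ n ∈ Om (Qt Q1 u) y (T + 1) Y, ((Nw (Qt Q1 u) y T n).choose 1 : ℝ) ≤ δ * m := by
      rcases Nat.lt_or_ge T Tb with h | h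
      · have h1 := hsm Y y T (by omega) (hpw _ (by omega)) (by omega) (Qt Q1 u) (perT u) (by
          intro p _ hwp d hd hco
          rw [mem_Icc] at hd
          have := Nat.le_of_dvd (by omega) (noco u p d hco)
          omega)
        rw [V2_eq, ← hW, ← hm] at h1
        have h2 := Vq_split (Qt Q1 u) (Tb + 2) y (by omega)
        rw [Vq1, Vq1, ← hV] at h2
        obtain ⟨Vt', hVt⟩ : ∃ Vt', Vt' = Vt (Qt Q1 u) (Tb + 2) y := ⟨_, rfl⟩
        have hVt0 : 0 ≤ Vt' := by rw [hVt]; exact Vt_nonneg _ _ _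
        rw [← hVt] at h1 h2
        have h3 : (4 * (T : ℝ)) * Vt' ≤ δ := by
          have h4 : V ≤ κ1 := by rw [hV]; exact hVκ
          have h5 : (T : ℝ) ≤ Tb + 1 := by exact_mod_cast (by omega : T ≤ Tb + 1)
          have h6 : Vz (Tb + 2) * (4 * T * Vt') ≤ Vz (Tb + 2) * δ := by
            calc Vz (Tb + 2) * (4 * T * Vt') = V * (4 * T) := by rw [h2]; ring
              _ ≤ κ1 * (4 * (Tb + 1)) := by gcongr
              _ ≤ δ * Vz (Tb + 2) := hκ12
              _ = _ := by ring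
          exact le_of_mul_le_mul_left h6 hVw
        have h7 : (T : ℝ) * (2 * (m * Vt') + √(Y : ℝ)) = (4 * T * Vt') * m / 2 + T * √(Y : ℝ) := by ring
        have h8 : (4 * T * Vt') * m ≤ δ * m := mul_le_mul_of_nonneg_right h3 hm0
        linarith
      · have h1 := hmom Y y T (by omega) (hpw _ (by omega)) h (Qt Q1 u) (perT u) (admT u)
          (hlarge ηb hηb)
        simp only [zero_add, pow_one, Nat.factorial_one, Nat.cast_one, div_one, one_mul] at h1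
        rw [V2_eq, ← hW, Vq1, ← hV, ← mul_assoc, ← hm] at h1
        have h2 := (abs_le.1 h1).2
        have h3 : m * (T * V) ≤ m * (δ / 4) := mul_le_mul_of_nonneg_left hκ.le hm0
        linarith
    have h1 := law_small (Om (Qt Q1 u) y (T + 1) Y) (Nw (Qt Q1 u) y T) (T * V) m δ (by positivity)
      hm0 hc1 hc2 (by linarith) B
    have e : 9 * δ * m = ε * m := by rw [hδ]; ring
    rw [e] at h1
    exact h1

end Pool.Agent.H25.TwoPt
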