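import Pool.Agent.H25.TwoPtD
import Pool.Agent.Y879.GL.Pattern

set_option autoImplicit false

/-!
# The law between two integers without small prime factors at a given distance: final form
-/

namespace Pool.Agent.H25.TwoPtE

open Finset Filter
open Pool.Agent.H373R2.T7 Pool.Agent.W123.RP Pool.Agent.W123.RU Pool.Agent.TH464.PO
open Pool.Agent.H25.TwoPt

/-- No prime `p ≤ z` divides `m`. -/
def Rough (z m : ℕ) : Prop := ∀ p : ℕ, p.Prime → p ≤ z → ¬ p ∣ m

open Classical in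
/-- The number of the integers `m` with `n < m < n + t` without prime factor `p ≤ z`. -/
noncomputable def Btw (z t n : ℕ) : ℕ := ((Ioo n (n + t)).filter (fun m => Rough z m)).card

open Classical in
/-- The `n` in `(u, u + Y]` for which neither `n` nor `n + t` has a prime factor `p ≤ z`. -/
noncomputable def Pairs (z t u Y : ℕ) : Finset ℕ :=
  (Ioc u (u + Y)).filter (fun n => Rough z n ∧ Rough z (n + t))

/-- The product of `1 - 1 / p` over the primes `p ≤ z`. -/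
noncomputable def U (z : ℕ) : ℝ := ∏ p ∈ (Icc 1 z).filter Nat.Prime, (1 - 1 / (p : ℝ))

/-- The product over the primes `p ≤ z` of `1 - 1 / p` if `p` divides `t` and of `1 - 2 / p`
otherwise. -/
noncomputable def V (t z : ℕ) : ℝ :=
  ∏ p ∈ (Icc 1 z).filter Nat.Prime, (1 - (if p ∣ t then 1 else 2) / (p : ℝ))

lemma sf_iff (u y m : ℕ) : Sf (Qt Q1 u) y m ↔ Rough y (m + u) := by
  unfold Sf Qt Q1 Rough
  constructor
  · intro h p hp hpy
    exact h p (mem_pz.2 ⟨hpy, hp⟩)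
  · intro h p hp
    exact h p (mem_pz.1 hp).2 (mem_pz.1 hp).1

lemma sf_pair (u y t m : ℕ) : Sf (QH (Qt Q1 u) {0, t}) y m ↔ Rough y (m + u) ∧ Rough y (m + u + t) := by
  rw [sf_QH]
  constructor
  · intro h
    have h1 := (sf_iff u y (m + 0)).1 (h 0 (by simp))
    have h2 := (sf_iff u y (m + t)).1 (h t (by simp))
    rw [add_zero] at h1
    rw [show m + t + u = m + u + t by ring] at h2
    exact ⟨h1, h2⟩
  · rintro ⟨h1, h2⟩ h hh
    rw [mem_insert, mem_singleton] at hh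
    rcases hh with rfl | rfl
    · rw [sf_iff, add_zero]
      exact h1
    · rw [sf_iff, show m + h + u = m + u + h by ring]
      exact h2

lemma btw_eq (u y T m : ℕ) : Nw (Qt Q1 u) y T m = Btw y (T + 1) (m + u) := by
  classical
  unfold Nw Btw
  apply Finset.card_bij (fun h _ => m + u + h)
  · intro h hh
    rw [mem_filter, mem_Icc, sf_iff] at hh
    rw [mem_filter, mem_Ioo]
    refine ⟨by omega, ?_⟩
    rw [show m + u + h = m + h + u by ring]
    exact hh.2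
  · intro a _ b _ hab
    omega
  · intro n hn
    rw [mem_filter, mem_Ioo] at hn
    refine ⟨n - (m + u), ?_, by omega⟩
    rw [mem_filter, mem_Icc, sf_iff, show m + (n - (m + u)) + u = n by omega]
    exact ⟨by omega, hn.2⟩

lemma pairs_card (u y T Y : ℕ) (B : Finset ℕ) :
    ((Om (Qt Q1 u) y (T + 1) Y).filter (fun n => Nw (Qt Q1 u) y T n ∈ B)).card =
      ((Pairs y (T + 1) u Y).filter (fun n => Btw y (T + 1) n ∈ B)).card := by
  classical
  unfold Om Pairs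
  apply Finset.card_bij (fun n _ => n + u)
  · intro n hn
    rw [mem_filter, mem_filter, mem_Icc, sf_pair, btw_eq] at hn
    rw [mem_filter, mem_filter, mem_Ioc]
    exact ⟨⟨by omega, hn.1.2⟩, hn.2⟩
  · intro a _ b _ hab
    omega
  · intro n hn
    rw [mem_filter, mem_filter, mem_Ioc] at hn
    refine ⟨n - u, ?_, by omega⟩
    rw [mem_filter, mem_filter, mem_Icc, sf_pair, btw_eq, show n - u + u = n by omega]
    exact ⟨⟨by omega, hn.1.2⟩, hn.2⟩

/-- **The law of the number of the integers without prime factor `p ≤ z` between two such integers at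
distance `t`**, for every even `t`. -/
theorem law (x₀ ε : ℝ) (hx : 0 ≤ x₀) (hε : 0 < ε) (hε1 : ε ≤ 1) : ∃ K z₀ : ℕ, 1 ≤ K ∧ 2 ≤ z₀ ∧
    ∀ z : ℕ, z₀ ≤ z → ∀ t : ℕ, Even t → 1 ≤ t → ((t : ℝ) - 1) * U z ≤ x₀ → 0 < V t z ∧
      ∀ u Y : ℕ, z ^ K ≤ Y → ∀ B : Finset ℕ,
        |(((Pairs z t u Y).filter (fun n => Btw z t n ∈ B)).card : ℝ) - Y * V t z *
          ∑ j ∈ B, Real.exp (-(((t : ℝ) - 1) * U z)) * (((t : ℝ) - 1) * U z) ^ j / j.factorial| ≤
        ε * (Y * V t z) := by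
  obtain ⟨K, y0, hK, H⟩ := core x₀ ε hx hε hε1
  refine ⟨K, max y0 2, hK, le_max_right _ _, ?_⟩
  intro z hz t ht ht1 hx
  obtain ⟨T, rfl⟩ : ∃ T, t = T + 1 := ⟨t - 1, by omega⟩
  have e : ((T + 1 : ℕ) : ℝ) - 1 = T := by push_cast; ring
  rw [e] at hx ⊢
  refine ⟨?_, ?_⟩
  · have h1 := Vq_pos (QH (Qt Q1 0) {0, T + 1}) (fun p hp => adm2 0 (T + 1) ht p hp) z
    rw [V2_eq] at h1
    exact h1
  · intro u Y hY B
    have h1 := H z ((le_max_left _ _).trans hz) Y hY u T ht hx B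
    rw [pairs_card] at h1
    exact h1

/-- few prime factors -/
lemma few {z K n : ℕ} (hz : 2 ≤ z) (hn0 : n ≠ 0) (hn : n ≤ z ^ K) (h : Rough z n) :
    n.primeFactorsList.length ≤ K := by
  have hz2 : (1 : ℝ) < z := by exact_mod_cast (by omega : 1 < z)
  apply Pool.Agent.Y879.GL.few_of_rough (z : ℝ) hz2 _ _ hn0
  · exact_mod_cast hn
  · intro q hq hqd
    by_contra hcon
    rw [not_lt] at hcon
    exact h q hq (by exact_mod_cast hcon) hqd

/-- the density is at most `C / log z` -/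
lemma U_up : ∃ C : ℝ, 0 < C ∧ ∀ z : ℕ, 2 ≤ z → U z ≤ C / Real.log z := by
  obtain ⟨c, C, hc, hC, hV⟩ := Vz_bounds
  exact ⟨C, hC, fun z hz => (hV z hz).2⟩

lemma U_nonneg (z : ℕ) : 0 ≤ U z := by
  have := Vq_pos (Qt Q1 0) (admT 0) z
  rw [Vq1] at this
  exact this.le

/-- **The number of the gaps of length `t`**, for every even `t ≤ C log z`. -/
theorem gaps (C ε : ℝ) (hC : 0 ≤ C) (hε : 0 < ε) (hε1 : ε ≤ 1) : ∃ K z₀ : ℕ, 1 ≤ K ∧ 2 ≤ z₀ ∧
    ∀ z : ℕ, z₀ ≤ z → ∀ t : ℕ, Even t → 1 ≤ t → (t : ℝ) ≤ C * Real.log z → 0 < V t z ∧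
      ∀ u Y : ℕ, z ^ K ≤ Y →
        |(((Pairs z t u Y).filter (fun n => Btw z t n = 0)).card : ℝ) -
          Y * V t z * Real.exp (-(((t : ℝ) - 1) * U z))| ≤
        ε * (Y * V t z * Real.exp (-(((t : ℝ) - 1) * U z))) := by
  obtain ⟨C1, hC1, hU⟩ := U_up
  obtain ⟨x₀, hx₀⟩ : ∃ x₀ : ℝ, x₀ = C * C1 := ⟨_, rfl⟩
  have hx0 : 0 ≤ x₀ := by rw [hx₀]; positivity
  have he1 : Real.exp (-x₀) ≤ 1 := Real.exp_le_one_iff.2 (by linarith)
  have he0 := Real.exp_pos (-x₀)
  obtain ⟨K, z₀, hK, hz₀, H⟩ := law x₀ (ε * Real.exp (-x₀)) hx0 (by positivity) (by nlinarith)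
  refine ⟨K, z₀, hK, hz₀, ?_⟩
  intro z hz t ht ht1 htC
  have hz2 : 2 ≤ z := hz₀.trans hz
  have hlog : 0 < Real.log z := Real.log_pos (by exact_mod_cast (by omega : 1 < z))
  have hU0 := U_nonneg z
  have ht1' : (1 : ℝ) ≤ t := by exact_mod_cast ht1
  have hx : ((t : ℝ) - 1) * U z ≤ x₀ := by
    calc ((t : ℝ) - 1) * U z ≤ (C * Real.log z) * (C1 / Real.log z) := by
          apply mul_le_mul (by linarith) (hU z hz2) hU0 (by positivity)
      _ = x₀ := by rw [hx₀]; field_simp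
  obtain ⟨hV, H1⟩ := H z hz t ht ht1 hx
  refine ⟨hV, ?_⟩
  intro u Y hY
  have h1 := H1 u Y hY {0}
  rw [Finset.sum_singleton] at h1
  simp only [mem_singleton, pow_zero, Nat.factorial_zero, Nat.cast_one, div_one, mul_one] at h1
  refine h1.trans ?_
  have h2 : Real.exp (-x₀) ≤ Real.exp (-(((t : ℝ) - 1) * U z)) := Real.exp_le_exp.2 (by linarith)
  have h3 : 0 ≤ (Y : ℝ) * V t z := by positivity
  calc ε * Real.exp (-x₀) * (Y * V t z) = ε * ((Y * V t z) * Real.exp (-x₀)) := by ring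
    _ ≤ ε * ((Y * V t z) * Real.exp (-(((t : ℝ) - 1) * U z))) := by gcongr

end Pool.Agent.H25.TwoPtE
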