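import Pool.Agent.H25.SetPtC
import Pool.Agent.H25.TwoPtE

set_option autoImplicit false

/-!
# Patterns of consecutive integers without small prime factors: final form
-/

namespace Pool.Agent.H25.SetPtD

open Finset Filter
open Pool.Agent.H373R2.T7 Pool.Agent.W123.RP Pool.Agent.W123.RU Pool.Agent.TH464.PO
open Pool.Agent.H25.TwoPt Pool.Agent.H25.SetPt
open Pool.Agent.H25.TwoPtE (Rough U sf_iff U_up U_nonneg)

/-- The number of the residue classes modulo `p` which contain an element of `A`. -/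
def nu (A : Finset ℕ) (p : ℕ) : ℕ := (A.image (fun h => h % p)).card

/-- `A` is admissible: it does not meet all residue classes modulo a prime. -/
def Admissible (A : Finset ℕ) : Prop := ∀ p : ℕ, p.Prime → nu A p < p

/-- The product of `1 - ν(p) / p` over the primes `p ≤ z`. -/
noncomputable def VA (A : Finset ℕ) (z : ℕ) : ℝ :=
  ∏ p ∈ (Icc 1 z).filter Nat.Prime, (1 - (nu A p : ℝ) / p)

open Classical in
/-- The `n` in `(u, u + Y]` for which no `n + h`, `h ∈ A`, has a prime factor `p ≤ z`. -/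
noncomputable def Occ (z : ℕ) (A : Finset ℕ) (u Y : ℕ) : Finset ℕ :=
  (Ioc u (u + Y)).filter (fun n => ∀ h ∈ A, Rough z (n + h))

open Classical in
/-- The number of the integers `m` with `n < m < n + t`, `m - n ∉ A`, without prime factor `p ≤ z`. -/
noncomputable def Others (z : ℕ) (A : Finset ℕ) (t n : ℕ) : ℕ :=
  ((Ioo n (n + t)).filter (fun m => m - n ∉ A ∧ Rough z m)).card

lemma nuB_eq (A : Finset ℕ) (p : ℕ) (hp : p.Prime) : nuB (QH Q1 A) p = nu A p := by
  classical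
  have hp0 := hp.pos
  have key : ∀ r h : ℕ, p ∣ r + h ↔ p ∣ r + h % p := by
    intro r h
    have ht := Nat.div_add_mod h p
    have e : r + h = (r + h % p) + p * (h / p) := by omega
    rw [e]
    exact Nat.dvd_add_left (dvd_mul_right _ _)
  have hmod : ∀ c : ℕ, c < p → (p - c) % p = if c = 0 then 0 else p - c := by
    intro c hc
    split_ifs with h
    · rw [h, Nat.sub_zero, Nat.mod_self]
    · exact Nat.mod_eq_of_lt (by omega)
  unfold nuB nu
  symm
  apply Finset.card_bij (fun (c : ℕ) _ => (p - c) % p)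
  · intro c hc
    rw [mem_image] at hc
    obtain ⟨h, hh, rfl⟩ := hc
    have hc := Nat.mod_lt h hp0
    rw [mem_filter, mem_range]
    refine ⟨Nat.mod_lt _ hp0, h, hh, ?_⟩
    unfold Q1
    rw [key, hmod _ hc]
    split_ifs with h0
    · rw [h0]
      exact dvd_zero p
    · rw [show p - h % p + h % p = p by omega]
  · intro c hc c' hc' h
    rw [mem_image] at hc hc'
    obtain ⟨a, _, rfl⟩ := hc
    obtain ⟨b, _, rfl⟩ := hc'
    have h1 := Nat.mod_lt a hp0
    have h2 := Nat.mod_lt b hp0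
    have h' : (p - a % p) % p = (p - b % p) % p := h
    rw [hmod _ h1, hmod _ h2] at h'
    split_ifs at h' <;> omega
  · intro r hr
    rw [mem_filter, mem_range] at hr
    obtain ⟨h1, h, hh, hd⟩ := hr
    unfold Q1 at hd
    rw [key] at hd
    refine ⟨h % p, mem_image_of_mem _ hh, ?_⟩
    have h2 := Nat.mod_lt h hp0
    rw [hmod _ h2]
    obtain ⟨k, hk⟩ := hd
    rcases k with _ | _ | k
    · split_ifs <;> omega
    · split_ifs <;> omega
    · exfalso
      have : 2 * p ≤ p * (k + 1 + 1) := by nlinarith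
      omega

lemma VA_eq' (A : Finset ℕ) (z : ℕ) : Vq (QH Q1 A) z = VA A z := by
  unfold Vq VA
  apply Finset.prod_congr rfl
  intro p hp
  rw [nuB_eq A p (mem_pz.1 hp).2]

lemma sf_A (u y m : ℕ) (A : Finset ℕ) :
    Sf (QH (Qt Q1 u) A) y m ↔ ∀ h ∈ A, Rough y (m + u + h) := by
  rw [sf_QH]
  apply forall_congr'
  intro h
  apply forall_congr'
  intro _
  rw [sf_iff, show m + h + u = m + u + h by ring]

lemma others_eq (u y T m : ℕ) (A : Finset ℕ) :
    NA (Qt Q1 u) y A T m = Others y A (T + 1) (m + u) := by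
  classical
  unfold NA Others
  apply Finset.card_bij (fun h _ => m + u + h)
  · intro h hh
    rw [mem_filter, Finset.mem_sdiff, mem_Icc, sf_iff] at hh
    rw [mem_filter, mem_Ioo]
    refine ⟨by omega, ?_, ?_⟩
    · rw [show m + u + h - (m + u) = h by omega]
      exact hh.1.2
    · rw [show m + u + h = m + h + u by ring]
      exact hh.2
  · intro a _ b _ hab
    omega
  · intro n hn
    rw [mem_filter, mem_Ioo] at hn
    refine ⟨n - (m + u), ?_, by omega⟩
    rw [mem_filter, Finset.mem_sdiff, mem_Icc, sf_iff, show m + (n - (m + u)) + u = n by omega]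
    exact ⟨⟨by omega, hn.2.1⟩, hn.2.2⟩

lemma occ_card (u y T Y : ℕ) (A B : Finset ℕ) :
    ((OA (Qt Q1 u) y A Y).filter (fun n => NA (Qt Q1 u) y A T n ∈ B)).card =
      ((Occ y A u Y).filter (fun n => Others y A (T + 1) n ∈ B)).card := by
  classical
  unfold OA Occ
  apply Finset.card_bij (fun n _ => n + u)
  · intro n hn
    rw [mem_filter, mem_filter, mem_Icc, sf_A, others_eq] at hn
    rw [mem_filter, mem_filter, mem_Ioc]
    exact ⟨⟨by omega, hn.1.2⟩, hn.2⟩
  · intro a _ b _ hab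
    omega
  · intro n hn
    rw [mem_filter, mem_filter, mem_Ioc] at hn
    refine ⟨n - u, ?_, by omega⟩
    rw [mem_filter, mem_filter, mem_Icc, sf_A, others_eq, show n - u + u = n by omega]
    exact ⟨⟨by omega, hn.1.2⟩, hn.2⟩

/-- **The law around the occurrences of an admissible pattern.** -/
theorem law (k : ℕ) (hk : 1 ≤ k) (x₀ ε : ℝ) (hx : 0 ≤ x₀) (hε : 0 < ε) (hε1 : ε ≤ 1) :
    ∃ K z₀ : ℕ, 1 ≤ K ∧ 2 ≤ z₀ ∧ ∀ z : ℕ, z₀ ≤ z →
    ∀ A : Finset ℕ, A.card = k → Admissible A → ∀ t : ℕ, 1 ≤ t → (∀ h ∈ A, h ≤ t) →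
      ((t : ℝ) - 1) * U z ≤ x₀ → 0 < VA A z ∧
      ∀ u Y : ℕ, z ^ K ≤ Y → ∀ B : Finset ℕ,
        |(((Occ z A u Y).filter (fun n => Others z A t n ∈ B)).card : ℝ) - Y * VA A z *
          ∑ j ∈ B, Real.exp (-(((t : ℝ) - 1) * U z)) * (((t : ℝ) - 1) * U z) ^ j / j.factorial| ≤
        ε * (Y * VA A z) := by
  obtain ⟨K, y0, hK, H⟩ := coreI k hk x₀ ε hx hε hε1
  refine ⟨K, max y0 2, hK, le_max_right _ _, ?_⟩
  intro z hz A hA hadm t ht1 hAt hx
  obtain ⟨T, rfl⟩ : ∃ T, t = T + 1 := ⟨t - 1, by omega⟩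
  have e : ((T + 1 : ℕ) : ℝ) - 1 = T := by push_cast; ring
  rw [e] at hx ⊢
  have hadm' : ∀ p : ℕ, p.Prime → nuB (QH Q1 A) p < p := fun p hp => by
    rw [nuB_eq A p hp]
    exact hadm p hp
  refine ⟨?_, ?_⟩
  · have h1 := Vq_pos (QH Q1 A) hadm' z
    rw [VA_eq'] at h1
    exact h1
  · intro u Y hY B
    have h1 := H z ((le_max_left _ _).trans hz) Y hY u T A hA hAt hadm' hx B
    rw [occ_card, VA_eq'] at h1
    exact h1

/-- **The number of the occurrences of an admissible pattern by consecutive rough integers**, for all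
patterns of diameter at most `C log z`. -/
theorem patterns (k : ℕ) (hk : 1 ≤ k) (C ε : ℝ) (hC : 0 ≤ C) (hε : 0 < ε) (hε1 : ε ≤ 1) :
    ∃ K z₀ : ℕ, 1 ≤ K ∧ 2 ≤ z₀ ∧ ∀ z : ℕ, z₀ ≤ z →
    ∀ A : Finset ℕ, A.card = k → Admissible A → ∀ t : ℕ, 1 ≤ t → (∀ h ∈ A, h ≤ t) →
      (t : ℝ) ≤ C * Real.log z → 0 < VA A z ∧
      ∀ u Y : ℕ, z ^ K ≤ Y →
        |(((Occ z A u Y).filter (fun n => Others z A t n = 0)).card : ℝ) -
          Y * VA A z * Real.exp (-(((t : ℝ) - 1) * U z))| ≤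
        ε * (Y * VA A z * Real.exp (-(((t : ℝ) - 1) * U z))) := by
  obtain ⟨C1, hC1, hU⟩ := U_up
  obtain ⟨x₀, hx₀⟩ : ∃ x₀ : ℝ, x₀ = C * C1 := ⟨_, rfl⟩
  have hx0 : 0 ≤ x₀ := by rw [hx₀]; positivity
  have he1 : Real.exp (-x₀) ≤ 1 := Real.exp_le_one_iff.2 (by linarith)
  have he0 := Real.exp_pos (-x₀)
  obtain ⟨K, z₀, hK, hz₀, H⟩ := law k hk x₀ (ε * Real.exp (-x₀)) hx0 (by positivity) (by nlinarith)
  refine ⟨K, z₀, hK, hz₀, ?_⟩
  intro z hz A hA hadm t ht1 hAt htC
  have hz2 : 2 ≤ z := hz₀.trans hz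
  have hlog : 0 < Real.log z := Real.log_pos (by exact_mod_cast (by omega : 1 < z))
  have hU0 := U_nonneg z
  have ht1' : (1 : ℝ) ≤ t := by exact_mod_cast ht1
  have hx : ((t : ℝ) - 1) * U z ≤ x₀ := by
    calc ((t : ℝ) - 1) * U z ≤ (C * Real.log z) * (C1 / Real.log z) := by
          apply mul_le_mul (by linarith) (hU z hz2) hU0 (by positivity)
      _ = x₀ := by rw [hx₀]; field_simp
  obtain ⟨hV, H1⟩ := H z hz A hA hadm t ht1 hAt hx
  refine ⟨hV, ?_⟩
  intro u Y hY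
  have h1 := H1 u Y hY {0}
  rw [Finset.sum_singleton] at h1
  simp only [mem_singleton, pow_zero, Nat.factorial_zero, Nat.cast_one, div_one, mul_one] at h1
  refine h1.trans ?_
  have h2 : Real.exp (-x₀) ≤ Real.exp (-(((t : ℝ) - 1) * U z)) := Real.exp_le_exp.2 (by linarith)
  have h3 : 0 ≤ (Y : ℝ) * VA A z := by positivity
  calc ε * Real.exp (-x₀) * (Y * VA A z) = ε * ((Y * VA A z) * Real.exp (-x₀)) := by ring
    _ ≤ ε * ((Y * VA A z) * Real.exp (-(((t : ℝ) - 1) * U z))) := by gcongr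

end Pool.Agent.H25.SetPtD
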