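import Pool.Agent.TH464.PO.Gen

set_option autoImplicit false

/-!
# Averages of the singular series with a fixed set of points: the small primes and the factors
-/

namespace Pool.Agent.H25.TwoPt

open Finset Filter
open Pool.Agent.H373R2.T7 Pool.Agent.W123.RP Pool.Agent.W123.RU Pool.Agent.TH464.PO

lemma QH_union (Q : ℕ → ℕ → Prop) (A H : Finset ℕ) (p m : ℕ) :
    QH Q (A ∪ H) p m ↔ QH Q A p m ∨ QH Q H p m := by
  unfold QH
  constructor
  · rintro ⟨h, hh, hq⟩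
    rcases mem_union.1 hh with h1 | h1
    · exact Or.inl ⟨h, h1, hq⟩
    · exact Or.inr ⟨h, h1, hq⟩
  · rintro (⟨h, hh, hq⟩ | ⟨h, hh, hq⟩)
    · exact ⟨h, mem_union_left _ hh, hq⟩
    · exact ⟨h, mem_union_right _ hh, hq⟩

open Classical in
lemma sum_setsA (Q : ℕ → ℕ → Prop) (c : ℕ) (hQ : PerB Q c) (A : Finset ℕ) (w k T : ℕ) :
    (Mw w : ℝ) * ∑ H ∈ powersetCard k (Icc 1 T), Vq (QH Q (A ∪ H)) w =
      ∑ m ∈ (range (Mw w)).filter (fun m => Sf (QH Q A) w m),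
        ((((Icc 1 T).filter (fun h => Sf Q w (m + h))).card.choose k : ℕ) : ℝ) := by
  rw [Finset.mul_sum]
  have h1 : ∀ H ∈ powersetCard k (Icc 1 T), (Mw w : ℝ) * Vq (QH Q (A ∪ H)) w =
      ∑ m ∈ (range (Mw w)).filter (fun m => Sf (QH Q A) w m),
        if (∀ h ∈ H, Sf Q w (m + h)) then (1 : ℝ) else 0 := by
    intro H _
    rw [← exact (QH Q (A ∪ H)) _ (perB_QH Q c hQ (A ∪ H)) w]
    rw [Finset.sum_ite, Finset.sum_const_zero, add_zero, Finset.sum_const, nsmul_eq_mul, mul_one,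
      Finset.filter_filter]
    congr 2
    apply Finset.filter_congr
    intro m _
    rw [sf_QH, sf_QH]
    simp only [mem_union, or_imp, forall_and]
  rw [Finset.sum_congr rfl h1, Finset.sum_comm]
  apply Finset.sum_congr rfl
  intro m _
  rw [Finset.sum_ite, Finset.sum_const_zero, add_zero, Finset.sum_const, nsmul_eq_mul, mul_one,
    ← Finset.card_powersetCard]
  congr 2
  ext H
  rw [mem_filter, mem_powersetCard, mem_powersetCard]
  constructor
  · rintro ⟨⟨a1, a2⟩, a3⟩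
    exact ⟨fun h hh => mem_filter.2 ⟨a1 hh, a3 h hh⟩, a2⟩
  · rintro ⟨a1, a2⟩
    exact ⟨⟨fun h hh => (mem_filter.1 (a1 hh)).1, a2⟩, fun h hh => (mem_filter.1 (a1 hh)).2⟩

open Classical in
/-- **The small primes.** -/
theorem small_avgA (k w : ℕ) (η : ℝ) (hη : 0 < η) : ∃ T0 : ℕ, ∀ T : ℕ, T0 ≤ T →
    ∀ (Q : ℕ → ℕ → Prop) (c : ℕ) (A : Finset ℕ), PerB Q c → (∀ p : ℕ, p.Prime → nuB Q p < p) →
    (1 - η) * (Vq (QH Q A) w * ((T * Vq Q w) ^ k / k.factorial)) ≤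
      ∑ H ∈ powersetCard k (Icc 1 T), Vq (QH Q (A ∪ H)) w ∧
    ∑ H ∈ powersetCard k (Icc 1 T), Vq (QH Q (A ∪ H)) w ≤
      (1 + η) * (Vq (QH Q A) w * ((T * Vq Q w) ^ k / k.factorial)) := by
  obtain ⟨M, hM⟩ : ∃ M, M = Mw w := ⟨_, rfl⟩
  have hMpos : 0 < M := by rw [hM]; exact Mw_pos w
  have hMr : (0 : ℝ) < M := by exact_mod_cast hMpos
  obtain ⟨δ, hδ⟩ : ∃ δ : ℝ, δ = min 1 (η / (2 ^ k + k)) := ⟨_, rfl⟩
  have hδ0 : 0 < δ := by rw [hδ]; positivity
  have hδ1 : δ ≤ 1 := by rw [hδ]; exact min_le_left _ _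
  have hδη : δ * (2 ^ k + k) ≤ η := by
    have : δ ≤ η / (2 ^ k + k) := by rw [hδ]; exact min_le_right _ _
    rwa [le_div_iff₀ (by positivity)] at this
  obtain ⟨T0, hT0⟩ : ∃ T0 : ℕ, (M : ℝ) * (M + k) / δ ≤ T0 := exists_nat_ge _
  refine ⟨T0, ?_⟩
  intro T hT Q c A hQ hadm
  have hTr : (M : ℝ) * (M + k) / δ ≤ T := hT0.trans (by exact_mod_cast hT)
  have hW := Vq_pos Q hadm w
  have hex := exact Q c hQ w
  rw [← hM] at hex
  have hexA := exact (QH Q A) _ (perB_QH Q c hQ A) w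
  rw [← hM] at hexA
  have hMW : 1 ≤ (M : ℝ) * Vq Q w := by
    rw [← hex]
    have h1 : (0 : ℝ) < (((range M).filter (fun m => Sf Q w m)).card : ℝ) := by
      rw [hex]
      positivity
    have h2 : 0 < ((range M).filter (fun m => Sf Q w m)).card := by exact_mod_cast h1
    exact_mod_cast h2
  obtain ⟨x, hx⟩ : ∃ x : ℝ, x = T * Vq Q w := ⟨_, rfl⟩
  rw [← hx]
  obtain ⟨VA, hVA⟩ : ∃ VA : ℝ, VA = Vq (QH Q A) w := ⟨_, rfl⟩
  have hVA0 : 0 ≤ VA := by rw [hVA]; exact Vq_nonneg _ _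
  rw [← hVA] at hexA ⊢
  have hxM : (M : ℝ) + k ≤ δ * x := by
    rw [hx]
    rw [div_le_iff₀ hδ0] at hTr
    have h1 : (M : ℝ) * (M + k) ≤ M * (δ * (T * Vq Q w)) := by
      calc (M : ℝ) * (M + k) ≤ T * δ := hTr
        _ = T * δ * 1 := (mul_one _).symm
        _ ≤ T * δ * (M * Vq Q w) := by gcongr
        _ = _ := by ring
    exact le_of_mul_le_mul_left h1 hMr
  have hMk : (0 : ℝ) < (M : ℝ) + k := by positivity
  have hx0 : 0 < x := by
    by_contra hcon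
    rw [not_lt] at hcon
    have : δ * x ≤ 0 := mul_nonpos_of_nonneg_of_nonpos hδ0.le hcon
    linarith
  have hxx : (M : ℝ) + k ≤ x := by nlinarith
  have hkf : (0 : ℝ) < k.factorial := by exact_mod_cast Nat.factorial_pos k
  have hsum := sum_setsA Q c hQ A w k T
  rw [← hM] at hsum
  have hb : ∀ m ∈ (range M).filter (fun m => Sf (QH Q A) w m), (x - M - k) ^ k / k.factorial ≤
      ((((Icc 1 T).filter (fun h => Sf Q w (m + h))).card.choose k : ℕ) : ℝ) ∧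
      ((((Icc 1 T).filter (fun h => Sf Q w (m + h))).card.choose k : ℕ) : ℝ) ≤
        (x + M) ^ k / k.factorial := by
    intro m _
    apply choose_bounds
    · have := window Q c hQ w m T
      rw [← hM, ← hx] at this
      exact this
    · exact hxx
  have hlo : (M : ℝ) * (VA * ((x - M - k) ^ k / k.factorial)) ≤ M *
      ∑ H ∈ powersetCard k (Icc 1 T), Vq (QH Q (A ∪ H)) w := by
    rw [hsum]
    have := Finset.card_nsmul_le_sum ((range M).filter (fun m => Sf (QH Q A) w m)) (fun m =>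
      ((((Icc 1 T).filter (fun h => Sf Q w (m + h))).card.choose k : ℕ) : ℝ)) _
      (fun m hm => (hb m hm).1)
    rwa [nsmul_eq_mul, hexA, mul_assoc] at this
  have hup : (M : ℝ) * ∑ H ∈ powersetCard k (Icc 1 T), Vq (QH Q (A ∪ H)) w ≤
      M * (VA * ((x + M) ^ k / k.factorial)) := by
    rw [hsum]
    have := Finset.sum_le_card_nsmul ((range M).filter (fun m => Sf (QH Q A) w m)) (fun m =>
      ((((Icc 1 T).filter (fun h => Sf Q w (m + h))).card.choose k : ℕ) : ℝ)) _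
      (fun m hm => (hb m hm).2)
    rwa [nsmul_eq_mul, hexA, mul_assoc] at this
  have hlo' := le_of_mul_le_mul_left hlo hMr
  have hup' := le_of_mul_le_mul_left hup hMr
  have hk0 : (0 : ℝ) ≤ k := Nat.cast_nonneg k
  have hMδ : (M : ℝ) / x ≤ δ := by
    rw [div_le_iff₀ hx0]
    linarith
  have hMkδ : ((M : ℝ) + k) / x ≤ δ := by
    rw [div_le_iff₀ hx0]
    linarith
  constructor
  · refine le_trans ?_ hlo'
    rw [mul_left_comm]
    apply mul_le_mul_of_nonneg_left _ hVA0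
    rw [← mul_div_assoc]
    apply div_le_div_of_nonneg_right _ hkf.le
    have h1 : x - M - k = x * (1 + -(((M : ℝ) + k) / x)) := by
      field_simp
      ring
    rw [h1, mul_pow, mul_comm (1 - η)]
    apply mul_le_mul_of_nonneg_left _ (by positivity)
    have h2 := one_add_mul_le_pow (a := -(((M : ℝ) + k) / x)) (by linarith) k
    refine le_trans ?_ h2
    have h3 : (k : ℝ) * (((M : ℝ) + k) / x) ≤ k * δ := by gcongr
    have h4 : (0 : ℝ) < 2 ^ k := by positivity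
    have h5 : k * δ ≤ δ * (2 ^ k + k) := by nlinarith
    linarith
  · refine le_trans hup' ?_
    rw [mul_left_comm]
    apply mul_le_mul_of_nonneg_left _ hVA0
    rw [← mul_div_assoc]
    apply div_le_div_of_nonneg_right _ hkf.le
    have h1 : x + M = x * (1 + (M : ℝ) / x) := by
      field_simp
    rw [h1, mul_pow, mul_comm (1 + η)]
    apply mul_le_mul_of_nonneg_left _ (by positivity)
    have h2 := one_add_pow_le k ((M : ℝ) / x) (by positivity) (by linarith)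
    refine h2.trans ?_
    have h6 : (1 : ℝ) ≤ 2 ^ k := one_le_pow₀ (by norm_num)
    have h3 : (2 ^ k - 1) * ((M : ℝ) / x) ≤ (2 ^ k - 1) * δ :=
      mul_le_mul_of_nonneg_left hMδ (by linarith)
    have h5 : (2 ^ k - 1) * δ ≤ δ * (2 ^ k + k) := by nlinarith
    linarith

/-! ### the factors -/

open Classical in
lemma nuB_mono (Q : ℕ → ℕ → Prop) (A H : Finset ℕ) (p : ℕ) :
    nuB (QH Q A) p ≤ nuB (QH Q (A ∪ H)) p := by
  unfold nuB
  apply card_le_card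
  intro r hr
  rw [mem_filter] at hr ⊢
  exact ⟨hr.1, (QH_union Q A H p r).2 (Or.inl hr.2)⟩

open Classical in
lemma nuB_union_le (Q : ℕ → ℕ → Prop) (c : ℕ) (hQ : PerB Q c) (A H : Finset ℕ) (p : ℕ) :
    nuB (QH Q (A ∪ H)) p ≤ nuB (QH Q A) p + H.card * nuB Q p := by
  have h1 : nuB (QH Q (A ∪ H)) p ≤ nuB (QH Q A) p + nuB (QH Q H) p := by
    unfold nuB
    refine le_trans ?_ (card_union_le _ _)
    apply card_le_card
    intro r hr
    rw [mem_filter] at hr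
    rw [mem_union, mem_filter, mem_filter]
    rcases (QH_union Q A H p r).1 hr.2 with h | h
    · exact Or.inl ⟨hr.1, h⟩
    · exact Or.inr ⟨hr.1, h⟩
  have h2 := nuB_QH_le Q c hQ H p
  omega

/-- a collision which involves a point of `H` -/
def ClA (Q : ℕ → ℕ → Prop) (A H : Finset ℕ) (p : ℕ) : Prop :=
  Cl Q H p ∨ ∃ a ∈ A, ∃ h ∈ H, ∃ m, Q p (m + a) ∧ Q p (m + h)

open Classical in
lemma nuB_union_ge (Q : ℕ → ℕ → Prop) (c : ℕ) (hQ : PerB Q c) (A H : Finset ℕ) (p : ℕ)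
    (h : ¬ ClA Q A H p) : nuB (QH Q A) p + H.card * nuB Q p ≤ nuB (QH Q (A ∪ H)) p := by
  have h1 : ¬ Cl Q H p := fun h' => h (Or.inl h')
  rw [← nuB_eq_of_not_Cl Q c hQ H p h1]
  unfold nuB
  rw [← card_union_of_disjoint]
  · apply card_le_card
    intro r hr
    rw [mem_union, mem_filter, mem_filter] at hr
    rw [mem_filter]
    rcases hr with hr | hr
    · exact ⟨hr.1, (QH_union Q A H p r).2 (Or.inl hr.2)⟩
    · exact ⟨hr.1, (QH_union Q A H p r).2 (Or.inr hr.2)⟩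
  · rw [Finset.disjoint_left]
    intro r hr hr'
    rw [mem_filter] at hr hr'
    obtain ⟨_, a, ha, hqa⟩ := hr
    obtain ⟨_, b, hb, hqb⟩ := hr'
    exact h (Or.inr ⟨a, ha, b, hb, r, hqa, hqb⟩)

open Classical in
/-- upper bound for one factor -/
lemma factor_upA (Q : ℕ → ℕ → Prop) (c : ℕ) (hQ : PerB Q c) (A H : Finset ℕ) (p : ℕ) (hp : p.Prime)
    (hbig : 2 * (H.card * c) ≤ p) : 1 - (nuB (QH Q (A ∪ H)) p : ℝ) / p ≤
      (1 - (nuB (QH Q A) p : ℝ) / p) * ((1 - (nuB Q p : ℝ) / p) ^ H.card *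
        (if ClA Q A H p then 1 + ((2 * (H.card * c) : ℕ) : ℝ) / p else 1)) := by
  have hp0 : (0 : ℝ) < p := by exact_mod_cast hp.pos
  have hfew := hQ.few p hp
  obtain ⟨k, hk⟩ : ∃ k, k = H.card := ⟨_, rfl⟩
  rw [← hk] at hbig ⊢
  obtain ⟨u, hu⟩ : ∃ u : ℝ, u = (nuB Q p : ℝ) / p := ⟨_, rfl⟩
  rw [← hu]
  have hA0 := one_sub_nonneg (QH Q A) p hp
  have hu0 : 0 ≤ u := by rw [hu]; positivity
  have hu1 : u ≤ 1 := by
    rw [hu, div_le_one hp0]
    exact_mod_cast nuB_le Q p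
  have hc : (nuB Q p : ℝ) ≤ c := by exact_mod_cast hfew
  have hk0 : (0 : ℝ) ≤ k := Nat.cast_nonneg k
  have hku : (k : ℝ) * u ≤ ((k * c : ℕ) : ℝ) / p := by
    rw [hu, ← mul_div_assoc]
    apply div_le_div_of_nonneg_right _ hp0.le
    push_cast
    gcongr
  have hkc : ((k * c : ℕ) : ℝ) / p ≤ 1 / 2 := by
    rw [div_le_div_iff₀ hp0 (by norm_num)]
    have : ((2 * (k * c) : ℕ) : ℝ) ≤ p := by exact_mod_cast hbig
    push_cast at this ⊢
    linarith
  have hber := one_add_mul_le_pow (a := -u) (by linarith) k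
  have hber' : 1 - k * u ≤ (1 - u) ^ k := by
    calc 1 - k * u = 1 + k * -u := by ring
      _ ≤ (1 + -u) ^ k := hber
      _ = (1 - u) ^ k := by ring
  by_cases h : ClA Q A H p
  · rw [if_pos h]
    have h1 : 1 - (nuB (QH Q (A ∪ H)) p : ℝ) / p ≤ (1 - (nuB (QH Q A) p : ℝ) / p) * 1 := by
      rw [mul_one]
      have : (nuB (QH Q A) p : ℝ) ≤ nuB (QH Q (A ∪ H)) p := by exact_mod_cast nuB_mono Q A H p
      have := div_le_div_of_nonneg_right this hp0.le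
      linarith
    refine h1.trans (mul_le_mul_of_nonneg_left ?_ hA0)
    obtain ⟨t, ht⟩ : ∃ t : ℝ, t = k * u := ⟨_, rfl⟩
    have ht0 : 0 ≤ t := by rw [ht]; positivity
    have ht1 : t ≤ 1 / 2 := by rw [ht]; linarith
    have h2 : 1 + 2 * t ≤ 1 + ((2 * (k * c) : ℕ) : ℝ) / p := by
      have : ((2 * (k * c) : ℕ) : ℝ) / p = 2 * (((k * c : ℕ) : ℝ) / p) := by
        push_cast
        ring
      rw [this, ht]
      linarith
    calc (1 : ℝ) ≤ (1 - t) * (1 + 2 * t) := by nlinarith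
      _ ≤ (1 - u) ^ k * (1 + ((2 * (k * c) : ℕ) : ℝ) / p) := by
        apply mul_le_mul (by rw [ht]; exact hber') h2 (by linarith)
        exact pow_nonneg (by linarith) k
  · rw [if_neg h, mul_one]
    have h1 : (nuB (QH Q A) p : ℝ) + k * nuB Q p ≤ nuB (QH Q (A ∪ H)) p := by
      have := nuB_union_ge Q c hQ A H p h
      rw [← hk] at this
      exact_mod_cast this
    have h2 : (nuB (QH Q A) p : ℝ) / p + k * u ≤ (nuB (QH Q (A ∪ H)) p : ℝ) / p := by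
      rw [hu, ← mul_div_assoc, ← add_div]
      exact div_le_div_of_nonneg_right h1 hp0.le
    have h3 : 0 ≤ (nuB (QH Q A) p : ℝ) / p := by positivity
    have h4 : 0 ≤ (nuB (QH Q A) p : ℝ) / p * (k * u) := mul_nonneg h3 (mul_nonneg hk0 hu0)
    calc 1 - (nuB (QH Q (A ∪ H)) p : ℝ) / p ≤ (1 - (nuB (QH Q A) p : ℝ) / p) * (1 - k * u) := by
          nlinarith
      _ ≤ _ := mul_le_mul_of_nonneg_left hber' hA0

open Classical in
/-- lower bound for one factor -/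
lemma factor_loA (Q : ℕ → ℕ → Prop) (c : ℕ) (hQ : PerB Q c) (A H : Finset ℕ) (p : ℕ) (hp : p.Prime)
    (hbig : 2 * ((A.card + H.card) * c) ≤ p) :
      (1 - (nuB (QH Q A) p : ℝ) / p) * ((1 - (nuB Q p : ℝ) / p) ^ H.card *
        (1 - (((A.card + H.card) * c : ℕ) : ℝ) ^ 2 / (p : ℝ) ^ 2)) ≤
        1 - (nuB (QH Q (A ∪ H)) p : ℝ) / p := by
  have hp0 : (0 : ℝ) < p := by exact_mod_cast hp.pos
  have hfew := hQ.few p hp
  have hc : (nuB Q p : ℝ) ≤ c := by exact_mod_cast hfew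
  obtain ⟨k, hk⟩ : ∃ k, k = H.card := ⟨_, rfl⟩
  obtain ⟨l, hl⟩ : ∃ l, l = A.card := ⟨_, rfl⟩
  have h1 := nuB_union_le Q c hQ A H p
  have hA := nuB_QH_le Q c hQ A p
  rw [← hk] at h1
  rw [← hl] at hA
  rw [← hk, ← hl] at hbig ⊢
  obtain ⟨u, hu⟩ : ∃ u : ℝ, u = (nuB Q p : ℝ) / p := ⟨_, rfl⟩
  obtain ⟨a, ha⟩ : ∃ a : ℝ, a = (nuB (QH Q A) p : ℝ) / p := ⟨_, rfl⟩
  have hk0 : (0 : ℝ) ≤ k := Nat.cast_nonneg k
  have hl0 : (0 : ℝ) ≤ l := Nat.cast_nonneg l
  have hu0 : 0 ≤ u := by rw [hu]; positivity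
  have ha0 : 0 ≤ a := by rw [ha]; positivity
  have hu1 : u ≤ 1 := by
    rw [hu, div_le_one hp0]
    exact_mod_cast nuB_le Q p
  have h2 : (nuB (QH Q (A ∪ H)) p : ℝ) / p ≤ a + k * u := by
    rw [ha, hu, ← mul_div_assoc, ← add_div]
    apply div_le_div_of_nonneg_right _ hp0.le
    exact_mod_cast h1
  have h3 : a + k * u ≤ (((l + k) * c : ℕ) : ℝ) / p := by
    rw [ha, hu, ← mul_div_assoc, ← add_div]
    apply div_le_div_of_nonneg_right _ hp0.le
    have : (nuB (QH Q A) p : ℝ) ≤ l * nuB Q p := by exact_mod_cast hA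
    push_cast
    calc (nuB (QH Q A) p : ℝ) + k * nuB Q p ≤ (l + k) * nuB Q p := by linarith
      _ ≤ (l + k) * c := mul_le_mul_of_nonneg_left hc (by linarith)
  have h4 : (((l + k) * c : ℕ) : ℝ) / p ≤ 1 / 2 := by
    rw [div_le_div_iff₀ hp0 (by norm_num)]
    have : ((2 * ((l + k) * c) : ℕ) : ℝ) ≤ p := by exact_mod_cast hbig
    push_cast at this ⊢
    linarith
  obtain ⟨s, hs⟩ : ∃ s : ℝ, s = k * u := ⟨_, rfl⟩
  have hs0 : 0 ≤ s := by rw [hs]; positivity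
  rw [← hs] at h2 h3
  have hquad := pow_le_quad k u hu0 hu1
  rw [← hs] at hquad
  obtain ⟨B, hB⟩ : ∃ B : ℝ, B = (((l + k) * c : ℕ) : ℝ) ^ 2 / (p : ℝ) ^ 2 := ⟨_, rfl⟩
  rw [← hB, ← hu, ← ha]
  have hB1 : (a + s) ^ 2 ≤ B := by
    rw [hB, ← div_pow]
    exact pow_le_pow_left₀ (by linarith) h3 2
  have hB2 : B ≤ 1 := by
    rw [hB, ← div_pow]
    calc ((((l + k) * c : ℕ) : ℝ) / p) ^ 2 ≤ (1 / 2) ^ 2 := pow_le_pow_left₀ (by positivity) h4 2
      _ ≤ 1 := by norm_num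
  have has : a + s ≤ 1 / 2 := h3.trans h4
  have hpw : (1 - u) ^ k * (1 - B) ≤ (1 - s + s ^ 2 / 2) * (1 - (a + s) ^ 2) := by
    apply mul_le_mul hquad (by linarith) (by linarith)
    nlinarith [sq_nonneg s]
  calc (1 - a) * ((1 - u) ^ k * (1 - B)) ≤ (1 - a) * ((1 - s + s ^ 2 / 2) * (1 - (a + s) ^ 2)) :=
        mul_le_mul_of_nonneg_left hpw (by linarith)
    _ ≤ 1 - a - s := by
        have e1 : (1 - a) * (1 - s + s ^ 2 / 2) ≤ 1 - a - s + (a + s) ^ 2 / 2 := by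
          nlinarith [mul_nonneg ha0 hs0, mul_nonneg ha0 (sq_nonneg s), sq_nonneg a]
        have e2 : 0 ≤ 1 - (a + s) ^ 2 := by nlinarith
        calc (1 - a) * ((1 - s + s ^ 2 / 2) * (1 - (a + s) ^ 2)) =
              ((1 - a) * (1 - s + s ^ 2 / 2)) * (1 - (a + s) ^ 2) := by ring
          _ ≤ (1 - a - s + (a + s) ^ 2 / 2) * (1 - (a + s) ^ 2) := mul_le_mul_of_nonneg_right e1 e2
          _ ≤ 1 - a - s := by
            have e3 : 0 ≤ (a + s) ^ 2 := sq_nonneg _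
            have e4 : 1 / 2 ≤ 1 - a - s := by linarith
            nlinarith [mul_nonneg e3 e3]
    _ ≤ _ := by linarith

end Pool.Agent.H25.TwoPt
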