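import Pool.Agent.H25.TwoPtA

set_option autoImplicit false

/-!
# Averages of the singular series with two fixed points
-/

namespace Pool.Agent.H25.TwoPt

open Finset Filter
open Pool.Agent.H373R2.T7 Pool.Agent.W123.RP Pool.Agent.W123.RU Pool.Agent.TH464.PO

open Classical in
/-- the pairs with a point of `H`, the fixed points being `0` and `t` -/
noncomputable def Dp (t : ℕ) (H : Finset ℕ) : Finset (ℕ × ℕ) :=
  (prs H ∪ H.image (fun h => (0, h))) ∪ H.image (fun h => (h, t))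

lemma Dp_card (t : ℕ) (H : Finset ℕ) : (Dp t H).card ≤ (H.card + 2) ^ 2 := by
  classical
  unfold Dp
  have h1 := card_union_le (prs H ∪ H.image (fun h => (0, h))) (H.image (fun h => (h, t)))
  have h2 := card_union_le (prs H) (H.image (fun h => (0, h)))
  have h3 := prs_card H
  have h4 : (H.image (fun h => (0, h))).card ≤ H.card := card_image_le
  have h5 : (H.image (fun h => (h, t))).card ≤ H.card := card_image_le
  nlinarith

lemma clA_Dp (Q : ℕ → ℕ → Prop) (t : ℕ) (H : Finset ℕ) (hH : ∀ h ∈ H, h ≤ t) (p : ℕ)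
    (h : ClA Q {0, t} H p) : ∃ x ∈ Dp t H, CoG Q p (x.2 - x.1) := by
  classical
  rcases h with ⟨a, ha, b, hb, hab, hco⟩ | ⟨a, ha, b, hb, m, h1, h2⟩
  · refine ⟨(a, b), ?_, hco⟩
    unfold Dp prs
    rw [mem_union, mem_union, mem_filter, mem_product]
    exact Or.inl (Or.inl ⟨⟨ha, hb⟩, hab⟩)
  · rw [mem_insert, mem_singleton] at ha
    rcases ha with rfl | rfl
    · refine ⟨(0, b), ?_, m, h1, ?_⟩
      · unfold Dp
        rw [mem_union, mem_union]
        exact Or.inl (Or.inr (mem_image_of_mem _ hb))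
      · simpa using h2
    · refine ⟨(b, a), ?_, m + b, h2, ?_⟩
      · unfold Dp
        rw [mem_union]
        exact Or.inr (mem_image_of_mem (fun h => (h, a)) hb)
      · have := hH b hb
        have e : m + b + (a - b) = m + a := by omega
        simp only
        rw [e]
        exact h1

open Classical in
/-- upper bound for the tail -/
lemma tail_upA (Q : ℕ → ℕ → Prop) (c : ℕ) (hQ : PerB Q c) (t : ℕ) (H : Finset ℕ)
    (hH : ∀ h ∈ H, h ≤ t) (w y : ℕ) (hbig : 2 * (H.card * c) ≤ w) :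
    Vt (QH Q ({0, t} ∪ H)) w y ≤ Vt (QH Q {0, t}) w y * (Vt Q w y ^ H.card *
      (1 + ∑ x ∈ Dp t H, (Fp Q ((1 + 2 * (H.card * c)) ^ ((H.card + 2) ^ 2) - 1) w y (x.2 - x.1) - 1))) := by
  obtain ⟨K, hK⟩ : ∃ K, K = 2 * (H.card * c) := ⟨_, rfl⟩
  have h1 : Vt (QH Q ({0, t} ∪ H)) w y ≤ ∏ p ∈ (pz y).filter (fun p => w < p),
      ((1 - (nuB (QH Q {0, t}) p : ℝ) / p) * ((1 - (nuB Q p : ℝ) / p) ^ H.card *
        (if ClA Q {0, t} H p then 1 + (K : ℝ) / p else 1))) := by
    unfold Vt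
    apply Finset.prod_le_prod
    · intro p hp
      rw [mem_filter] at hp
      exact one_sub_nonneg _ p (mem_pz.1 hp.1).2
    · intro p hp
      rw [mem_filter] at hp
      have h2 := factor_upA Q c hQ {0, t} H p (mem_pz.1 hp.1).2 (by omega)
      rw [hK]
      exact h2
  have h2 : ∏ p ∈ (pz y).filter (fun p => w < p), (if ClA Q {0, t} H p then 1 + (K : ℝ) / p else 1) ≤
      ∏ x ∈ Dp t H, Fp Q K w y (x.2 - x.1) := by
    have e : ∏ x ∈ Dp t H, Fp Q K w y (x.2 - x.1) = ∏ p ∈ (pz y).filter (fun p => w < p),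
        ∏ x ∈ Dp t H, (if CoG Q p (x.2 - x.1) then 1 + (K : ℝ) / p else 1) := by
      rw [Finset.prod_comm]
      apply Finset.prod_congr rfl
      intro x _
      unfold Fp
      rw [← Finset.filter_filter, Finset.prod_filter]
    rw [e]
    apply Finset.prod_le_prod
    · intro p _
      split_ifs <;> positivity
    · intro p _
      have hge : ∀ x ∈ Dp t H, (1 : ℝ) ≤ (if CoG Q p (x.2 - x.1) then 1 + (K : ℝ) / p else 1) := by
        intro x _
        have : 0 ≤ (K : ℝ) / p := by positivity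
        split_ifs <;> linarith
      split_ifs with h
      · obtain ⟨x, hx, hco⟩ := clA_Dp Q t H hH p h
        have h3 := single_le_prod_one (Dp t H)
          (fun x => if CoG Q p (x.2 - x.1) then 1 + (K : ℝ) / p else 1) hge x hx
        simp only [if_pos hco] at h3
        exact h3
      · exact Finset.one_le_prod hge
  have h3 : ∏ x ∈ Dp t H, Fp Q K w y (x.2 - x.1) - 1 ≤
      ∑ x ∈ Dp t H, (Fp Q ((1 + K) ^ ((H.card + 2) ^ 2) - 1) w y (x.2 - x.1) - 1) := by
    refine (prod_sub_one_le (Dp t H) (fun x => Fp Q K w y (x.2 - x.1))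
      (fun x _ => Fp_ge Q K w y _) ((H.card + 2) ^ 2) (Dp_card t H)).trans ?_
    apply Finset.sum_le_sum
    intro x _
    have := Fp_pow Q K ((H.card + 2) ^ 2) w y (x.2 - x.1)
    linarith
  rw [← hK]
  refine h1.trans ?_
  rw [Finset.prod_mul_distrib, Finset.prod_mul_distrib, Finset.prod_pow]
  apply mul_le_mul_of_nonneg_left _ (Vt_nonneg (QH Q {0, t}) w y)
  apply mul_le_mul_of_nonneg_left _ (pow_nonneg (Vt_nonneg Q w y) _)
  linarith

open Classical in
/-- lower bound for the tail -/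
lemma tail_loA (Q : ℕ → ℕ → Prop) (c : ℕ) (hQ : PerB Q c) (A H : Finset ℕ) (w y : ℕ) (hw : 1 ≤ w)
    (hbig : 2 * ((A.card + H.card) * c) ≤ w) :
    Vt (QH Q A) w y * (Vt Q w y ^ H.card * (1 - (((A.card + H.card) * c : ℕ) : ℝ) ^ 2 / w)) ≤
      Vt (QH Q (A ∪ H)) w y := by
  obtain ⟨B, hB⟩ : ∃ B, B = (A.card + H.card) * c := ⟨_, rfl⟩
  rw [← hB] at hbig ⊢
  have h1 : ∏ p ∈ (pz y).filter (fun p => w < p),
      ((1 - (nuB (QH Q A) p : ℝ) / p) * ((1 - (nuB Q p : ℝ) / p) ^ H.card *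
        (1 - (B : ℝ) ^ 2 / (p : ℝ) ^ 2))) ≤ Vt (QH Q (A ∪ H)) w y := by
    unfold Vt
    apply Finset.prod_le_prod
    · intro p hp
      rw [mem_filter] at hp
      have hp0 : (0 : ℝ) < p := by exact_mod_cast (mem_pz.1 hp.1).2.pos
      apply mul_nonneg (one_sub_nonneg _ p (mem_pz.1 hp.1).2)
      apply mul_nonneg (pow_nonneg (one_sub_nonneg Q p (mem_pz.1 hp.1).2) _)
      rw [sub_nonneg, div_le_one (by positivity)]
      apply pow_le_pow_left₀ (by positivity)
      have : B ≤ p := by omega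
      exact_mod_cast this
    · intro p hp
      rw [mem_filter] at hp
      have h2 := factor_loA Q c hQ A H p (mem_pz.1 hp.1).2 (by omega)
      rw [← hB] at h2
      exact h2
  refine le_trans ?_ h1
  rw [Finset.prod_mul_distrib, Finset.prod_mul_distrib, Finset.prod_pow]
  apply mul_le_mul_of_nonneg_left _ (Vt_nonneg (QH Q A) w y)
  apply mul_le_mul_of_nonneg_left _ (pow_nonneg (Vt_nonneg Q w y) _)
  refine le_trans ?_ (prod_one_sub_ge _ _ (fun p _ => by positivity) ?_)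
  · have h2 := sum_inv_sq w y hw
    have h3 : ∑ p ∈ (pz y).filter (fun p => w < p), (B : ℝ) ^ 2 / (p : ℝ) ^ 2 ≤
        (B : ℝ) ^ 2 * (1 / w) := by
      calc ∑ p ∈ (pz y).filter (fun p => w < p), (B : ℝ) ^ 2 / (p : ℝ) ^ 2 ≤
          ∑ p ∈ (Icc 1 y).filter (fun n => w < n), (B : ℝ) ^ 2 / (p : ℝ) ^ 2 := by
            apply Finset.sum_le_sum_of_subset_of_nonneg
            · intro p hp
              rw [mem_filter, mem_pz] at hp
              rw [mem_filter, mem_Icc]
              exact ⟨⟨hp.1.2.one_lt.le, hp.1.1⟩, hp.2⟩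
            · intros; positivity
        _ = (B : ℝ) ^ 2 * ∑ p ∈ (Icc 1 y).filter (fun n => w < n), 1 / (p : ℝ) ^ 2 := by
            rw [Finset.mul_sum]
            apply Finset.sum_congr rfl
            intros
            ring
        _ ≤ _ := by gcongr
    have h4 : (B : ℝ) ^ 2 * (1 / w) = (B : ℝ) ^ 2 / w := by ring
    linarith
  · intro p hp
    rw [mem_filter] at hp
    have hp0 : (0 : ℝ) < p := by exact_mod_cast (mem_pz.1 hp.1).2.pos
    rw [div_le_one (by positivity)]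
    apply pow_le_pow_left₀ (by positivity)
    have : B ≤ p := by omega
    exact_mod_cast this

lemma sum_union_le' {ι : Type*} [DecidableEq ι] (s t : Finset ι) (f : ι → ℝ) (hf : ∀ i, 0 ≤ f i) :
    ∑ i ∈ s ∪ t, f i ≤ ∑ i ∈ s, f i + ∑ i ∈ t, f i := by
  have h1 := Finset.sum_union_inter (s₁ := s) (s₂ := t) (f := f)
  have h2 : 0 ≤ ∑ i ∈ s ∩ t, f i := Finset.sum_nonneg fun i _ => hf i
  linarith

open Classical in
/-- few sets contain a given element -/
lemma card_one (k T a : ℕ) :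
    ((powersetCard (k + 1) (Icc 1 T)).filter (fun H => a ∈ H)).card ≤ T ^ k := by
  have h1 : ((powersetCard (k + 1) (Icc 1 T)).filter (fun H => a ∈ H)).card ≤
      (powersetCard k (Icc 1 T)).card := by
    apply Finset.card_le_card_of_injOn (fun H => H.erase a)
    · intro H hH
      rw [Finset.mem_coe, mem_filter, mem_powersetCard] at hH
      obtain ⟨⟨h1, h2⟩, h3⟩ := hH
      rw [Finset.mem_coe, mem_powersetCard]
      refine ⟨(erase_subset _ _).trans h1, ?_⟩
      beta_reduce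
      rw [card_erase_of_mem h3, h2]
      omega
    · intro H hH H' hH' h
      rw [Finset.mem_coe, mem_filter] at hH hH'
      simp only at h
      rw [← insert_erase hH.2, ← insert_erase hH'.2, h]
  refine h1.trans ?_
  rw [card_powersetCard, Nat.card_Icc, Nat.add_sub_cancel]
  exact Nat.choose_le_pow T k

open Classical in
lemma sum_one (k T : ℕ) (g : ℕ → ℝ) (hg : ∀ t, 0 ≤ g t) :
    ∑ H ∈ powersetCard (k + 1) (Icc 1 T), ∑ h ∈ H, g h ≤ (T : ℝ) ^ k * ∑ t ∈ Icc 1 T, g t := by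
  have h1 : ∀ H ∈ powersetCard (k + 1) (Icc 1 T), ∑ h ∈ H, g h =
      ∑ h ∈ Icc 1 T, if h ∈ H then g h else 0 := by
    intro H hH
    rw [mem_powersetCard] at hH
    rw [← Finset.sum_filter]
    apply Finset.sum_congr _ (fun _ _ => rfl)
    ext x
    rw [mem_filter]
    exact ⟨fun h => ⟨hH.1 h, h⟩, fun h => h.2⟩
  rw [Finset.sum_congr rfl h1, Finset.sum_comm, Finset.mul_sum]
  apply Finset.sum_le_sum
  intro h _
  rw [← Finset.sum_filter, Finset.sum_const, nsmul_eq_mul]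
  apply mul_le_mul_of_nonneg_right _ (hg _)
  exact_mod_cast card_one k T h

open Classical in
/-- the sum over the pairs with a point of `H` -/
lemma sum_Dp (k T : ℕ) (g : ℕ → ℝ) (hg : ∀ t, 0 ≤ g t) :
    ∑ H ∈ powersetCard (k + 1) (Icc 1 T), ∑ x ∈ Dp (T + 1) H, g (x.2 - x.1) ≤
      3 * ((T : ℝ) ^ k * ∑ t ∈ Icc 1 T, g t) := by
  have h1 : ∀ H ∈ powersetCard (k + 1) (Icc 1 T), ∑ x ∈ Dp (T + 1) H, g (x.2 - x.1) ≤
      ∑ x ∈ prs H, g (x.2 - x.1) + ∑ h ∈ H, g h + ∑ h ∈ H, g (T + 1 - h) := by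
    intro H _
    unfold Dp
    refine (sum_union_le' _ _ (fun x : ℕ × ℕ => g (x.2 - x.1)) (fun _ => hg _)).trans ?_
    apply add_le_add
    · refine (sum_union_le' _ _ (fun x : ℕ × ℕ => g (x.2 - x.1)) (fun _ => hg _)).trans ?_
      apply add_le_add le_rfl
      rw [Finset.sum_image (fun a _ b _ h => (Prod.mk.inj h).2)]
      apply le_of_eq
      apply Finset.sum_congr rfl
      intro h _
      simp
    · rw [Finset.sum_image (fun a _ b _ h => (Prod.mk.inj h).1)]
  refine (Finset.sum_le_sum h1).trans ?_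
  rw [Finset.sum_add_distrib, Finset.sum_add_distrib]
  have h2 := sum_prs k T g hg
  have h3 := sum_one k T g hg
  have h4 := sum_one k T (fun h => g (T + 1 - h)) (fun _ => hg _)
  have h5 : ∑ t ∈ Icc 1 T, g (T + 1 - t) = ∑ t ∈ Icc 1 T, g t := by
    apply Finset.sum_bij (fun t _ => T + 1 - t)
    · intro t ht
      rw [mem_Icc] at ht ⊢
      omega
    · intro a ha b hb hab
      rw [mem_Icc] at ha hb
      omega
    · intro b hb
      rw [mem_Icc] at hb
      exact ⟨T + 1 - b, mem_Icc.2 ⟨by omega, by omega⟩, by omega⟩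
    · intro _ _
      rfl
  rw [h5] at h4
  linarith

open Classical in
/-- **The average of the singular series with two fixed points.** -/
theorem two_avg (c k : ℕ) (η : ℝ) (hη : 0 < η) (hη1 : η ≤ 1) :
    ∃ (w : ℕ) (η' : ℝ) (T0 : ℕ), 0 < η' ∧ ∀ T : ℕ, T0 ≤ T → ∀ Q : ℕ → ℕ → Prop, PerB Q c →
      (∀ p : ℕ, p.Prime → nuB Q p < p) → ∀ y : ℕ, w ≤ y →
      (∀ t ∈ Icc 1 T, ((((pz y).filter (fun p : ℕ => T < p ∧ CoG Q p t)).card : ℕ) : ℝ) ≤ η' * T) →
      (1 - η) * (Vq (QH Q {0, T + 1}) y * ((T * Vq Q y) ^ (k + 1) / (k + 1).factorial)) ≤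
        ∑ H ∈ powersetCard (k + 1) (Icc 1 T), Vq (QH Q ({0, T + 1} ∪ H)) y ∧
      ∑ H ∈ powersetCard (k + 1) (Icc 1 T), Vq (QH Q ({0, T + 1} ∪ H)) y ≤
        (1 + η) * (Vq (QH Q {0, T + 1}) y * ((T * Vq Q y) ^ (k + 1) / (k + 1).factorial)) := by
  obtain ⟨c1, B, w1, hc1, hw12, hW⟩ := W_low c
  obtain ⟨K, hK⟩ : ∃ K : ℕ, K = (1 + 2 * ((k + 1) * c)) ^ ((k + 1 + 2) ^ 2) - 1 := ⟨_, rfl⟩
  obtain ⟨A, hA⟩ : ∃ A : ℕ, A = 36 * (K * c ^ 2 + 1) * (k + 1).factorial + ((2 + (k + 1)) * c) ^ 2 :=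
    ⟨_, rfl⟩
  obtain ⟨w, hw0, hw2, hAw, hAw'⟩ := exists_w A B (k + 1) c1 (η / 4) hc1 (by positivity)
    (max w1 (2 * ((2 + (k + 1)) * c)))
  have hww1 : w1 ≤ w := (le_max_left _ _).trans hw0
  have hwc : 2 * ((2 + (k + 1)) * c) ≤ w := (le_max_right _ _).trans hw0
  have hwr : (0 : ℝ) < w := by exact_mod_cast (by omega : 0 < w)
  obtain ⟨η1, hη1def⟩ : ∃ η1 : ℝ, η1 = ((K * c ^ 2 + 1 : ℕ) : ℝ) / w := ⟨_, rfl⟩
  have hη10 : 0 < η1 := by rw [hη1def]; positivity
  have hfac : (1 : ℝ) ≤ (k + 1).factorial := by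
    exact_mod_cast Nat.factorial_pos (k + 1)
  have hAge : 36 * η1 * (k + 1).factorial ≤ (A : ℝ) / w := by
    rw [hη1def, le_div_iff₀ hwr]
    have : ((36 * (K * c ^ 2 + 1) * (k + 1).factorial : ℕ) : ℝ) ≤ A := by
      exact_mod_cast (by omega : 36 * (K * c ^ 2 + 1) * (k + 1).factorial ≤ A)
    refine le_trans (le_of_eq ?_) this
    push_cast
    field_simp
  have hAge2 : (((2 + (k + 1)) * c : ℕ) : ℝ) ^ 2 / w ≤ η / 4 := by
    refine le_trans ?_ hAw'
    apply div_le_div_of_nonneg_right _ hwr.le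
    exact_mod_cast (by omega : ((2 + (k + 1)) * c) ^ 2 ≤ A)
  have hη1le : η1 ≤ 1 := by nlinarith
  obtain ⟨T1, hT1, havg⟩ := avg_sharp K (c ^ 2) w (by omega) η1 hη10 (by
    rw [hη1def]
    apply div_le_div_of_nonneg_right _ hwr.le
    push_cast
    linarith)
  obtain ⟨T2, hsmall⟩ := small_avgA (k + 1) w (η / 4) (by positivity)
  refine ⟨w, η1 / (K + 1), max T1 T2, by positivity, ?_⟩
  intro T hT Q hQ hadm y hwy hlarge
  have hT1' : T1 ≤ T := (le_max_left _ _).trans hT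
  have hT2' : T2 ≤ T := (le_max_right _ _).trans hT
  obtain ⟨s1, s2⟩ := hsmall T hT2' Q c {0, T + 1} hQ hadm
  have hWpos := Vq_pos Q hadm w
  obtain ⟨W, hWdef⟩ : ∃ W, W = Vq Q w := ⟨_, rfl⟩
  obtain ⟨V, hV⟩ : ∃ V, V = Vt Q w y := ⟨_, rfl⟩
  obtain ⟨WA, hWA⟩ : ∃ WA, WA = Vq (QH Q {0, T + 1}) w := ⟨_, rfl⟩
  obtain ⟨VA, hVA⟩ : ∃ VA, VA = Vt (QH Q {0, T + 1}) w y := ⟨_, rfl⟩
  have hV0 : 0 ≤ V := by rw [hV]; exact Vt_nonneg Q w y
  have hVA0 : 0 ≤ VA := by rw [hVA]; exact Vt_nonneg _ w y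
  have hWA0 : 0 ≤ WA := by rw [hWA]; exact Vq_nonneg _ w
  rw [← hWdef, ← hWA] at s1 s2
  rw [← hWdef] at hWpos
  rw [Vq_split Q w y hwy, Vq_split (QH Q {0, T + 1}) w y hwy, ← hWdef, ← hV, ← hWA, ← hVA]
  have hT0 : (0 : ℝ) ≤ T := Nat.cast_nonneg T
  have e1 : WA * VA * (((T : ℝ) * (W * V)) ^ (k + 1) / (k + 1).factorial) =
      (VA * V ^ (k + 1)) * (WA * ((T * W) ^ (k + 1) / (k + 1).factorial)) := by
    rw [← mul_assoc (T : ℝ) W V, mul_pow ((T : ℝ) * W) V]
    ring
  rw [e1]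
  have hterm : ∀ H ∈ powersetCard (k + 1) (Icc 1 T), Vq (QH Q ({0, T + 1} ∪ H)) y =
      Vq (QH Q ({0, T + 1} ∪ H)) w * Vt (QH Q ({0, T + 1} ∪ H)) w y :=
    fun H _ => Vq_split _ w y hwy
  have hX0 : 0 ≤ (T * W) ^ (k + 1) / ((k + 1).factorial : ℝ) := by positivity
  have hX0' : 0 ≤ WA * ((T * W) ^ (k + 1) / ((k + 1).factorial : ℝ)) := mul_nonneg hWA0 hX0
  have hVk : 0 ≤ VA * V ^ (k + 1) := by positivity
  have hcard2 : ({0, T + 1} : Finset ℕ).card = 2 := by
    rw [card_insert_of_notMem, card_singleton]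
    rw [mem_singleton]
    omega
  constructor
  · -- lower bound
    have h1 : ∀ H ∈ powersetCard (k + 1) (Icc 1 T),
        VA * V ^ (k + 1) * (1 - η / 4) * Vq (QH Q ({0, T + 1} ∪ H)) w ≤
          Vq (QH Q ({0, T + 1} ∪ H)) y := by
      intro H hH
      rw [hterm H hH]
      rw [mem_powersetCard] at hH
      have h2 := tail_loA Q c hQ {0, T + 1} H w y (by omega) (by rw [hH.2, hcard2]; exact hwc)
      rw [hH.2, hcard2, ← hV, ← hVA] at h2
      have h3 : VA * V ^ (k + 1) * (1 - η / 4) ≤ Vt (QH Q ({0, T + 1} ∪ H)) w y := by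
        refine le_trans ?_ h2
        rw [mul_assoc]
        apply mul_le_mul_of_nonneg_left _ hVA0
        apply mul_le_mul_of_nonneg_left _ (by positivity)
        linarith
      calc VA * V ^ (k + 1) * (1 - η / 4) * Vq (QH Q ({0, T + 1} ∪ H)) w ≤
            Vt (QH Q ({0, T + 1} ∪ H)) w y * Vq (QH Q ({0, T + 1} ∪ H)) w :=
            mul_le_mul_of_nonneg_right h3 (Vq_nonneg _ w)
        _ = _ := mul_comm _ _
    have h2 := Finset.sum_le_sum h1
    rw [← Finset.mul_sum] at h2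
    refine le_trans ?_ h2
    calc (1 - η) * ((VA * V ^ (k + 1)) * (WA * ((T * W) ^ (k + 1) / (k + 1).factorial))) ≤
        VA * V ^ (k + 1) * (1 - η / 4) *
          ((1 - η / 4) * (WA * ((T * W) ^ (k + 1) / (k + 1).factorial))) := by
          have h3 : 1 - η ≤ (1 - η / 4) * (1 - η / 4) := by nlinarith
          have h4 := mul_le_mul_of_nonneg_right h3 (mul_nonneg hVk hX0')
          calc (1 - η) * ((VA * V ^ (k + 1)) * (WA * ((T * W) ^ (k + 1) / (k + 1).factorial))) ≤ _ := h4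
            _ = _ := by ring
      _ ≤ _ := mul_le_mul_of_nonneg_left s1 (mul_nonneg hVk (by linarith))
  · -- upper bound
    have h1 : ∀ H ∈ powersetCard (k + 1) (Icc 1 T), Vq (QH Q ({0, T + 1} ∪ H)) y ≤
        VA * V ^ (k + 1) * (Vq (QH Q ({0, T + 1} ∪ H)) w +
          WA * ∑ x ∈ Dp (T + 1) H, (Fp Q K w y (x.2 - x.1) - 1)) := by
      intro H hH
      rw [hterm H hH]
      rw [mem_powersetCard] at hH
      have h2 := tail_upA Q c hQ (T + 1) H (fun h hh => by
        have := (mem_Icc.1 (hH.1 hh)).2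
        omega) w y (by
          rw [hH.2]
          exact le_trans (Nat.mul_le_mul_left 2 (Nat.mul_le_mul_right c (by omega))) hwc)
      rw [hH.2, ← hV, ← hVA, ← hK] at h2
      have h3 : 0 ≤ ∑ x ∈ Dp (T + 1) H, (Fp Q K w y (x.2 - x.1) - 1) := by
        apply Finset.sum_nonneg
        intro x _
        have := Fp_ge Q K w y (x.2 - x.1)
        linarith
      have h4 := Vq_nonneg (QH Q ({0, T + 1} ∪ H)) w
      have h5 : Vq (QH Q ({0, T + 1} ∪ H)) w ≤ WA := by
        rw [hWA]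
        unfold Vq
        apply Finset.prod_le_prod
        · intro p hp
          exact one_sub_nonneg _ p (mem_pz.1 hp).2
        · intro p hp
          have hp0 : (0 : ℝ) < p := by exact_mod_cast (mem_pz.1 hp).2.pos
          have : (nuB (QH Q {0, T + 1}) p : ℝ) ≤ nuB (QH Q ({0, T + 1} ∪ H)) p := by
            exact_mod_cast nuB_mono Q {0, T + 1} H p
          have := div_le_div_of_nonneg_right this hp0.le
          linarith
      calc Vq (QH Q ({0, T + 1} ∪ H)) w * Vt (QH Q ({0, T + 1} ∪ H)) w y ≤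
            Vq (QH Q ({0, T + 1} ∪ H)) w * (VA * (V ^ (k + 1) *
            (1 + ∑ x ∈ Dp (T + 1) H, (Fp Q K w y (x.2 - x.1) - 1)))) :=
              mul_le_mul_of_nonneg_left h2 h4
        _ = VA * V ^ (k + 1) * (Vq (QH Q ({0, T + 1} ∪ H)) w +
            Vq (QH Q ({0, T + 1} ∪ H)) w * ∑ x ∈ Dp (T + 1) H, (Fp Q K w y (x.2 - x.1) - 1)) := by ring
        _ ≤ _ := by
          apply mul_le_mul_of_nonneg_left _ hVk
          have := mul_le_mul_of_nonneg_right h5 h3
          linarith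
    have h2 := Finset.sum_le_sum h1
    rw [← Finset.mul_sum, Finset.sum_add_distrib, ← Finset.mul_sum] at h2
    refine h2.trans ?_
    have h3 := sum_Dp k T (fun t => Fp Q K w y t - 1) (fun t => by
      have := Fp_ge Q K w y t
      linarith)
    have h4 := havg T hT1' (CoG Q) (coll_gen Q c hQ w) y (η1 / (K + 1)) (by positivity) (by
      rw [← mul_div_assoc, div_le_iff₀ (by positivity)]
      have : (0 : ℝ) ≤ K := Nat.cast_nonneg K
      nlinarith) hlarge
    have h5 : ∑ t ∈ Icc 1 T, (Fp Q K w y t - 1) ≤ 12 * η1 * T := by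
      rw [Finset.sum_sub_distrib, Finset.sum_const, Nat.card_Icc, Nat.add_sub_cancel, nsmul_eq_mul,
        mul_one]
      have h6 := exp_bound η1 hη10.le hη1le
      have h7 := mul_le_mul_of_nonneg_right h6 hT0
      unfold Fp
      linarith
    have h6 : ∑ H ∈ powersetCard (k + 1) (Icc 1 T), ∑ x ∈ Dp (T + 1) H, (Fp Q K w y (x.2 - x.1) - 1) ≤
        η / 4 * ((T * W) ^ (k + 1) / (k + 1).factorial) := by
      calc _ ≤ 3 * ((T : ℝ) ^ k * ∑ t ∈ Icc 1 T, (Fp Q K w y t - 1)) := h3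
        _ ≤ 3 * ((T : ℝ) ^ k * (12 * η1 * T)) := by
          apply mul_le_mul_of_nonneg_left _ (by norm_num)
          exact mul_le_mul_of_nonneg_left h5 (by positivity)
        _ = 36 * η1 * (k + 1).factorial * (T ^ (k + 1) / (k + 1).factorial) := by
          rw [pow_succ]
          field_simp
          ring
        _ ≤ (η / 4 * (c1 / Real.log w ^ B) ^ (k + 1)) * (T ^ (k + 1) / (k + 1).factorial) := by
          apply mul_le_mul_of_nonneg_right (hAge.trans hAw) (by positivity)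
        _ ≤ (η / 4 * W ^ (k + 1)) * (T ^ (k + 1) / (k + 1).factorial) := by
          apply mul_le_mul_of_nonneg_right _ (by positivity)
          apply mul_le_mul_of_nonneg_left _ (by positivity)
          have hlog : 0 < Real.log w := Real.log_pos (by exact_mod_cast (by omega : 1 < w))
          apply pow_le_pow_left₀ (by positivity)
          rw [hWdef]
          exact hW w hww1 Q hQ hadm
        _ = _ := by
          rw [mul_pow]
          ring
    calc VA * V ^ (k + 1) * (∑ H ∈ powersetCard (k + 1) (Icc 1 T), Vq (QH Q ({0, T + 1} ∪ H)) w +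
        WA * ∑ H ∈ powersetCard (k + 1) (Icc 1 T), ∑ x ∈ Dp (T + 1) H,
          (Fp Q K w y (x.2 - x.1) - 1)) ≤
        VA * V ^ (k + 1) * ((1 + η / 4) * (WA * ((T * W) ^ (k + 1) / (k + 1).factorial)) +
          WA * (η / 4 * ((T * W) ^ (k + 1) / (k + 1).factorial))) := by
          apply mul_le_mul_of_nonneg_left _ hVk
          have := mul_le_mul_of_nonneg_left h6 hWA0
          linarith
      _ = (1 + η / 2) * (VA * V ^ (k + 1) * (WA * ((T * W) ^ (k + 1) / (k + 1).factorial))) := by ring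
      _ ≤ (1 + η) * (VA * V ^ (k + 1) * (WA * ((T * W) ^ (k + 1) / (k + 1).factorial))) := by
        apply mul_le_mul_of_nonneg_right (by linarith) (mul_nonneg hVk hX0')

end Pool.Agent.H25.TwoPt
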