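import Pool.Agent.H25.TwoPtB

set_option autoImplicit false

/-!
# The law between two sifted integers at a given distance
-/

namespace Pool.Agent.H25.TwoPt

open Finset Filter
open Pool.Agent.H373R2.T7 Pool.Agent.W123.RP Pool.Agent.W123.RU Pool.Agent.TH464.PO

open Classical in
/-- the sifted integers up to `Y` whose shift by `t` is sifted -/
noncomputable def Om (Q : ℕ → ℕ → Prop) (y t Y : ℕ) : Finset ℕ :=
  (Icc 1 Y).filter (fun n => Sf (QH Q {0, t}) y n)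

open Classical in
lemma moment_eqA (Q : ℕ → ℕ → Prop) (y k T t Y : ℕ) :
    ∑ n ∈ Om Q y t Y, ((Nw Q y T n).choose k : ℝ) =
      ∑ H ∈ powersetCard k (Icc 1 T),
        (((Icc 1 Y).filter (fun n => Sf (QH Q ({0, t} ∪ H)) y n)).card : ℝ) := by
  have h1 : ∀ H ∈ powersetCard k (Icc 1 T),
      (((Icc 1 Y).filter (fun n => Sf (QH Q ({0, t} ∪ H)) y n)).card : ℝ) =
      ∑ n ∈ Om Q y t Y, if (∀ h ∈ H, Sf Q y (n + h)) then (1 : ℝ) else 0 := by
    intro H _
    unfold Om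
    rw [Finset.sum_ite, Finset.sum_const_zero, add_zero, Finset.sum_const, nsmul_eq_mul, mul_one,
      Finset.filter_filter]
    congr 2
    apply Finset.filter_congr
    intro m _
    rw [sf_QH, sf_QH]
    simp only [mem_union, or_imp, forall_and]
  rw [Finset.sum_congr rfl h1, Finset.sum_comm]
  apply Finset.sum_congr rfl
  intro m _
  rw [Finset.sum_ite, Finset.sum_const_zero, add_zero, Finset.sum_const, nsmul_eq_mul, mul_one]
  unfold Nw
  rw [← Finset.card_powersetCard]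
  congr 2
  ext H
  rw [mem_filter, mem_powersetCard, mem_powersetCard]
  constructor
  · rintro ⟨a1, a2⟩
    exact ⟨⟨fun h hh => (mem_filter.1 (a1 hh)).1, a2⟩, fun h hh => (mem_filter.1 (a1 hh)).2⟩
  · rintro ⟨⟨a1, a2⟩, a3⟩
    exact ⟨fun h hh => mem_filter.2 ⟨a1 hh, a3 h hh⟩, a2⟩

lemma card_pair (T : ℕ) : ({0, T + 1} : Finset ℕ).card = 2 := by
  rw [card_insert_of_notMem, card_singleton]
  rw [mem_singleton]
  omega

open Classical in
/-- **Binomial moments.** -/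
theorem momentA (c k : ℕ) (hc : 1 ≤ c) (η : ℝ) (hη : 0 < η) (hη1 : η ≤ 1) :
    ∃ (K0 y0 T0 : ℕ) (η' : ℝ), 0 < η' ∧ ∀ Y y T : ℕ, y0 ≤ y → y ^ K0 ≤ Y → T0 ≤ T →
      ∀ Q : ℕ → ℕ → Prop, PerB Q c → (∀ p : ℕ, p.Prime → nuB Q p < p) →
      (∀ t ∈ Icc 1 T, ((((pz y).filter (fun p : ℕ => T < p ∧ CoG Q p t)).card : ℕ) : ℝ) ≤ η' * T) →
      |∑ n ∈ Om Q y (T + 1) Y, ((Nw Q y T n).choose (k + 1) : ℝ) -
        Y * (Vq (QH Q {0, T + 1}) y * ((T * Vq Q y) ^ (k + 1) / (k + 1).factorial))| ≤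
        η * (Y * (Vq (QH Q {0, T + 1}) y * ((T * Vq Q y) ^ (k + 1) / (k + 1).factorial))) +
          T ^ (k + 1) * √(Y : ℝ) := by
  obtain ⟨K0, x0, hK0, hfund⟩ := sys_fund ((k + 3) * c) (Nat.mul_pos (by omega) hc) (η / 4)
    (by positivity)
  obtain ⟨w, η', T0, hη', hsing⟩ := two_avg c k (η / 4) (by positivity) (by linarith)
  refine ⟨K0, max x0 w, T0, η', hη', ?_⟩
  intro Y y T hy hyY hT Q hQ hadm hlarge
  obtain ⟨s1, s2⟩ := hsing T hT Q hQ hadm y ((le_max_right _ _).trans hy) hlarge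
  rw [moment_eqA]
  obtain ⟨S, hS⟩ : ∃ S, S = ∑ H ∈ powersetCard (k + 1) (Icc 1 T), Vq (QH Q ({0, T + 1} ∪ H)) y :=
    ⟨_, rfl⟩
  obtain ⟨Z, hZ⟩ : ∃ Z : ℝ, Z = Vq (QH Q {0, T + 1}) y * ((T * Vq Q y) ^ (k + 1) / (k + 1).factorial) :=
    ⟨_, rfl⟩
  rw [← hS, ← hZ] at s1 s2
  rw [← hZ]
  have hV0 := Vq_nonneg Q y
  have hVA0 := Vq_nonneg (QH Q {0, T + 1}) y
  have hZ0 : 0 ≤ Z := by rw [hZ]; positivity
  have hY0 : (0 : ℝ) ≤ Y := Nat.cast_nonneg Y
  have h1 : |∑ H ∈ powersetCard (k + 1) (Icc 1 T),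
      (((Icc 1 Y).filter (fun n => Sf (QH Q ({0, T + 1} ∪ H)) y n)).card : ℝ) - Y * S| ≤
      η / 4 * (Y * S) + T ^ (k + 1) * √(Y : ℝ) := by
    have e : Y * S = ∑ H ∈ powersetCard (k + 1) (Icc 1 T),
        (Y : ℝ) * Vq (QH Q ({0, T + 1} ∪ H)) y := by
      rw [hS, Finset.mul_sum]
    rw [e, ← Finset.sum_sub_distrib]
    refine (Finset.abs_sum_le_sum_abs _ _).trans ?_
    have h2 : ∀ H ∈ powersetCard (k + 1) (Icc 1 T),
        |(((Icc 1 Y).filter (fun n => Sf (QH Q ({0, T + 1} ∪ H)) y n)).card : ℝ) -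
          Y * Vq (QH Q ({0, T + 1} ∪ H)) y| ≤
        η / 4 * (Y * Vq (QH Q ({0, T + 1} ∪ H)) y) + √(Y : ℝ) := by
      intro H hH
      rw [mem_powersetCard] at hH
      have hper := perB_QH Q c hQ ({0, T + 1} ∪ H)
      have hcard : ({0, T + 1} ∪ H : Finset ℕ).card = k + 3 := by
        rw [card_union_of_disjoint, card_pair, hH.2]
        · omega
        · rw [Finset.disjoint_left]
          intro x hx hx'
          have h3 := mem_Icc.1 (hH.1 hx')
          rw [mem_insert, mem_singleton] at hx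
          omega
      rw [hcard] at hper
      have h3 := hfund Y y ((le_max_left _ _).trans hy) hyY (QH Q ({0, T + 1} ∪ H)) hper Y
      have e1 : ∏ p ∈ pz y, (1 - (nuB (QH Q ({0, T + 1} ∪ H)) p : ℝ) / p) =
        Vq (QH Q ({0, T + 1} ∪ H)) y := rfl
      rw [e1] at h3
      unfold Sf
      convert h3
    refine (Finset.sum_le_sum h2).trans ?_
    rw [Finset.sum_add_distrib, ← Finset.mul_sum, Finset.sum_const, nsmul_eq_mul]
    have h3 : ((powersetCard (k + 1) (Icc 1 T)).card : ℝ) ≤ (T : ℝ) ^ (k + 1) := by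
      rw [card_powersetCard, Nat.card_Icc, Nat.add_sub_cancel]
      exact_mod_cast Nat.choose_le_pow T (k + 1)
    have h4 := mul_le_mul_of_nonneg_right h3 (Real.sqrt_nonneg (Y : ℝ))
    linarith
  have h5 : |Y * S - Y * Z| ≤ η / 4 * (Y * Z) := by
    rw [← mul_sub, abs_mul, abs_of_nonneg hY0]
    have : |S - Z| ≤ η / 4 * Z := by
      rw [abs_le]
      constructor <;> linarith
    calc (Y : ℝ) * |S - Z| ≤ Y * (η / 4 * Z) := mul_le_mul_of_nonneg_left this hY0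
      _ = _ := by ring
  have h6 : Y * S ≤ 2 * (Y * Z) := by
    have h7 := (abs_le.1 h5).2
    have h8 : 0 ≤ Y * Z := mul_nonneg hY0 hZ0
    nlinarith
  have h8 : 0 ≤ Y * Z := mul_nonneg hY0 hZ0
  have h9 := abs_sub_le (∑ H ∈ powersetCard (k + 1) (Icc 1 T),
      (((Icc 1 Y).filter (fun n => Sf (QH Q ({0, T + 1} ∪ H)) y n)).card : ℝ)) (Y * S) (Y * Z)
  have h10 : η / 4 * (Y * S) ≤ η / 4 * (2 * (Y * Z)) :=
    mul_le_mul_of_nonneg_left h6 (by positivity)
  have h11 : 0 ≤ η * (Y * Z) := by positivity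
  calc _ ≤ _ := h9
    _ ≤ η / 4 * (2 * (Y * Z)) + T ^ (k + 1) * √(Y : ℝ) + η / 4 * (Y * Z) := by linarith
    _ ≤ _ := by linarith

/-- the number of the pairs -/
lemma card_OmA (c : ℕ) (hc : 1 ≤ c) (η : ℝ) (hη : 0 < η) : ∃ K0 y0 : ℕ, ∀ Y y T : ℕ, y0 ≤ y →
    y ^ K0 ≤ Y → ∀ Q : ℕ → ℕ → Prop, PerB Q c →
    |((Om Q y (T + 1) Y).card : ℝ) - Y * Vq (QH Q {0, T + 1}) y| ≤
      η * (Y * Vq (QH Q {0, T + 1}) y) + √(Y : ℝ) := by
  classical
  obtain ⟨K0, x0, hK0, hfund⟩ := sys_fund (2 * c) (by omega) η hη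
  refine ⟨K0, x0, ?_⟩
  intro Y y T hy hyY Q hQ
  have hper := perB_QH Q c hQ {0, T + 1}
  rw [card_pair] at hper
  have h3 := hfund Y y hy hyY (QH Q {0, T + 1}) hper Y
  have e1 : ∏ p ∈ pz y, (1 - (nuB (QH Q {0, T + 1}) p : ℝ) / p) = Vq (QH Q {0, T + 1}) y := rfl
  rw [e1] at h3
  unfold Om Sf
  convert h3

open Classical in
/-- **The law between two sifted integers at distance `T + 1`.** -/
theorem lawA (c : ℕ) (hc : 1 ≤ c) (x0 ε : ℝ) (hx0 : 0 ≤ x0) (hε : 0 < ε) (hε1 : ε ≤ 1) :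
    ∃ (K0 y0 T0 R : ℕ) (η' η2 : ℝ), 0 < η' ∧ 0 < η2 ∧ 1 ≤ T0 ∧
      ∀ Y y T : ℕ, y0 ≤ y → y ^ K0 ≤ Y → T0 ≤ T →
      ∀ Q : ℕ → ℕ → Prop, PerB Q c → (∀ p : ℕ, p.Prime → nuB Q p < p) → T * Vq Q y ≤ x0 →
      (∀ t ∈ Icc 1 T, ((((pz y).filter (fun p : ℕ => T < p ∧ CoG Q p t)).card : ℕ) : ℝ) ≤ η' * T) →
      (T : ℝ) ^ R * √(Y : ℝ) ≤ η2 * (Y * Vq (QH Q {0, T + 1}) y) →
      ∀ B : Finset ℕ, |(((Om Q y (T + 1) Y).filter (fun n => Nw Q y T n ∈ B)).card : ℝ) -
        Y * Vq (QH Q {0, T + 1}) y *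
          ∑ j ∈ B, Real.exp (-(T * Vq Q y)) * (T * Vq Q y) ^ j / j.factorial| ≤
        ε * (Y * Vq (QH Q {0, T + 1}) y) := by
  obtain ⟨R, η, hη, htv⟩ := law_tv x0 (ε / 4) hx0 (by positivity)
  obtain ⟨X1, hX1⟩ : ∃ X1 : ℝ, X1 = (1 + x0) ^ (R + 1) := ⟨_, rfl⟩
  have hX1pos : 1 ≤ X1 := by rw [hX1]; exact one_le_pow₀ (by linarith)
  obtain ⟨η1, hη1⟩ : ∃ η1 : ℝ, η1 = min (ε / 8) (η / (8 * X1)) := ⟨_, rfl⟩
  have hη10 : 0 < η1 := by rw [hη1]; positivity
  have hη1e : η1 ≤ ε / 8 := by rw [hη1]; exact min_le_left _ _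
  have hη11 : η1 ≤ 1 := by linarith
  have hη12 : 8 * (η1 * X1) ≤ η := by
    have : η1 ≤ η / (8 * X1) := by rw [hη1]; exact min_le_right _ _
    rw [le_div_iff₀ (by positivity)] at this
    linarith
  choose K0 y0 T0 η' hη' hmom using fun k => momentA c k hc η1 hη10 hη11
  obtain ⟨K1, y1, hcard⟩ := card_OmA c hc η1 hη10
  obtain ⟨η0, hη00, hη0⟩ := exists_lower η' hη' R
  refine ⟨(∑ k ∈ range R, K0 k) + K1 + 1, (∑ k ∈ range R, y0 k) + y1 + 1, (∑ k ∈ range R, T0 k) + 1,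
    R + 1, η0, η1, hη00, hη10, by omega, ?_⟩
  intro Y y T hy hyY hT Q hQ hadm hx hlarge hsq B
  obtain ⟨x, hxdef⟩ : ∃ x, x = T * Vq Q y := ⟨_, rfl⟩
  rw [← hxdef] at hx ⊢
  have hx00 : 0 ≤ x := by
    rw [hxdef]
    exact mul_nonneg (Nat.cast_nonneg _) (Vq_nonneg Q y)
  have hy1' : 1 ≤ y := by omega
  have hT1 : 1 ≤ T := by omega
  have hT1r : (1 : ℝ) ≤ T := by exact_mod_cast hT1
  obtain ⟨VA, hVA⟩ : ∃ VA, VA = Vq (QH Q {0, T + 1}) y := ⟨_, rfl⟩
  obtain ⟨m, hm⟩ : ∃ m : ℝ, m = Y * VA := ⟨_, rfl⟩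
  have hVA0 : 0 ≤ VA := by rw [hVA]; exact Vq_nonneg _ _
  have hm0 : 0 ≤ m := by rw [hm]; positivity
  rw [← hVA, ← hm] at hsq
  rw [← hVA, ← hm]
  have hpowle : ∀ k ≤ R, (T : ℝ) ^ k * √(Y : ℝ) ≤ η1 * m := by
    intro k hk
    refine le_trans ?_ hsq
    apply mul_le_mul_of_nonneg_right _ (Real.sqrt_nonneg _)
    exact pow_le_pow_right₀ hT1r (by omega)
  obtain ⟨O, hO⟩ : ∃ O : ℝ, O = ((Om Q y (T + 1) Y).card : ℝ) := ⟨_, rfl⟩
  have hO1 : |O - m| ≤ 2 * η1 * m := by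
    have h1 := hcard Y y T (by omega) ((Nat.pow_le_pow_right hy1' (by omega)).trans hyY) Q hQ
    rw [← hVA, ← hO, ← hm] at h1
    have h2 := hpowle 0 (by omega)
    rw [pow_zero, one_mul] at h2
    linarith
  obtain ⟨hO2, hO3⟩ := abs_le.1 hO1
  have hη1m : η1 * m ≤ m / 8 := by
    have : η1 ≤ 1 / 8 := by linarith
    nlinarith
  have hmO : m ≤ 2 * O := by linarith
  have hO0 : 0 ≤ O := by linarith
  have hmain := htv (Om Q y (T + 1) Y) (Nw Q y T) x hx00 hx (by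
    intro k hk
    rw [← hO]
    rcases k with _ | k
    · simp only [Nat.choose_zero_right, Nat.cast_one, Finset.sum_const, nsmul_eq_mul, mul_one,
        pow_zero, Nat.factorial_zero, div_one, ← hO, sub_self, abs_zero]
      positivity
    · have hkR : k ∈ range R := mem_range.2 (by omega)
      have hKk : K0 k ≤ ∑ k ∈ range R, K0 k := Finset.single_le_sum (fun _ _ => Nat.zero_le _) hkR
      have hyk : y0 k ≤ ∑ k ∈ range R, y0 k := Finset.single_le_sum (fun _ _ => Nat.zero_le _) hkR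
      have hTk : T0 k ≤ ∑ k ∈ range R, T0 k := Finset.single_le_sum (fun _ _ => Nat.zero_le _) hkR
      have h1 := hmom k Y y T (by omega)
        ((Nat.pow_le_pow_right hy1' (by omega)).trans hyY) (by omega) Q hQ hadm (fun t ht =>
          (hlarge t ht).trans (mul_le_mul_of_nonneg_right (hη0 k (by omega)) (Nat.cast_nonneg _)))
      obtain ⟨z, hz⟩ : ∃ z : ℝ, z = x ^ (k + 1) / ((k + 1).factorial : ℝ) := ⟨_, rfl⟩
      rw [← hxdef, ← hVA, ← hz, ← mul_assoc (Y : ℝ) VA z, ← hm] at h1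
      rw [← hz]
      have hz0 : 0 ≤ z := by rw [hz]; positivity
      have h2 : z ≤ X1 := by
        rw [hz]
        have hf1 : (1 : ℝ) ≤ (k + 1).factorial := by exact_mod_cast Nat.factorial_pos (k + 1)
        calc x ^ (k + 1) / ((k + 1).factorial : ℝ) ≤ x ^ (k + 1) := div_le_self (by positivity) hf1
          _ ≤ (1 + x0) ^ (k + 1) := pow_le_pow_left₀ hx00 (by linarith) _
          _ ≤ (1 + x0) ^ (R + 1) := pow_le_pow_right₀ (by linarith) (by omega)
          _ = X1 := hX1.symm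
      have h3 := hpowle (k + 1) hk
      have h4 : η1 * (m * z) ≤ (η1 * X1) * m := by
        calc η1 * (m * z) ≤ η1 * (m * X1) := by gcongr
          _ = _ := by ring
      have h5 : |m * z - O * z| ≤ 2 * (η1 * X1) * m := by
        rw [← sub_mul, abs_mul, abs_of_nonneg hz0, abs_sub_comm]
        calc |O - m| * z ≤ (2 * η1 * m) * X1 := mul_le_mul hO1 h2 hz0 (by positivity)
          _ = _ := by ring
      have h6 : η1 * m ≤ (η1 * X1) * m := by
        have : η1 ≤ η1 * X1 := le_mul_of_one_le_right hη10.le hX1pos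
        exact mul_le_mul_of_nonneg_right this hm0
      have h7 := abs_sub_le (∑ n ∈ Om Q y (T + 1) Y, ((Nw Q y T n).choose (k + 1) : ℝ)) (m * z) (O * z)
      have h8 : 4 * (η1 * X1) * m ≤ η * O := by
        calc 4 * (η1 * X1) * m ≤ 4 * (η1 * X1) * (2 * O) :=
              mul_le_mul_of_nonneg_left hmO (by positivity)
          _ = 8 * (η1 * X1) * O := by ring
          _ ≤ _ := mul_le_mul_of_nonneg_right hη12 hO0
      linarith) B
  rw [← hO] at hmain
  obtain ⟨P, hP⟩ : ∃ P : ℝ, P = ∑ j ∈ B, Real.exp (-x) * x ^ j / (j.factorial : ℝ) := ⟨_, rfl⟩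
  rw [← hP] at hmain ⊢
  have hP0 : 0 ≤ P := by rw [hP]; exact Finset.sum_nonneg fun j _ => by positivity
  have hP1 : P ≤ 1 := by
    rw [hP]
    have := poisson_tail x hx00 0 B (fun _ _ => Nat.zero_le _)
    simpa using this
  have h1 : |O * P - m * P| ≤ 2 * η1 * m := by
    rw [← sub_mul, abs_mul, abs_of_nonneg hP0]
    calc |O - m| * P ≤ |O - m| * 1 := mul_le_mul_of_nonneg_left hP1 (abs_nonneg _)
      _ ≤ _ := by rw [mul_one]; exact hO1
  have h2 := abs_sub_le (((Om Q y (T + 1) Y).filter (fun n => Nw Q y T n ∈ B)).card : ℝ) (O * P) (m * P)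
  have h3 : O ≤ 2 * m := by linarith
  have h4 : ε / 4 * O ≤ ε / 4 * (2 * m) := mul_le_mul_of_nonneg_left h3 (by positivity)
  have h5 : 2 * η1 * m ≤ 2 * (ε / 8) * m := by gcongr
  linarith

/-- few pairs with something between them, if the distance is bounded -/
lemma small_T (c : ℕ) (hc : 1 ≤ c) (w : ℕ) (hw : 2 * c ≤ w) : ∃ K0 y0 : ℕ, ∀ Y y T : ℕ,
    y0 ≤ y → y ^ K0 ≤ Y → w ≤ y → ∀ Q : ℕ → ℕ → Prop, PerB Q c →
    (∀ p : ℕ, p.Prime → w < p → ∀ d ∈ Icc 1 T, ¬ CoG Q p d) →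
    ∑ n ∈ Om Q y (T + 1) Y, ((Nw Q y T n).choose 1 : ℝ) ≤
      T * (2 * (Y * Vq (QH Q {0, T + 1}) y * Vt Q w y) + √(Y : ℝ)) := by
  classical
  obtain ⟨K0, x0, hK0, hfund⟩ := sys_fund (3 * c) (by omega) 1 one_pos
  refine ⟨K0, x0, ?_⟩
  intro Y y T hy hyY hwy Q hQ hco
  rw [moment_eqA]
  have h1 : ∀ H ∈ powersetCard 1 (Icc 1 T),
      (((Icc 1 Y).filter (fun n => Sf (QH Q ({0, T + 1} ∪ H)) y n)).card : ℝ) ≤
        2 * (Y * Vq (QH Q {0, T + 1}) y * Vt Q w y) + √(Y : ℝ) := by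
    intro H hH
    rw [mem_powersetCard] at hH
    have hper := perB_QH Q c hQ ({0, T + 1} ∪ H)
    have hcard : ({0, T + 1} ∪ H : Finset ℕ).card = 3 := by
      rw [card_union_of_disjoint, card_pair, hH.2]
      rw [Finset.disjoint_left]
      intro x hx hx'
      have h3 := mem_Icc.1 (hH.1 hx')
      rw [mem_insert, mem_singleton] at hx
      omega
    rw [hcard] at hper
    have h3 := hfund Y y hy hyY (QH Q ({0, T + 1} ∪ H)) hper Y
    have e1 : ∏ p ∈ pz y, (1 - (nuB (QH Q ({0, T + 1} ∪ H)) p : ℝ) / p) =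
      Vq (QH Q ({0, T + 1} ∪ H)) y := rfl
    rw [e1] at h3
    have h4 : (((Icc 1 Y).filter (fun n => Sf (QH Q ({0, T + 1} ∪ H)) y n)).card : ℝ) ≤
        2 * (Y * Vq (QH Q ({0, T + 1} ∪ H)) y) + √(Y : ℝ) := by
      have h5 : |(((Icc 1 Y).filter (fun n => Sf (QH Q ({0, T + 1} ∪ H)) y n)).card : ℝ) -
          Y * Vq (QH Q ({0, T + 1} ∪ H)) y| ≤ 1 * (Y * Vq (QH Q ({0, T + 1} ∪ H)) y) + √(Y : ℝ) := by
        unfold Sf
        convert h3
      have := (abs_le.1 h5).2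
      linarith
    refine h4.trans ?_
    have h5 : Vq (QH Q ({0, T + 1} ∪ H)) y ≤ Vq (QH Q {0, T + 1}) y * Vt Q w y := by
      rw [Vq_split _ w y hwy, Vq_split (QH Q {0, T + 1}) w y hwy]
      have h6 : Vq (QH Q ({0, T + 1} ∪ H)) w ≤ Vq (QH Q {0, T + 1}) w := by
        unfold Vq
        apply Finset.prod_le_prod
        · intro p hp
          exact one_sub_nonneg _ p (mem_pz.1 hp).2
        · intro p hp
          have hp0 : (0 : ℝ) < p := by exact_mod_cast (mem_pz.1 hp).2.pos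
          have : (nuB (QH Q {0, T + 1}) p : ℝ) ≤ nuB (QH Q ({0, T + 1} ∪ H)) p := by
            exact_mod_cast nuB_mono Q {0, T + 1} H p
          have := div_le_div_of_nonneg_right this hp0.le
          linarith
      have h7 := tail_upA Q c hQ (T + 1) H (fun h hh => by
        have := (mem_Icc.1 (hH.1 hh)).2
        omega) w y (by rw [hH.2]; omega)
      have h8 : ∀ K : ℕ, ∑ x ∈ Dp (T + 1) H, (Fp Q K w y (x.2 - x.1) - 1) = 0 := by
        intro K
        apply Finset.sum_eq_zero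
        intro x hx
        have hd : x.2 - x.1 ∈ Icc 1 T := by
          unfold Dp prs at hx
          rw [mem_union, mem_union, mem_filter, mem_product, mem_image, mem_image] at hx
          rcases hx with (⟨⟨a1, a2⟩, a3⟩ | ⟨a, a1, a2⟩) | ⟨a, a1, a2⟩
          · have b1 := mem_Icc.1 (hH.1 a1)
            have b2 := mem_Icc.1 (hH.1 a2)
            rw [mem_Icc]
            omega
          · have b1 := mem_Icc.1 (hH.1 a1)
            rw [← a2, mem_Icc]
            simp only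
            omega
          · have b1 := mem_Icc.1 (hH.1 a1)
            rw [← a2, mem_Icc]
            simp only
            omega
        unfold Fp
        rw [Finset.prod_eq_one, sub_self]
        intro p hp
        rw [mem_filter] at hp
        exact absurd hp.2.2 (hco p (mem_pz.1 hp.1).2 hp.2.1 _ hd)
      rw [h8, add_zero, mul_one, hH.2, pow_one] at h7
      calc Vq (QH Q ({0, T + 1} ∪ H)) w * Vt (QH Q ({0, T + 1} ∪ H)) w y ≤
            Vq (QH Q {0, T + 1}) w * (Vt (QH Q {0, T + 1}) w y * Vt Q w y) :=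
            mul_le_mul h6 h7 (Vt_nonneg _ _ _) (Vq_nonneg _ _)
        _ = _ := by ring
    have h6 : (Y : ℝ) * Vq (QH Q ({0, T + 1} ∪ H)) y ≤ Y * (Vq (QH Q {0, T + 1}) y * Vt Q w y) :=
      mul_le_mul_of_nonneg_left h5 (Nat.cast_nonneg _)
    linarith
  refine (Finset.sum_le_sum h1).trans ?_
  rw [Finset.sum_const, nsmul_eq_mul, card_powersetCard, Nat.card_Icc, Nat.add_sub_cancel,
    Nat.choose_one_right]

/-- the law for windows of small mean from the first moment -/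
lemma law_small (Om : Finset ℕ) (W : ℕ → ℕ) (x m δ : ℝ) (hx : 0 ≤ x) (hm : 0 ≤ m)
    (h1 : |(Om.card : ℝ) - m| ≤ δ * m) (h2 : ∑ n ∈ Om, ((W n).choose 1 : ℝ) ≤ δ * m)
    (hxδ : x ≤ δ) (B : Finset ℕ) :
    |((Om.filter (fun n => W n ∈ B)).card : ℝ) -
      m * ∑ j ∈ B, Real.exp (-x) * x ^ j / j.factorial| ≤ 9 * δ * m := by
  classical
  obtain ⟨P, hP⟩ : ∃ P : ℝ, P = ∑ j ∈ B, Real.exp (-x) * x ^ j / (j.factorial : ℝ) := ⟨_, rfl⟩
  have hP0 : 0 ≤ P := by rw [hP]; exact Finset.sum_nonneg fun j _ => by positivity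
  have hP1 : P ≤ 1 := by
    rw [hP]
    have := poisson_tail x hx 0 B (fun _ _ => Nat.zero_le _)
    simpa using this
  have hδ0 : 0 ≤ δ := hx.trans hxδ
  rw [← hP]
  obtain ⟨h3, h4⟩ := abs_le.1 h1
  have hO0 : (0 : ℝ) ≤ Om.card := Nat.cast_nonneg _
  -- the number of `n` with `W n = 0`
  have h5 : (((Om.filter (fun n => W n ≠ 0)).card : ℕ) : ℝ) ≤ δ * m := by
    refine le_trans ?_ h2
    have h6 : (((Om.filter (fun n => W n ≠ 0)).card : ℕ) : ℝ) =
        ∑ n ∈ Om.filter (fun n => W n ≠ 0), (1 : ℝ) := by simp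
    rw [h6]
    calc ∑ n ∈ Om.filter (fun n => W n ≠ 0), (1 : ℝ) ≤
          ∑ n ∈ Om.filter (fun n => W n ≠ 0), ((W n).choose 1 : ℝ) := by
          apply Finset.sum_le_sum
          intro n hn
          rw [mem_filter] at hn
          rw [Nat.choose_one_right]
          exact_mod_cast Nat.one_le_iff_ne_zero.2 hn.2
      _ ≤ _ := Finset.sum_le_sum_of_subset_of_nonneg (filter_subset _ _) (fun _ _ _ => by positivity)
  have h6 : (((Om.filter (fun n => W n = 0)).card : ℕ) : ℝ) +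
      ((Om.filter (fun n => W n ≠ 0)).card : ℕ) = Om.card := by
    exact_mod_cast Finset.card_filter_add_card_filter_not (s := Om) (fun n => W n = 0)
  have hexp : 1 - x ≤ Real.exp (-x) := by
    have := Real.add_one_le_exp (-x)
    linarith
  by_cases h0 : 0 ∈ B
  · have h7 : (((Om.filter (fun n => W n = 0)).card : ℕ) : ℝ) ≤
        ((Om.filter (fun n => W n ∈ B)).card : ℝ) := by
      have : (Om.filter (fun n => W n = 0)).card ≤ (Om.filter (fun n => W n ∈ B)).card := by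
        apply card_le_card
        intro n hn
        rw [mem_filter] at hn ⊢
        exact ⟨hn.1, by rw [hn.2]; exact h0⟩
      exact_mod_cast this
    have h8 : ((Om.filter (fun n => W n ∈ B)).card : ℝ) ≤ Om.card := by
      exact_mod_cast card_le_card (filter_subset _ _)
    have h9 : 1 - x ≤ P := by
      have h5 : Real.exp (-x) ≤ P := by
        rw [hP]
        have := Finset.single_le_sum (f := fun j : ℕ => Real.exp (-x) * x ^ j / (j.factorial : ℝ))
          (fun j _ => by positivity) h0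
        simpa using this
      linarith
    have h10 : m * P ≤ m := by nlinarith
    have h11 : m - δ * m ≤ m * P := by nlinarith
    rw [abs_le]
    constructor
    · nlinarith
    · nlinarith
  · have h7 : ((Om.filter (fun n => W n ∈ B)).card : ℝ) ≤
        (((Om.filter (fun n => W n ≠ 0)).card : ℕ) : ℝ) := by
      have : (Om.filter (fun n => W n ∈ B)).card ≤ (Om.filter (fun n => W n ≠ 0)).card := by
        apply card_le_card
        intro n hn
        rw [mem_filter] at hn ⊢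
        exact ⟨hn.1, fun h => h0 (h ▸ hn.2)⟩
      exact_mod_cast this
    have h8 : P ≤ x := by
      rw [hP]
      have := poisson_tail x hx 1 B (fun j hj => Nat.pos_of_ne_zero fun h => h0 (h ▸ hj))
      simpa using this
    have h9 : 0 ≤ m * P := mul_nonneg hm hP0
    have h10 : m * P ≤ δ * m := by nlinarith
    have h11 : (0 : ℝ) ≤ ((Om.filter (fun n => W n ∈ B)).card : ℝ) := Nat.cast_nonneg _
    have h12 : 0 ≤ δ * m := mul_nonneg hδ0 hm
    rw [abs_le]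
    constructor
    · linarith
    · linarith

end Pool.Agent.H25.TwoPt
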